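import Pool.Agent.Lib.MP_f23696_ag.H.Act

/-!
Project HORO (MP_f23696_ag): the action of the matrices on `K`: stability of the components,
polynomiality, the filter of generic automorphisms.
-/

set_option autoImplicit false

namespace Pool.Agent.MLD.H

open scoped Classical
noncomputable section

universe u v

variable {B : Type} [Fintype B] {n : B → ℕ} {k : Type u} {K : Type v} [Field k] [Field K]
  [Algebra k K] {m : ℕ} {κ : Finset (Σ b, Fin (n b))}

namespace Acp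

/-- the leading minor of `g L` -/
def ld (Y : TA k K n κ m) (g : Ent n → k) (c : Σ b, Fin (n b)) : K :=
  lead (matK (K := K) g c.1 * cell κ Y.M c.1) c.2

theorem ld_ne (Y : TA k K n κ m) {g : Ent n → k} {φ : K ≃ₐ[k] K} (h : IsAct Y g φ)
    {c : Σ b, Fin (n b)} (hc : c ∈ κ) : ld Y g c ≠ 0 := h.2.2.2 c hc

theorem toNat_pow (Y : TA k K n κ m) {c : Σ b, Fin (n b)} (hc : c ∈ κ) {u : Fin m → ℤ}
    (hu : u ∈ Y.Γ) (x : K) : x ^ (Y.Λ c ⬝ᵥ u) = x ^ (Y.Λ c ⬝ᵥ u).toNat := by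
  rw [← zpow_natCast, Int.toNat_of_nonneg (Y.Λ_nonneg c hc u hu)]

theorem prod_span {ι : Type} (s : Finset ι) (f : ι → K) :
    ∏ c ∈ s, Submodule.span k {f c} = Submodule.span k {∏ c ∈ s, f c} := by
  induction s using Finset.induction_on with
  | empty => simp [Submodule.one_eq_span]
  | insert a s ha ih =>
    rw [Finset.prod_insert ha, Finset.prod_insert ha, ih, Submodule.span_mul_span,
      Set.singleton_mul_singleton]

theorem map_minors (Y : TA k K n κ m) {g : Ent n → k} {φ : K ≃ₐ[k] K} (h : IsAct Y g φ)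
    {c : Σ b, Fin (n b)} (hc : c ∈ κ) :
    (minors k κ Y.M c).map φ.toAlgHom.toLinearMap ≤
      Submodule.span k {(ld Y g c)⁻¹} * minors k κ Y.M c := by
  rw [minors, Submodule.map_span, Submodule.span_le]
  rintro _ ⟨_, ⟨r, rfl⟩, rfl⟩
  have h1 : φ.toAlgHom.toLinearMap (minor (cell κ Y.M c.1) c.2 r) = (ld Y g c)⁻¹ *
      ∑ f : Fin (c.2 + 1) → Fin (n c.1), (∏ p, algebraMap k K (g ⟨c.1, r p, f p⟩)) *
        minor (cell κ Y.M c.1) c.2 f := by
    change φ (minor (cell κ Y.M c.1) c.2 r) = _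
    rw [act_minor Y g φ h c hc r, div_eq_mul_inv, mul_comm]
    rfl
  rw [h1]
  refine Submodule.mul_mem_mul (Submodule.mem_span_singleton_self _) ?_
  refine Submodule.sum_mem _ fun f _ => ?_
  rw [← map_prod, ← Algebra.smul_def]
  exact Submodule.smul_mem _ _ (Submodule.subset_span ⟨f, rfl⟩)

theorem map_cmp (Y : TA k K n κ m) {g : Ent n → k} {φ : K ≃ₐ[k] K} (h : IsAct Y g φ)
    {u : Fin m → ℤ} (hu : u ∈ Y.Γ) :
    (Y.cmp u).map φ.toAlgHom.toLinearMap ≤ Y.cmp u := by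
  have hmap : (Y.cmp u).map φ.toAlgHom.toLinearMap =
      (∏ c ∈ κ, (minors k κ Y.M c).map φ.toAlgHom.toLinearMap ^ (Y.Λ c ⬝ᵥ u).toNat) *
        Submodule.span k {φ (∏ i, Y.x i ^ u i)} := by
    have h1 : (Y.cmp u).map φ.toAlgHom.toLinearMap = Submodule.mapHom φ.toAlgHom (Y.cmp u) := rfl
    have h2 : Submodule.mapHom φ.toAlgHom (Submodule.span k {∏ i, Y.x i ^ u i}) =
        Submodule.span k {φ (∏ i, Y.x i ^ u i)} := by
      change Submodule.map φ.toAlgHom.toLinearMap _ = _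
      rw [Submodule.map_span, Set.image_singleton]
      rfl
    rw [h1, TA.cmp, compA, map_mul, map_prod, h2]
    congr 1
    refine Finset.prod_congr rfl fun c _ => ?_
    rw [map_pow]
    rfl
  have hspan : Submodule.span k {φ (∏ i, Y.x i ^ u i)} =
      (∏ c ∈ κ, Submodule.span k {ld Y g c} ^ (Y.Λ c ⬝ᵥ u).toNat) *
        Submodule.span k {∏ i, Y.x i ^ u i} := by
    have h1 : ∏ c ∈ κ, Submodule.span k {ld Y g c} ^ (Y.Λ c ⬝ᵥ u).toNat =
        Submodule.span k {∏ c ∈ κ, ld Y g c ^ (Y.Λ c ⬝ᵥ u).toNat} := by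
      have h2 : ∀ c ∈ κ, Submodule.span k {ld Y g c} ^ (Y.Λ c ⬝ᵥ u).toNat =
          Submodule.span k {ld Y g c ^ (Y.Λ c ⬝ᵥ u).toNat} := by
        intro c _
        rw [Submodule.span_pow, Set.singleton_pow]
      rw [Finset.prod_congr rfl h2, prod_span]
    rw [h1, Submodule.span_mul_span, Set.singleton_mul_singleton, act_mon Y g φ h u, mul_comm]
    congr 3
    exact Finset.prod_congr rfl fun c hc => toNat_pow Y hc hu _
  rw [hmap, hspan, ← mul_assoc, ← Finset.prod_mul_distrib]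
  refine mul_le_mul' ?_ le_rfl
  refine Finset.prod_le_prod' fun c hc => ?_
  rw [← mul_pow]
  refine pow_le_pow_left' ?_ _
  calc (minors k κ Y.M c).map φ.toAlgHom.toLinearMap * Submodule.span k {ld Y g c}
      ≤ (Submodule.span k {(ld Y g c)⁻¹} * minors k κ Y.M c) * Submodule.span k {ld Y g c} :=
        mul_le_mul' (map_minors Y h hc) le_rfl
    _ = minors k κ Y.M c := by
      rw [mul_comm, ← mul_assoc, Submodule.span_mul_span, Set.singleton_mul_singleton,
        mul_inv_cancel₀ (ld_ne Y h hc), ← Submodule.one_eq_span, one_mul]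

/-! ## Polynomiality -/

/-- the identity matrices -/
def idE : Ent n → K := fun e => if e.2.1 = e.2.2 then 1 else 0

/-- `f` multiplied by `lam g` depends polynomially on `g`, with coefficients in `N` -/
def W (Y : TA k K n κ m) (N : Submodule k K) (lam : (Ent n → k) → K) : Submodule k K where
  carrier := {f | ∃ F : MvPolynomial (Ent n) K, (∀ e, F.coeff e ∈ N) ∧
    MvPolynomial.eval idE F = f ∧ ∀ g φ, IsAct Y g φ →
      MvPolynomial.eval (fun e => algebraMap k K (g e)) F = φ f * lam g}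
  add_mem' := by
    rintro f f' ⟨F, h1, h2, h3⟩ ⟨F', h1', h2', h3'⟩
    refine ⟨F + F', fun e => ?_, ?_, fun g φ h => ?_⟩
    · rw [MvPolynomial.coeff_add]
      exact N.add_mem (h1 e) (h1' e)
    · rw [map_add, h2, h2']
    · rw [map_add, h3 g φ h, h3' g φ h, map_add, add_mul]
  zero_mem' := ⟨0, fun e => by rw [MvPolynomial.coeff_zero]; exact N.zero_mem, by simp,
    fun g φ _ => by simp⟩
  smul_mem' := by
    rintro r f ⟨F, h1, h2, h3⟩
    refine ⟨MvPolynomial.C (algebraMap k K r) * F, fun e => ?_, ?_, fun g φ h => ?_⟩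
    · rw [MvPolynomial.coeff_C_mul, ← Algebra.smul_def]
      exact N.smul_mem _ (h1 e)
    · rw [map_mul, MvPolynomial.eval_C, h2, Algebra.smul_def]
    · rw [map_mul, MvPolynomial.eval_C, h3 g φ h, Algebra.smul_def, map_mul, AlgEquiv.commutes,
        mul_assoc]

theorem mem_W {Y : TA k K n κ m} {N : Submodule k K} {lam : (Ent n → k) → K} {f : K} :
    f ∈ W Y N lam ↔ ∃ F : MvPolynomial (Ent n) K, (∀ e, F.coeff e ∈ N) ∧
    MvPolynomial.eval idE F = f ∧ ∀ g φ, IsAct Y g φ →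
      MvPolynomial.eval (fun e => algebraMap k K (g e)) F = φ f * lam g := Iff.rfl

theorem W_mul (Y : TA k K n κ m) (N N' : Submodule k K) (lam lam' : (Ent n → k) → K) :
    W Y N lam * W Y N' lam' ≤ W Y (N * N') (fun g => lam g * lam' g) := by
  rw [Submodule.mul_le]
  rintro f ⟨F, h1, h2, h3⟩ f' ⟨F', h1', h2', h3'⟩
  refine ⟨F * F', fun e => ?_, ?_, fun g φ h => ?_⟩
  · rw [MvPolynomial.coeff_mul]
    exact Submodule.sum_mem _ fun d _ => Submodule.mul_mem_mul (h1 _) (h1' _)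
  · rw [map_mul, h2, h2']
  · rw [map_mul, h3 g φ h, h3' g φ h, map_mul]
    ring

theorem one_le_W (Y : TA k K n κ m) : (1 : Submodule k K) ≤ W Y 1 (fun _ => 1) := by
  rw [Submodule.one_le, mem_W]
  refine ⟨1, fun e => ?_, by simp, fun g φ _ => by simp⟩
  rw [MvPolynomial.coeff_one]
  split_ifs
  · exact Submodule.one_le.1 le_rfl
  · exact Submodule.zero_mem _

theorem W_pow (Y : TA k K n κ m) (N : Submodule k K) (lam : (Ent n → k) → K)
    (h : N ≤ W Y N lam) (a : ℕ) : N ^ a ≤ W Y (N ^ a) (fun g => lam g ^ a) := by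
  induction a with
  | zero => simpa using one_le_W Y
  | succ a ih =>
    rw [pow_succ]
    refine (mul_le_mul' ih h).trans ((W_mul Y _ _ _ _).trans (le_of_eq ?_))
    simp only [pow_succ]

theorem W_prod {ι : Type} (Y : TA k K n κ m) (s : Finset ι) (N : ι → Submodule k K)
    (lam : ι → (Ent n → k) → K) (h : ∀ c ∈ s, N c ≤ W Y (N c) (lam c)) :
    ∏ c ∈ s, N c ≤ W Y (∏ c ∈ s, N c) (fun g => ∏ c ∈ s, lam c g) := by
  induction s using Finset.induction_on with
  | empty => simpa using one_le_W Y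
  | insert a s ha ih =>
    rw [Finset.prod_insert ha]
    refine (mul_le_mul' (h a (Finset.mem_insert_self _ _))
      (ih fun c hc => h c (Finset.mem_insert_of_mem hc))).trans
      ((W_mul Y _ _ _ _).trans (le_of_eq ?_))
    simp only [Finset.prod_insert ha]

theorem minors_W (Y : TA k K n κ m) {c : Σ b, Fin (n b)} (hc : c ∈ κ) :
    minors k κ Y.M c ≤ W Y (minors k κ Y.M c) (fun g => ld Y g c) := by
  conv_lhs => rw [minors]
  rw [Submodule.span_le]
  rintro _ ⟨r, rfl⟩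
  refine ⟨∑ f : Fin (c.2 + 1) → Fin (n c.1), MvPolynomial.C (minor (cell κ Y.M c.1) c.2 f) *
    ∏ p, MvPolynomial.X ⟨c.1, r p, f p⟩, fun e => ?_, ?_, fun g φ h => ?_⟩
  · rw [MvPolynomial.coeff_sum]
    refine Submodule.sum_mem _ fun f _ => ?_
    have h1 : (∏ p, MvPolynomial.X (R := K) (⟨c.1, r p, f p⟩ : Ent n)) =
        MvPolynomial.map (algebraMap k K) (∏ p, MvPolynomial.X (⟨c.1, r p, f p⟩ : Ent n)) := by
      rw [map_prod]
      simp only [MvPolynomial.map_X]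
    rw [MvPolynomial.coeff_C_mul, h1, MvPolynomial.coeff_map, mul_comm, ← Algebra.smul_def]
    exact Submodule.smul_mem _ _ (Submodule.subset_span ⟨f, rfl⟩)
  · have h1 := minor_mul (1 : Matrix (Fin (n c.1)) (Fin (n c.1)) K) (cell κ Y.M c.1) c.2 r
    rw [one_mul] at h1
    change _ = minor (cell κ Y.M c.1) c.2 r
    rw [h1, map_sum]
    refine Finset.sum_congr rfl fun f _ => ?_
    rw [map_mul, MvPolynomial.eval_C, map_prod, mul_comm]
    congr 1
    refine Finset.prod_congr rfl fun p _ => ?_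
    rw [MvPolynomial.eval_X, Matrix.one_apply]
    rfl
  · have h1 : ld Y g c ≠ 0 := ld_ne Y h hc
    have h2 := act_minor Y g φ h c hc r
    have h3 : φ (minor (cell κ Y.M c.1) c.2 r) * ld Y g c =
        ∑ f : Fin (c.2 + 1) → Fin (n c.1), (∏ p, algebraMap k K (g ⟨c.1, r p, f p⟩)) *
        minor (cell κ Y.M c.1) c.2 f := by
      rw [h2]
      exact div_mul_cancel₀ _ h1
    rw [h3, map_sum]
    refine Finset.sum_congr rfl fun f _ => ?_
    rw [map_mul, MvPolynomial.eval_C, map_prod, mul_comm]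
    simp only [MvPolynomial.eval_X]

theorem cmp_W (Y : TA k K n κ m) {u : Fin m → ℤ} (hu : u ∈ Y.Γ) :
    Y.cmp u ≤ W Y (Y.cmp u) (fun _ => 1) := by
  have h1 : ∏ c ∈ κ, minors k κ Y.M c ^ (Y.Λ c ⬝ᵥ u).toNat ≤
      W Y (∏ c ∈ κ, minors k κ Y.M c ^ (Y.Λ c ⬝ᵥ u).toNat)
        (fun g => ∏ c ∈ κ, ld Y g c ^ (Y.Λ c ⬝ᵥ u).toNat) :=
    W_prod Y κ _ _ fun c hc => W_pow Y _ _ (minors_W Y hc) _
  have h2 : Submodule.span k {∏ i, Y.x i ^ u i} ≤ W Y (Submodule.span k {∏ i, Y.x i ^ u i})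
      (fun g => (∏ c ∈ κ, ld Y g c ^ (Y.Λ c ⬝ᵥ u).toNat)⁻¹) := by
    rw [Submodule.span_singleton_le_iff_mem, mem_W]
    refine ⟨MvPolynomial.C (∏ i, Y.x i ^ u i), fun e => ?_, MvPolynomial.eval_C _, fun g φ h => ?_⟩
    · rw [MvPolynomial.coeff_C]
      split_ifs
      · exact Submodule.mem_span_singleton_self _
      · exact Submodule.zero_mem _
    · have h3 : ∏ c ∈ κ, ld Y g c ^ (Y.Λ c ⬝ᵥ u).toNat ≠ 0 :=
        Finset.prod_ne_zero_iff.2 fun c hc => pow_ne_zero _ (ld_ne Y h hc)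
      have h4 : ∏ c ∈ κ, lead (matK (K := K) g c.1 * cell κ Y.M c.1) c.2 ^ (Y.Λ c ⬝ᵥ u) =
          ∏ c ∈ κ, ld Y g c ^ (Y.Λ c ⬝ᵥ u).toNat :=
        Finset.prod_congr rfl fun c hc => toNat_pow Y hc hu _
      rw [MvPolynomial.eval_C, act_mon Y g φ h u, h4, mul_assoc, mul_inv_cancel₀ h3, mul_one]
  intro f hf
  obtain ⟨F, h3, h4, h5⟩ := (mul_le_mul' h1 h2).trans (W_mul Y _ _ _ _) hf
  refine ⟨F, h3, h4, fun g φ h => ?_⟩
  have h6 : ∏ c ∈ κ, ld Y g c ^ (Y.Λ c ⬝ᵥ u).toNat ≠ 0 :=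
    Finset.prod_ne_zero_iff.2 fun c hc => pow_ne_zero _ (ld_ne Y h hc)
  rw [h5 g φ h]
  change φ f * (_ * _⁻¹) = φ f * 1
  rw [mul_inv_cancel₀ h6]

theorem cmp_ring (Y : TA k K n κ m) {u : Fin m → ℤ} (hu : u ∈ Y.Γ) {a : K} (ha : a ∈ Y.cmp u) :
    a ∈ Y.ring := Algebra.subset_adjoin ⟨u, hu, ha⟩

/-- polynomials with coefficients in a subalgebra -/
theorem lift_poly {S : Subalgebra k K} {τ : Type} (F : MvPolynomial τ K)
    (hF : ∀ e, F.coeff e ∈ S) :
    ∃ F' : MvPolynomial τ S, ∀ a : τ → S,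
      ((MvPolynomial.eval a F' : S) : K) = MvPolynomial.eval (fun e => (a e : K)) F := by
  refine ⟨∑ e ∈ F.support, MvPolynomial.monomial e (⟨F.coeff e, hF e⟩ : S), fun a => ?_⟩
  conv_rhs => rw [F.as_sum]
  rw [map_sum, map_sum]
  have h1 : ((∑ e ∈ F.support, MvPolynomial.eval a
      (MvPolynomial.monomial e (⟨F.coeff e, hF e⟩ : S)) : S) : K) =
      S.val (∑ e ∈ F.support, MvPolynomial.eval a
      (MvPolynomial.monomial e (⟨F.coeff e, hF e⟩ : S))) := rfl
  rw [h1, map_sum]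
  refine Finset.sum_congr rfl fun e _ => ?_
  rw [MvPolynomial.eval_monomial, MvPolynomial.eval_monomial, map_mul]
  congr 1
  rw [Finsupp.prod, Finsupp.prod, map_prod]
  refine Finset.prod_congr rfl fun i _ => ?_
  rw [map_pow]
  rfl

end Acp

open Acp

/-- stability of the components -/
theorem act_stab (Y : TA k K n κ m) (g : Ent n → k) (φ : K ≃ₐ[k] K) (h : IsAct Y g φ)
    (g' : Ent n → k) (h' : IsAct Y g' φ.symm) (u : Fin m → ℤ) (hu : u ∈ Y.Γ) (a : K) :
    a ∈ Y.cmp u ↔ φ a ∈ Y.cmp u := by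
  refine ⟨fun ha => map_cmp Y h hu ⟨a, ha, rfl⟩, fun ha => ?_⟩
  have h1 := map_cmp Y h' hu ⟨φ a, ha, rfl⟩
  have h2 : φ.symm.toAlgHom.toLinearMap (φ a) = a := φ.symm_apply_apply a
  rwa [h2] at h1

/-- the action is polynomial -/
theorem act_poly (Y : TA k K n κ m) (a : Y.ring) :
    ∃ F : MvPolynomial (Ent n) Y.ring,
      MvPolynomial.eval (fun e => if e.2.1 = e.2.2 then 1 else 0) F = a ∧
      ∀ g φ, IsAct Y g φ →
        ((MvPolynomial.eval (fun e => algebraMap k _ (g e)) F : Y.ring) : K) = φ a := by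
  obtain ⟨a, ha⟩ := a
  suffices H : ∃ F : MvPolynomial (Ent n) Y.ring,
      ((MvPolynomial.eval (fun e => if e.2.1 = e.2.2 then 1 else 0) F : Y.ring) : K) = a ∧
      ∀ g φ, IsAct Y g φ →
        ((MvPolynomial.eval (fun e => algebraMap k _ (g e)) F : Y.ring) : K) = φ a by
    obtain ⟨F, h1, h2⟩ := H
    exact ⟨F, Subtype.ext h1, h2⟩
  induction ha using Algebra.adjoin_induction with
  | mem x hx =>
    obtain ⟨u, hu, hxu⟩ := hx
    obtain ⟨F, h1, h2, h3⟩ := cmp_W Y hu hxu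
    obtain ⟨F', hF'⟩ := lift_poly (S := Y.ring) F fun e => cmp_ring Y hu (h1 e)
    refine ⟨F', ?_, fun g φ h => ?_⟩
    · rw [hF', ← h2]
      congr 2
      ext e
      rw [idE]
      split_ifs
      · rfl
      · rfl
    · rw [hF']
      have h4 := h3 g φ h
      rw [mul_one] at h4
      exact h4
  | algebraMap r =>
    refine ⟨MvPolynomial.C (algebraMap k _ r), ?_, fun g φ _ => ?_⟩
    · rw [MvPolynomial.eval_C]
      rfl
    · rw [MvPolynomial.eval_C, AlgEquiv.commutes]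
      rfl
  | add x y hx hy h h' =>
    obtain ⟨F, h1, h2⟩ := h
    obtain ⟨F', h1', h2'⟩ := h'
    refine ⟨F + F', ?_, fun g φ h => ?_⟩
    · rw [map_add, Subalgebra.coe_add, h1, h1']
    · rw [map_add, Subalgebra.coe_add, h2 g φ h, h2' g φ h, map_add]
  | mul x y hx hy h h' =>
    obtain ⟨F, h1, h2⟩ := h
    obtain ⟨F', h1', h2'⟩ := h'
    refine ⟨F * F', ?_, fun g φ h => ?_⟩
    · rw [map_mul, Subalgebra.coe_mul, h1, h1']
    · rw [map_mul, Subalgebra.coe_mul, h2 g φ h, h2' g φ h, map_mul]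

theorem exists_filter [Infinite k] (Y : TA k K n κ m) : ∃ F : Filter (K ≃ₐ[k] K), F.NeBot ∧
    ∀ U, U ∈ F ↔ Gnc Y U := by
  refine ⟨{ sets := {U | Gnc Y U}, univ_sets := ?_, sets_of_superset := ?_, inter_sets := ?_ },
    ?_, fun U => Iff.rfl⟩
  · exact ⟨1, one_ne_zero, fun _ _ _ _ _ => Set.mem_univ _⟩
  · rintro U U' ⟨P, hP, h⟩ hU
    exact ⟨P, hP, fun g φ h1 h2 h3 => hU (h g φ h1 h2 h3)⟩
  · rintro U U' ⟨P, hP, h⟩ ⟨P', hP', h'⟩
    refine ⟨P * P', mul_ne_zero hP hP', fun g φ h1 h2 h3 => ?_⟩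
    rw [map_mul] at h1
    exact ⟨h g φ (left_ne_zero_of_mul h1) h2 h3, h' g φ (right_ne_zero_of_mul h1) h2 h3⟩
  · refine Filter.neBot_iff.2 fun hbot => ?_
    obtain ⟨P, hP, h⟩ := Filter.empty_mem_iff_bot.2 hbot
    obtain ⟨P', hP', h'⟩ := exists_act Y
    have h1 : ∃ g, MvPolynomial.eval g (P * P') ≠ 0 := by
      by_contra hcon
      push Not at hcon
      exact mul_ne_zero hP hP' (MvPolynomial.funext fun g => by rw [hcon g, map_zero])
    obtain ⟨g, hg⟩ := h1
    rw [map_mul] at hg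
    obtain ⟨φ, h2, h3⟩ := h' g (right_ne_zero_of_mul hg)
    exact h g φ (left_ne_zero_of_mul hg) h2 h3

theorem gnc_opn [IsAlgClosed k] (Y : TA k K n κ m) (y : MaximalSpectrum Y.ring)
    (s : Y.ring) (hs : s ∉ y.asIdeal) :
    Gnc Y {g | ∃ h : g (s : K) ∈ Y.ring, (⟨g (s : K), h⟩ : Y.ring) ∉ y.asIdeal} := by
  obtain ⟨F, h1, h2⟩ := act_poly Y s
  have hs' : (Ideal.Quotient.mkₐ k y.asIdeal s) ≠ 0 := by
    intro h0
    exact hs (Ideal.Quotient.eq_zero_iff_mem.1 h0)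
  have hfree : Module.Free k (Y.ring ⧸ y.asIdeal) := Module.Free.of_divisionRing k _
  have hproj : Module.Projective k (Y.ring ⧸ y.asIdeal) := Module.Projective.of_free
  obtain ⟨l, hl⟩ : ∃ l : Module.Dual k (Y.ring ⧸ y.asIdeal),
      l (Ideal.Quotient.mkₐ k y.asIdeal s) ≠ 0 := by
    by_contra hcon
    push Not at hcon
    exact hs' ((Module.forall_dual_apply_eq_zero_iff k _).1 hcon)
  set P : MvPolynomial (Ent n) k := ∑ e ∈ F.support,
    MvPolynomial.monomial e (l (Ideal.Quotient.mkₐ k y.asIdeal (F.coeff e))) with hP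
  have key : ∀ g : Ent n → k, MvPolynomial.eval g P =
      l (Ideal.Quotient.mkₐ k y.asIdeal
        (MvPolynomial.eval (fun e => algebraMap k Y.ring (g e)) F)) := by
    intro g
    conv_rhs => rw [F.as_sum]
    rw [hP, map_sum, map_sum, map_sum, map_sum]
    refine Finset.sum_congr rfl fun e _ => ?_
    rw [MvPolynomial.eval_monomial, MvPolynomial.eval_monomial]
    have h3 : (e.prod fun i a => (algebraMap k Y.ring (g i)) ^ a) =
        algebraMap k Y.ring (e.prod fun i a => g i ^ a) := by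
      rw [Finsupp.prod, Finsupp.prod, map_prod]
      exact Finset.prod_congr rfl fun i _ => (map_pow _ _ _).symm
    rw [h3, mul_comm (F.coeff e), ← Algebra.smul_def, map_smul, map_smul, smul_eq_mul, mul_comm]
  refine ⟨P, ?_, fun g φ hg hφ _ => ?_⟩
  · intro h0
    apply hl
    have h3 := key (fun e => if e.2.1 = e.2.2 then 1 else 0)
    rw [h0, map_zero] at h3
    have h4 : (fun e : Ent n => algebraMap k Y.ring (if e.2.1 = e.2.2 then 1 else 0)) =
        fun e => if e.2.1 = e.2.2 then 1 else 0 := by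
      ext e
      split_ifs
      · rw [map_one]
      · rw [map_zero]
    rw [h4, h1] at h3
    exact h3.symm
  · have h3 := h2 g φ hφ
    refine ⟨h3 ▸ Subtype.mem _, fun hmem => ?_⟩
    rw [key g] at hg
    apply hg
    have h4 : (⟨φ (s : K), h3 ▸ Subtype.mem _⟩ : Y.ring) =
        MvPolynomial.eval (fun e => algebraMap k Y.ring (g e)) F := Subtype.ext h3.symm
    rw [h4] at hmem
    have h5 : Ideal.Quotient.mkₐ k y.asIdeal
        (MvPolynomial.eval (fun e => algebraMap k Y.ring (g e)) F) = 0 :=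
      Ideal.Quotient.eq_zero_iff_mem.2 hmem
    rw [h5, map_zero]

end

end Pool.Agent.MLD.H
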