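import Pool.Agent.Lib.MP_f23696_ag.H.Nf

/-!
Project HORO (MP_f23696_ag), module ACT: existence of the action of the matrices on `K`.
-/

set_option autoImplicit false
set_option linter.unusedSectionVars false

namespace Pool.Agent.MLD.H

open scoped Classical
noncomputable section

universe u v w

section typeA

namespace ACT

section gen

theorem minor_map {R : Type v} {S : Type w} [CommRing R] [CommRing S] (f : R →+* S) {n : ℕ}
    (G : Matrix (Fin n) (Fin n) R) (c : Fin n) (r : Fin (c + 1) → Fin n) :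
    f (minor G c r) = minor (G.map f) c r := by
  unfold minor
  rw [RingHom.map_det]
  rfl

theorem lead_map {R : Type v} {S : Type w} [CommRing R] [CommRing S] (f : R →+* S) {n : ℕ}
    (G : Matrix (Fin n) (Fin n) R) (c : Fin n) :
    f (lead G c) = lead (G.map f) c := minor_map f G c _

theorem nf_map {R : Type v} {S : Type w} [Field R] [Field S] (f : R →+* S) {n : ℕ}
    (κ : Set (Fin n)) (G : Matrix (Fin n) (Fin n) R) :
    (nf κ G).map f = nf κ (G.map f) := by
  ext i j
  simp only [nf, Matrix.map_apply, Matrix.of_apply]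
  split_ifs
  · rw [map_div₀, minor_map, lead_map]
  · exact map_one f
  · exact map_zero f

theorem lead_one {R : Type v} [CommRing R] {n : ℕ} (c : Fin n) :
    lead (1 : Matrix (Fin n) (Fin n) R) c = 1 := by
  unfold lead minor
  have : (Matrix.of fun p q : Fin (c + 1) =>
      (1 : Matrix (Fin n) (Fin n) R) (Fin.castLE c.2 p) (Fin.castLE c.2 q)) = 1 := by
    ext p q
    simp only [Matrix.of_apply, Matrix.one_apply, Fin.castLE_inj]
  rw [this, Matrix.det_one]

/-- the inverse action -/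
theorem back {R : Type v} [Field R] {n : ℕ} {κ : Set (Fin n)}
    (G G' L : Matrix (Fin n) (Fin n) R) (hL : IsCell κ L) (hG : G' * G = 1)
    (hl : ∀ c ∈ κ, lead (G * L) c ≠ 0) :
    nf κ (G' * nf κ (G * L)) = L ∧
      ∀ c ∈ κ, lead (G' * nf κ (G * L)) c = (lead (G * L) c)⁻¹ := by
  have e1 : Eqv κ (G * L) (nf κ (G * L)) := nf_eqv κ _ hl
  have hGL : G' * (G * L) = L := by rw [← Matrix.mul_assoc, hG, Matrix.one_mul]
  have e2 : Eqv κ L (G' * nf κ (G * L)) := by
    have := e1.mul_left G'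
    rwa [hGL] at this
  refine ⟨?_, ?_⟩
  · rw [← nf_congr e2, nf_cell hL]
  · intro c hc
    obtain ⟨d, -, hm⟩ := minor_congr e1 hc
    have h1 : (1 : R) = d * lead (G * L) c := by
      rw [← lead_cell (nf_isCell κ (G * L)) c hc]
      exact hm _
    have h2 : lead (G' * nf κ (G * L)) c = d * lead L c := by
      unfold lead
      rw [minor_mul]
      conv_rhs => rw [← hGL, minor_mul, Finset.mul_sum]
      refine Finset.sum_congr rfl fun f _ => ?_
      rw [hm f]
      ring
    rw [h2, lead_cell hL c hc, mul_one]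
    exact eq_inv_of_mul_eq_one_left h1.symm

end gen

variable {B : Type} [Fintype B] {n : B → ℕ} {k : Type u} {K : Type v} [Field k] [Field K]
  [Algebra k K] {m : ℕ} {κ : Finset (Σ b, Fin (n b))}

theorem isCell_cell (M : Pos n κ → K) (b : B) : IsCell (kb κ b) (cell κ M b) := by
  intro i j h
  unfold cell
  simp only [Matrix.of_apply]
  rw [dif_neg]
  exact fun h' => h h'

theorem cell_of_isCell (A : ∀ b, Matrix (Fin (n b)) (Fin (n b)) K)
    (hA : ∀ b, IsCell (kb κ b) (A b)) (b : B) :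
    cell κ (fun s : Pos n κ => A s.1.1 s.1.2.1 s.1.2.2) b = A b := by
  ext i j
  unfold cell
  simp only [Matrix.of_apply]
  by_cases h : ∃ c : Fin (n b), (⟨b, c⟩ : Σ b, Fin (n b)) ∈ κ ∧ j ≤ c ∧ c < i
  · rw [dif_pos h]
  · rw [dif_neg h]
    exact (hA b i j fun h' => h h').symm

theorem cell_map {K' : Type w} [Field K'] [Algebra k K'] (f : K →+* K') (M : Pos n κ → K) (b : B) :
    (cell κ M b).map f = cell κ (fun s => f (M s)) b := by
  ext i j
  unfold cell
  simp only [Matrix.of_apply, Matrix.map_apply]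
  split_ifs
  · rfl
  · exact map_one f
  · exact map_zero f

theorem matK_eq (g : Ent n → k) (b : B) :
    matK (K := K) g b = (mat g b).map (algebraMap k K) := rfl

theorem matk_eq (g : Ent n → k) (b : B) : matK (K := k) g b = mat g b := by
  ext i j
  simp [matK, mat]

theorem matK_map (g : Ent n → k) (b : B) (φ : K ≃ₐ[k] K) :
    (matK (K := K) g b).map (φ : K →+* K) = matK (K := K) g b := by
  ext i j
  simp [matK, mat]

/-- the cell over the polynomial ring -/
def cellP (k : Type u) [Field k] (κ : Finset (Σ b, Fin (n b))) (b : B) :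
    Matrix (Fin (n b)) (Fin (n b)) (MvPolynomial (Pos n κ) k) :=
  Matrix.of fun i j =>
    if h : ∃ c : Fin (n b), (⟨b, c⟩ : Σ b, Fin (n b)) ∈ κ ∧ j ≤ c ∧ c < i then
      MvPolynomial.X ⟨⟨b, i, j⟩, h⟩
    else if i = j then 1 else 0

theorem cellP_map (M : Pos n κ → K) (b : B) :
    (cellP k κ b).map (MvPolynomial.aeval M).toRingHom = cell κ M b := by
  ext i j
  unfold cell cellP
  simp only [Matrix.of_apply, Matrix.map_apply]
  split_ifs
  · exact MvPolynomial.aeval_X _ _
  · exact map_one _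
  · exact map_zero _

theorem cellP_zero (b : B) :
    (cellP k κ b).map (MvPolynomial.eval (fun _ : Pos n κ => (0 : k))) = 1 := by
  ext i j
  unfold cellP
  simp only [Matrix.of_apply, Matrix.map_apply]
  split_ifs with h h'
  · obtain ⟨c, _, hc, hc'⟩ := h
    have : i ≠ j := (lt_of_le_of_lt hc hc').ne'
    rw [Matrix.one_apply_ne this]
    exact MvPolynomial.eval_X _
  · subst h'
    simp
  · simp [h']

theorem lead_ne (M : Pos n κ → K) (hM : AlgebraicIndependent k M) (g : Ent n → k) (b : B)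
    (c : Fin (n b)) (hc : lead (mat g b) c ≠ 0) : lead (matK (K := K) g b * cell κ M b) c ≠ 0 := by
  intro h0
  set q : MvPolynomial (Pos n κ) k :=
    lead ((mat g b).map (MvPolynomial.C : k →+* MvPolynomial (Pos n κ) k) * cellP k κ b) c with hq
  have h1 : MvPolynomial.aeval M q = 0 := by
    have : (MvPolynomial.aeval M).toRingHom q = 0 := by
      rw [hq, lead_map, ← h0]
      congr 1
      rw [Matrix.map_mul, cellP_map, matK_eq, Matrix.map_map]
      congr 1
      ext i j
      simp [Matrix.map_apply]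
    exact this
  have h2 : q = 0 := (algebraicIndependent_iff.mp hM) q h1
  apply hc
  have h3 : MvPolynomial.eval (fun _ : Pos n κ => (0 : k)) q = lead (mat g b) c := by
    rw [hq, lead_map]
    congr 1
    rw [Matrix.map_mul, cellP_zero, Matrix.mul_one, Matrix.map_map]
    ext i j
    simp [Matrix.map_apply]
  rw [← h3, h2, map_zero]

/-- the polynomial of the genericity condition -/
def P₀ (k : Type u) [Field k] (κ : Finset (Σ b, Fin (n b))) : MvPolynomial (Ent n) k :=
  (∏ b, (mat (n := n) (K := MvPolynomial (Ent n) k) MvPolynomial.X b).det) *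
    ∏ c ∈ κ, lead (mat (n := n) (K := MvPolynomial (Ent n) k) MvPolynomial.X c.1) c.2

theorem mat_X (g : Ent n → k) (b : B) :
    (mat (n := n) (K := MvPolynomial (Ent n) k) MvPolynomial.X b).map (MvPolynomial.eval g) =
      mat g b := by
  ext i j
  simp only [mat, Matrix.map_apply, Matrix.of_apply]
  exact MvPolynomial.eval_X _

theorem eval_P₀ (g : Ent n → k) : MvPolynomial.eval g (P₀ k κ) =
    (∏ b, (mat g b).det) * ∏ c ∈ κ, lead (mat g c.1) c.2 := by
  unfold P₀
  rw [map_mul, map_prod, map_prod]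
  congr 1
  · refine Finset.prod_congr rfl fun b _ => ?_
    rw [RingHom.map_det]
    exact congrArg Matrix.det (mat_X g b)
  · refine Finset.prod_congr rfl fun c _ => ?_
    rw [lead_map, mat_X]

theorem P₀_ne : P₀ k κ ≠ 0 := by
  intro h
  have h1 := eval_P₀ (κ := κ) (fun e : Ent n => if e.2.1 = e.2.2 then (1 : k) else 0)
  rw [h, map_zero] at h1
  have h2 : ∀ b : B, mat (fun e : Ent n => if e.2.1 = e.2.2 then (1 : k) else 0) b = 1 := by
    intro b
    ext i j
    simp only [mat, Matrix.of_apply, Matrix.one_apply]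
  simp only [h2, Matrix.det_one, lead_one, Finset.prod_const_one, mul_one] at h1
  exact zero_ne_one h1

/-- entries in an intermediate field -/
theorem sub_nf (F : IntermediateField k K) {N : ℕ} (κ' : Set (Fin N))
    (A : Matrix (Fin N) (Fin N) K) (hA : ∀ i j, A i j ∈ F) (i j : Fin N) : nf κ' A i j ∈ F := by
  let A' : Matrix (Fin N) (Fin N) F := Matrix.of fun i j => ⟨A i j, hA i j⟩
  have h : A = A'.map (algebraMap F K) := by
    ext i j
    rfl
  rw [h, ← nf_map]
  exact (nf κ' A' i j).2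

theorem sub_lead (F : IntermediateField k K) {N : ℕ}
    (A : Matrix (Fin N) (Fin N) K) (hA : ∀ i j, A i j ∈ F) (c : Fin N) : lead A c ∈ F := by
  let A' : Matrix (Fin N) (Fin N) F := Matrix.of fun i j => ⟨A i j, hA i j⟩
  have h : A = A'.map (algebraMap F K) := by
    ext i j
    rfl
  rw [h, ← lead_map]
  exact (lead A' c).2

/-- two families of generators -/
theorem equiv_of_gen {ι : Type} [Finite ι] (y z : ι → K) (hy : AlgebraicIndependent k y)
    (gy : IntermediateField.adjoin k (Set.range y) = ⊤)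
    (gz : IntermediateField.adjoin k (Set.range z) = ⊤) :
    ∃ φ : K ≃ₐ[k] K, ∀ i, φ (y i) = z i := by
  have alg : Algebra.IsAlgebraic (Algebra.adjoin k (Set.range z)) K := by
    rw [← IntermediateField.isAlgebraic_adjoin_iff_top, gz, Algebra.isAlgebraic_iff_isIntegral]
    exact Algebra.isIntegral_of_surjective IntermediateField.topEquiv.surjective
  have hz : AlgebraicIndependent k z :=
    (Algebra.IsAlgebraic.isTranscendenceBasis_of_lift_le_trdeg_of_finite k z
      hy.lift_cardinalMk_le_trdeg).1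
  let ey : FractionRing (MvPolynomial ι k) ≃ₐ[k] K :=
    hy.aevalEquivField.trans ((IntermediateField.equivOfEq gy).trans IntermediateField.topEquiv)
  let ez : FractionRing (MvPolynomial ι k) ≃ₐ[k] K :=
    hz.aevalEquivField.trans ((IntermediateField.equivOfEq gz).trans IntermediateField.topEquiv)
  have ey1 : ∀ i, ey (algebraMap _ _ (MvPolynomial.X i : MvPolynomial ι k)) = y i := by
    intro i
    have := hy.aevalEquivField_algebraMap_apply_coe (MvPolynomial.X i)
    rw [MvPolynomial.aeval_X] at this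
    exact this
  have ez1 : ∀ i, ez (algebraMap _ _ (MvPolynomial.X i : MvPolynomial ι k)) = z i := by
    intro i
    have := hz.aevalEquivField_algebraMap_apply_coe (MvPolynomial.X i)
    rw [MvPolynomial.aeval_X] at this
    exact this
  refine ⟨ey.symm.trans ez, fun i => ?_⟩
  rw [AlgEquiv.trans_apply, ← ey1 i, AlgEquiv.symm_apply_apply, ez1]

end ACT

open ACT

theorem act_cell {B : Type} [Fintype B] {n : B → ℕ} {k : Type u} {K : Type v} [Field k] [Field K]
    [Algebra k K] {m : ℕ} {κ : Finset (Σ b, Fin (n b))}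
    (Y : TA k K n κ m) (g : Ent n → k) (φ : K ≃ₐ[k] K) (h : IsAct Y g φ) (b : B) :
    (cell κ Y.M b).map φ = nf (kb κ b) (matK g b * cell κ Y.M b) := by
  have h1 : (cell κ Y.M b).map φ = cell κ (fun s => φ (Y.M s)) b :=
    cell_map (k := k) (φ : K →+* K) Y.M b
  rw [h1]
  have h2 : (fun s => φ (Y.M s)) = fun s : Pos n κ =>
      (fun b => nf (kb κ b) (matK (K := K) g b * cell κ Y.M b)) s.1.1 s.1.2.1 s.1.2.2 :=
    funext h.1
  rw [h2]
  exact cell_of_isCell (fun b => nf (kb κ b) (matK (K := K) g b * cell κ Y.M b))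
    (fun b => nf_isCell _ _) b

theorem act_mon {B : Type} [Fintype B] {n : B → ℕ} {k : Type u} {K : Type v} [Field k] [Field K]
    [Algebra k K] {m : ℕ} {κ : Finset (Σ b, Fin (n b))}
    (Y : TA k K n κ m) (g : Ent n → k) (φ : K ≃ₐ[k] K) (h : IsAct Y g φ)
    (u : Fin m → ℤ) : φ (∏ i, Y.x i ^ u i) = (∏ i, Y.x i ^ u i) *
      ∏ c ∈ κ, lead (matK (K := K) g c.1 * cell κ Y.M c.1) c.2 ^ (Y.Λ c ⬝ᵥ u) := by
  rw [map_prod]
  have h1 : ∀ i, φ (Y.x i ^ u i) = Y.x i ^ u i *
      ∏ c ∈ κ, lead (matK (K := K) g c.1 * cell κ Y.M c.1) c.2 ^ (Y.Λ c i * u i) := by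
    intro i
    rw [map_zpow₀, h.2.1 i, mul_zpow, ← Finset.prod_zpow]
    congr 1
    exact Finset.prod_congr rfl fun c _ => (zpow_mul _ _ _).symm
  rw [Finset.prod_congr rfl fun i _ => h1 i, Finset.prod_mul_distrib, Finset.prod_comm]
  congr 1
  refine Finset.prod_congr rfl fun c hc => ?_
  have h0 : lead (matK (K := K) g c.1 * cell κ Y.M c.1) c.2 ≠ 0 := h.2.2.2 c hc
  have : ∀ s : Finset (Fin m), (∏ i ∈ s, lead (matK (K := K) g c.1 * cell κ Y.M c.1) c.2 ^
      (Y.Λ c i * u i)) = lead (matK (K := K) g c.1 * cell κ Y.M c.1) c.2 ^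
      (∑ i ∈ s, Y.Λ c i * u i) := by
    intro s
    induction s using Finset.induction_on with
    | empty => simp
    | insert i s hi ih => rw [Finset.prod_insert hi, Finset.sum_insert hi, zpow_add₀ h0, ih]
  exact this Finset.univ

theorem act_minor {B : Type} [Fintype B] {n : B → ℕ} {k : Type u} {K : Type v} [Field k] [Field K]
    [Algebra k K] {m : ℕ} {κ : Finset (Σ b, Fin (n b))}
    (Y : TA k K n κ m) (g : Ent n → k) (φ : K ≃ₐ[k] K) (h : IsAct Y g φ)
    (c : Σ b, Fin (n b)) (hc : c ∈ κ) (r : Fin (c.2 + 1) → Fin (n c.1)) :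
    φ (minor (cell κ Y.M c.1) c.2 r) =
      (∑ f : Fin (c.2 + 1) → Fin (n c.1), (∏ p, algebraMap k K (g ⟨c.1, r p, f p⟩)) *
        minor (cell κ Y.M c.1) c.2 f) / lead (matK g c.1 * cell κ Y.M c.1) c.2 := by
  have h1 : φ (minor (cell κ Y.M c.1) c.2 r) = minor ((cell κ Y.M c.1).map φ) c.2 r :=
    minor_map (φ : K →+* K) _ _ _
  rw [h1, act_cell Y g φ h c.1, minor_nf (kb κ c.1) _ (fun c' hc' => h.2.2.2 ⟨c.1, c'⟩ hc') c.2
    (by exact hc) r, minor_mul]
  rfl

theorem exists_act {B : Type} [Fintype B] {n : B → ℕ} {k : Type u} {K : Type v} [Field k] [Field K]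
    [Algebra k K] {m : ℕ} {κ : Finset (Σ b, Fin (n b))}
    (Y : TA k K n κ m) : ∃ P : MvPolynomial (Ent n) k, P ≠ 0 ∧
    ∀ g, MvPolynomial.eval g P ≠ 0 → ∃ φ : K ≃ₐ[k] K, IsAct Y g φ ∧
      ∃ g', IsAct Y g' φ.symm := by
  refine ⟨P₀ k κ, P₀_ne, fun g hg => ?_⟩
  rw [eval_P₀] at hg
  have hdet : ∀ b, (mat g b).det ≠ 0 := fun b =>
    (Finset.prod_ne_zero_iff.mp (mul_ne_zero_iff.mp hg).1) b (Finset.mem_univ b)
  have hlead : ∀ c ∈ κ, lead (mat g c.1) c.2 ≠ 0 :=
    Finset.prod_ne_zero_iff.mp (mul_ne_zero_iff.mp hg).2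
  have hM : AlgebraicIndependent k Y.M := by
    have := Y.ind.comp Sum.inl Sum.inl_injective
    simpa using this
  -- leading minors
  set G : ∀ b, Matrix (Fin (n b)) (Fin (n b)) K := fun b => matK (K := K) g b with hGdef
  set L : ∀ b, Matrix (Fin (n b)) (Fin (n b)) K := fun b => cell κ Y.M b with hLdef
  have hGL : ∀ c ∈ κ, lead (G c.1 * L c.1) c.2 ≠ 0 := fun c hc =>
    lead_ne Y.M hM g c.1 c.2 (hlead c hc)
  have hGLb : ∀ b, ∀ c ∈ kb κ b, lead (G b * L b) c ≠ 0 := fun b c hc => hGL ⟨b, c⟩ hc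
  -- the inverse matrix
  let g' : Ent n → k := fun e => (mat g e.1)⁻¹ e.2.1 e.2.2
  have hg' : ∀ b, mat g' b = (mat g b)⁻¹ := by
    intro b
    ext i j
    rfl
  have hG' : ∀ b, matK (K := K) g' b * G b = 1 := by
    intro b
    rw [hGdef]
    simp only [matK_eq]
    rw [← Matrix.map_mul, hg', Matrix.nonsing_inv_mul _ (Ne.isUnit (hdet b))]
    exact Matrix.map_one _ (map_zero _) (map_one _)
  have hL : ∀ b, IsCell (kb κ b) (L b) := fun b => isCell_cell Y.M b
  have hback := fun b => back (G b) (matK (K := K) g' b) (L b) (hL b) (hG' b) (hGLb b)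
  set Lg : ∀ b, Matrix (Fin (n b)) (Fin (n b)) K := fun b => nf (kb κ b) (G b * L b) with hLg
  let y : Pos n κ ⊕ Fin m → K := Sum.elim (fun s => Lg s.1.1 s.1.2.1 s.1.2.2)
    (fun i => Y.x i * ∏ c ∈ κ, lead (G c.1 * L c.1) c.2 ^ Y.Λ c i)
  have gy : IntermediateField.adjoin k (Set.range y) = ⊤ := by
    set F := IntermediateField.adjoin k (Set.range y) with hF
    have hLgF : ∀ b i j, Lg b i j ∈ F := by
      intro b i j
      by_cases hs : Sep (kb κ b) i j
      · have : Lg b i j = y (Sum.inl ⟨⟨b, i, j⟩, hs⟩) := rfl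
        rw [this]
        exact IntermediateField.subset_adjoin _ _ ⟨_, rfl⟩
      · rw [hLg]
        show nf (kb κ b) (G b * L b) i j ∈ F
        rw [nf_isCell (kb κ b) (G b * L b) i j hs]
        split_ifs
        · exact one_mem _
        · exact zero_mem _
    have hprodF : ∀ b i j, (matK (K := K) g' b * Lg b) i j ∈ F := by
      intro b i j
      rw [Matrix.mul_apply]
      exact sum_mem fun q _ => mul_mem (F.algebraMap_mem _) (hLgF b q j)
    have hMF : ∀ s, Y.M s ∈ F := by
      intro s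
      have h1 : L s.1.1 s.1.2.1 s.1.2.2 = Y.M s := by
        rw [hLdef]
        show cell κ Y.M s.1.1 s.1.2.1 s.1.2.2 = Y.M s
        unfold cell
        simp only [Matrix.of_apply]
        exact dif_pos s.2
      rw [← h1, ← (hback s.1.1).1]
      exact sub_nf F _ _ (hprodF s.1.1) _ _
    have hleadF : ∀ c ∈ κ, lead (G c.1 * L c.1) c.2 ∈ F := by
      intro c hc
      have h1 := (hback c.1).2 c.2 hc
      have h2 := sub_lead F _ (hprodF c.1) c.2
      rw [h1] at h2
      exact (inv_inv (lead (G c.1 * L c.1) c.2)) ▸ F.inv_mem h2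
    have hxF : ∀ i, Y.x i ∈ F := by
      intro i
      have h1 : y (Sum.inr i) ∈ F := IntermediateField.subset_adjoin _ _ ⟨_, rfl⟩
      have h2 : (∏ c ∈ κ, lead (G c.1 * L c.1) c.2 ^ Y.Λ c i) ∈ F :=
        prod_mem fun c hc => zpow_mem (hleadF c hc) _
      have h3 : (∏ c ∈ κ, lead (G c.1 * L c.1) c.2 ^ Y.Λ c i) ≠ 0 :=
        Finset.prod_ne_zero_iff.mpr fun c hc => zpow_ne_zero _ (hGL c hc)
      have h4 : Y.x i = y (Sum.inr i) * (∏ c ∈ κ, lead (G c.1 * L c.1) c.2 ^ Y.Λ c i)⁻¹ := by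
        show Y.x i = Y.x i * (∏ c ∈ κ, lead (G c.1 * L c.1) c.2 ^ Y.Λ c i) * _
        rw [mul_assoc, mul_inv_cancel₀ h3, mul_one]
      rw [h4]
      exact mul_mem h1 (F.inv_mem h2)
    rw [← top_le_iff, ← Y.gen, IntermediateField.adjoin_le_iff]
    rintro _ ⟨s | i, rfl⟩
    · exact hMF s
    · exact hxF i
  have : Finite (Pos n κ ⊕ Fin m) := by infer_instance
  obtain ⟨φ, hφ⟩ := equiv_of_gen (Sum.elim Y.M Y.x) y Y.ind Y.gen gy
  have hact : IsAct Y g φ := by
    refine ⟨fun s => hφ (Sum.inl s), fun i => hφ (Sum.inr i), fun b => ?_, hGL⟩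
    rw [matk_eq]
    exact hdet b
  have hcell : ∀ b, (cell κ Y.M b).map φ = Lg b := fun b => act_cell Y g φ hact b
  have hmap : ∀ b, (matK (K := K) g' b * cell κ Y.M b).map (φ : K →+* K) =
      matK (K := K) g' b * Lg b := by
    intro b
    rw [Matrix.map_mul, matK_map]
    congr 1
    exact hcell b
  have hlead' : ∀ c ∈ κ, φ (lead (matK (K := K) g' c.1 * cell κ Y.M c.1) c.2) =
      (lead (G c.1 * L c.1) c.2)⁻¹ := by
    intro c hc
    have h1 : φ (lead (matK (K := K) g' c.1 * cell κ Y.M c.1) c.2) =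
        lead ((matK (K := K) g' c.1 * cell κ Y.M c.1).map (φ : K →+* K)) c.2 :=
      lead_map (φ : K →+* K) _ _
    rw [h1, hmap]
    exact (hback c.1).2 c.2 hc
  refine ⟨φ, hact, g', ⟨fun s => ?_, fun i => ?_, fun b => ?_, fun c hc => ?_⟩⟩
  · rw [AlgEquiv.symm_apply_eq]
    have h1 : φ (nf (kb κ s.1.1) (matK (K := K) g' s.1.1 * cell κ Y.M s.1.1) s.1.2.1 s.1.2.2) =
        ((nf (kb κ s.1.1) (matK (K := K) g' s.1.1 * cell κ Y.M s.1.1)).map (φ : K →+* K))
          s.1.2.1 s.1.2.2 := rfl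
    rw [h1, nf_map, hmap, (hback s.1.1).1]
    show Y.M s = cell κ Y.M s.1.1 s.1.2.1 s.1.2.2
    unfold cell
    simp only [Matrix.of_apply]
    rw [dif_pos s.2]
    rfl
  · rw [AlgEquiv.symm_apply_eq, map_mul, map_prod]
    have h1 : ∀ c ∈ κ, φ (lead (matK (K := K) g' c.1 * cell κ Y.M c.1) c.2 ^ Y.Λ c i) =
        (lead (G c.1 * L c.1) c.2 ^ Y.Λ c i)⁻¹ := by
      intro c hc
      rw [map_zpow₀, hlead' c hc, inv_zpow]
    rw [Finset.prod_congr rfl h1, Finset.prod_inv_distrib, hact.2.1 i, mul_assoc]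
    have h3 : (∏ c ∈ κ, lead (G c.1 * L c.1) c.2 ^ Y.Λ c i) ≠ 0 :=
      Finset.prod_ne_zero_iff.mpr fun c hc => zpow_ne_zero _ (hGL c hc)
    rw [mul_inv_cancel₀ h3, mul_one]
  · rw [matk_eq, hg']
    exact (Matrix.isUnit_nonsing_inv_det _ (Ne.isUnit (hdet b))).ne_zero
  · intro h0
    have h1 := hlead' c hc
    rw [h0, map_zero] at h1
    exact (inv_ne_zero (hGL c hc)) h1.symm

end typeA

end

end Pool.Agent.MLD.H
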