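import Pool.Agent.Lib.MP_f23696_ag.H.Ctx

/-!
Module CHAIN of the project HORO (MP_f23696_ag): faces and facets of the weight monoid.
-/

set_option autoImplicit false

namespace Pool.Agent.MLD.H

open scoped Classical
open Pool.Agent.MLD.Ten (IsGood)
noncomputable section

universe u v

namespace ChainAux

variable {m : ℕ}

/-- the rational vector of an integral vector -/
def ca (u : Fin m → ℤ) : Fin m → ℚ := fun i => (u i : ℚ)

/-- the functional of an integral vector -/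
def fn (w : Fin m → ℤ) : (Fin m → ℚ) →ₗ[ℚ] ℚ where
  toFun x := ca w ⬝ᵥ x
  map_add' _ _ := dotProduct_add _ _ _
  map_smul' _ _ := dotProduct_smul _ _ _

theorem fn_ca (w u : Fin m → ℤ) : fn w (ca u) = ((w ⬝ᵥ u : ℤ) : ℚ) := by
  change ca w ⬝ᵥ ca u = _
  simp [ca, dotProduct]

/-- the rational span -/
def sp (τ : Set (Fin m → ℤ)) : Submodule ℚ (Fin m → ℚ) :=
  Submodule.span ℚ {x : Fin m → ℚ | ∃ u ∈ τ, x = fun i => (u i : ℚ)}

theorem rk_eq (τ : Set (Fin m → ℤ)) : HD.rk τ = Module.finrank ℚ (sp τ) := rfl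

theorem ca_mem {τ : Set (Fin m → ℤ)} {u : Fin m → ℤ} (hu : u ∈ τ) : ca u ∈ sp τ :=
  Submodule.subset_span ⟨u, hu, rfl⟩

theorem sp_mono {τ τ' : Set (Fin m → ℤ)} (h : τ ⊆ τ') : sp τ ≤ sp τ' :=
  Submodule.span_mono fun _ ⟨u, hu, hx⟩ => ⟨u, h hu, hx⟩

theorem sp_le_ker {τ : Set (Fin m → ℤ)} {w : Fin m → ℤ} (h : ∀ t ∈ τ, w ⬝ᵥ t = 0) :
    sp τ ≤ LinearMap.ker (fn w) := by
  refine Submodule.span_le.2 ?_
  rintro _ ⟨t, ht, rfl⟩
  rw [SetLike.mem_coe, LinearMap.mem_ker]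
  exact (fn_ca w t).trans (by rw [h t ht, Int.cast_zero])

theorem not_mem_of_ne {τ : Set (Fin m → ℤ)} {w u : Fin m → ℤ} (h : ∀ t ∈ τ, w ⬝ᵥ t = 0)
    (hu : w ⬝ᵥ u ≠ 0) : ca u ∉ sp τ := by
  intro h1
  have h2 := sp_le_ker h h1
  rw [LinearMap.mem_ker, fn_ca] at h2
  exact hu (by exact_mod_cast h2)

theorem zsmul_mem' (M : AddSubmonoid (Fin m → ℤ)) {x : Fin m → ℤ} (hx : x ∈ M) {a : ℤ}
    (ha : 0 ≤ a) : a • x ∈ M := by
  obtain ⟨n, rfl⟩ := Int.eq_ofNat_of_zero_le ha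
  rw [natCast_zsmul]
  exact M.nsmul_mem hx n

theorem self_pos {b : Fin m → ℤ} (hb : b ≠ 0) : 0 < b ⬝ᵥ b := by
  refine lt_of_le_of_ne (Finset.sum_nonneg fun i _ => mul_self_nonneg _) fun e => hb ?_
  exact dotProduct_self_eq_zero.1 e.symm

/-- Farkas' lemma over the integers -/
theorem farkas (n : ℕ) : ∀ (S : Finset (Fin m → ℤ)), S.card ≤ n → ∀ b : Fin m → ℤ,
    (∃ N : ℕ, 1 ≤ N ∧ N • b ∈ AddSubmonoid.closure (S : Set (Fin m → ℤ))) ∨
      ∃ w : Fin m → ℤ, (∀ s ∈ S, 0 ≤ w ⬝ᵥ s) ∧ w ⬝ᵥ b < 0 := by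
  induction n with
  | zero =>
    intro S hS b
    have h0 : S = ∅ := Finset.card_eq_zero.1 (Nat.le_zero.1 hS)
    by_cases hb : b = 0
    · exact Or.inl ⟨1, le_rfl, by rw [hb, smul_zero]; exact zero_mem _⟩
    · refine Or.inr ⟨-b, fun s hs => ?_, ?_⟩
      · rw [h0] at hs
        exact absurd hs (Finset.notMem_empty s)
      · rw [neg_dotProduct]
        have := self_pos hb
        omega
  | succ n ih =>
    intro S hS b
    by_cases hne : S.card ≤ n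
    · exact ih S hne b
    · have hcard : 0 < S.card := by omega
      obtain ⟨g, hg⟩ := Finset.card_pos.1 hcard
      have hc0 : (S.erase g).card ≤ n := by
        rw [Finset.card_erase_of_mem hg]
        omega
      rcases ih (S.erase g) hc0 b with ⟨N, hN, h⟩ | ⟨f, hf, hfb⟩
      · exact Or.inl ⟨N, hN, AddSubmonoid.closure_mono (Finset.coe_subset.2
          (Finset.erase_subset g S)) h⟩
      · by_cases hfg : 0 ≤ f ⬝ᵥ g
        · refine Or.inr ⟨f, fun s hs => ?_, hfb⟩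
          by_cases hsg : s = g
          · rw [hsg]
            exact hfg
          · exact hf s (Finset.mem_erase.2 ⟨hsg, hs⟩)
        · have hfg' : f ⬝ᵥ g < 0 := not_le.1 hfg
          have hA : 0 < -(f ⬝ᵥ g) := by omega
          let T : (Fin m → ℤ) → (Fin m → ℤ) := fun s => (-(f ⬝ᵥ g)) • s + (f ⬝ᵥ s) • g
          have hgc : g ∈ AddSubmonoid.closure (S : Set (Fin m → ℤ)) :=
            AddSubmonoid.subset_closure hg
          rcases ih ((S.erase g).image T) (Finset.card_image_le.trans hc0) (T b) with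
            ⟨N, hN, h⟩ | ⟨h', hh, hb⟩
          · left
            have h1 : AddSubmonoid.closure (((S.erase g).image T : Finset (Fin m → ℤ)) :
                Set (Fin m → ℤ)) ≤ AddSubmonoid.closure (S : Set (Fin m → ℤ)) := by
              rw [AddSubmonoid.closure_le]
              intro x hx
              obtain ⟨s, hs, rfl⟩ := Finset.mem_image.1 (Finset.mem_coe.1 hx)
              exact add_mem (zsmul_mem' _ (AddSubmonoid.subset_closure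
                (Finset.mem_coe.2 (Finset.mem_of_mem_erase hs))) hA.le)
                (zsmul_mem' _ hgc (hf s hs))
            have h2 : ((N : ℤ) * (-(f ⬝ᵥ b))) • g ∈
                AddSubmonoid.closure (S : Set (Fin m → ℤ)) :=
              zsmul_mem' _ hgc (mul_nonneg (Int.natCast_nonneg N) (by omega))
            have h3 := add_mem (h1 h) h2
            obtain ⟨A, hAe⟩ := Int.eq_ofNat_of_zero_le hA.le
            refine ⟨N * A, ?_, ?_⟩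
            · have : 0 < A := by
                have h4 : (0 : ℤ) < (A : ℤ) := by rw [← hAe]; exact hA
                exact_mod_cast h4
              exact Nat.mul_pos hN this
            · have h5 : (N * A) • b = N • T b + ((N : ℤ) * (-(f ⬝ᵥ b))) • g := by
                ext i
                have h6 : (A : ℤ) = -(f ⬝ᵥ g) := hAe.symm
                simp only [T, Pi.smul_apply, Pi.add_apply]
                simp only [smul_eq_mul, nsmul_eq_mul, Nat.cast_mul, h6]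
                ring
              rw [h5]
              exact h3
          · right
            have key : ∀ s, ((-(f ⬝ᵥ g)) • h' + (h' ⬝ᵥ g) • f) ⬝ᵥ s = h' ⬝ᵥ T s := by
              intro s
              simp only [T, add_dotProduct, smul_dotProduct, dotProduct_add, dotProduct_smul,
                smul_eq_mul]
              ring
            refine ⟨(-(f ⬝ᵥ g)) • h' + (h' ⬝ᵥ g) • f, fun s hs => ?_, ?_⟩
            · rw [key]
              by_cases hsg : s = g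
              · subst hsg
                have : T s = 0 := by
                  ext i
                  simp only [T, Pi.smul_apply, Pi.add_apply, smul_eq_mul, Pi.zero_apply]
                  ring
                rw [this, dotProduct_zero]
              · exact hh _ (Finset.mem_image_of_mem T (Finset.mem_erase.2 ⟨hsg, hs⟩))
            · rw [key]
              exact hb

/-- integral form of the membership in a rational span -/
theorem ratio {τ : Set (Fin m → ℤ)} (h0 : (0 : Fin m → ℤ) ∈ τ)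
    (hadd : ∀ u ∈ τ, ∀ t ∈ τ, u + t ∈ τ) {d : Fin m → ℤ} (hd : ca d ∈ sp τ) :
    ∃ M : ℕ, 1 ≤ M ∧ ∃ a ∈ τ, ∃ b ∈ τ, M • d = a - b := by
  have hmul : ∀ (n : ℕ) (u : Fin m → ℤ), u ∈ τ → n • u ∈ τ := by
    intro n u hu
    induction n with
    | zero => rw [zero_smul]; exact h0
    | succ n ih => rw [succ_nsmul]; exact hadd _ ih _ hu
  have key : ∀ y ∈ sp τ, ∃ M : ℕ, 1 ≤ M ∧ ∃ a ∈ τ, ∃ b ∈ τ, (M : ℚ) • y = ca a - ca b := by
    intro y hy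
    refine Submodule.span_induction (p := fun y _ => ∃ M : ℕ, 1 ≤ M ∧ ∃ a ∈ τ, ∃ b ∈ τ,
      (M : ℚ) • y = ca a - ca b) ?_ ?_ ?_ ?_ hy
    · rintro _ ⟨u, hu, rfl⟩
      refine ⟨1, le_rfl, u, hu, 0, h0, ?_⟩
      ext i
      simp [ca]
    · refine ⟨1, le_rfl, 0, h0, 0, h0, ?_⟩
      simp
    · rintro x y - - ⟨M, hM, a, ha, b, hb, h⟩ ⟨M', hM', a', ha', b', hb', h'⟩
      refine ⟨M * M', Nat.mul_pos hM hM', M' • a + M • a', hadd _ (hmul _ _ ha) _ (hmul _ _ ha'),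
        M' • b + M • b', hadd _ (hmul _ _ hb) _ (hmul _ _ hb'), ?_⟩
      ext i
      have e1 := congrFun h i
      have e2 := congrFun h' i
      simp only [ca, Pi.smul_apply, Pi.sub_apply, Pi.add_apply] at e1 e2 ⊢
      simp only [smul_eq_mul, nsmul_eq_mul, Int.cast_add, Int.cast_mul, Int.cast_natCast,
        Nat.cast_mul] at e1 e2 ⊢
      linear_combination (M' : ℚ) * e1 + (M : ℚ) * e2
    · rintro q x - ⟨M, hM, a, ha, b, hb, h⟩
      have hq : (q.den : ℚ) * q = q.num := by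
        rw [mul_comm]
        exact Rat.mul_den_eq_num q
      rcases le_total 0 q.num with hn | hn
      · obtain ⟨n, hn'⟩ := Int.eq_ofNat_of_zero_le hn
        refine ⟨q.den * M, Nat.mul_pos q.den_pos hM, n • a, hmul _ _ ha, n • b, hmul _ _ hb, ?_⟩
        ext i
        have e1 := congrFun h i
        have e3 : (q.den : ℚ) * q = n := by
          rw [hq, hn']
          simp
        simp only [ca, Pi.smul_apply, Pi.sub_apply] at e1 ⊢
        simp only [smul_eq_mul, nsmul_eq_mul, Int.cast_mul, Int.cast_natCast,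
          Nat.cast_mul] at e1 ⊢
        linear_combination (M : ℚ) * x i * e3 + (n : ℚ) * e1
      · obtain ⟨n, hn'⟩ := Int.eq_ofNat_of_zero_le (neg_nonneg.2 hn)
        refine ⟨q.den * M, Nat.mul_pos q.den_pos hM, n • b, hmul _ _ hb, n • a, hmul _ _ ha, ?_⟩
        ext i
        have e1 := congrFun h i
        have e4 : q.num = -(n : ℤ) := by
          have e5 : -q.num = (n : ℤ) := hn'
          omega
        have e3 : (q.den : ℚ) * q = -n := by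
          rw [hq, e4]
          simp
        simp only [ca, Pi.smul_apply, Pi.sub_apply] at e1 ⊢
        simp only [smul_eq_mul, nsmul_eq_mul, Int.cast_mul, Int.cast_natCast,
          Nat.cast_mul] at e1 ⊢
        linear_combination (M : ℚ) * x i * e3 - (n : ℚ) * e1
  obtain ⟨M, hM, a, ha, b, hb, h⟩ := key _ hd
  refine ⟨M, hM, a, ha, b, hb, ?_⟩
  ext i
  have e1 := congrFun h i
  simp only [ca, Pi.smul_apply, Pi.sub_apply, smul_eq_mul, nsmul_eq_mul] at e1 ⊢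
  exact_mod_cast e1

/-- integral functionals vanishing on a proper subspace -/
theorem exists_int (p : Submodule ℚ (Fin m → ℚ)) (hp : Module.finrank ℚ p < m) :
    ∃ l : Fin m → ℤ, l ≠ 0 ∧ ∀ u : Fin m → ℤ, ca u ∈ p → l ⬝ᵥ u = 0 := by
  have hlt : p < ⊤ := by
    refine lt_top_iff_ne_top.2 fun e => ?_
    rw [e, finrank_top, Module.finrank_fin_fun] at hp
    exact lt_irrefl _ hp
  obtain ⟨f, hf0, hf⟩ := Submodule.exists_le_ker_of_lt_top p hlt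
  let q : Fin m → ℚ := fun i => f fun j => if i = j then 1 else 0
  let N : ℕ := ∏ i, (q i).den
  have hN : (N : ℚ) ≠ 0 := by
    have : 0 < N := Finset.prod_pos fun i _ => (q i).den_pos
    exact_mod_cast this.ne'
  have hz : ∀ i, ∃ z : ℤ, (z : ℚ) = N * q i := by
    intro i
    obtain ⟨c, hc⟩ : (q i).den ∣ N := Finset.dvd_prod_of_mem (fun i => (q i).den) (Finset.mem_univ i)
    refine ⟨c * (q i).num, ?_⟩
    rw [hc]
    push_cast
    have := Rat.mul_den_eq_num (q i)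
    linear_combination -(c : ℚ) * this
  choose l hl using hz
  have hfl : ∀ x : Fin m → ℚ, fn l x = N * f x := by
    intro x
    rw [LinearMap.pi_apply_eq_sum_univ f x]
    change ca l ⬝ᵥ x = _
    simp only [dotProduct, ca, Finset.mul_sum, smul_eq_mul]
    refine Finset.sum_congr rfl fun i _ => ?_
    rw [hl i]
    change (N : ℚ) * q i * x i = N * (x i * q i)
    ring
  refine ⟨l, fun e => hf0 ?_, fun u hu => ?_⟩
  · refine LinearMap.ext fun x => ?_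
    have h1 := hfl x
    have h2 : fn l x = 0 := by
      rw [e]
      change ca 0 ⬝ᵥ x = 0
      simp [ca, dotProduct]
    rw [h2] at h1
    rcases mul_eq_zero.1 h1.symm with h3 | h3
    · exact absurd h3 hN
    · exact h3
  · have h1 := hfl (ca u)
    rw [LinearMap.mem_ker.1 (hf hu), mul_zero, fn_ca] at h1
    exact_mod_cast h1

section

variable {k : Type u} [Field k] {K : Type v} [Field K] [Algebra k K]
  {σ κ : Type} [Fintype σ] [Fintype κ] (X : HD k K σ κ m)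

theorem nonneg_of_gen {S : Finset (Fin m → ℤ)}
    (hS : AddSubmonoid.closure (S : Set (Fin m → ℤ)) = X.Γ) {ρ : Fin m → ℤ}
    (h : ∀ s ∈ S, 0 ≤ ρ ⬝ᵥ s) : ∀ g ∈ X.Γ, 0 ≤ ρ ⬝ᵥ g := by
  intro g hg
  rw [← hS] at hg
  refine AddSubmonoid.closure_induction (motive := fun g _ => 0 ≤ ρ ⬝ᵥ g) ?_ ?_ ?_ hg
  · exact fun x hx => h x hx
  · rw [dotProduct_zero]
  · intro x y _ _ hx hy
    rw [dotProduct_add]
    exact add_nonneg hx hy

theorem start (τ : Set (Fin m → ℤ)) (hτ : X.IsFace τ) (u : Fin m → ℤ) (hu : u ∈ X.Γ)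
    (hn : u ∉ τ) :
    ∃ ρ : Fin m → ℤ, (∀ g ∈ X.Γ, 0 ≤ ρ ⬝ᵥ g) ∧ (∀ t ∈ τ, ρ ⬝ᵥ t = 0) ∧ 0 < ρ ⬝ᵥ u := by
  obtain ⟨S, hS⟩ := X.Γfg
  let S' : Finset (Fin m → ℤ) := S ∪ (S.filter (· ∈ τ)).image fun t => -t
  rcases farkas S'.card S' le_rfl (-u) with ⟨N, hN, h⟩ | ⟨ρ, hρ, hρu⟩
  · exfalso
    have h1 : ∀ x ∈ AddSubmonoid.closure (S' : Set (Fin m → ℤ)), ∃ g ∈ X.Γ, ∃ t ∈ τ,
        x = g - t := by
      intro x hx
      refine AddSubmonoid.closure_induction (motive := fun x _ => ∃ g ∈ X.Γ, ∃ t ∈ τ, x = g - t)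
        ?_ ?_ ?_ hx
      · intro x hx
        rcases Finset.mem_union.1 (Finset.mem_coe.1 hx) with h2 | h2
        · refine ⟨x, ?_, 0, hτ.zero, (sub_zero x).symm⟩
          rw [← hS]
          exact AddSubmonoid.subset_closure h2
        · obtain ⟨t, ht, rfl⟩ := Finset.mem_image.1 h2
          exact ⟨0, X.Γ.zero_mem, t, (Finset.mem_filter.1 ht).2, (zero_sub t).symm⟩
      · exact ⟨0, X.Γ.zero_mem, 0, hτ.zero, (sub_zero _).symm⟩
      · rintro x y - - ⟨g, hg, t, ht, rfl⟩ ⟨g', hg', t', ht', rfl⟩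
        refine ⟨g + g', add_mem hg hg', t + t', hτ.add t ht t' ht', ?_⟩
        abel
    obtain ⟨g, hg, t, ht, e⟩ := h1 _ h
    have e2 : N • u + g = t := by
      rw [smul_neg] at e
      have : g = t - N • u := by
        rw [sub_eq_iff_eq_add.1 e.symm]
        abel
      rw [this]
      abel
    have h3 : N • u ∈ τ := hτ.of_add _ (X.Γ.nsmul_mem hu N) g hg (by rw [e2]; exact ht)
    obtain ⟨N', rfl⟩ : ∃ N', N = N' + 1 := ⟨N - 1, by omega⟩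
    rw [succ_nsmul'] at h3
    exact hn (hτ.of_add u hu _ (X.Γ.nsmul_mem hu N') h3)
  · have h0 : ∀ g ∈ X.Γ, 0 ≤ ρ ⬝ᵥ g :=
      nonneg_of_gen X hS fun s hs => hρ s (Finset.mem_union_left _ hs)
    refine ⟨ρ, h0, ?_, ?_⟩
    · have h1 : ∀ x ∈ AddSubmonoid.closure (S : Set (Fin m → ℤ)), x ∈ τ → ρ ⬝ᵥ x ≤ 0 := by
        intro x hx
        refine AddSubmonoid.closure_induction (motive := fun x _ => x ∈ τ → ρ ⬝ᵥ x ≤ 0) ?_ ?_ ?_ hx
        · intro x hx hxτ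
          have h2 := hρ (-x) (Finset.mem_union_right _ (Finset.mem_image_of_mem _
            (Finset.mem_filter.2 ⟨hx, hxτ⟩)))
          rw [dotProduct_neg] at h2
          omega
        · intro _
          rw [dotProduct_zero]
        · intro x y hx hy ihx ihy hxy
          rw [hS] at hx hy
          have hx' := hτ.of_add x hx y hy hxy
          have hy' := hτ.of_add y hy x hx (by rw [add_comm]; exact hxy)
          rw [dotProduct_add]
          have := ihx hx'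
          have := ihy hy'
          omega
      intro t ht
      exact le_antisymm (h1 t (by rw [hS]; exact hτ.le t ht) ht) (h0 t (hτ.le t ht))
    · rw [dotProduct_neg] at hρu
      omega

theorem rk_le {ρ u : Fin m → ℤ} (hu : ρ ⬝ᵥ u ≠ 0) : HD.rk (X.zs ρ) + 1 ≤ m := by
  have h1 : sp (X.zs ρ) ≠ ⊤ := fun e =>
    not_mem_of_ne (τ := X.zs ρ) (w := ρ) (fun t ht => ht.2) hu (by rw [e]; trivial)
  have h2 := Submodule.finrank_lt h1
  rw [Module.finrank_fin_fun] at h2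
  exact h2

theorem facet_step (hdiff : ∀ u : Fin m → ℤ, ∃ a ∈ X.Γ, ∃ b ∈ X.Γ, u = a - b)
    (ρ : Fin m → ℤ) (h0 : ∀ g ∈ X.Γ, 0 ≤ ρ ⬝ᵥ g) (u : Fin m → ℤ) (hu : 0 < ρ ⬝ᵥ u)
    (hrk : HD.rk (X.zs ρ) + 1 < m) :
    ∃ ρ' : Fin m → ℤ, (∀ g ∈ X.Γ, 0 ≤ ρ' ⬝ᵥ g) ∧ (∀ t ∈ X.zs ρ, ρ' ⬝ᵥ t = 0) ∧
      0 < ρ' ⬝ᵥ u ∧ HD.rk (X.zs ρ) < HD.rk (X.zs ρ') := by
  obtain ⟨S, hS⟩ := X.Γfg
  have hSΓ : ∀ s ∈ S, s ∈ X.Γ := fun s hs => by
    rw [← hS]
    exact AddSubmonoid.subset_closure hs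
  have hfr : Module.finrank ℚ (sp (X.zs ρ) ⊔ Submodule.span ℚ {ca u} : Submodule ℚ (Fin m → ℚ)) <
      m := by
    have h1 := Submodule.finrank_add_le_finrank_add_finrank (sp (X.zs ρ)) (Submodule.span ℚ {ca u})
    have h2 : Module.finrank ℚ (Submodule.span ℚ {ca u} : Submodule ℚ (Fin m → ℚ)) ≤ 1 := by
      have := finrank_span_le_card (R := ℚ) ({ca u} : Set (Fin m → ℚ))
      simpa using this
    have h3 : HD.rk (X.zs ρ) = Module.finrank ℚ (sp (X.zs ρ)) := rfl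
    omega
  obtain ⟨l₀, hl₀, hl₀'⟩ := exists_int _ hfr
  have hl1 : ∃ s ∈ S, l₀ ⬝ᵥ s ≠ 0 := by
    by_contra hcon
    push Not at hcon
    have h1 : ∀ g ∈ X.Γ, l₀ ⬝ᵥ g = 0 := by
      intro g hg
      rw [← hS] at hg
      refine AddSubmonoid.closure_induction (motive := fun g _ => l₀ ⬝ᵥ g = 0) ?_ ?_ ?_ hg
      · exact fun x hx => hcon x hx
      · exact dotProduct_zero _
      · intro x y _ _ hx hy
        rw [dotProduct_add, hx, hy, add_zero]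
    obtain ⟨a, ha, b, hb, e⟩ := hdiff l₀
    have h2 : l₀ ⬝ᵥ l₀ = 0 := by
      calc l₀ ⬝ᵥ l₀ = l₀ ⬝ᵥ (a - b) := by rw [← e]
        _ = 0 := by rw [dotProduct_sub, h1 a ha, h1 b hb, sub_zero]
    exact hl₀ (dotProduct_self_eq_zero.1 h2)
  obtain ⟨l, hlz, hl2⟩ : ∃ l : Fin m → ℤ, (∀ x : Fin m → ℤ, ca x ∈
      (sp (X.zs ρ) ⊔ Submodule.span ℚ {ca u} : Submodule ℚ (Fin m → ℚ)) → l ⬝ᵥ x = 0) ∧
      ∃ s ∈ S, l ⬝ᵥ s < 0 := by
    obtain ⟨s, hs, hs0⟩ := hl1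
    rcases lt_or_gt_of_ne hs0 with h1 | h1
    · exact ⟨l₀, hl₀', s, hs, h1⟩
    · refine ⟨-l₀, fun x hx => ?_, s, hs, ?_⟩
      · rw [neg_dotProduct, hl₀' x hx, neg_zero]
      · rw [neg_dotProduct]
        omega
  have hlz1 : ∀ t ∈ X.zs ρ, l ⬝ᵥ t = 0 := fun t ht =>
    hlz t (Submodule.mem_sup_left (ca_mem ht))
  have hlu : l ⬝ᵥ u = 0 := hlz u (Submodule.mem_sup_right (Submodule.mem_span_singleton_self _))
  obtain ⟨s₀, hs₀, hs₀'⟩ := hl2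
  obtain ⟨g, hgF, hmin⟩ := Finset.exists_min_image (S.filter fun s => l ⬝ᵥ s < 0)
    (fun s => ((ρ ⬝ᵥ s : ℤ) : ℚ) / ((-(l ⬝ᵥ s) : ℤ) : ℚ))
    ⟨s₀, Finset.mem_filter.2 ⟨hs₀, hs₀'⟩⟩
  obtain ⟨hgS, hgl⟩ := Finset.mem_filter.1 hgF
  have hgΓ := hSΓ g hgS
  have hρg : 0 < ρ ⬝ᵥ g := by
    refine lt_of_le_of_ne (h0 g hgΓ) fun e => ?_
    have := hlz1 g ⟨hgΓ, e.symm⟩
    omega
  have hval : ∀ x, ((-(l ⬝ᵥ g)) • ρ + (ρ ⬝ᵥ g) • l) ⬝ᵥ x =
      (-(l ⬝ᵥ g)) * (ρ ⬝ᵥ x) + (ρ ⬝ᵥ g) * (l ⬝ᵥ x) := by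
    intro x
    simp only [add_dotProduct, smul_dotProduct, smul_eq_mul]
  have hsub : X.zs ρ ⊆ X.zs ((-(l ⬝ᵥ g)) • ρ + (ρ ⬝ᵥ g) • l) := by
    intro t ht
    refine ⟨ht.1, ?_⟩
    rw [hval, hlz1 t ht, ht.2]
    ring
  have hgz : g ∈ X.zs ((-(l ⬝ᵥ g)) • ρ + (ρ ⬝ᵥ g) • l) := by
    refine ⟨hgΓ, ?_⟩
    rw [hval]
    ring
  refine ⟨(-(l ⬝ᵥ g)) • ρ + (ρ ⬝ᵥ g) • l, ?_, fun t ht => (hsub ht).2, ?_, ?_⟩
  · refine nonneg_of_gen X hS fun s hs => ?_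
    rw [hval]
    have hρs := h0 s (hSΓ s hs)
    rcases lt_or_ge (l ⬝ᵥ s) 0 with h1 | h1
    · have h2 := hmin s (Finset.mem_filter.2 ⟨hs, h1⟩)
      have ha : (0 : ℚ) < ((-(l ⬝ᵥ g) : ℤ) : ℚ) := by
        have : 0 < -(l ⬝ᵥ g) := by omega
        exact_mod_cast this
      have hb : (0 : ℚ) < ((-(l ⬝ᵥ s) : ℤ) : ℚ) := by
        have : 0 < -(l ⬝ᵥ s) := by omega
        exact_mod_cast this
      have h3 := (div_le_div_iff₀ ha hb).1 h2
      have h4 : (ρ ⬝ᵥ g) * (-(l ⬝ᵥ s)) ≤ (ρ ⬝ᵥ s) * (-(l ⬝ᵥ g)) := by exact_mod_cast h3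
      linarith
    · have h2 : 0 ≤ -(l ⬝ᵥ g) := by omega
      exact add_nonneg (mul_nonneg h2 hρs) (mul_nonneg hρg.le h1)
  · rw [hval, hlu, mul_zero, add_zero]
    exact mul_pos (by omega) hu
  · have h1 : sp (X.zs ρ) < sp (X.zs ((-(l ⬝ᵥ g)) • ρ + (ρ ⬝ᵥ g) • l)) := by
      refine lt_of_le_of_ne (sp_mono hsub) fun e => ?_
      refine not_mem_of_ne (τ := X.zs ρ) (w := ρ) (u := g) (fun t ht => ht.2) hρg.ne' ?_
      rw [e]
      exact ca_mem hgz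
    exact Submodule.finrank_lt_finrank_of_lt h1

theorem exists_facet (hdiff : ∀ u : Fin m → ℤ, ∃ a ∈ X.Γ, ∃ b ∈ X.Γ, u = a - b)
    (u : Fin m → ℤ) (d : ℕ) : ∀ ρ : Fin m → ℤ, (∀ g ∈ X.Γ, 0 ≤ ρ ⬝ᵥ g) → 0 < ρ ⬝ᵥ u →
      m ≤ HD.rk (X.zs ρ) + 1 + d →
      ∃ ρ' : Fin m → ℤ, (∀ g ∈ X.Γ, 0 ≤ ρ' ⬝ᵥ g) ∧ (∀ t ∈ X.zs ρ, ρ' ⬝ᵥ t = 0) ∧
        0 < ρ' ⬝ᵥ u ∧ HD.rk (X.zs ρ') + 1 = m := by
  induction d with
  | zero =>
    intro ρ h0 hu hd
    have := rk_le X hu.ne'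
    exact ⟨ρ, h0, fun t ht => ht.2, hu, by omega⟩
  | succ d ih =>
    intro ρ h0 hu hd
    have h1 := rk_le X hu.ne'
    by_cases h2 : HD.rk (X.zs ρ) + 1 = m
    · exact ⟨ρ, h0, fun t ht => ht.2, hu, h2⟩
    · obtain ⟨ρ', h0', hz, hu', hr⟩ := facet_step X hdiff ρ h0 u hu (by omega)
      obtain ⟨ρ'', h0'', hz', hu'', hr'⟩ := ih ρ' h0' hu' (by omega)
      exact ⟨ρ'', h0'', fun t ht => hz' t ⟨ht.1, hz t ht⟩, hu'', hr'⟩

/-- the zero set of a facet spans the kernel -/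
theorem mem_sp_of_facet {ρ u : Fin m → ℤ} (hu : ρ ⬝ᵥ u ≠ 0) (hrk : HD.rk (X.zs ρ) + 1 = m)
    {d : Fin m → ℤ} (hd : ρ ⬝ᵥ d = 0) : ca d ∈ sp (X.zs ρ) := by
  have h1 : sp (X.zs ρ) ≤ LinearMap.ker (fn ρ) := sp_le_ker fun t ht => ht.2
  have h2 : LinearMap.ker (fn ρ) < ⊤ := by
    refine lt_top_iff_ne_top.2 fun e => ?_
    have h3 : ca u ∈ LinearMap.ker (fn ρ) := by rw [e]; trivial
    rw [LinearMap.mem_ker, fn_ca] at h3
    exact hu (by exact_mod_cast h3)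
  have h4 := Submodule.finrank_lt h2.ne
  rw [Module.finrank_fin_fun] at h4
  have h5 : sp (X.zs ρ) = LinearMap.ker (fn ρ) := by
    refine Submodule.eq_of_le_of_finrank_le h1 ?_
    have h6 : HD.rk (X.zs ρ) = Module.finrank ℚ (sp (X.zs ρ)) := rfl
    omega
  rw [h5, LinearMap.mem_ker, fn_ca, hd, Int.cast_zero]

theorem prim_step (hsat : ∀ (u : Fin m → ℤ) (N : ℕ), 1 ≤ N → N • u ∈ X.Γ → u ∈ X.Γ)
    (ρ : Fin m → ℤ) (u : Fin m → ℤ) (huΓ : u ∈ X.Γ)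
    (hu : 0 < ρ ⬝ᵥ u) (hrk : HD.rk (X.zs ρ) + 1 = m) :
    ∃ (ρ' : Fin m → ℤ) (c : ℤ), 0 < c ∧ ρ = c • ρ' ∧ ∃ x ∈ X.Γ, ρ' ⬝ᵥ x = 1 := by
  have hP : ∃ n : ℕ, 0 < n ∧ ∃ x : Fin m → ℤ, ρ ⬝ᵥ x = n := by
    obtain ⟨n, hn⟩ := Int.eq_ofNat_of_zero_le hu.le
    refine ⟨n, ?_, u, hn⟩
    have : (0 : ℤ) < (n : ℤ) := hn ▸ hu
    exact_mod_cast this
  obtain ⟨hc, v₀, hv₀⟩ := Nat.find_spec hP
  set c := Nat.find hP with hcdef
  have hdvd : ∀ x : Fin m → ℤ, (c : ℤ) ∣ ρ ⬝ᵥ x := by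
    intro x
    rw [Int.dvd_iff_emod_eq_zero]
    by_contra hne
    have hcpos : (0 : ℤ) < c := by exact_mod_cast hc
    have h1 : 0 ≤ (ρ ⬝ᵥ x) % c := Int.emod_nonneg _ hcpos.ne'
    have h2 : (ρ ⬝ᵥ x) % c < c := Int.emod_lt_of_pos _ hcpos
    obtain ⟨r, hr⟩ := Int.eq_ofNat_of_zero_le h1
    have h3 : r < c := by
      have : (r : ℤ) < c := by rw [← hr]; exact h2
      exact_mod_cast this
    have h4 : 0 < r := by
      rcases Nat.eq_zero_or_pos r with h5 | h5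
      · exact absurd (by rw [hr, h5]; rfl) hne
      · exact h5
    refine Nat.find_min hP h3 ⟨h4, x - ((ρ ⬝ᵥ x) / c) • v₀, ?_⟩
    rw [dotProduct_sub, dotProduct_smul, hv₀, smul_eq_mul]
    have h5 := Int.mul_ediv_add_emod (ρ ⬝ᵥ x) c
    rw [hr] at h5
    have h6 : (ρ ⬝ᵥ x) / c * c = c * ((ρ ⬝ᵥ x) / c) := mul_comm _ _
    rw [h6]
    omega
  have hcpos : (0 : ℤ) < c := by exact_mod_cast hc
  have hρi : ∀ i, ∃ z : ℤ, ρ i = c * z := fun i => by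
    have h1 := hdvd (Pi.single i 1)
    rw [dotProduct_single, mul_one] at h1
    exact h1
  choose ρ' hρ' using hρi
  have hρe : ρ = (c : ℤ) • ρ' := by
    ext i
    rw [Pi.smul_apply, smul_eq_mul, hρ' i]
  have hdot : ∀ x, ρ ⬝ᵥ x = c * (ρ' ⬝ᵥ x) := fun x => by
    conv_lhs => rw [hρe]
    rw [smul_dotProduct, smul_eq_mul]
  refine ⟨ρ', c, hcpos, hρe, ?_⟩
  obtain ⟨s, hs⟩ := hdvd u
  have hspos : 0 < s := by
    rw [hs] at hu
    exact (mul_pos_iff_of_pos_left hcpos).1 hu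
  obtain ⟨s, rfl⟩ := Int.eq_ofNat_of_zero_le hspos.le
  have hspos' : 0 < s := by exact_mod_cast hspos
  have hd : ρ ⬝ᵥ (s • v₀ - u) = 0 := by
    rw [dotProduct_sub, dotProduct_smul, hv₀, hs, nsmul_eq_mul]
    ring
  have hmem := mem_sp_of_facet X hu.ne' hrk hd
  obtain ⟨M, hM, a, ha, b, hb, e⟩ := ratio (τ := X.zs ρ)
    ⟨X.Γ.zero_mem, dotProduct_zero _⟩
    (fun x hx y hy => ⟨add_mem hx.1 hy.1, by rw [dotProduct_add, hx.2, hy.2, add_zero]⟩) hmem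
  have h1 : s • v₀ - u + b ∈ X.Γ := by
    refine hsat _ M hM ?_
    have h2 : M • (s • v₀ - u + b) = a + (M - 1) • b := by
      obtain ⟨M', rfl⟩ : ∃ M', M = M' + 1 := ⟨M - 1, by omega⟩
      rw [smul_add, e, Nat.add_sub_cancel, succ_nsmul]
      abel
    rw [h2]
    exact add_mem ha.1 (X.Γ.nsmul_mem hb.1 _)
  have h3 : v₀ + b ∈ X.Γ := by
    refine hsat _ s hspos' ?_
    have h4 : s • (v₀ + b) = (s • v₀ - u + b) + u + (s - 1) • b := by
      obtain ⟨s', rfl⟩ : ∃ s', s = s' + 1 := ⟨s - 1, by omega⟩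
      rw [smul_add, Nat.add_sub_cancel, succ_nsmul b s']
      abel
    rw [h4]
    exact add_mem (add_mem h1 huΓ) (X.Γ.nsmul_mem hb.1 _)
  refine ⟨v₀ + b, h3, ?_⟩
  have h5 := hdot (v₀ + b)
  rw [dotProduct_add, hv₀, hb.2, add_zero] at h5
  have h6 : (c : ℤ) * (ρ' ⬝ᵥ (v₀ + b) - 1) = 0 := by linarith
  rcases mul_eq_zero.1 h6 with h7 | h7
  · exact absurd h7 hcpos.ne'
  · omega

end

end ChainAux

section HD
variable {k : Type u} [Field k] {K : Type v} [Field K] [Algebra k K]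
  {σ κ : Type} [Fintype σ] [Fintype κ] {m : ℕ} (X : HD k K σ κ m)

namespace HD

open ChainAux

section CHAIN

theorem ext (hsat : ∀ (u : Fin m → ℤ) (N : ℕ), 1 ≤ N → N • u ∈ X.Γ → u ∈ X.Γ)
    (hdiff : ∀ u : Fin m → ℤ, ∃ a ∈ X.Γ, ∃ b ∈ X.Γ, u = a - b) (τ : Set (Fin m → ℤ))
    (hτ : X.IsFace τ) (u : Fin m → ℤ) (hu : u ∈ X.Γ) (hn : u ∉ τ) :
    ∃ ρ, X.IsExt ρ ∧ (∀ t ∈ τ, ρ ⬝ᵥ t = 0) ∧ 0 < ρ ⬝ᵥ u := by
  obtain ⟨ρ₀, h0, hz, hpos⟩ := start X τ hτ u hu hn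
  obtain ⟨ρ₁, h1, hz1, hpos1, hr1⟩ := exists_facet X hdiff u m ρ₀ h0 hpos (by omega)
  obtain ⟨ρ, c, hc, e, x, hx, hx1⟩ := prim_step X hsat ρ₁ u hu hpos1 hr1
  have hdot : ∀ y, ρ₁ ⬝ᵥ y = c * (ρ ⬝ᵥ y) := fun y => by
    rw [e, smul_dotProduct, smul_eq_mul]
  have hzs : X.zs ρ = X.zs ρ₁ := by
    refine Set.ext fun y => ⟨fun hy => ⟨hy.1, by rw [hdot, hy.2, mul_zero]⟩, fun hy => ⟨hy.1, ?_⟩⟩
    have h2 := hy.2
    rw [hdot] at h2
    rcases mul_eq_zero.1 h2 with h3 | h3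
    · exact absurd h3 hc.ne'
    · exact h3
  refine ⟨ρ, ⟨fun y hy => ?_, by rw [hzs]; exact hr1, x, hx, hx1⟩, fun t ht => ?_, ?_⟩
  · have h2 := h1 y hy
    rw [hdot] at h2
    exact nonneg_of_mul_nonneg_right h2 hc
  · have h3 : t ∈ X.zs ρ₁ := ⟨hτ.le t ht, hz1 t ⟨hτ.le t ht, hz t ht⟩⟩
    rw [← hzs] at h3
    exact h3.2
  · rw [hdot] at hpos1
    exact (mul_pos_iff_of_pos_left hc).1 hpos1

theorem drop (hsat : ∀ (u : Fin m → ℤ) (N : ℕ), 1 ≤ N → N • u ∈ X.Γ → u ∈ X.Γ)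
    (hdiff : ∀ u : Fin m → ℤ, ∃ a ∈ X.Γ, ∃ b ∈ X.Γ, u = a - b) (τ : Set (Fin m → ℤ))
    (hτ : X.IsFace τ) (ρ : Fin m → ℤ) (hρ : X.IsExt ρ) (u : Fin m → ℤ) (hu : u ∈ τ)
    (h : 0 < ρ ⬝ᵥ u) :
    X.dd {t | t ∈ τ ∧ ρ ⬝ᵥ t = 0} + X.cc ρ ≤ X.dd τ ∧
    rk {t | t ∈ τ ∧ ρ ⬝ᵥ t = 0} < rk τ := by
  have hrk : rk {t | t ∈ τ ∧ ρ ⬝ᵥ t = 0} < rk τ := by
    have h1 : sp {t | t ∈ τ ∧ ρ ⬝ᵥ t = 0} < sp τ := by
      refine lt_of_le_of_ne (sp_mono fun t ht => ht.1) fun e => ?_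
      refine not_mem_of_ne (τ := {t | t ∈ τ ∧ ρ ⬝ᵥ t = 0}) (w := ρ) (u := u)
        (fun t ht => ht.2) h.ne' ?_
      rw [e]
      exact ca_mem hu
    exact Submodule.finrank_lt_finrank_of_lt h1
  refine ⟨?_, hrk⟩
  have hk1 : X.kinds {t | t ∈ τ ∧ ρ ⬝ᵥ t = 0} ⊆ X.kinds τ := by
    rintro c ⟨t, ht, h1⟩
    exact ⟨t, ht.1, h1⟩
  have hk2 : X.kinds {t | t ∈ τ ∧ ρ ⬝ᵥ t = 0} ⊆ X.kinds (X.zs ρ) := by
    rintro c ⟨t, ht, h1⟩
    exact ⟨t, ⟨hτ.le t ht.1, ht.2⟩, h1⟩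
  have hsub : ∀ {T T' : Set κ}, T ⊆ T' → X.sub T ⊆ X.sub T' := by
    rintro T T' hT s ⟨c, hc, h1⟩
    exact ⟨c, hT hc, h1⟩
  have hkey : (X.sub (X.kinds (X.zs ρ)))ᶜ ⊆ X.sub (X.kinds τ) := by
    intro s hs
    obtain ⟨c, hcs, -⟩ := X.M_mem s
    have hc : c ∉ X.kinds (X.zs ρ) := fun h1 => hs ⟨c, h1, hcs⟩
    refine ⟨c, ?_, hcs⟩
    have hc0 : ∀ t ∈ X.zs ρ, X.Λ c ⬝ᵥ t = 0 := fun t ht =>
      le_antisymm (not_lt.1 fun h1 => hc ⟨t, ht, h1⟩) (X.Λ_nonneg c t ht.1)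
    refine ⟨u, hu, ?_⟩
    refine lt_of_le_of_ne (X.Λ_nonneg c u (hτ.le u hu)) fun e => ?_
    obtain ⟨t, ht, hpos⟩ := X.Λ_pos c
    -- combination of `t` and `u` in the kernel of `ρ`
    have h1 : ρ ⬝ᵥ ((ρ ⬝ᵥ u) • t - (ρ ⬝ᵥ t) • u) = 0 := by
      rw [dotProduct_sub, dotProduct_smul, dotProduct_smul, smul_eq_mul, smul_eq_mul]
      ring
    have h2 := mem_sp_of_facet X h.ne' hρ.facet h1
    have h3 := sp_le_ker hc0 h2
    rw [LinearMap.mem_ker, fn_ca, dotProduct_sub, dotProduct_smul, dotProduct_smul, ← e,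
      smul_zero, sub_zero, smul_eq_mul] at h3
    have h4 : (ρ ⬝ᵥ u) * (X.Λ c ⬝ᵥ t) = 0 := by exact_mod_cast h3
    exact (mul_pos h hpos).ne' h4
  have hcard : (X.sub (X.kinds {t | t ∈ τ ∧ ρ ⬝ᵥ t = 0})).ncard +
      (Fintype.card σ - (X.sub (X.kinds (X.zs ρ))).ncard) ≤ (X.sub (X.kinds τ)).ncard := by
    have h1 : (X.sub (X.kinds (X.zs ρ)))ᶜ.ncard =
        Fintype.card σ - (X.sub (X.kinds (X.zs ρ))).ncard := by
      rw [Set.ncard_compl, Nat.card_eq_fintype_card]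
    rw [← h1, ← Set.ncard_union_eq]
    · exact Set.ncard_le_ncard (Set.union_subset (hsub hk1) hkey) (Set.toFinite _)
    · exact Set.disjoint_left.2 fun s hs hs' => hs' (hsub hk2 hs)
  unfold dd cc
  omega

theorem chain (hsat : ∀ (u : Fin m → ℤ) (N : ℕ), 1 ≤ N → N • u ∈ X.Γ → u ∈ X.Γ)
    (hdiff : ∀ u : Fin m → ℤ, ∃ a ∈ X.Γ, ∃ b ∈ X.Γ, u = a - b)
    (γ : (K × (Fin m → ℤ)) →₀ ℝ) (τ : Set (Fin m → ℤ)) (hτ : X.IsFace τ)
    (hm : ∀ ρ, X.IsExt ρ → (∀ t ∈ τ, ρ ⬝ᵥ t = 0) → mu γ ρ ≤ X.cc ρ)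
    (w : Fin m → ℤ) (hw : ∀ u ∈ X.Γ, 0 ≤ w ⬝ᵥ u) (hw0 : ∀ u ∈ τ, w ⬝ᵥ u = 0) :
    ∃ w' : Fin m → ℤ, (∀ u ∈ X.Γ, 0 ≤ w' ⬝ᵥ u) ∧ (∀ u ∈ X.Γ, w' ⬝ᵥ u = 0 ↔ u ∈ τ) ∧
      mu γ w' + X.dd τ ≤ mu γ w + X.dd (X.zs w) := by
  have main : ∀ (n : ℕ) (w : Fin m → ℤ), rk (X.zs w) ≤ n → (∀ u ∈ X.Γ, 0 ≤ w ⬝ᵥ u) →
      (∀ u ∈ τ, w ⬝ᵥ u = 0) →
      ∃ w' : Fin m → ℤ, (∀ u ∈ X.Γ, 0 ≤ w' ⬝ᵥ u) ∧ (∀ u ∈ X.Γ, w' ⬝ᵥ u = 0 ↔ u ∈ τ) ∧
        mu γ w' + X.dd τ ≤ mu γ w + X.dd (X.zs w) := by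
    intro n
    induction n with
    | zero =>
      intro w hn hw hw0
      by_cases hz : ∃ u ∈ X.zs w, u ∉ τ
      · exfalso
        obtain ⟨u, hu, hnu⟩ := hz
        obtain ⟨ρ, hρ, hρτ, hρu⟩ := ext X hsat hdiff τ hτ u hu.1 hnu
        have hface : X.IsFace (X.zs w) := ⟨fun t ht => ht.1, ⟨X.Γ.zero_mem, dotProduct_zero _⟩,
          fun a ha b hb => ⟨add_mem ha.1 hb.1, by rw [dotProduct_add, ha.2, hb.2, add_zero]⟩,
          fun a ha b hb hab => ⟨ha, by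
            have h1 := hab.2
            rw [dotProduct_add] at h1
            have := hw a ha
            have := hw b hb
            omega⟩⟩
        have := (drop X hsat hdiff (X.zs w) hface ρ hρ u hu hρu).2
        omega
      · push Not at hz
        have e : X.zs w = τ := Set.Subset.antisymm hz fun t ht => ⟨hτ.le t ht, hw0 t ht⟩
        refine ⟨w, hw, fun u hu => ⟨fun h1 => hz u ⟨hu, h1⟩, hw0 u⟩, ?_⟩
        rw [e]
    | succ n ih =>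
      intro w hn hw hw0
      by_cases hz : ∃ u ∈ X.zs w, u ∉ τ
      · obtain ⟨u, hu, hnu⟩ := hz
        obtain ⟨ρ, hρ, hρτ, hρu⟩ := ext X hsat hdiff τ hτ u hu.1 hnu
        have hface : X.IsFace (X.zs w) := ⟨fun t ht => ht.1, ⟨X.Γ.zero_mem, dotProduct_zero _⟩,
          fun a ha b hb => ⟨add_mem ha.1 hb.1, by rw [dotProduct_add, ha.2, hb.2, add_zero]⟩,
          fun a ha b hb hab => ⟨ha, by
            have h1 := hab.2
            rw [dotProduct_add] at h1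
            have := hw a ha
            have := hw b hb
            omega⟩⟩
        obtain ⟨hd, hr⟩ := drop X hsat hdiff (X.zs w) hface ρ hρ u hu hρu
        have hzs : X.zs (w + ρ) = {t | t ∈ X.zs w ∧ ρ ⬝ᵥ t = 0} := by
          ext t
          constructor
          · rintro ⟨htΓ, ht⟩
            rw [add_dotProduct] at ht
            have := hw t htΓ
            have := hρ.nonneg t htΓ
            exact ⟨⟨htΓ, by omega⟩, by omega⟩
          · rintro ⟨⟨htΓ, ht⟩, ht'⟩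
            exact ⟨htΓ, by rw [add_dotProduct, ht, ht', add_zero]⟩
        obtain ⟨w', h1, h2, h3⟩ := ih (w + ρ) (by rw [hzs]; omega)
          (fun t ht => by
            rw [add_dotProduct]
            exact add_nonneg (hw t ht) (hρ.nonneg t ht))
          (fun t ht => by rw [add_dotProduct, hw0 t ht, hρτ t ht, add_zero])
        refine ⟨w', h1, h2, h3.trans ?_⟩
        have hmu : mu γ (w + ρ) = mu γ w + mu γ ρ := by
          unfold mu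
          have e1 : (γ.sum fun h r => r * (((w + ρ) ⬝ᵥ h.2 : ℤ) : ℝ)) =
              (γ.sum fun h r => r * ((w ⬝ᵥ h.2 : ℤ) : ℝ)) +
                γ.sum fun h r => r * ((ρ ⬝ᵥ h.2 : ℤ) : ℝ) := by
            rw [← Finsupp.sum_add]
            refine Finsupp.sum_congr fun h _ => ?_
            rw [add_dotProduct, Int.cast_add, mul_add]
          have e2 : ((∑ i, (w + ρ) i : ℤ) : ℝ) = ((∑ i, w i : ℤ) : ℝ) + ((∑ i, ρ i : ℤ) : ℝ) := by
            rw [← Int.cast_add, ← Finset.sum_add_distrib]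
            rfl
          rw [e1, e2]
          ring
        have h4 := hm ρ hρ hρτ
        have h5 : (X.dd (X.zs (w + ρ)) : ℝ) + X.cc ρ ≤ X.dd (X.zs w) := by
          rw [hzs]
          exact_mod_cast hd
        rw [hmu]
        linarith
      · push Not at hz
        have e : X.zs w = τ := Set.Subset.antisymm hz fun t ht => ⟨hτ.le t ht, hw0 t ht⟩
        refine ⟨w, hw, fun u hu => ⟨fun h1 => hz u ⟨hu, h1⟩, hw0 u⟩, ?_⟩
        rw [e]
  exact main _ w le_rfl hw hw0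

end CHAIN

end HD

end HD

end

end Pool.Agent.MLD.H
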