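import Pool.Agent.Lib.MP_f23696_ag.H.Nf

/-!
Module COA of the project HORO (MP_f23696_ag): coarse coordinates.
-/

set_option autoImplicit false

namespace Pool.Agent.MLD.H

open scoped Classical
noncomputable section

universe u v

section NF

variable {R : Type v} {n : ℕ}

theorem coarse_mem [Field R] {κ T : Set (Fin n)} (hT : T ⊆ κ) {L : Matrix (Fin n) (Fin n) R}
    (hL : IsCell κ L) (i j : Fin n) (h : Sep T i j) :
    cut T j ∈ T ∧ nf T L i j = minor L (cut T j) (repl (cut T j) i j) := by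
  obtain ⟨h1, -, -⟩ := Nf.cut_sep h
  refine ⟨h1, ?_⟩
  rw [nf, Matrix.of_apply, if_pos h, lead_cell hL _ (hT h1), div_one]

namespace Coa

/-- the block diagonal part -/
def blk [CommRing R] (T : Set (Fin n)) (L : Matrix (Fin n) (Fin n) R) :
    Matrix (Fin n) (Fin n) R :=
  Matrix.of fun i j => if Sep T i j then 0 else L i j

theorem sep_mono {κ T : Set (Fin n)} (hT : T ⊆ κ) {i j : Fin n} (h : Sep T i j) : Sep κ i j := by
  obtain ⟨c, hc, h1, h2⟩ := h
  exact ⟨c, hT hc, h1, h2⟩

theorem blk_cell [CommRing R] {κ T : Set (Fin n)} (hT : T ⊆ κ) {L : Matrix (Fin n) (Fin n) R}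
    (hL : IsCell κ L) : IsCell κ (blk T L) := by
  intro i j h
  rw [blk, Matrix.of_apply, if_neg (fun h' => h (sep_mono hT h')), hL i j h]

theorem nf_mul_blk [Field R] {κ T : Set (Fin n)} (hT : T ⊆ κ) {L : Matrix (Fin n) (Fin n) R}
    (hL : IsCell κ L) : nf T L * blk T L = L := by
  obtain ⟨Q', hQ', h1, h2⟩ := cell_inv (blk_cell hT hL)
  have hcell : IsCell T (L * Q') := by
    intro i j hij
    have e : ∀ l, L i l * Q' l j = blk T L i l * Q' l j := by
      intro l
      by_cases hs : Sep T i l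
      · obtain ⟨c, hc, h3, h4⟩ := hs
        have h5 : c < j := by
          by_contra h5
          exact hij ⟨c, hc, not_lt.1 h5, h4⟩
        have h6 : l < j := lt_of_le_of_lt h3 h5
        rw [hQ' l j (Nf.not_sep_of_le h6.le), if_neg h6.ne, mul_zero, mul_zero]
      · rw [blk, Matrix.of_apply, if_neg hs]
    rw [Matrix.mul_apply, Finset.sum_congr rfl fun l _ => e l, ← Matrix.mul_apply, h2,
      Matrix.one_apply]
  have heqv : Eqv T (L * Q') L := by
    intro c hc
    refine ⟨Nf.top (blk T L) c, ?_, ?_⟩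
    · rw [← Nf.lead_eq, lead_cell (blk_cell hT hL) c (hT hc)]
      exact isUnit_one
    · ext i q
      have e1 : L i (Fin.castLE c.2 q) = ((L * Q') * blk T L) i (Fin.castLE c.2 q) := by
        rw [Matrix.mul_assoc, h1, Matrix.mul_one]
      rw [Matrix.of_apply, e1, Matrix.mul_apply, Matrix.mul_apply]
      symm
      refine Finset.sum_of_injOn (Fin.castLE c.2) (fun a _ b _ h => Fin.castLE_injective _ h)
        (fun _ _ => Finset.mem_coe.2 (Finset.mem_univ _)) (fun l _ hl => ?_) (fun _ _ => rfl)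
      have h3 : ¬ ((l : ℕ) < c + 1) := by
        intro h3
        exact hl ⟨⟨l, h3⟩, Finset.mem_coe.2 (Finset.mem_univ _), rfl⟩
      have h4 : Sep T l (Fin.castLE c.2 q) := by
        refine ⟨c, hc, ?_, ?_⟩
        · rw [Fin.le_def]
          simpa using Nat.lt_succ_iff.1 q.2
        · rw [Fin.lt_def]
          omega
      rw [blk, Matrix.of_apply, if_pos h4, mul_zero]
  have hN : nf T L = L * Q' := by
    rw [← nf_congr heqv, nf_cell hcell]
  rw [hN, Matrix.mul_assoc, h1, Matrix.mul_one]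

theorem nf_mem {k : Type u} [Field k] [Field R] [Algebra k R] (T : Set (Fin n))
    (L : Matrix (Fin n) (Fin n) R) {S : Subalgebra k R}
    (hS : ∀ i j, Sep T i j → nf T L i j ∈ S) (i j : Fin n) : nf T L i j ∈ S := by
  by_cases h : Sep T i j
  · exact hS i j h
  · rw [nf_isCell T L i j h]
    split_ifs
    · exact S.one_mem
    · exact S.zero_mem

theorem det_mem {k : Type u} [Field k] [Field R] [Algebra k R] {S : Subalgebra k R} {m : ℕ}
    (A : Matrix (Fin m) (Fin m) R) (hA : ∀ i j, A i j ∈ S) : A.det ∈ S := by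
  rw [Matrix.det_apply]
  refine S.sum_mem fun σ _ => ?_
  have h1 : (∏ i, A (σ i) i) ∈ S := S.prod_mem fun i _ => hA _ _
  rcases Int.units_eq_one_or (Equiv.Perm.sign σ) with h | h
  · rw [h, one_smul]
    exact h1
  · rw [h, Units.neg_smul, one_smul]
    exact S.neg_mem h1

end Coa

theorem coarse_adj {k : Type u} [Field k] [Field R] [Algebra k R] {κ T : Set (Fin n)} (hT : T ⊆ κ)
    {L : Matrix (Fin n) (Fin n) R} (hL : IsCell κ L) (c : Fin n) (hc : c ∈ T)
    (r : Fin (c + 1) → Fin n) :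
    minor L c r ∈ Algebra.adjoin k {a | ∃ i j, Sep T i j ∧ a = nf T L i j} := by
  have h1 : ∀ c ∈ T, lead L c = 1 := fun c hc => lead_cell hL c (hT hc)
  have h2 := minor_nf T L (fun c hc => by
    rw [h1 c hc]
    exact one_ne_zero) c hc r
  rw [h1 c hc, div_one] at h2
  rw [← h2, minor]
  set S := Algebra.adjoin k {a | ∃ i j, Sep T i j ∧ a = nf T L i j} with hS
  refine Coa.det_mem (S := S) _ fun p q => ?_
  rw [Matrix.of_apply]
  exact Coa.nf_mem T L (S := S) (fun i j hij => Algebra.subset_adjoin ⟨i, j, hij, rfl⟩) _ _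

theorem coarse_gen {k : Type u} [Field k] [Field R] [Algebra k R] {κ T : Set (Fin n)} (hT : T ⊆ κ)
    {L : Matrix (Fin n) (Fin n) R} (hL : IsCell κ L) (i j : Fin n) (h : Sep κ i j) :
    L i j ∈ Algebra.adjoin k ({a | ∃ i j, Sep T i j ∧ a = nf T L i j} ∪
      {a | ∃ i j, Sep κ i j ∧ ¬ Sep T i j ∧ a = L i j}) := by
  set S := Algebra.adjoin k ({a | ∃ i j, Sep T i j ∧ a = nf T L i j} ∪
      {a | ∃ i j, Sep κ i j ∧ ¬ Sep T i j ∧ a = L i j}) with hS
  have h1 : L i j = (nf T L * Coa.blk T L) i j := by rw [Coa.nf_mul_blk hT hL]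
  rw [h1, Matrix.mul_apply]
  refine S.sum_mem fun l _ => S.mul_mem ?_ ?_
  · exact Coa.nf_mem T L (fun i j hij => Algebra.subset_adjoin (Or.inl ⟨i, j, hij, rfl⟩)) _ _
  · rw [Coa.blk, Matrix.of_apply]
    split_ifs with h2
    · exact S.zero_mem
    · by_cases h3 : Sep κ l j
      · exact Algebra.subset_adjoin (Or.inr ⟨l, j, h3, h2, rfl⟩)
      · rw [hL l j h3]
        split_ifs
        · exact S.one_mem
        · exact S.zero_mem

end NF

end

end Pool.Agent.MLD.H
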