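import Pool.Agent.Lib.MP_f23696_ag.H.Defs
import Pool.Agent.Lib.MP_f23696_ag.T.Ctx

/-!
Internal vocabulary of the project HORO (MP_f23696_ag): abstract horospherical data, their
coordinate rings, faces, generic automorphisms.
-/

set_option autoImplicit false

namespace Pool.Agent.MLD.H

open scoped Classical
noncomputable section

universe u v

/-- Abstract horospherical data: `K = k(M, x)`, `M` are coordinates of the big cell of the flag
variety, `x^u` the highest weight vectors; `S c` is the space of sections of kind `c`, divided by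
its highest weight vector; `co T` are coordinates of `k(M)` adapted to the set of kinds `T`. -/
structure HD (k : Type u) (K : Type v) [Field k] [Field K] [Algebra k K]
    (σ κ : Type) [Fintype σ] [Fintype κ] (m : ℕ) where
  M : σ → K
  x : Fin m → K
  ind : AlgebraicIndependent k (Sum.elim M x)
  gen : IntermediateField.adjoin k (Set.range (Sum.elim M x)) = ⊤
  Λ : κ → Fin m → ℤ
  Γ : AddSubmonoid (Fin m → ℤ)
  Γfg : Γ.FG
  Λ_nonneg : ∀ c, ∀ u ∈ Γ, 0 ≤ Λ c ⬝ᵥ u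
  Λ_pos : ∀ c, ∃ u ∈ Γ, 0 < Λ c ⬝ᵥ u
  S : κ → Submodule k K
  one_mem : ∀ c, 1 ∈ S c
  Sfg : ∀ c, (S c).FG
  S_le : ∀ c, ∀ f ∈ S c, f ∈ Algebra.adjoin k (Set.range M)
  sep : κ → σ → Prop
  M_mem : ∀ s, ∃ c, sep c s ∧ M s ∈ S c
  co : Set κ → σ → K
  co_out : ∀ (T : Set κ) (s : σ), (¬ ∃ c ∈ T, sep c s) → co T s = M s
  co_mem : ∀ (T : Set κ) (s : σ), (∃ c ∈ T, sep c s) → ∃ c ∈ T, co T s ∈ S c
  co_adj : ∀ (T : Set κ), ∀ c ∈ T, ∀ f ∈ S c,
    f ∈ Algebra.adjoin k (co T '' {s | ∃ c ∈ T, sep c s})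
  co_gen : ∀ (T : Set κ) (s : σ), M s ∈ Algebra.adjoin k (Set.range (co T))

namespace HD

variable {k : Type u} {K : Type v} [Field k] [Field K] [Algebra k K]
    {σ κ : Type} [Fintype σ] [Fintype κ] {m : ℕ}

/-- `x^u` -/
def mon (X : HD k K σ κ m) (u : Fin m → ℤ) : K := ∏ i, X.x i ^ u i

/-- the component of degree `u` -/
def comp (X : HD k K σ κ m) (u : Fin m → ℤ) : Submodule k K :=
  (∏ c, X.S c ^ (X.Λ c ⬝ᵥ u).toNat) * Submodule.span k {X.mon u}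

/-- the coordinate ring -/
def A (X : HD k K σ κ m) : Subalgebra k K := Algebra.adjoin k {a | ∃ u ∈ X.Γ, a ∈ X.comp u}

/-- `k[M]` -/
def kM (X : HD k K σ κ m) : Subalgebra k K := Algebra.adjoin k (Set.range X.M)

/-- `k(M)` -/
def K₀ (X : HD k K σ κ m) : IntermediateField k K := IntermediateField.adjoin k (Set.range X.M)

/-- the positions separated by the kinds in `T` -/
def sub (X : HD k K σ κ m) (T : Set κ) : Set σ := {s | ∃ c ∈ T, X.sep c s}

/-- the kinds occurring in the degrees `τ` -/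
def kinds (X : HD k K σ κ m) (τ : Set (Fin m → ℤ)) : Set κ := {c | ∃ u ∈ τ, 0 < X.Λ c ⬝ᵥ u}

/-- the degrees `u` such that the component of degree `u` does not vanish at `y` -/
def tau (X : HD k K σ κ m) (y : Ideal X.A) : Set (Fin m → ℤ) :=
  {u | u ∈ X.Γ ∧ ∃ a : X.A, (a : K) ∈ X.comp u ∧ a ∉ y}

/-- the ideal is generated by components -/
def Stab (X : HD k K σ κ m) (p : Ideal X.A) : Prop :=
  p = Ideal.span {a : X.A | ∃ u ∈ X.Γ, (a : K) ∈ X.comp u ∧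
    ∀ b : X.A, (b : K) ∈ X.comp u → b ∈ p}

/-- the ideal is generated by homogeneous elements -/
def Hom (X : HD k K σ κ m) (p : Ideal X.A) : Prop :=
  p = Ideal.span {a : X.A | a ∈ p ∧ ∃ u ∈ X.Γ, (a : K) ∈ X.comp u}

/-- rank of a set of degrees -/
def rk (τ : Set (Fin m → ℤ)) : ℕ :=
  Module.finrank ℚ (Submodule.span ℚ {x : Fin m → ℚ | ∃ u ∈ τ, x = fun i => (u i : ℚ)})

/-- dimension of the orbit of the points of type `τ` -/
def dd (X : HD k K σ κ m) (τ : Set (Fin m → ℤ)) : ℕ := rk τ + (X.sub (X.kinds τ)).ncard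

/-- `τ` is a face of `Γ` -/
structure IsFace (X : HD k K σ κ m) (τ : Set (Fin m → ℤ)) : Prop where
  le : ∀ u ∈ τ, u ∈ X.Γ
  zero : 0 ∈ τ
  add : ∀ u ∈ τ, ∀ t ∈ τ, u + t ∈ τ
  of_add : ∀ u ∈ X.Γ, ∀ t ∈ X.Γ, u + t ∈ τ → u ∈ τ

/-- zero set of the functional `w` on `Γ` -/
def zs (X : HD k K σ κ m) (w : Fin m → ℤ) : Set (Fin m → ℤ) := {u | u ∈ X.Γ ∧ w ⬝ᵥ u = 0}

/-- `ρ` is the primitive generator of an extremal ray of the dual cone of `Γ` -/
structure IsExt (X : HD k K σ κ m) (ρ : Fin m → ℤ) : Prop where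
  nonneg : ∀ u ∈ X.Γ, 0 ≤ ρ ⬝ᵥ u
  facet : rk (X.zs ρ) + 1 = m
  prim : ∃ u ∈ X.Γ, ρ ⬝ᵥ u = 1

/-- `f` is regular at `y` with the value `c` -/
def ValAt (X : HD k K σ κ m) (y : Ideal X.A) (f : K) (c : k) : Prop :=
  ∃ a b : X.A, b ∉ y ∧ f * b = a ∧ a - algebraMap k X.A c * b ∈ y

/-- The polynomial `Q` in the coordinates `co T` is not identically zero on the fibre
`co T s = c s`, `s ∈ sub T`. -/
def Gen (X : HD k K σ κ m) (T : Set κ) (c : σ → k) (Q : MvPolynomial σ k) : Prop :=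
  MvPolynomial.bind₁ (fun s => if s ∈ X.sub T then MvPolynomial.C (c s) else MvPolynomial.X s) Q ≠ 0

/-- The homogeneous element `h.1 x^(h.2)` as a unit (junk value `1` if it is zero). -/
def monU (X : HD k K σ κ m) (h : K × (Fin m → ℤ)) : Kˣ :=
  if H : h.1 * X.mon h.2 ≠ 0 then Units.mk0 _ H else 1

/-- homogeneous local equation as a local equation -/
def toEq (X : HD k K σ κ m) (γ : (K × (Fin m → ℤ)) →₀ ℝ) : Kˣ →₀ ℝ := γ.mapDomain X.monU

/-- log discrepancy of the monomial valuation `w`, as a linear function of `w` -/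
def mu (γ : (K × (Fin m → ℤ)) →₀ ℝ) (w : Fin m → ℤ) : ℝ :=
  ((∑ i, w i : ℤ) : ℝ) - γ.sum fun h r => r * ((w ⬝ᵥ h.2 : ℤ) : ℝ)

/-- the codimension of the centre of the monomial valuation `ρ` -/
def cc (X : HD k K σ κ m) (ρ : Fin m → ℤ) : ℕ :=
  1 + (Fintype.card σ - (X.sub (X.kinds (X.zs ρ))).ncard)

/-- the partial derivatives with respect to `(M, x)` -/
structure Dr (X : HD k K σ κ m) (N : ℕ) where
  e : Fin (N + 1) ≃ σ ⊕ Fin m
  D : Fin (N + 1) → Derivation k K K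
  dual : ∀ i j, D i (Sum.elim X.M X.x (e j)) = if i = j then 1 else 0

/-- Generic automorphisms: a filter on the automorphisms of `K` given by the action of the group. -/
structure HG (X : HD k K σ κ m) where
  F : Filter (K ≃ₐ[k] K)
  neBot : F.NeBot
  stab : ∀ᶠ g in F, ∀ u ∈ X.Γ, ∀ a, a ∈ X.comp u ↔ g a ∈ X.comp u
  opn : ∀ (y : MaximalSpectrum X.A) (s : X.A), s ∉ y.asIdeal →
    ∀ᶠ g in F, ∃ h : g (s : K) ∈ X.A, (⟨g (s : K), h⟩ : X.A) ∉ y.asIdeal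
  unit : ∀ (y : MaximalSpectrum X.A), ∀ u ∈ X.tau y.asIdeal,
    ∀ᶠ g in F, ∃ h : g (X.mon u) ∈ X.A, (⟨g (X.mon u), h⟩ : X.A) ∉ y.asIdeal
  low : ∀ v : DVal k K, (∀ a : X.A, v.Integral (a : K)) → ∀ u ∈ X.Γ,
    ∀ᶠ g in F, ∀ a ∈ X.comp u, a ≠ 0 → v.ord (g (X.mon u)) ≤ v.ord a
  zer : ∀ v : DVal k K, (∀ a : X.A, v.Integral (a : K)) → ∀ f ∈ X.kM, f ≠ 0 →
    ∀ᶠ g in F, v.ord (g f) = 0
  fib : ∀ (y : MaximalSpectrum X.A) (Q : MvPolynomial σ k), Q ≠ 0 →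
    ∀ᶠ g in F, ∀ c : σ → k,
      (∀ s ∈ X.sub (X.kinds (X.tau y.asIdeal)),
        X.ValAt y.asIdeal (g (X.co (X.kinds (X.tau y.asIdeal)) s)) (c s)) →
      X.Gen (X.kinds (X.tau y.asIdeal)) c Q

end HD

end

end Pool.Agent.MLD.H
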