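import Pool.Agent.Lib.MP_f23696_ag.H.Ctx

/-!
Internal vocabulary of the project HORO (MP_f23696_ag): type A: normal forms of matrices, the
action of the matrices on `K`.
-/

set_option autoImplicit false

namespace Pool.Agent.MLD.H

open scoped Classical
noncomputable section

universe u v

section NF

variable {R : Type v} {n : ℕ}

/-- the matrices have the same column spaces for the first `c + 1` columns, `c ∈ κ` -/
def Eqv [CommRing R] (κ : Set (Fin n)) (G G' : Matrix (Fin n) (Fin n) R) : Prop :=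
  ∀ c ∈ κ, ∃ Q : Matrix (Fin (c + 1)) (Fin (c + 1)) R, IsUnit Q.det ∧
    (Matrix.of fun i q => G' i (Fin.castLE c.2 q)) = (Matrix.of fun i q => G i (Fin.castLE c.2 q)) * Q

/-- leading minor -/
def lead [CommRing R] (G : Matrix (Fin n) (Fin n) R) (c : Fin n) : R :=
  minor G c (Fin.castLE c.2)

/-- `(i, j)` is separated by `κ` -/
def Sep (κ : Set (Fin n)) (i j : Fin n) : Prop := ∃ c ∈ κ, j ≤ c ∧ c < i

/-- block unipotent lower triangular -/
def IsCell [CommRing R] (κ : Set (Fin n)) (G : Matrix (Fin n) (Fin n) R) : Prop :=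
  ∀ i j, ¬ Sep κ i j → G i j = if i = j then 1 else 0

/-- the least element `c ≥ j` of `κ` -/
def cut (κ : Set (Fin n)) (j : Fin n) : Fin n :=
  if h : (Finset.univ.filter fun c => c ∈ κ ∧ j ≤ c).Nonempty then
    (Finset.univ.filter fun c => c ∈ κ ∧ j ≤ c).min' h else j

/-- the rows `0, …, c` with the row `j` replaced by the row `i` -/
def repl (c : Fin n) (i j : Fin n) : Fin (c + 1) → Fin n :=
  fun p => if Fin.castLE c.2 p = j then i else Fin.castLE c.2 p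

/-- the normal form: the block unipotent matrix equivalent to `G` -/
def nf [Field R] (κ : Set (Fin n)) (G : Matrix (Fin n) (Fin n) R) : Matrix (Fin n) (Fin n) R :=
  Matrix.of fun i j => if Sep κ i j then
    minor G (cut κ j) (repl (cut κ j) i j) / lead G (cut κ j) else if i = j then 1 else 0

end NF

section typeA

variable {B : Type} [Fintype B] {n : B → ℕ} {k : Type u} {K : Type v} [Field k] [Field K]
  [Algebra k K] {m : ℕ}

/-- the kinds of the block `b` -/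
def kb (κ : Finset (Σ b, Fin (n b))) (b : B) : Set (Fin (n b)) := {c | ⟨b, c⟩ ∈ κ}

instance (κ : Finset (Σ b, Fin (n b))) : Fintype (Pos n κ) := by
  unfold Pos
  exact Fintype.ofFinite _

/-- the data of type A -/
structure TA (k : Type u) (K : Type v) [Field k] [Field K] [Algebra k K] {B : Type} [Fintype B]
    (n : B → ℕ) (κ : Finset (Σ b, Fin (n b))) (m : ℕ) where
  Λ : (Σ b, Fin (n b)) → Fin m → ℤ
  Γ : AddSubmonoid (Fin m → ℤ)
  Γfg : Γ.FG
  Λ_nonneg : ∀ c ∈ κ, ∀ u ∈ Γ, 0 ≤ Λ c ⬝ᵥ u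
  Λ_pos : ∀ c ∈ κ, ∃ u ∈ Γ, 0 < Λ c ⬝ᵥ u
  M : Pos n κ → K
  x : Fin m → K
  ind : AlgebraicIndependent k (Sum.elim M x)
  gen : IntermediateField.adjoin k (Set.range (Sum.elim M x)) = ⊤

variable {κ : Finset (Σ b, Fin (n b))}

/-- the index set of the entries of the matrices -/
abbrev Ent (n : B → ℕ) : Type := Σ b, Fin (n b) × Fin (n b)

/-- the matrices with the entries `g` -/
def mat (g : Ent n → K) (b : B) : Matrix (Fin (n b)) (Fin (n b)) K :=
  Matrix.of fun i j => g ⟨b, i, j⟩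

/-- scalar matrices in `K` -/
def matK (g : Ent n → k) (b : B) : Matrix (Fin (n b)) (Fin (n b)) K :=
  mat (fun e => algebraMap k K (g e)) b

/-- `φ` is the action of `g` -/
def IsAct (Y : TA k K n κ m) (g : Ent n → k) (φ : K ≃ₐ[k] K) : Prop :=
  (∀ s : Pos n κ, φ (Y.M s) =
    nf (kb κ s.1.1) (matK (K := K) g s.1.1 * cell κ Y.M s.1.1) s.1.2.1 s.1.2.2) ∧
  (∀ i, φ (Y.x i) = Y.x i * ∏ c ∈ κ, lead (matK (K := K) g c.1 * cell κ Y.M c.1) c.2 ^ Y.Λ c i) ∧
  (∀ b, (matK (K := k) g b).det ≠ 0) ∧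
  ∀ c ∈ κ, lead (matK (K := K) g c.1 * cell κ Y.M c.1) c.2 ≠ 0

/-- a property of automorphisms holds generically -/
def Gnc (Y : TA k K n κ m) (U : Set (K ≃ₐ[k] K)) : Prop :=
  ∃ P : MvPolynomial (Ent n) k, P ≠ 0 ∧
    ∀ g φ, MvPolynomial.eval g P ≠ 0 → IsAct Y g φ → (∃ g', IsAct Y g' φ.symm) → φ ∈ U

/-- the coordinate ring of the data -/
abbrev TA.ring (Y : TA k K n κ m) : Subalgebra k K := coordRing k κ Y.Λ Y.Γ Y.M Y.x

/-- the component of degree `u` -/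
abbrev TA.cmp (Y : TA k K n κ m) (u : Fin m → ℤ) : Submodule k K := compA k κ Y.Λ Y.M Y.x u

/-- `X` is the abstract data of `Y` -/
structure IsHD (Y : TA k K n κ m) (X : HD k K (Pos n κ) κ m) : Prop where
  M : X.M = Y.M
  x : X.x = Y.x
  Λ : ∀ c : κ, X.Λ c = Y.Λ c
  Γ : X.Γ = Y.Γ
  S : ∀ c : κ, X.S c = minors k κ Y.M c
  sep : ∀ (c : κ) (s : Pos n κ), X.sep c s ↔
    ∃ c' : Fin (n s.1.1), (c : Σ b, Fin (n b)) = ⟨s.1.1, c'⟩ ∧ s.1.2.2 ≤ c' ∧ c' < s.1.2.1
  co : ∀ (T : Set κ) (s : Pos n κ), (∃ c ∈ T, X.sep c s) → X.co T s =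
    nf {c' | ∃ h : (⟨s.1.1, c'⟩ : Σ b, Fin (n b)) ∈ κ, (⟨_, h⟩ : κ) ∈ T} (cell κ Y.M s.1.1)
      s.1.2.1 s.1.2.2

end typeA

end

end Pool.Agent.MLD.H
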