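import Pool.Agent.Lib.MP_f23696_ag.Defs

/-!
Definitions for the lower semicontinuity of minimal log discrepancies on horospherical varieties
(MP_f23696_ag).

`G` is a product of general linear groups `GL_(n b)`, `b ∈ B`, and a torus.  A kind `(b, c)` is the
fundamental weight of `GL_(n b)` given by the minors of size `c + 1` in the first `c + 1` columns.
-/

set_option autoImplicit false

namespace Pool.Agent.MLD.H

open scoped Classical
noncomputable section

universe u v

section type_A

variable {B : Type} (n : B → ℕ)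

/-- The positions `(b, i, j)` below the diagonal blocks cut out by the set of kinds `κ`. -/
def Pos (κ : Finset (Σ b, Fin (n b))) : Type :=
  {s : Σ b, Fin (n b) × Fin (n b) //
    ∃ c : Fin (n s.1), (⟨s.1, c⟩ : Σ b, Fin (n b)) ∈ κ ∧ s.2.2 ≤ c ∧ c < s.2.1}

variable {n} {k : Type u} {K : Type v} [Field k] [Field K] [Algebra k K]

/-- The lower triangular block unipotent matrix with the entries `M`: the general element of the
unipotent radical opposite to the parabolic subgroup of the kinds `κ`. -/
def cell (κ : Finset (Σ b, Fin (n b))) (M : Pos n κ → K) (b : B) :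
    Matrix (Fin (n b)) (Fin (n b)) K :=
  Matrix.of fun i j =>
    if h : ∃ c : Fin (n b), (⟨b, c⟩ : Σ b, Fin (n b)) ∈ κ ∧ j ≤ c ∧ c < i then M ⟨⟨b, i, j⟩, h⟩
    else if i = j then 1 else 0

/-- The minor of `G` with the rows `r 0, …, r c` and the columns `0, …, c`. -/
def minor {R : Type v} [CommRing R] {n : ℕ} (G : Matrix (Fin n) (Fin n) R) (c : Fin n)
    (r : Fin (c + 1) → Fin n) : R :=
  Matrix.det (Matrix.of fun p q : Fin (c + 1) => G (r p) (Fin.castLE c.2 q))

/-- The span of the minors with the columns `0, …, c` of the block `b`. -/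
def minors (k : Type u) [Field k] [Algebra k K] (κ : Finset (Σ b, Fin (n b))) (M : Pos n κ → K)
    (c : Σ b, Fin (n b)) : Submodule k K :=
  Submodule.span k (Set.range fun r : Fin (c.2 + 1) → Fin (n c.1) => minor (cell κ M c.1) c.2 r)

variable {m : ℕ}

/-- The component of degree `u`: the products of `x^u` and of `Λ_c(u)` minors of each kind `c`. -/
def compA (k : Type u) [Field k] [Algebra k K] (κ : Finset (Σ b, Fin (n b)))
    (Λ : (Σ b, Fin (n b)) → Fin m → ℤ) (M : Pos n κ → K) (x : Fin m → K) (u : Fin m → ℤ) :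
    Submodule k K :=
  (∏ c ∈ κ, minors k κ M c ^ (Λ c ⬝ᵥ u).toNat) * Submodule.span k {∏ i, x i ^ u i}

/-- The coordinate ring of the horospherical variety of the weight monoid `Γ`. -/
def coordRing (k : Type u) [Field k] [Algebra k K] (κ : Finset (Σ b, Fin (n b)))
    (Λ : (Σ b, Fin (n b)) → Fin m → ℤ) (Γ : AddSubmonoid (Fin m → ℤ)) (M : Pos n κ → K)
    (x : Fin m → K) : Subalgebra k K :=
  Algebra.adjoin k {a | ∃ u ∈ Γ, a ∈ compA k κ Λ M x u}

/-- `p` is generated by the components of the coordinate ring contained in it (`V(p)` is stable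
under the group). -/
def IsStable (κ : Finset (Σ b, Fin (n b))) (Λ : (Σ b, Fin (n b)) → Fin m → ℤ)
    (Γ : AddSubmonoid (Fin m → ℤ)) (M : Pos n κ → K) (x : Fin m → K)
    (p : Ideal (coordRing k κ Λ Γ M x)) : Prop :=
  p = Ideal.span {a : coordRing k κ Λ Γ M x | ∃ u ∈ Γ, (a : K) ∈ compA k κ Λ M x u ∧
    ∀ b : coordRing k κ Λ Γ M x, (b : K) ∈ compA k κ Λ M x u → b ∈ p}

end type_A

end

end Pool.Agent.MLD.H
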