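import Pool.Agent.Lib.MP_f23696_ag.H.Grd
import Pool.Agent.Lib.MP_f23696_ag.T.Pts

/-!
HORO module FAC: the types of the closed points.
-/

set_option autoImplicit false

namespace Pool.Agent.MLD.H

open scoped Classical
open Pool.Agent.MLD.Ten (IsGood)
noncomputable section

universe u v

variable {k : Type u} [Field k] {K : Type v} [Field K] [Algebra k K]
  {σ κ : Type} [Fintype σ] [Fintype κ] {m : ℕ} (X : HD k K σ κ m)

namespace HD

theorem tau_isFace (y : Ideal X.A) (hy : y.IsPrime) : X.IsFace (X.tau y) where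
  le := fun u hu => hu.1
  zero := by
    refine ⟨X.Γ.zero_mem, 1, ?_, ?_⟩
    · rw [comp_zero]
      exact Submodule.mem_span_singleton_self _
    · exact fun h => hy.ne_top ((Ideal.eq_top_iff_one y).2 h)
  add := by
    rintro u ⟨hu, a, ha, hay⟩ t ⟨ht, b, hb, hby⟩
    refine ⟨X.Γ.add_mem hu ht, a * b, ?_, fun h => (hy.mem_or_mem h).elim hay hby⟩
    rw [X.comp_mul hu ht]
    exact Submodule.mul_mem_mul ha hb
  of_add := by
    rintro u hu t ht ⟨-, a, ha, hay⟩
    refine ⟨hu, ?_⟩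
    by_contra hcon
    push Not at hcon
    apply hay
    rw [X.comp_mul hu ht] at ha
    have key : ∀ z ∈ X.comp u * X.comp t, ∃ h : z ∈ X.A, (⟨z, h⟩ : X.A) ∈ y := by
      intro z hz
      induction hz using Submodule.mul_induction_on' with
      | mem_mul_mem b hb c hc =>
        have h1 := hcon ⟨b, X.mem_A hu hb⟩ hb
        exact ⟨X.A.mul_mem (X.mem_A hu hb) (X.mem_A ht hc),
          y.mul_mem_right ⟨c, X.mem_A ht hc⟩ h1⟩
      | add b _ c _ hb hc =>
        obtain ⟨hb1, hb2⟩ := hb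
        obtain ⟨hc1, hc2⟩ := hc
        exact ⟨X.A.add_mem hb1 hc1, y.add_mem hb2 hc2⟩
    obtain ⟨h1, h2⟩ := key a ha
    exact h2

theorem tau_open (y : Ideal X.A) (hy : y.IsPrime) :
    ∃ s : X.A, s ∉ y ∧ ∀ x : Ideal X.A, x.IsPrime → s ∉ x → X.tau y ⊆ X.tau x := by
  obtain ⟨G, hG⟩ := X.Γfg
  have h1 : ∀ u, ∃ a : X.A, a ∉ y ∧ (u ∈ X.tau y → (a : K) ∈ X.comp u) := by
    intro u
    by_cases hu : u ∈ X.tau y
    · obtain ⟨-, a, ha, hay⟩ := hu
      exact ⟨a, hay, fun _ => ha⟩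
    · exact ⟨1, fun h => hy.ne_top ((Ideal.eq_top_iff_one y).2 h), fun h => absurd h hu⟩
  choose a hay hac using h1
  refine ⟨∏ u ∈ G, a u, fun h => ?_, fun x hx hs => ?_⟩
  · obtain ⟨u, -, hu⟩ := (hy.prod_mem_iff).1 h
    exact hay u hu
  · have hax : ∀ u ∈ G, a u ∉ x := fun u hu h =>
      hs ((hx.prod_mem_iff).2 ⟨u, hu, h⟩)
    have hfy := X.tau_isFace y hy
    have hfx := X.tau_isFace x hx
    have key : ∀ u ∈ AddSubmonoid.closure (G : Set (Fin m → ℤ)), u ∈ X.tau y → u ∈ X.tau x := by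
      intro u hu
      induction hu using AddSubmonoid.closure_induction with
      | mem u hu => exact fun h => ⟨h.1, a u, hac u h, hax u hu⟩
      | zero => exact fun _ => hfx.zero
      | add u t hu ht ihu iht =>
        rw [hG] at hu ht
        intro h
        have h2 := hfy.of_add u hu t ht h
        have h3 := hfy.of_add t ht u hu (by rwa [add_comm])
        exact hfx.add u (ihu h2) t (iht h3)
    intro u hu
    refine key u ?_ hu
    rw [hG]
    exact hu.1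

theorem exists_val [IsAlgClosed k] (y : MaximalSpectrum X.A) (a b : X.A) (hb : b ∉ y.asIdeal) :
    ∃ c : k, X.ValAt y.asIdeal ((a : K) / b) c := by
  have hft : Algebra.FiniteType k X.A := X.A.fg_iff_finiteType.1 X.A_fg
  obtain ⟨β, rfl⟩ := Pool.Agent.MLD.Ten.PTS.exists_pt (k := k) y
  rw [Pool.Agent.MLD.Ten.PTS.mem_pt] at hb
  have hb0 : (b : K) ≠ 0 := by
    intro h0
    apply hb
    have : b = 0 := Subtype.ext h0
    rw [this, map_zero]
  refine ⟨β a / β b, a, b, ?_, div_mul_cancel₀ _ hb0, ?_⟩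
  · rw [Pool.Agent.MLD.Ten.PTS.mem_pt]
    exact hb
  · rw [Pool.Agent.MLD.Ten.PTS.mem_pt, map_sub, map_mul, AlgHom.commutes]
    simp [div_mul_cancel₀ _ hb]

theorem valAt_ord (y : Ideal X.A) (v : DVal k K) (hv : v.HasCenter X.A y) (f : K) (c : k)
    (h : X.ValAt y f c) : v.Integral f ∧ v.Small (f - algebraMap k K c) := by
  obtain ⟨a, b, hb, hab, hc⟩ := h
  have hbs : ¬ v.Small (b : K) := fun h => hb ((hv.2 b).2 h)
  have hb0 : (b : K) ≠ 0 := by
    intro h0
    exact hbs fun h => absurd h0 h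
  have hb1 : v.ord (b : K) = 0 := by
    have h1 := hv.1 b hb0
    have h2 : ¬ 0 < v.ord (b : K) := fun h => hbs fun _ => h
    omega
  constructor
  · intro hf
    have h1 := v.ord_mul f b hf hb0
    rw [hab, hb1, add_zero] at h1
    rw [← h1]
    refine hv.1 a ?_
    rw [← hab]
    exact mul_ne_zero hf hb0
  · intro hf
    have h1 := v.ord_mul _ b hf hb0
    rw [hb1, add_zero] at h1
    rw [← h1]
    have h2 := (hv.2 _).1 hc
    have h3 : ((a - algebraMap k X.A c * b : X.A) : K) = (f - algebraMap k K c) * b := by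
      rw [sub_mul, hab]
      rfl
    rw [h3] at h2
    exact h2 (mul_ne_zero hf hb0)

/-- the elements of `S c` are regular at the points where `x^u` does not vanish -/
theorem S_val [IsAlgClosed k] (y : MaximalSpectrum X.A)
    (hmon : ∀ u ∈ X.tau y.asIdeal, ∃ h : X.mon u ∈ X.A, (⟨X.mon u, h⟩ : X.A) ∉ y.asIdeal)
    (c : κ) (hc : c ∈ X.kinds (X.tau y.asIdeal)) (f : K) (hf : f ∈ X.S c) :
    ∃ c' : k, X.ValAt y.asIdeal f c' := by
  obtain ⟨u, hu, huc⟩ := hc
  obtain ⟨hm, hmy⟩ := hmon u hu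
  have h1 : f * X.mon u ∈ X.A := X.mem_A hu.1 (X.S_mem hu.1 (by omega) hf)
  obtain ⟨c', hc'⟩ := X.exists_val y ⟨f * X.mon u, h1⟩ ⟨X.mon u, hm⟩ hmy
  refine ⟨c', ?_⟩
  have h2 : f * X.mon u / X.mon u = f := mul_div_cancel_right₀ _ (X.mon_ne u)
  simp only [h2] at hc'
  exact hc'

/-- a stable ideal is invariant under the automorphisms preserving all the components -/
theorem stab_comap (p : Ideal X.A) (hp : X.Stab p) (g : K ≃ₐ[k] K)
    (hg : ∀ u ∈ X.Γ, ∀ a, a ∈ X.comp u ↔ g a ∈ X.comp u) (φ : X.A ≃ₐ[k] X.A)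
    (hφ : ∀ a : X.A, (φ a : K) = g a) : p.comap φ = p := by
  apply le_antisymm
  · intro a ha
    rw [Ideal.mem_comap] at ha
    have h1 : p ≤ p.comap φ.symm := by
      conv_lhs => rw [hp]
      rw [Ideal.span_le]
      rintro b ⟨u, hu, hb, hall⟩
      rw [SetLike.mem_coe, Ideal.mem_comap]
      refine hall _ ?_
      rw [hg u hu, ← hφ, AlgEquiv.apply_symm_apply]
      exact hb
    have h2 := h1 ha
    rw [Ideal.mem_comap, AlgEquiv.symm_apply_apply] at h2
    exact h2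
  · conv_lhs => rw [hp]
    rw [Ideal.span_le]
    rintro b ⟨u, hu, hb, hall⟩
    rw [SetLike.mem_coe, Ideal.mem_comap]
    refine hall _ ?_
    rw [hφ, ← hg u hu]
    exact hb

theorem exists_phi (g : K ≃ₐ[k] K) (hg : ∀ u ∈ X.Γ, ∀ a, a ∈ X.comp u ↔ g a ∈ X.comp u) :
    ∃ φ : X.A ≃ₐ[k] X.A, ∀ a : X.A, (φ a : K) = g a := by
  have h : X.A.map (g : K →ₐ[k] K) = X.A := by
    unfold A
    rw [AlgHom.map_adjoin]
    congr 1
    ext b
    constructor
    · rintro ⟨a, ⟨u, hu, ha⟩, rfl⟩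
      exact ⟨u, hu, (hg u hu a).1 ha⟩
    · rintro ⟨u, hu, hb⟩
      refine ⟨g.symm b, ⟨u, hu, ?_⟩, ?_⟩
      · rw [hg u hu, AlgEquiv.apply_symm_apply]
        exact hb
      · exact g.apply_symm_apply b
  exact ⟨(g.subalgebraMap X.A).trans (Subalgebra.equivOfEq _ _ h), fun a => rfl⟩

theorem tau_comap (g : K ≃ₐ[k] K) (hg : ∀ u ∈ X.Γ, ∀ a, a ∈ X.comp u ↔ g a ∈ X.comp u)
    (φ : X.A ≃ₐ[k] X.A) (hφ : ∀ a : X.A, (φ a : K) = g a) (y : Ideal X.A) :
    X.tau (y.comap φ) = X.tau y := by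
  ext u
  constructor
  · rintro ⟨hu, a, ha, hay⟩
    refine ⟨hu, φ a, ?_, hay⟩
    rw [hφ, ← hg u hu]
    exact ha
  · rintro ⟨hu, a, ha, hay⟩
    refine ⟨hu, φ.symm a, ?_, ?_⟩
    · rw [hg u hu, ← hφ, AlgEquiv.apply_symm_apply]
      exact ha
    · rw [Ideal.mem_comap, AlgEquiv.apply_symm_apply]
      exact hay

theorem stab_hom (p : Ideal X.A) (hp : X.Stab p) : X.Hom p := by
  unfold Hom
  apply le_antisymm
  · conv_lhs => rw [hp]
    apply Ideal.span_mono
    rintro a ⟨u, hu, ha, hall⟩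
    exact ⟨hall a ha, u, hu, ha⟩
  · rw [Ideal.span_le]
    rintro a ⟨ha, -⟩
    exact ha

end HD

end

end Pool.Agent.MLD.H
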