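import Pool.Agent.Lib.MP_f23696_ag.H.Ctx

/-!
HORO module GRD: the grading of the coordinate ring.
-/

set_option autoImplicit false

namespace Pool.Agent.MLD.H

open scoped Classical
open Pool.Agent.MLD.Ten (IsGood)
noncomputable section

universe u v

variable {k : Type u} [Field k] {K : Type v} [Field K] [Algebra k K]
  {σ κ : Type} [Fintype σ] [Fintype κ] {m : ℕ} (X : HD k K σ κ m)

namespace HD

namespace Grd

theorem one_le_pow {P : Submodule k K} (h : 1 ≤ P) (n : ℕ) : 1 ≤ P ^ n := by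
  induction n with
  | zero => simp
  | succ n ih =>
    rw [pow_succ]
    simpa using mul_le_mul' ih h

theorem one_le_prod {ι : Type*} (s : Finset ι) (P : ι → Submodule k K) (h : ∀ c ∈ s, 1 ≤ P c) :
    1 ≤ ∏ c ∈ s, P c := by
  induction s using Finset.induction_on with
  | empty => simp
  | insert a s ha ih =>
    rw [Finset.prod_insert ha]
    have h1 := ih fun c hc => h c (Finset.mem_insert_of_mem hc)
    simpa using mul_le_mul' (h a (Finset.mem_insert_self _ _)) h1

theorem mul_le_alg (B : Subalgebra k K) {P Q : Submodule k K} (hP : P ≤ Subalgebra.toSubmodule B)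
    (hQ : Q ≤ Subalgebra.toSubmodule B) : P * Q ≤ Subalgebra.toSubmodule B := by
  rw [Submodule.mul_le]
  intro a ha b hb
  exact B.mul_mem (hP ha) (hQ hb)

theorem one_le_alg (B : Subalgebra k K) : 1 ≤ Subalgebra.toSubmodule B := by
  rw [Submodule.one_le]
  exact B.one_mem

theorem pow_le_alg (B : Subalgebra k K) {P : Submodule k K} (hP : P ≤ Subalgebra.toSubmodule B)
    (n : ℕ) : P ^ n ≤ Subalgebra.toSubmodule B := by
  induction n with
  | zero =>
    rw [pow_zero]
    exact one_le_alg B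
  | succ n ih =>
    rw [pow_succ]
    exact mul_le_alg B ih hP

theorem prod_le_alg (B : Subalgebra k K) {ι : Type*} (s : Finset ι) (P : ι → Submodule k K)
    (h : ∀ c ∈ s, P c ≤ Subalgebra.toSubmodule B) : ∏ c ∈ s, P c ≤ Subalgebra.toSubmodule B := by
  induction s using Finset.induction_on with
  | empty =>
    rw [Finset.prod_empty]
    exact one_le_alg B
  | insert a s ha ih =>
    rw [Finset.prod_insert ha]
    exact mul_le_alg B (h a (Finset.mem_insert_self _ _))
      (ih fun c hc => h c (Finset.mem_insert_of_mem hc))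

theorem one_le_S (c : κ) : 1 ≤ X.S c := by
  rw [Submodule.one_le]
  exact X.one_mem c

end Grd

theorem x_ne (i : Fin m) : X.x i ≠ 0 := X.ind.ne_zero (Sum.inr i)

theorem mon_zero : X.mon 0 = 1 := by simp [mon]

theorem mon_add (u t : Fin m → ℤ) : X.mon (u + t) = X.mon u * X.mon t := by
  rw [mon, mon, mon, ← Finset.prod_mul_distrib]
  exact Finset.prod_congr rfl fun i _ => by rw [Pi.add_apply, zpow_add₀ (X.x_ne i)]

theorem mon_neg (u : Fin m → ℤ) : X.mon (-u) = (X.mon u)⁻¹ := by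
  rw [mon, mon, ← Finset.prod_inv_distrib]
  exact Finset.prod_congr rfl fun i _ => by rw [Pi.neg_apply, zpow_neg]

theorem mon_ne (u : Fin m → ℤ) : X.mon u ≠ 0 := by
  rw [mon, Finset.prod_ne_zero_iff]
  exact fun i _ => zpow_ne_zero _ (X.x_ne i)

theorem mon_mem {u : Fin m → ℤ} (hu : u ∈ X.Γ) : X.mon u ∈ X.comp u := by
  have h := Grd.one_le_prod Finset.univ (fun c => X.S c ^ (X.Λ c ⬝ᵥ u).toNat)
    fun c _ => Grd.one_le_pow (Grd.one_le_S X c) _
  rw [Submodule.one_le] at h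
  have := Submodule.mul_mem_mul h (Submodule.mem_span_singleton_self (R := k) (X.mon u))
  rwa [one_mul] at this

theorem comp_mul {u t : Fin m → ℤ} (hu : u ∈ X.Γ) (ht : t ∈ X.Γ) :
    X.comp (u + t) = X.comp u * X.comp t := by
  have h1 : ∀ c, X.S c ^ (X.Λ c ⬝ᵥ (u + t)).toNat =
      X.S c ^ (X.Λ c ⬝ᵥ u).toNat * X.S c ^ (X.Λ c ⬝ᵥ t).toNat := by
    intro c
    rw [← pow_add, dotProduct_add, Int.toNat_add (X.Λ_nonneg c u hu) (X.Λ_nonneg c t ht)]
  rw [comp, comp, comp, Finset.prod_congr rfl fun c _ => h1 c, Finset.prod_mul_distrib, mon_add,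
    mul_mul_mul_comm, Submodule.span_mul_span, Set.singleton_mul_singleton]

theorem comp_zero : X.comp 0 = Submodule.span k {1} := by
  rw [comp, mon_zero]
  simp

namespace Grd

theorem form (B : Subalgebra k K) {u : Fin m → ℤ}
    (hB : ∀ c, 0 < X.Λ c ⬝ᵥ u → ∀ f ∈ X.S c, f ∈ B) {a : K} (ha : a ∈ X.comp u) :
    ∃ p ∈ B, a = p * X.mon u := by
  rw [comp, Submodule.mem_mul_span_singleton] at ha
  obtain ⟨z, hz, rfl⟩ := ha
  refine ⟨z, ?_, rfl⟩
  refine prod_le_alg B Finset.univ _ (fun c _ => ?_) hz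
  by_cases hc : 0 < X.Λ c ⬝ᵥ u
  · exact pow_le_alg B (fun f hf => hB c hc f hf) _
  · rw [Int.toNat_of_nonpos (not_lt.1 hc), pow_zero]
    exact one_le_alg B

end Grd

theorem comp_form {u : Fin m → ℤ} {a : K} (ha : a ∈ X.comp u) :
    ∃ p ∈ X.kM, a = p * X.mon u :=
  Grd.form X X.kM (fun c _ f hf => X.S_le c f hf) ha

/-- every element of `comp u` divided by `x^u` is a polynomial in the sections of the kinds
occurring in `u` -/
theorem comp_form' {u : Fin m → ℤ} {a : K} (ha : a ∈ X.comp u) :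
    ∃ p ∈ Algebra.adjoin k {f | ∃ c, 0 < X.Λ c ⬝ᵥ u ∧ f ∈ X.S c}, a = p * X.mon u :=
  Grd.form X (Algebra.adjoin k {f | ∃ c, 0 < X.Λ c ⬝ᵥ u ∧ f ∈ X.S c})
    (fun c hc f hf => Algebra.subset_adjoin ⟨c, hc, hf⟩) ha

theorem S_mem {c : κ} {u : Fin m → ℤ} (hu : u ∈ X.Γ) (hc : 1 ≤ X.Λ c ⬝ᵥ u) {f : K}
    (hf : f ∈ X.S c) : f * X.mon u ∈ X.comp u := by
  refine Submodule.mul_mem_mul ?_ (Submodule.mem_span_singleton_self (R := k) (X.mon u))
  rw [← Finset.mul_prod_erase Finset.univ _ (Finset.mem_univ c)]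
  obtain ⟨r, hr⟩ : ∃ r : ℕ, (X.Λ c ⬝ᵥ u).toNat = r + 1 :=
    ⟨(X.Λ c ⬝ᵥ u).toNat - 1, by omega⟩
  have h1 : f ∈ X.S c ^ (X.Λ c ⬝ᵥ u).toNat := by
    rw [hr, pow_succ]
    have := Submodule.mul_mem_mul
      (Submodule.one_le.1 (Grd.one_le_pow (Grd.one_le_S X c) r)) hf
    rwa [one_mul] at this
  have h2 := Submodule.one_le.1 (Grd.one_le_prod (Finset.univ.erase c)
    (fun c => X.S c ^ (X.Λ c ⬝ᵥ u).toNat) fun c _ => Grd.one_le_pow (Grd.one_le_S X c) _)
  have := Submodule.mul_mem_mul h1 h2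
  rwa [mul_one] at this

theorem comp_fg (u : Fin m → ℤ) : (X.comp u).FG := by
  refine Submodule.FG.mul ?_ (Submodule.fg_span_singleton _)
  have : ∀ s : Finset κ, (∏ c ∈ s, X.S c ^ (X.Λ c ⬝ᵥ u).toNat).FG := by
    intro s
    induction s using Finset.induction_on with
    | empty =>
      rw [Finset.prod_empty, Submodule.one_eq_span]
      exact Submodule.fg_span_singleton _
    | insert a s ha ih =>
      rw [Finset.prod_insert ha]
      exact Submodule.FG.mul (Submodule.FG.pow (X.Sfg a) _) ih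
  exact this Finset.univ

theorem mem_A {u : Fin m → ℤ} (hu : u ∈ X.Γ) {a : K} (ha : a ∈ X.comp u) : a ∈ X.A :=
  Algebra.subset_adjoin ⟨u, hu, ha⟩

namespace Grd

theorem mem_sup (a : K) (ha : a ∈ X.A) : a ∈ ⨆ u : X.Γ, X.comp (u : Fin m → ℤ) := by
  have h1 : (1 : K) ∈ ⨆ u : X.Γ, X.comp (u : Fin m → ℤ) := by
    refine (le_iSup (fun u : X.Γ => X.comp (u : Fin m → ℤ)) 0) ?_
    rw [AddSubmonoid.coe_zero, comp_zero]
    exact Submodule.mem_span_singleton_self _
  have h2 : (⨆ u : X.Γ, X.comp (u : Fin m → ℤ)) * (⨆ u : X.Γ, X.comp (u : Fin m → ℤ)) ≤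
      ⨆ u : X.Γ, X.comp (u : Fin m → ℤ) := by
    rw [Submodule.iSup_mul]
    refine iSup_le fun u => ?_
    rw [Submodule.mul_iSup]
    refine iSup_le fun t => ?_
    rw [← X.comp_mul u.2 t.2]
    exact le_iSup (fun u : X.Γ => X.comp (u : Fin m → ℤ)) (u + t)
  refine Algebra.adjoin_induction (p := fun a _ => a ∈ ⨆ u : X.Γ, X.comp (u : Fin m → ℤ))
    ?_ ?_ ?_ ?_ ha
  · rintro x ⟨u, hu, hx⟩
    exact (le_iSup (fun u : X.Γ => X.comp (u : Fin m → ℤ)) ⟨u, hu⟩) hx
  · intro r
    rw [Algebra.algebraMap_eq_smul_one]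
    exact Submodule.smul_mem _ _ h1
  · intro x y _ _ hx hy
    exact Submodule.add_mem _ hx hy
  · intro x y _ _ hx hy
    exact h2 (Submodule.mul_mem_mul hx hy)

end Grd

theorem gr1 (a : X.A) : ∃ (s : Finset (Fin m → ℤ)) (f : (Fin m → ℤ) → K),
    (∀ u ∈ s, u ∈ X.Γ ∧ f u ∈ X.comp u) ∧ (a : K) = ∑ u ∈ s, f u := by
  have h := Grd.mem_sup X a a.2
  rw [Submodule.mem_iSup_iff_exists_finsupp] at h
  obtain ⟨f, hf, hs⟩ := h
  refine ⟨f.support.map (Function.Embedding.subtype _),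
    fun u => if h : u ∈ X.Γ then f ⟨u, h⟩ else 0, ?_, ?_⟩
  · intro u hu
    obtain ⟨t, ht, rfl⟩ := Finset.mem_map.1 hu
    refine ⟨t.2, ?_⟩
    have : ((Function.Embedding.subtype fun x => x ∈ X.Γ) t) ∈ X.Γ := t.2
    show (if h : _ then f ⟨_, h⟩ else 0) ∈ _
    rw [dif_pos this]
    exact hf t
  · rw [Finset.sum_map, ← hs]
    refine Finset.sum_congr rfl fun t _ => ?_
    have : ((Function.Embedding.subtype fun x => x ∈ X.Γ) t) ∈ X.Γ := t.2
    rw [dif_pos this]
    rfl

namespace Grd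

theorem kM_ind : AlgebraicIndependent X.kM X.x := by
  have h : AlgebraicIndependent k (Sum.elim X.x X.M) := by
    have h1 := X.ind.comp Sum.swap Sum.swap_leftInverse.injective
    convert h1 using 1
    funext s
    rcases s with s | s <;> rfl
  exact (AlgebraicIndependent.sumElim_iff.1 h).2

theorem li_aux (s : Finset (Fin m → ℤ)) (g : (Fin m → ℤ) → X.kM)
    (h : ∑ u ∈ s, (g u : K) * X.mon u = 0) : ∀ u ∈ s, g u = 0 := by
  obtain ⟨N, hN⟩ : ∃ N : ℤ, ∀ u ∈ s, ∀ i, 0 ≤ u i + N := by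
    refine ⟨∑ u ∈ s, ∑ i, |u i|, fun u hu i => ?_⟩
    have h1 : |u i| ≤ ∑ i, |u i| :=
      Finset.single_le_sum (f := fun i => |u i|) (fun j _ => abs_nonneg _) (Finset.mem_univ i)
    have h2 : (∑ i, |u i|) ≤ ∑ u ∈ s, ∑ i, |u i| :=
      Finset.single_le_sum (f := fun u : Fin m → ℤ => ∑ i, |u i|)
        (fun j _ => Finset.sum_nonneg fun _ _ => abs_nonneg _) hu
    have h3 := neg_abs_le (u i)
    linarith
  set e : (Fin m → ℤ) → (Fin m →₀ ℕ) := fun u =>
    Finsupp.equivFunOnFinite.symm fun i => (u i + N).toNat with he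
  have hinj : ∀ u ∈ s, ∀ t ∈ s, e u = e t → u = t := by
    intro u hu t ht hut
    funext i
    have h1 : (u i + N).toNat = (t i + N).toNat := by
      have := DFunLike.congr_fun hut i
      simpa [he] using this
    have h2 := hN u hu i
    have h3 := hN t ht i
    omega
  have hmon : ∀ u ∈ s, (e u).prod (fun i n => X.x i ^ n) = X.mon u * X.mon (fun _ => N) := by
    intro u hu
    rw [← mon_add, Finsupp.prod_fintype _ _ (fun i => pow_zero _), mon]
    refine Finset.prod_congr rfl fun i _ => ?_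
    have h1 : e u i = (u i + N).toNat := by simp [he]
    rw [h1, ← zpow_natCast, Int.toNat_of_nonneg (hN u hu i)]
    rfl
  set P : MvPolynomial (Fin m) X.kM := ∑ u ∈ s, MvPolynomial.monomial (e u) (g u) with hP
  have hP0 : MvPolynomial.aeval X.x P = 0 := by
    rw [hP, map_sum]
    have : ∀ u ∈ s, MvPolynomial.aeval X.x (MvPolynomial.monomial (e u) (g u)) =
        ((g u : K) * X.mon u) * X.mon (fun _ => N) := by
      intro u hu
      rw [MvPolynomial.aeval_monomial, hmon u hu, mul_assoc]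
      rfl
    rw [Finset.sum_congr rfl this, ← Finset.sum_mul, h, zero_mul]
  have hP1 : P = 0 := (kM_ind X).eq_zero_of_aeval_eq_zero P hP0
  intro u hu
  have h1 := congrArg (MvPolynomial.coeff (e u)) hP1
  rw [hP, MvPolynomial.coeff_sum, MvPolynomial.coeff_zero] at h1
  rw [Finset.sum_eq_single u] at h1
  · simpa using h1
  · intro t ht htu
    rw [MvPolynomial.coeff_monomial, if_neg]
    exact fun h' => htu (hinj t ht u hu h')
  · exact fun h' => absurd hu h'

end Grd

theorem li (s : Finset (Fin m → ℤ)) (g : (Fin m → ℤ) → K) (hg : ∀ u ∈ s, g u ∈ X.K₀)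
    (h : ∑ u ∈ s, g u * X.mon u = 0) : ∀ u ∈ s, g u = 0 := by
  have h1 : ∀ u, ∃ r t : X.kM, (t : K) ≠ 0 ∧ (u ∈ s → g u * t = r) := by
    intro u
    by_cases hu : u ∈ s
    · have := hg u hu
      rw [K₀, IntermediateField.mem_adjoin_iff_div] at this
      obtain ⟨r, hr, t, ht, hrt⟩ := this
      by_cases h0 : t = 0
      · refine ⟨0, 1, by simp, fun _ => ?_⟩
        rw [hrt, h0]
        simp
      · exact ⟨⟨r, hr⟩, ⟨t, ht⟩, h0, fun _ => by rw [hrt]; exact div_mul_cancel₀ _ h0⟩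
    · exact ⟨0, 1, by simp, fun h' => absurd h' hu⟩
  choose r t ht hrt using h1
  have hT : ∀ u ∈ s, g u * ((∏ w ∈ s, t w : X.kM) : K) = ((r u * ∏ w ∈ s.erase u, t w : X.kM) : K) := by
    intro u hu
    rw [← Finset.mul_prod_erase s t hu]
    push_cast
    rw [← mul_assoc, hrt u hu]
  have hT0 : ((∏ w ∈ s, t w : X.kM) : K) ≠ 0 := by
    push_cast
    exact Finset.prod_ne_zero_iff.2 fun w _ => ht w
  have h2 := Grd.li_aux X s (fun u => r u * ∏ w ∈ s.erase u, t w) (by
    have : ∀ u ∈ s, ((r u * ∏ w ∈ s.erase u, t w : X.kM) : K) * X.mon u =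
        ((∏ w ∈ s, t w : X.kM) : K) * (g u * X.mon u) := by
      intro u hu
      rw [← hT u hu]
      ring
    rw [Finset.sum_congr rfl this, ← Finset.mul_sum, h, mul_zero])
  intro u hu
  have h3 := hT u hu
  rw [h2 u hu] at h3
  have h4 : g u * ((∏ w ∈ s, t w : X.kM) : K) = 0 := by rw [h3]; rfl
  exact (mul_eq_zero.1 h4).resolve_right hT0

theorem gr2 (s : Finset (Fin m → ℤ)) (g : (Fin m → ℤ) → K) (hg : ∀ u ∈ s, g u ∈ X.K₀)
    (h : ∑ u ∈ s, g u * X.mon u ∈ X.A) :
    ∀ u ∈ s, g u ≠ 0 → u ∈ X.Γ ∧ g u * X.mon u ∈ X.comp u := by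
  obtain ⟨s', f, hf, hs⟩ := X.gr1 ⟨_, h⟩
  have hp : ∀ u, ∃ p : K, p ∈ X.kM ∧ (u ∈ s' → f u = p * X.mon u) := by
    intro u
    by_cases hu : u ∈ s'
    · obtain ⟨p, hp, hpe⟩ := X.comp_form (hf u hu).2
      exact ⟨p, hp, fun _ => hpe⟩
    · exact ⟨0, X.kM.zero_mem, fun h' => absurd h' hu⟩
  choose p hpM hpe using hp
  have hK : ∀ a ∈ X.kM, a ∈ X.K₀ := fun a ha => IntermediateField.algebra_adjoin_le_adjoin _ _ ha
  have h1 := X.li (s ∪ s') (fun u => (if u ∈ s then g u else 0) - (if u ∈ s' then p u else 0))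
    (by
      intro u _
      refine sub_mem ?_ ?_
      · split_ifs with hu
        · exact hg u hu
        · exact zero_mem _
      · split_ifs with hu
        · exact hK _ (hpM u)
        · exact zero_mem _)
    (by
      simp only [sub_mul, Finset.sum_sub_distrib, ite_mul, zero_mul]
      rw [Finset.sum_ite_mem, Finset.sum_ite_mem, Finset.union_inter_cancel_left,
        Finset.union_inter_cancel_right, sub_eq_zero]
      have h2 : (∑ u ∈ s, g u * X.mon u) = ∑ u ∈ s', f u := hs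
      rw [h2]
      exact Finset.sum_congr rfl fun u hu => hpe u hu)
  intro u hu hgu
  have h2 := h1 u (Finset.mem_union_left _ hu)
  simp only [if_pos hu] at h2
  by_cases hu' : u ∈ s'
  · rw [if_pos hu', sub_eq_zero] at h2
    refine ⟨(hf u hu').1, ?_⟩
    rw [h2, ← hpe u hu']
    exact (hf u hu').2
  · rw [if_neg hu', sub_zero] at h2
    exact absurd h2 hgu

theorem A_fg : X.A.FG := by
  obtain ⟨G, hG⟩ := X.Γfg
  have h1 : ∀ u, ∃ T : Finset K, Submodule.span k (T : Set K) = X.comp u := fun u => X.comp_fg u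
  choose T hT using h1
  refine ⟨G.biUnion T, le_antisymm ?_ ?_⟩
  · refine Algebra.adjoin_le ?_
    intro a ha
    rw [Finset.mem_coe, Finset.mem_biUnion] at ha
    obtain ⟨u, hu, ha⟩ := ha
    refine X.mem_A (u := u) ?_ ?_
    · rw [← hG]
      exact AddSubmonoid.subset_closure hu
    · rw [← hT u]
      exact Submodule.subset_span ha
  · refine Algebra.adjoin_le ?_
    rintro a ⟨u, hu, ha⟩
    have key : ∀ u ∈ AddSubmonoid.closure (G : Set (Fin m → ℤ)),
        X.comp u ≤ Subalgebra.toSubmodule (Algebra.adjoin k (G.biUnion T : Set K)) := by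
      intro u hu
      induction hu using AddSubmonoid.closure_induction with
      | mem u hu =>
        rw [← hT u, Submodule.span_le]
        intro b hb
        exact Algebra.subset_adjoin (Finset.mem_coe.2 (Finset.mem_biUnion.2 ⟨u, hu, hb⟩))
      | zero =>
        rw [comp_zero, Submodule.span_le, Set.singleton_subset_iff]
        exact Subalgebra.one_mem _
      | add u t hu ht ihu iht =>
        rw [hG] at hu ht
        rw [X.comp_mul hu ht]
        exact Grd.mul_le_alg _ ihu iht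
    rw [← hG] at hu
    exact key u hu ha

theorem sat (hA : IsGood X.A) (u : Fin m → ℤ) (N : ℕ) (hN : 1 ≤ N) (h : N • u ∈ X.Γ) :
    u ∈ X.Γ := by
  have h1 : X.mon u ^ N = X.mon (N • u) := by
    clear h hN
    induction N with
    | zero => simp [mon_zero]
    | succ n ih => rw [pow_succ, ih, succ_nsmul, mon_add]
  have h2 : X.mon u ∈ X.A := by
    refine hA.norm _ ?_
    refine IsIntegral.of_pow (n := N) (by omega) ?_
    rw [h1]
    have : X.mon (N • u) = algebraMap X.A K ⟨X.mon (N • u), X.mem_A h (X.mon_mem h)⟩ := rfl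
    rw [this]
    exact isIntegral_algebraMap
  have h3 := X.gr2 {u} (fun _ => 1) (fun _ _ => X.K₀.one_mem) (by simpa using h2) u
    (Finset.mem_singleton_self u) one_ne_zero
  exact h3.1

theorem diff (hA : IsGood X.A) (u : Fin m → ℤ) : ∃ a ∈ X.Γ, ∃ b ∈ X.Γ, u = a - b := by
  obtain ⟨a, b, hb, hab⟩ := hA.frac (X.mon u)
  obtain ⟨s, f, hf, hs⟩ := X.gr1 b
  have hp : ∀ t, ∃ p : K, p ∈ X.kM ∧ (t ∈ s → f t = p * X.mon t) := by
    intro t
    by_cases ht : t ∈ s
    · obtain ⟨p, hp, hpe⟩ := X.comp_form (hf t ht).2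
      exact ⟨p, hp, fun _ => hpe⟩
    · exact ⟨0, X.kM.zero_mem, fun h' => absurd h' ht⟩
  choose p hpM hpe using hp
  have hK : ∀ a ∈ X.kM, a ∈ X.K₀ := fun a ha => IntermediateField.algebra_adjoin_le_adjoin _ _ ha
  obtain ⟨t, ht, hft⟩ : ∃ t ∈ s, f t ≠ 0 := by
    by_contra hcon
    push Not at hcon
    rw [Finset.sum_eq_zero hcon] at hs
    exact hb hs
  have hpt : p t ≠ 0 := by
    intro h0
    rw [hpe t ht, h0, zero_mul] at hft
    exact hft rfl
  have ha : (a : K) = ∑ w ∈ s.map (addRightEmbedding u), p (w - u) * X.mon w := by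
    have h1 : (a : K) = X.mon u * b := by
      rw [hab, div_mul_cancel₀ _ hb]
    rw [h1, hs, Finset.mul_sum, Finset.sum_map]
    refine Finset.sum_congr rfl fun w hw => ?_
    rw [addRightEmbedding_apply, add_sub_cancel_right, mon_add, hpe w hw]
    ring
  have h2 := X.gr2 (s.map (addRightEmbedding u)) (fun w => p (w - u))
    (fun w _ => hK _ (hpM _)) (by rw [← ha]; exact a.2) (t + u)
    (Finset.mem_map.2 ⟨t, ht, rfl⟩) (by simpa using hpt)
  exact ⟨t + u, h2.1, t, (hf t ht).1, by simp⟩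

end HD

end

end Pool.Agent.MLD.H
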