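import Pool.Agent.Lib.MP_f23696_ag.H.Nf
import Pool.Agent.Lib.MP_f23696_ag.H.Coa

/-!
Module HDA of the project HORO (MP_f23696_ag): the abstract data of type A.
-/

set_option autoImplicit false

namespace Pool.Agent.MLD.H

open scoped Classical
noncomputable section

universe u v

section typeA

variable {B : Type} [Fintype B] {n : B → ℕ} {k : Type u} {K : Type v} [Field k] [Field K]
  [Algebra k K] {m : ℕ} {κ : Finset (Σ b, Fin (n b))}

/-! ### HDA: the abstract data of type A -/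
section HDA

theorem cell_isCell (M : Pos n κ → K) (b : B) : IsCell (kb κ b) (cell κ M b) := by
  intro i j h
  unfold cell
  rw [Matrix.of_apply]
  have h' : ¬ ∃ c : Fin (n b), (⟨b, c⟩ : Σ b, Fin (n b)) ∈ κ ∧ j ≤ c ∧ c < i := h
  rw [dif_neg h']

namespace HDA

theorem cell_pos (M : Pos n κ → K) (b : B) (i j : Fin (n b)) (h : Sep (kb κ b) i j) :
    cell κ M b i j = M ⟨⟨b, i, j⟩, h⟩ := by
  unfold cell
  rw [Matrix.of_apply]
  have h' : ∃ c : Fin (n b), (⟨b, c⟩ : Σ b, Fin (n b)) ∈ κ ∧ j ≤ c ∧ c < i := h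
  rw [dif_pos h']

theorem cell_mem (M : Pos n κ → K) (b : B) (i j : Fin (n b)) :
    cell κ M b i j ∈ Algebra.adjoin k (Set.range M) := by
  by_cases h : Sep (kb κ b) i j
  · rw [cell_pos M b i j h]
    exact Algebra.subset_adjoin ⟨_, rfl⟩
  · rw [cell_isCell M b i j h]
    split_ifs
    · exact one_mem _
    · exact zero_mem _

theorem det_mem {p : ℕ} (U : Subalgebra k K) (G : Matrix (Fin p) (Fin p) K)
    (h : ∀ i j, G i j ∈ U) : G.det ∈ U := by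
  rw [Matrix.det_apply]
  refine sum_mem fun σ _ => ?_
  rw [Units.smul_def, zsmul_eq_mul]
  refine mul_mem (intCast_mem _ _) (prod_mem fun i _ => h _ _)

theorem minors_le (M : Pos n κ → K) (c : Σ b, Fin (n b)) :
    ∀ f ∈ minors k κ M c, f ∈ Algebra.adjoin k (Set.range M) := by
  intro f hf
  have h : minors k κ M c ≤ Subalgebra.toSubmodule (Algebra.adjoin k (Set.range M)) := by
    unfold minors
    rw [Submodule.span_le]
    rintro _ ⟨r, rfl⟩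
    exact det_mem _ _ fun i j => cell_mem M c.1 _ _
  exact h hf

theorem minor_mem_minors (M : Pos n κ → K) (b : B) (c : Fin (n b))
    (r : Fin (c + 1) → Fin (n b)) :
    minor (cell κ M b) c r ∈ minors k κ M ⟨b, c⟩ :=
  Submodule.subset_span ⟨r, rfl⟩

theorem one_mem_minors (M : Pos n κ → K) (c : Σ b, Fin (n b)) (hc : c ∈ κ) :
    1 ∈ minors k κ M c := by
  have h : lead (cell κ M c.1) c.2 = 1 := lead_cell (cell_isCell M c.1) c.2 hc
  rw [← h]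
  exact minor_mem_minors M c.1 c.2 _

/-- the kinds of `T` in the block `b` -/
def tb (T : Set κ) (b : B) : Set (Fin (n b)) :=
  {c' | ∃ h : (⟨b, c'⟩ : Σ b, Fin (n b)) ∈ κ, (⟨_, h⟩ : κ) ∈ T}

theorem tb_sub (T : Set κ) (b : B) : tb T b ⊆ kb κ b := fun _ h => h.1

/-- separation -/
def sp (c : κ) (s : Pos n κ) : Prop :=
  ∃ c' : Fin (n s.1.1), (c : Σ b, Fin (n b)) = ⟨s.1.1, c'⟩ ∧ s.1.2.2 ≤ c' ∧ c' < s.1.2.1

theorem sp_iff (T : Set κ) (s : Pos n κ) :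
    (∃ c ∈ T, sp c s) ↔ Sep (tb T s.1.1) s.1.2.1 s.1.2.2 := by
  constructor
  · rintro ⟨c, hc, c', h1, h2, h3⟩
    refine ⟨c', ?_, h2, h3⟩
    have h4 : (⟨s.1.1, c'⟩ : Σ b, Fin (n b)) ∈ κ := by
      rw [← h1]
      exact c.2
    refine ⟨h4, ?_⟩
    have h5 : (⟨_, h4⟩ : κ) = c := Subtype.ext h1.symm
    rw [h5]
    exact hc
  · rintro ⟨c', ⟨h4, h5⟩, h2, h3⟩
    exact ⟨⟨_, h4⟩, h5, c', rfl, h2, h3⟩

/-- the adapted coordinates -/
def cot (M : Pos n κ → K) (T : Set κ) (s : Pos n κ) : K :=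
  if ∃ c ∈ T, sp c s then nf (tb T s.1.1) (cell κ M s.1.1) s.1.2.1 s.1.2.2 else M s

theorem cot_mem (M : Pos n κ → K) (T : Set κ) (s : Pos n κ) (h : ∃ c ∈ T, sp c s) :
    ∃ c ∈ T, cot M T s ∈ minors k κ M c := by
  have h1 := (sp_iff T s).1 h
  obtain ⟨⟨h2, h3⟩, h4⟩ := coarse_mem (tb_sub T s.1.1) (cell_isCell M s.1.1) _ _ h1
  refine ⟨_, h3, ?_⟩
  unfold cot
  rw [if_pos h, h4]
  exact minor_mem_minors M s.1.1 _ _

theorem cot_adj (M : Pos n κ → K) (T : Set κ) (c : κ) (hc : c ∈ T) (f : K)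
    (hf : f ∈ minors k κ M c) :
    f ∈ Algebra.adjoin k (cot M T '' {s | ∃ c ∈ T, sp c s}) := by
  have h : minors k κ M c ≤
      Subalgebra.toSubmodule (Algebra.adjoin k (cot M T '' {s | ∃ c ∈ T, sp c s})) := by
    unfold minors
    rw [Submodule.span_le]
    rintro _ ⟨r, rfl⟩
    have hc' : (c : Σ b, Fin (n b)).2 ∈ tb T (c : Σ b, Fin (n b)).1 := ⟨c.2, hc⟩
    refine Algebra.adjoin_mono ?_
      (coarse_adj (k := k) (tb_sub T _) (cell_isCell M _) _ hc' r)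
    rintro _ ⟨i, j, hij, rfl⟩
    have hp : Sep (kb κ (c : Σ b, Fin (n b)).1) i j := by
      obtain ⟨c', h1, h2, h3⟩ := hij
      exact ⟨c', h1.1, h2, h3⟩
    let s : Pos n κ := ⟨⟨(c : Σ b, Fin (n b)).1, i, j⟩, hp⟩
    have hs : ∃ c ∈ T, sp c s := (sp_iff T s).2 hij
    refine ⟨s, hs, ?_⟩
    unfold cot
    rw [if_pos hs]
  exact h hf

theorem cot_gen (M : Pos n κ → K) (T : Set κ) (s : Pos n κ) :
    M s ∈ Algebra.adjoin k (Set.range (cot M T)) := by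
  have hp : Sep (kb κ s.1.1) s.1.2.1 s.1.2.2 := s.2
  have h1 := coarse_gen (k := k) (tb_sub T s.1.1) (cell_isCell M s.1.1) _ _ hp
  rw [cell_pos M _ _ _ hp] at h1
  refine Algebra.adjoin_mono ?_ h1
  rintro _ (⟨i, j, hij, rfl⟩ | ⟨i, j, hk, hij, rfl⟩)
  · have hq : Sep (kb κ s.1.1) i j := by
      obtain ⟨c', h1, h2, h3⟩ := hij
      exact ⟨c', h1.1, h2, h3⟩
    let t : Pos n κ := ⟨⟨s.1.1, i, j⟩, hq⟩
    have ht : ∃ c ∈ T, sp c t := (sp_iff T t).2 hij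
    refine ⟨t, ?_⟩
    unfold cot
    rw [if_pos ht]
  · let t : Pos n κ := ⟨⟨s.1.1, i, j⟩, hk⟩
    have ht : ¬ ∃ c ∈ T, sp c t := fun h => hij ((sp_iff T t).1 h)
    refine ⟨t, ?_⟩
    unfold cot
    rw [if_neg ht, cell_pos M _ _ _ hk]

theorem M_mem_minors (M : Pos n κ → K) (s : Pos n κ) : ∃ c : κ, sp c s ∧ M s ∈ minors k κ M c := by
  have hp : Sep (kb κ s.1.1) s.1.2.1 s.1.2.2 := s.2
  obtain ⟨h1, h2⟩ := coarse_mem (le_refl _) (cell_isCell M s.1.1) _ _ hp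
  rw [nf_cell (cell_isCell M s.1.1), cell_pos M _ _ _ hp] at h2
  obtain ⟨h3, h4⟩ : s.1.2.2 ≤ cut (kb κ s.1.1) s.1.2.2 ∧ cut (kb κ s.1.1) s.1.2.2 < s.1.2.1 :=
    (Nf.cut_sep hp).2
  refine ⟨⟨⟨s.1.1, cut (kb κ s.1.1) s.1.2.2⟩, h1⟩, ⟨_, rfl, h3, h4⟩, ?_⟩
  have h5 : M s = minor (cell κ M s.1.1) (cut (kb κ s.1.1) s.1.2.2)
      (repl (cut (kb κ s.1.1) s.1.2.2) s.1.2.1 s.1.2.2) := h2
  rw [h5]
  exact minor_mem_minors M s.1.1 _ _

end HDA

theorem exists_hd (Y : TA k K n κ m) : ∃ X : HD k K (Pos n κ) κ m, IsHD Y X :=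
  ⟨{ M := Y.M
     x := Y.x
     ind := Y.ind
     gen := Y.gen
     Λ := fun c => Y.Λ c
     Γ := Y.Γ
     Γfg := Y.Γfg
     Λ_nonneg := fun c => Y.Λ_nonneg c c.2
     Λ_pos := fun c => Y.Λ_pos c c.2
     S := fun c => minors k κ Y.M c
     one_mem := fun c => HDA.one_mem_minors Y.M c c.2
     Sfg := fun c => Submodule.fg_span (Set.finite_range _)
     S_le := fun c => HDA.minors_le Y.M c
     sep := HDA.sp
     M_mem := HDA.M_mem_minors Y.M
     co := HDA.cot Y.M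
     co_out := fun T s h => if_neg h
     co_mem := HDA.cot_mem Y.M
     co_adj := fun T c hc f hf => HDA.cot_adj Y.M T c hc f hf
     co_gen := HDA.cot_gen Y.M },
   { M := rfl
     x := rfl
     Λ := fun _ => rfl
     Γ := rfl
     S := fun _ => rfl
     sep := fun _ _ => Iff.rfl
     co := fun T s h => if_pos h }⟩

/-- the components are the concrete ones -/
theorem hd_comp (Y : TA k K n κ m) (X : HD k K (Pos n κ) κ m) (hX : IsHD Y X) (u : Fin m → ℤ) :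
    X.comp u = Y.cmp u := by
  unfold HD.comp HD.mon
  show _ = (∏ c ∈ κ, minors k κ Y.M c ^ (Y.Λ c ⬝ᵥ u).toNat) * Submodule.span k {∏ i, Y.x i ^ u i}
  rw [hX.x, ← Finset.prod_coe_sort κ (fun c => minors k κ Y.M c ^ (Y.Λ c ⬝ᵥ u).toNat)]
  congr 1
  refine Finset.prod_congr rfl fun c _ => ?_
  rw [hX.S c, hX.Λ c]

end HDA

end typeA

end

end Pool.Agent.MLD.H
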