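import Pool.Agent.Lib.MP_f23696_ag.H.CtxA

/-!
HORO, module GAU: values of polynomials at general points.
-/

set_option autoImplicit false

namespace Pool.Agent.MLD.H

open scoped Classical
noncomputable section

universe u v

section GAU
variable {k : Type u} [Field k] [Infinite k] {K : Type v} [Field K] [Algebra k K]

/-- A polynomial over a valued field whose valuation is trivial on `k` has at general points of
`k ^ n` the value of the Gauss norm. -/
theorem gauss (O : ValuationSubring K) (hO : ∀ c : k, algebraMap k K c ∈ O) {τ : Type} [Finite τ]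
    (F : MvPolynomial τ K) (hF : F ≠ 0) :
    ∃ P : MvPolynomial τ k, P ≠ 0 ∧ ∀ g : τ → k, MvPolynomial.eval g P ≠ 0 →
      MvPolynomial.eval (fun i => algebraMap k K (g i)) F ≠ 0 ∧
      ∀ α, F.coeff α / MvPolynomial.eval (fun i => algebraMap k K (g i)) F ∈ O := by
  -- a coefficient of maximal valuation
  have hsupp : F.support.Nonempty := by
    rw [Finset.nonempty_iff_ne_empty]
    intro h
    exact hF (MvPolynomial.support_eq_empty.1 h)
  obtain ⟨a0, ha0, hmax⟩ := F.support.exists_max_image (fun a => O.valuation (F.coeff a)) hsupp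
  have hc0 : F.coeff a0 ≠ 0 := MvPolynomial.mem_support_iff.1 ha0
  have hcO : ∀ a, F.coeff a / F.coeff a0 ∈ O := by
    intro a
    rw [← O.valuation_le_one_iff, map_div₀]
    by_cases h : a ∈ F.support
    · exact div_le_one_of_le₀ (hmax a h) zero_le
    · rw [MvPolynomial.notMem_support_iff.1 h]
      simp
  let ι : k →+* O := (algebraMap k K).codRestrict O.toSubring hO
  have hι : ∀ x, ((ι x : O) : K) = algebraMap k K x := fun x => rfl
  let r : k →+* IsLocalRing.ResidueField O := (IsLocalRing.residue O).comp ι
  letI : Algebra k (IsLocalRing.ResidueField O) := r.toAlgebra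
  obtain ⟨l, hl⟩ := LinearMap.exists_leftInverse_of_injective
    (Algebra.linearMap k (IsLocalRing.ResidueField O)) (LinearMap.ker_eq_bot.2 r.injective)
  have hl1 : l 1 = 1 := by
    have h := LinearMap.congr_fun hl 1
    simp only [LinearMap.comp_apply, LinearMap.id_apply, Algebra.linearMap_apply, map_one] at h
    exact h
  have hlm : ∀ (x : k) (z : IsLocalRing.ResidueField O), l (r x * z) = x * l z := by
    intro x z
    have h : r x * z = x • z := (Algebra.smul_def x z).symm
    rw [h, map_smul, smul_eq_mul]
  let c : (τ →₀ ℕ) → O := fun a => ⟨F.coeff a / F.coeff a0, hcO a⟩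
  let P : MvPolynomial τ k :=
    ∑ a ∈ F.support, MvPolynomial.monomial a (l (IsLocalRing.residue O (c a)))
  have hPc : P.coeff a0 = 1 := by
    have h1 : P.coeff a0 = ∑ a ∈ F.support,
        MvPolynomial.coeff a0 (MvPolynomial.monomial a (l (IsLocalRing.residue O (c a)))) :=
      MvPolynomial.coeff_sum _ _ _
    rw [h1]
    simp only [MvPolynomial.coeff_monomial]
    rw [Finset.sum_ite_eq' F.support a0, if_pos ha0]
    have h2 : c a0 = 1 := Subtype.ext (div_self hc0)
    rw [h2, map_one, hl1]
  refine ⟨P, fun h => ?_, fun g hg => ?_⟩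
  · rw [h, MvPolynomial.coeff_zero] at hPc
    exact zero_ne_one hPc
  · -- the value of `F / coeff a0` at `g` in `O`
    let mon : (τ →₀ ℕ) → k := fun a => a.prod fun i e => g i ^ e
    let V : O := ∑ a ∈ F.support, ι (mon a) * c a
    have hV : (V : K) * F.coeff a0 = MvPolynomial.eval (fun i => algebraMap k K (g i)) F := by
      have h1 : (V : K) = ∑ a ∈ F.support, algebraMap k K (mon a) * (F.coeff a / F.coeff a0) := by
        have h2 : (V : K) = O.subtype V := rfl
        rw [h2, map_sum]
        rfl
      rw [h1, MvPolynomial.eval_eq, Finset.sum_mul]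
      refine Finset.sum_congr rfl fun a _ => ?_
      have h3 : algebraMap k K (mon a) = ∏ i ∈ a.support, algebraMap k K (g i) ^ a i := by
        simp only [mon, Finsupp.prod, map_prod, map_pow]
      rw [h3, mul_assoc, div_mul_cancel₀ _ hc0, mul_comm]
    have hPg : MvPolynomial.eval g P = l (IsLocalRing.residue O V) := by
      simp only [P, V, map_sum, MvPolynomial.eval_monomial, map_mul]
      refine Finset.sum_congr rfl fun a _ => ?_
      have h4 : IsLocalRing.residue O (ι (mon a)) = r (mon a) := rfl
      rw [h4, hlm, mul_comm]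
    rw [hPg] at hg
    have hres : IsLocalRing.residue O V ≠ 0 := fun h => hg (by rw [h, map_zero])
    have hunit : IsUnit V := by
      by_contra h
      exact hres ((IsLocalRing.residue_eq_zero_iff V).2 ((IsLocalRing.mem_maximalIdeal V).2 h))
    obtain ⟨W, hW⟩ := hunit.exists_right_inv
    have hW' : (V : K) * (W : K) = 1 := by
      have := congrArg (O.subtype) hW
      simpa using this
    have hV0 : (V : K) ≠ 0 := left_ne_zero_of_mul_eq_one hW'
    refine ⟨?_, fun α => ?_⟩
    · rw [← hV]
      exact mul_ne_zero hV0 hc0
    · have h5 : F.coeff α / MvPolynomial.eval (fun i => algebraMap k K (g i)) F =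
          F.coeff α / F.coeff a0 * (W : K) := by
        rw [← hV]
        have hWi : (W : K) = (V : K)⁻¹ := eq_inv_of_mul_eq_one_right hW'
        rw [hWi]
        field_simp
      rw [h5]
      exact O.mul_mem _ _ (hcO α) W.2

end GAU

end

end Pool.Agent.MLD.H
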