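import Pool.Agent.Lib.MP_f23696_ag.H.CtxA

/-!
Module NF of the project HORO (MP_f23696_ag): the normal form of a matrix modulo a block upper
triangular group.
-/

set_option autoImplicit false

namespace Pool.Agent.MLD.H

open scoped Classical
noncomputable section

universe u v

section NF

variable {R : Type v} {n : ℕ}

theorem minor_congr [CommRing R] {κ : Set (Fin n)} {G G' : Matrix (Fin n) (Fin n) R}
    (h : Eqv κ G G') {c : Fin n} (hc : c ∈ κ) :
    ∃ d : R, IsUnit d ∧ ∀ r, minor G' c r = d * minor G c r := by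
  obtain ⟨Q, hQ, e⟩ := h c hc
  refine ⟨Q.det, hQ, fun r => ?_⟩
  have e2 : (Matrix.of fun p q : Fin (c + 1) => G' (r p) (Fin.castLE c.2 q)) =
      (Matrix.of fun p q : Fin (c + 1) => G (r p) (Fin.castLE c.2 q)) * Q := by
    ext p q
    have := congrFun (congrFun e (r p)) q
    simpa [Matrix.mul_apply] using this
  rw [minor, minor, e2, Matrix.det_mul, mul_comm]

theorem Eqv.symm [CommRing R] {κ : Set (Fin n)} {G G' : Matrix (Fin n) (Fin n) R}
    (h : Eqv κ G G') : Eqv κ G' G := by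
  intro c hc
  obtain ⟨Q, hQ, e⟩ := h c hc
  refine ⟨Q⁻¹, ?_, ?_⟩
  · rw [Matrix.det_nonsing_inv]
    exact hQ.ringInverse
  · rw [e, Matrix.mul_assoc, Matrix.mul_nonsing_inv _ hQ, Matrix.mul_one]

theorem Eqv.trans [CommRing R] {κ : Set (Fin n)} {G G' G'' : Matrix (Fin n) (Fin n) R}
    (h : Eqv κ G G') (h' : Eqv κ G' G'') : Eqv κ G G'' := by
  intro c hc
  obtain ⟨Q, hQ, e⟩ := h c hc
  obtain ⟨Q', hQ', e'⟩ := h' c hc
  refine ⟨Q * Q', ?_, ?_⟩
  · rw [Matrix.det_mul]
    exact hQ.mul hQ'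
  · rw [e', e, Matrix.mul_assoc]

theorem Eqv.mul_left [CommRing R] {κ : Set (Fin n)} {G G' : Matrix (Fin n) (Fin n) R}
    (h : Eqv κ G G') (g : Matrix (Fin n) (Fin n) R) : Eqv κ (g * G) (g * G') := by
  intro c hc
  obtain ⟨Q, hQ, e⟩ := h c hc
  refine ⟨Q, hQ, ?_⟩
  have e1 : ∀ H : Matrix (Fin n) (Fin n) R,
      (Matrix.of fun i q => (g * H) i (Fin.castLE c.2 q)) =
        g * (Matrix.of fun i (q : Fin (c + 1)) => H i (Fin.castLE c.2 q)) := by
    intro H
    ext i q
    simp [Matrix.mul_apply]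
  rw [e1, e1, e, Matrix.mul_assoc]

theorem nf_isCell [Field R] (κ : Set (Fin n)) (G : Matrix (Fin n) (Fin n) R) :
    IsCell κ (nf κ G) := by
  intro i j h
  simp [nf, h]

namespace Nf

theorem cut_spec {κ : Set (Fin n)} {j c : Fin n} (hc : c ∈ κ) (hj : j ≤ c) :
    cut κ j ∈ κ ∧ j ≤ cut κ j ∧ cut κ j ≤ c := by
  have hm : c ∈ Finset.univ.filter fun c => c ∈ κ ∧ j ≤ c := by simp [hc, hj]
  have hne : (Finset.univ.filter fun c => c ∈ κ ∧ j ≤ c).Nonempty := ⟨c, hm⟩
  have h1 := Finset.min'_mem _ hne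
  have h2 := Finset.min'_le _ _ hm
  have e : cut κ j = (Finset.univ.filter fun c => c ∈ κ ∧ j ≤ c).min' hne := by
    rw [cut, dif_pos hne]
  rw [e]
  simp only [Finset.mem_filter, Finset.mem_univ, true_and] at h1
  exact ⟨h1.1, h1.2, h2⟩

theorem cut_sep {κ : Set (Fin n)} {i j : Fin n} (h : Sep κ i j) :
    cut κ j ∈ κ ∧ j ≤ cut κ j ∧ cut κ j < i := by
  obtain ⟨c, hc, h1, h2⟩ := h
  obtain ⟨h3, h4, h5⟩ := cut_spec hc h1
  exact ⟨h3, h4, lt_of_le_of_lt h5 h2⟩

theorem not_sep {κ : Set (Fin n)} {i j : Fin n} (h : i ≤ cut κ j) : ¬ Sep κ i j :=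
  fun h' => absurd (cut_sep h').2.2 (not_lt.2 h)

theorem not_sep_of_le {κ : Set (Fin n)} {i j : Fin n} (h : i ≤ j) : ¬ Sep κ i j := by
  rintro ⟨c, -, h1, h2⟩
  exact absurd (lt_of_le_of_lt h1 h2) (not_lt.2 h)

/-- the top left block -/
def top (G : Matrix (Fin n) (Fin n) R) (c : Fin n) : Matrix (Fin (c + 1)) (Fin (c + 1)) R :=
  Matrix.of fun p q => G (Fin.castLE c.2 p) (Fin.castLE c.2 q)

theorem lead_eq [CommRing R] (G : Matrix (Fin n) (Fin n) R) (c : Fin n) :
    lead G c = (top G c).det := rfl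

/-- Cramer's rule -/
theorem cram [Field R] (G : Matrix (Fin n) (Fin n) R) (d : Fin n) (j : Fin n) (hj : j ≤ d)
    (i : Fin n) :
    ∑ q : Fin (d + 1), G i (Fin.castLE d.2 q) *
      (top G d)⁻¹ q ⟨j, Nat.lt_succ_of_le hj⟩ = minor G d (repl d i j) / lead G d := by
  have h1 : minor G d (repl d i j) = Matrix.vecMul
      (fun q => G i (Fin.castLE d.2 q)) (top G d).adjugate ⟨j, Nat.lt_succ_of_le hj⟩ := by
    rw [← Matrix.mulVec_transpose, Matrix.adjugate_transpose, ← Matrix.cramer_eq_adjugate_mulVec,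
      Matrix.cramer_transpose_apply, minor]
    congr 1
    ext p q
    simp only [Matrix.of_apply, Matrix.updateRow_apply, repl, top]
    by_cases hp : p = ⟨j, Nat.lt_succ_of_le hj⟩
    · subst hp
      simp
    · have : Fin.castLE d.2 p ≠ j := by
        intro h
        apply hp
        ext
        simp [← h]
      simp [hp, this]
  rw [h1, lead_eq, Matrix.inv_def]
  change _ = (∑ q : Fin (d + 1), G i (Fin.castLE d.2 q) *
    (top G d).adjugate q ⟨j, Nat.lt_succ_of_le hj⟩) / (top G d).det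
  rw [Finset.sum_div]
  refine Finset.sum_congr rfl fun q _ => ?_
  simp only [Matrix.smul_apply, Ring.inverse_eq_inv', smul_eq_mul]
  ring

theorem cram_le [Field R] (G : Matrix (Fin n) (Fin n) R) (d : Fin n) (hd : lead G d ≠ 0)
    (j : Fin n) (hj : j ≤ d) (i : Fin n) (hi : i ≤ d) :
    ∑ q : Fin (d + 1), G i (Fin.castLE d.2 q) *
      (top G d)⁻¹ q ⟨j, Nat.lt_succ_of_le hj⟩ = if i = j then 1 else 0 := by
  have hu : IsUnit (top G d).det := by
    rw [← lead_eq]
    exact isUnit_iff_ne_zero.2 hd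
  have h1 := congrFun (congrFun (Matrix.mul_nonsing_inv _ hu) ⟨i, Nat.lt_succ_of_le hi⟩)
    ⟨j, Nat.lt_succ_of_le hj⟩
  rw [Matrix.mul_apply, Matrix.one_apply] at h1
  simp only [Fin.mk.injEq, top, Matrix.of_apply] at h1
  have e : (i = j) ↔ ((i : ℕ) = (j : ℕ)) := Fin.ext_iff
  simp only [e]
  rw [← h1]
  rfl

/-- the transition matrix -/
def trn [Field R] (κ : Set (Fin n)) (G : Matrix (Fin n) (Fin n) R) (c : Fin n) :
    Matrix (Fin (c + 1)) (Fin (c + 1)) R :=
  Matrix.of fun q j =>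
    if h : (Fin.castLE c.2 j ≤ cut κ (Fin.castLE c.2 j)) ∧
        (Fin.castLE c.2 q ≤ cut κ (Fin.castLE c.2 j)) then
      (top G (cut κ (Fin.castLE c.2 j)))⁻¹ ⟨q, Nat.lt_succ_of_le h.2⟩ ⟨j, Nat.lt_succ_of_le h.1⟩
    else 0

theorem sum_ext [CommRing R] {c d : ℕ} (hdc : d ≤ c) (f : Fin (c + 1) → R)
    (hf : ∀ q : Fin (c + 1), d < q → f q = 0) :
    ∑ q : Fin (c + 1), f q = ∑ q : Fin (d + 1), f (Fin.castLE (Nat.succ_le_succ hdc) q) := by
  symm
  refine Finset.sum_of_injOn (Fin.castLE (Nat.succ_le_succ hdc))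
    (fun a _ b _ h => Fin.castLE_injective _ h) (fun _ _ => Finset.mem_coe.2 (Finset.mem_univ _))
    (fun q _ hq => hf q ?_) (fun _ _ => rfl)
  by_contra hlt
  apply hq
  refine ⟨⟨q, by omega⟩, Finset.mem_coe.2 (Finset.mem_univ _), ?_⟩
  ext
  rfl

theorem trn_spec [Field R] {κ : Set (Fin n)} {G : Matrix (Fin n) (Fin n) R}
    (h : ∀ c ∈ κ, lead G c ≠ 0) {c : Fin n} (hc : c ∈ κ) :
    (Matrix.of fun i q => nf κ G i (Fin.castLE c.2 q)) =
      (Matrix.of fun i (q : Fin (c + 1)) => G i (Fin.castLE c.2 q)) * trn κ G c := by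
  ext i j
  have hj : Fin.castLE c.2 j ≤ c := by
    rw [Fin.le_def]
    simpa using Nat.lt_succ_iff.1 j.2
  obtain ⟨h1, h2, h3⟩ := cut_spec hc hj
  rw [Matrix.mul_apply, sum_ext (d := (cut κ (Fin.castLE c.2 j) : Fin n)) (Fin.le_def.1 h3)]
  · have e : ∀ q : Fin ((cut κ (Fin.castLE c.2 j) : Fin n) + 1),
        (Matrix.of fun i (q : Fin (c + 1)) => G i (Fin.castLE c.2 q)) i
          (Fin.castLE (Nat.succ_le_succ (Fin.le_def.1 h3)) q) *
        trn κ G c (Fin.castLE (Nat.succ_le_succ (Fin.le_def.1 h3)) q) j =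
        G i (Fin.castLE (cut κ (Fin.castLE c.2 j)).2 q) *
        (top G (cut κ (Fin.castLE c.2 j)))⁻¹ q
          ⟨(Fin.castLE c.2 j : Fin n), Nat.lt_succ_of_le (Fin.le_def.1 h2)⟩ := by
      intro q
      have hq : Fin.castLE c.2 (Fin.castLE (Nat.succ_le_succ (Fin.le_def.1 h3)) q) ≤
          cut κ (Fin.castLE c.2 j) := by
        rw [Fin.le_def]
        simpa using Nat.lt_succ_iff.1 q.2
      rw [trn, Matrix.of_apply, Matrix.of_apply, dif_pos ⟨h2, hq⟩]
      rfl
    rw [Finset.sum_congr rfl fun q _ => e q]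
    by_cases hi : i ≤ cut κ (Fin.castLE c.2 j)
    · rw [cram_le G _ (h _ h1) _ h2 _ hi]
      simp only [Matrix.of_apply]
      exact nf_isCell κ G _ _ (not_sep hi)
    · rw [cram G _ _ h2]
      have hs : Sep κ i (Fin.castLE c.2 j) := ⟨_, h1, h2, not_le.1 hi⟩
      simp only [Matrix.of_apply, nf, if_pos hs]
  · intro q hq
    have : ¬ (Fin.castLE c.2 q ≤ cut κ (Fin.castLE c.2 j)) := by
      rw [Fin.le_def, not_le]
      simpa using hq
    have h0 : trn κ G c q j = 0 := by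
      rw [trn, Matrix.of_apply, dif_neg (fun h' => this h'.2)]
    rw [h0, mul_zero]

end Nf

theorem lead_cell [CommRing R] {κ : Set (Fin n)} {G : Matrix (Fin n) (Fin n) R}
    (h : IsCell κ G) (c : Fin n) (hc : c ∈ κ) : lead G c = 1 := by
  have hz : ∀ i j : Fin n, i ≤ j → G i j = if i = j then 1 else 0 :=
    fun i j hij => h i j (Nf.not_sep_of_le hij)
  rw [Nf.lead_eq, Matrix.det_of_isLowerTriangular]
  · refine Finset.prod_eq_one fun p _ => ?_
    rw [Nf.top, Matrix.of_apply, hz _ _ le_rfl, if_pos rfl]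
  · intro p q hpq
    have hlt : (p : ℕ) < q := by simpa using hpq
    rw [Nf.top, Matrix.of_apply, hz _ _ (by rw [Fin.le_def]; simpa using hlt.le), if_neg]
    intro h'
    have := Fin.ext_iff.1 h'
    simp only [Fin.val_castLE] at this
    omega

theorem nf_eqv [Field R] (κ : Set (Fin n)) (G : Matrix (Fin n) (Fin n) R)
    (h : ∀ c ∈ κ, lead G c ≠ 0) : Eqv κ G (nf κ G) := by
  intro c hc
  refine ⟨Nf.trn κ G c, ?_, Nf.trn_spec h hc⟩
  have e := Nf.trn_spec h hc
  have h1 := lead_cell (nf_isCell κ G) c hc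
  have e2 : Nf.top (nf κ G) c = Nf.top G c * Nf.trn κ G c := by
    ext p q
    have := congrFun (congrFun e (Fin.castLE c.2 p)) q
    simpa [Matrix.mul_apply, Nf.top] using this
  rw [Nf.lead_eq, e2, Matrix.det_mul] at h1
  exact IsUnit.of_mul_eq_one _ (by rw [mul_comm]; exact h1)

theorem nf_congr [Field R] {κ : Set (Fin n)} {G G' : Matrix (Fin n) (Fin n) R}
    (h : Eqv κ G G') : nf κ G = nf κ G' := by
  ext i j
  simp only [nf, Matrix.of_apply]
  by_cases hs : Sep κ i j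
  · obtain ⟨h1, -, -⟩ := Nf.cut_sep hs
    obtain ⟨d, hd, e⟩ := minor_congr h h1
    rw [if_pos hs, if_pos hs, lead, lead, e, e, mul_div_mul_left _ _ hd.ne_zero]
  · rw [if_neg hs, if_neg hs]

namespace Nf

theorem cell_col [CommRing R] {κ : Set (Fin n)} {G G' : Matrix (Fin n) (Fin n) R}
    (h : Eqv κ G G') {c j : Fin n} (hc : c ∈ κ) (hj : j ≤ c) (hl : IsUnit (lead G c))
    (h1 : ∀ i ≤ c, G i j = if i = j then 1 else 0)
    (h2 : ∀ i ≤ c, G' i j = if i = j then 1 else 0) (i : Fin n) : G' i j = G i j := by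
  obtain ⟨Q, hQ, e⟩ := h c hc
  have hle : ∀ p : Fin (c + 1), Fin.castLE c.2 p ≤ c := by
    intro p
    rw [Fin.le_def]
    simpa using Nat.lt_succ_iff.1 p.2
  have hjj : Fin.castLE c.2 ⟨j, Nat.lt_succ_of_le hj⟩ = j := by
    ext
    rfl
  have e2 : top G' c = top G c * Q := by
    ext p q
    have := congrFun (congrFun e (Fin.castLE c.2 p)) q
    simpa [Matrix.mul_apply, top] using this
  have e3 : Q = (top G c)⁻¹ * top G' c := by
    rw [e2, ← Matrix.mul_assoc, Matrix.nonsing_inv_mul _ (by rw [← lead_eq]; exact hl),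
      Matrix.one_mul]
  have e4 : ∀ p, top G' c p ⟨j, Nat.lt_succ_of_le hj⟩ = top G c p ⟨j, Nat.lt_succ_of_le hj⟩ := by
    intro p
    rw [top, top, Matrix.of_apply, Matrix.of_apply, hjj, h1 _ (hle p), h2 _ (hle p)]
  have e5 : ∀ p, Q p ⟨j, Nat.lt_succ_of_le hj⟩ =
      if p = ⟨j, Nat.lt_succ_of_le hj⟩ then 1 else 0 := by
    intro p
    have e6 : Q p ⟨j, Nat.lt_succ_of_le hj⟩ =
        ((top G c)⁻¹ * top G c) p ⟨j, Nat.lt_succ_of_le hj⟩ := by
      rw [e3, Matrix.mul_apply, Matrix.mul_apply]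
      exact Finset.sum_congr rfl fun q _ => by rw [e4]
    rw [e6, Matrix.nonsing_inv_mul _ (by rw [← lead_eq]; exact hl), Matrix.one_apply]
  have e7 := congrFun (congrFun e i) ⟨j, Nat.lt_succ_of_le hj⟩
  rw [Matrix.mul_apply] at e7
  simp only [Matrix.of_apply, e5, mul_ite, mul_one, mul_zero, Finset.sum_ite_eq',
    Finset.mem_univ, if_true, hjj] at e7
  exact e7

end Nf

theorem nf_cell [Field R] {κ : Set (Fin n)} {G : Matrix (Fin n) (Fin n) R}
    (h : IsCell κ G) : nf κ G = G := by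
  have hl : ∀ c ∈ κ, lead G c ≠ 0 := fun c hc => by
    rw [lead_cell h c hc]
    exact one_ne_zero
  have he := nf_eqv κ G hl
  ext i j
  by_cases hs : Sep κ i j
  · obtain ⟨h1, h2, h3⟩ := Nf.cut_sep hs
    exact Nf.cell_col he h1 h2 (isUnit_iff_ne_zero.2 (hl _ h1))
      (fun i hi => h _ _ (Nf.not_sep hi)) (fun i hi => nf_isCell κ G _ _ (Nf.not_sep hi)) i
  · rw [h i j hs, nf_isCell κ G i j hs]

theorem minor_nf [Field R] (κ : Set (Fin n)) (G : Matrix (Fin n) (Fin n) R)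
    (h : ∀ c ∈ κ, lead G c ≠ 0) (c : Fin n) (hc : c ∈ κ) (r : Fin (c + 1) → Fin n) :
    minor (nf κ G) c r = minor G c r / lead G c := by
  obtain ⟨d, hd, e⟩ := minor_congr (nf_eqv κ G h) hc
  have h1 := lead_cell (nf_isCell κ G) c hc
  rw [lead, e] at h1
  have h2 : minor G c (Fin.castLE c.2) ≠ 0 := h c hc
  rw [e, lead, eq_div_iff h2, mul_right_comm, h1, one_mul]

theorem minor_mul [CommRing R] (g G : Matrix (Fin n) (Fin n) R) (c : Fin n)
    (r : Fin (c + 1) → Fin n) : minor (g * G) c r =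
      ∑ f : Fin (c + 1) → Fin n, (∏ p, g (r p) (f p)) * minor G c f := by
  have e1 : minor (g * G) c r = (Matrix.detRowAlternating (n := Fin (c + 1)) (R := R))
      (fun p => ∑ l : Fin n, g (r p) l • fun q : Fin (c + 1) => G l (Fin.castLE c.2 q)) := by
    rw [minor]
    change Matrix.det _ = Matrix.det _
    congr 1
    ext p q
    simp [Matrix.mul_apply]
  rw [e1]
  change (Matrix.detRowAlternating (n := Fin (c + 1)) (R := R)).toMultilinearMap _ = _
  rw [MultilinearMap.map_sum]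
  refine Finset.sum_congr rfl fun f _ => ?_
  rw [MultilinearMap.map_smul_univ]
  rfl

/-- left multiplication by a unipotent lower triangular matrix preserves the leading minors -/
theorem lead_mul [CommRing R] (a G : Matrix (Fin n) (Fin n) R)
    (ha : ∀ i j, i ≤ j → a i j = if i = j then 1 else 0) (c : Fin n) :
    lead (a * G) c = lead G c := by
  have e : Nf.top (a * G) c = Nf.top a c * Nf.top G c := by
    ext p q
    rw [Nf.top, Matrix.of_apply, Matrix.mul_apply, Matrix.mul_apply]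
    symm
    refine Finset.sum_of_injOn (Fin.castLE c.2) (fun a _ b _ h => Fin.castLE_injective _ h)
      (fun _ _ => Finset.mem_coe.2 (Finset.mem_univ _)) (fun l _ hl => ?_) (fun _ _ => rfl)
    have h1 : ¬ ((l : ℕ) < c + 1) := by
      intro h1
      exact hl ⟨⟨l, h1⟩, Finset.mem_coe.2 (Finset.mem_univ _), rfl⟩
    have h2 : (p : ℕ) < c + 1 := p.2
    have h3 : (Fin.castLE c.2 p : Fin n) < l := by
      rw [Fin.lt_def]
      simp only [Fin.val_castLE]
      omega
    rw [ha _ _ h3.le, if_neg h3.ne, zero_mul]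
  have h1 : (Nf.top a c).det = 1 := by
    have := lead_cell (κ := Set.univ) (G := Matrix.of fun i j => if Sep Set.univ i j then a i j else
      if i = j then 1 else 0) (fun i j h => by simp [h]) c (Set.mem_univ _)
    rw [Nf.lead_eq] at this
    rw [← this]
    congr 1
    ext p q
    simp only [Nf.top, Matrix.of_apply]
    by_cases hs : Sep Set.univ (Fin.castLE c.2 p) (Fin.castLE c.2 q)
    · rw [if_pos hs]
    · rw [if_neg hs]
      apply ha
      by_contra hle
      exact hs ⟨_, Set.mem_univ _, le_rfl, not_le.1 hle⟩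
  rw [Nf.lead_eq, e, Matrix.det_mul, h1, one_mul, Nf.lead_eq]

theorem cell_mul [CommRing R] {κ : Set (Fin n)} {a G : Matrix (Fin n) (Fin n) R}
    (ha : IsCell κ a) (hG : IsCell κ G) : IsCell κ (a * G) := by
  intro i j hij
  rw [Matrix.mul_apply, Finset.sum_eq_single i]
  · rw [ha i i (Nf.not_sep_of_le le_rfl), if_pos rfl, one_mul, hG i j hij]
  · intro l _ hl
    by_cases hs : Sep κ i l
    · obtain ⟨c, hc, h1, h2⟩ := hs
      have h3 : c < j := by
        by_contra h3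
        exact hij ⟨c, hc, not_lt.1 h3, h2⟩
      have h4 : l < j := lt_of_le_of_lt h1 h3
      rw [hG l j (Nf.not_sep_of_le h4.le), if_neg h4.ne, mul_zero]
    · rw [ha i l hs, if_neg (Ne.symm hl), zero_mul]
  · intro h
    exact absurd (Finset.mem_univ _) h

namespace Nf

theorem pow_supp [CommRing R] {κ : Set (Fin n)} {N : Matrix (Fin n) (Fin n) R}
    (hN : ∀ i j, ¬ Sep κ i j → N i j = 0) (t : ℕ) :
    ∀ i j : Fin n, (¬ Sep κ i j ∨ (i : ℕ) < j + (t + 1)) → (N ^ (t + 1)) i j = 0 := by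
  induction t with
  | zero =>
    intro i j h
    rw [zero_add, pow_one]
    rcases h with h | h
    · exact hN i j h
    · refine hN i j (not_sep_of_le ?_)
      rw [Fin.le_def]
      omega
  | succ t ih =>
    intro i j h
    rw [pow_succ, Matrix.mul_apply]
    refine Finset.sum_eq_zero fun l _ => ?_
    by_cases h1 : Sep κ l j
    · have hlj : j < l := by
        obtain ⟨c, -, h2, h3⟩ := h1
        exact lt_of_le_of_lt h2 h3
      rw [ih i l, zero_mul]
      rcases h with h | h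
      · left
        intro h2
        apply h
        obtain ⟨c, hc, h3, h4⟩ := h1
        obtain ⟨c', hc', h5, h6⟩ := h2
        exact ⟨c', hc', h3.trans (h4.le.trans h5), h6⟩
      · right
        rw [Fin.lt_def] at hlj
        omega
    · rw [hN l j h1, mul_zero]

theorem pow_supp' [CommRing R] {κ : Set (Fin n)} {N : Matrix (Fin n) (Fin n) R}
    (hN : ∀ i j, ¬ Sep κ i j → N i j = 0) {t : ℕ} (ht : t ≠ 0) (i j : Fin n)
    (h : ¬ Sep κ i j ∨ (i : ℕ) < j + t) : (N ^ t) i j = 0 := by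
  obtain ⟨s, rfl⟩ := Nat.exists_eq_succ_of_ne_zero ht
  exact pow_supp hN s i j h

end Nf

theorem cell_inv [CommRing R] {κ : Set (Fin n)} {a : Matrix (Fin n) (Fin n) R}
    (ha : IsCell κ a) : ∃ a', IsCell κ a' ∧ a' * a = 1 ∧ a * a' = 1 := by
  obtain ⟨N, hN⟩ : ∃ N : Matrix (Fin n) (Fin n) R, N = 1 - a := ⟨_, rfl⟩
  have ha' : a = 1 - N := by rw [hN]; abel
  have hN1 : ∀ i j, ¬ Sep κ i j → N i j = 0 := by
    intro i j h
    rw [hN, Matrix.sub_apply, ha i j h, Matrix.one_apply, sub_self]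
  have hNn : N ^ n = 0 := by
    ext i j
    have := i.2
    exact Nf.pow_supp' hN1 (by omega) i j (Or.inr (by omega))
  refine ⟨∑ t ∈ Finset.range n, N ^ t, ?_, ?_, ?_⟩
  · intro i j h
    have := i.2
    rw [Matrix.sum_apply, Finset.sum_eq_single 0, pow_zero, Matrix.one_apply]
    · intro t _ ht
      exact Nf.pow_supp' hN1 ht i j (Or.inl h)
    · intro h'
      exact absurd (Finset.mem_range.2 (by omega)) h'
  · rw [ha', geom_sum_mul_neg, hNn, sub_zero]
  · rw [ha', mul_neg_geom_sum, hNn, sub_zero]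

/-- coarser normal forms -/
theorem nf_nf [Field R] {κ T : Set (Fin n)} (hT : T ⊆ κ) (G : Matrix (Fin n) (Fin n) R)
    (h : ∀ c ∈ κ, lead G c ≠ 0) : nf T (nf κ G) = nf T G :=
  (nf_congr (κ := T) fun c hc => nf_eqv κ G h c (hT hc)).symm

end NF

end

end Pool.Agent.MLD.H
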