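import Pool.Agent.Lib.MP_f23696_ag.H.Act
import Pool.Agent.Lib.MP_f23696_ag.H.Acp
import Pool.Agent.Lib.MP_f23696_ag.H.Gau
import Pool.Agent.Lib.MP_f23696_ag.H.Nf

/-!
HORO, module GLW: the minimal values of a valuation on the components of the coordinate ring.
-/

set_option autoImplicit false

namespace Pool.Agent.MLD.H

open scoped Classical
open Pool.Agent.MLD.Ten (IsGood)
noncomputable section

universe u v

section typeA

variable {B : Type} [Fintype B] {n : B → ℕ} {k : Type u} {K : Type v} [Field k] [Field K]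
  [Algebra k K] {m : ℕ} {κ : Finset (Σ b, Fin (n b))}

namespace Glw

omit [Fintype B] in
theorem cellC (M : Pos n κ → K) (b : B) : IsCell (kb κ b) (cell κ M b) := by
  intro i j h
  have h' : ¬ ∃ c : Fin (n b), (⟨b, c⟩ : Σ b, Fin (n b)) ∈ κ ∧ j ≤ c ∧ c < i := h
  simp only [cell, Matrix.of_apply]
  rw [dif_neg h']

/-- the exponents of the monomial of `f` -/
def mon (c : Σ b, Fin (n b)) (f : Fin (c.2 + 1) → Fin (n c.1)) : Ent n →₀ ℕ :=
  ∑ p, Finsupp.single (⟨c.1, Fin.castLE c.2.2 p, f p⟩ : Ent n) 1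

omit [Fintype B] in
theorem mon_apply (c : Σ b, Fin (n b)) (f : Fin (c.2 + 1) → Fin (n c.1)) (p : Fin (c.2 + 1))
    (j : Fin (n c.1)) :
    mon c f (⟨c.1, Fin.castLE c.2.2 p, j⟩ : Ent n) = if f p = j then 1 else 0 := by
  rw [mon, Finsupp.finsetSum_apply, Finset.sum_eq_single p]
  · rw [Finsupp.single_apply]
    by_cases h : f p = j
    · rw [if_pos h, if_pos (by rw [h])]
    · rw [if_neg h, if_neg]
      intro e
      apply h
      have e2 := eq_of_heq (Sigma.mk.inj e).2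
      exact (Prod.mk.inj e2).2
  · intro q _ hq
    rw [Finsupp.single_apply, if_neg]
    intro e
    apply hq
    have e2 := eq_of_heq (Sigma.mk.inj e).2
    exact Fin.castLE_injective _ (Prod.mk.inj e2).1
  · intro h
    exact absurd (Finset.mem_univ _) h

omit [Fintype B] in
theorem mon_inj (c : Σ b, Fin (n b)) {f f' : Fin (c.2 + 1) → Fin (n c.1)}
    (h : mon c f = mon c f') : f = f' := by
  funext p
  have h1 := mon_apply c f p (f p)
  rw [h, mon_apply, if_pos rfl] at h1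
  by_contra hne
  rw [if_neg (fun e => hne e.symm)] at h1
  exact zero_ne_one h1

/-- the leading minor of `g L` as a polynomial in `g` -/
def pol (M : Pos n κ → K) (c : Σ b, Fin (n b)) : MvPolynomial (Ent n) K :=
  ∑ f : Fin (c.2 + 1) → Fin (n c.1), MvPolynomial.C (minor (cell κ M c.1) c.2 f) *
    ∏ p, MvPolynomial.X (⟨c.1, Fin.castLE c.2.2 p, f p⟩ : Ent n)

omit [Fintype B] in
theorem pol_eval (M : Pos n κ → K) (c : Σ b, Fin (n b)) (g : Ent n → k) :
    MvPolynomial.eval (fun e => algebraMap k K (g e)) (pol M c) =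
      lead (matK (K := K) g c.1 * cell κ M c.1) c.2 := by
  rw [lead, minor_mul, pol, map_sum]
  refine Finset.sum_congr rfl fun f _ => ?_
  rw [map_mul, map_prod, MvPolynomial.eval_C, mul_comm]
  simp only [MvPolynomial.eval_X]
  rfl

omit [Fintype B] in
theorem term_eq (c : Σ b, Fin (n b)) (f : Fin (c.2 + 1) → Fin (n c.1)) (a : K) :
    MvPolynomial.C a * ∏ p, MvPolynomial.X (⟨c.1, Fin.castLE c.2.2 p, f p⟩ : Ent n) =
      MvPolynomial.monomial (mon c f) a := by
  have h : ∏ p, (MvPolynomial.X (⟨c.1, Fin.castLE c.2.2 p, f p⟩ : Ent n) :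
      MvPolynomial (Ent n) K) = MvPolynomial.monomial (mon c f) 1 := by
    rw [mon, MvPolynomial.monomial_sum_one]
    rfl
  rw [h, MvPolynomial.C_mul_monomial, mul_one]

omit [Fintype B] in
theorem pol_coeff (M : Pos n κ → K) (c : Σ b, Fin (n b)) (f : Fin (c.2 + 1) → Fin (n c.1)) :
    (pol M c).coeff (mon c f) = minor (cell κ M c.1) c.2 f := by
  rw [pol, MvPolynomial.coeff_sum, Finset.sum_eq_single f]
  · rw [term_eq, MvPolynomial.coeff_monomial, if_pos rfl]
  · intro f' _ hf'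
    rw [term_eq, MvPolynomial.coeff_monomial, if_neg]
    intro e
    exact hf' (mon_inj c e)
  · intro h
    exact absurd (Finset.mem_univ _) h

omit [Fintype B] in
theorem pol_ne (M : Pos n κ → K) (c : Σ b, Fin (n b)) (hc : c ∈ κ) : pol M c ≠ 0 := by
  intro h
  have h1 := pol_coeff M c (Fin.castLE c.2.2)
  rw [h, MvPolynomial.coeff_zero] at h1
  have h2 := lead_cell (cellC M c.1) c.2 hc
  rw [lead, ← h1] at h2
  exact zero_ne_one h2

omit [Fintype B] in
/-- the leading minors have generically the minimal value among all minors -/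
theorem gen1 [Fintype B] [Infinite k] (M : Pos n κ → K) (O : ValuationSubring K)
    (hO : ∀ c : k, algebraMap k K c ∈ O) :
    ∃ P : MvPolynomial (Ent n) k, P ≠ 0 ∧ ∀ g : Ent n → k, MvPolynomial.eval g P ≠ 0 →
      ∀ c ∈ κ, ∀ f : Fin (c.2 + 1) → Fin (n c.1),
        minor (cell κ M c.1) c.2 f / lead (matK (K := K) g c.1 * cell κ M c.1) c.2 ∈ O := by
  have h1 : ∀ c : Σ b, Fin (n b), ∃ P : MvPolynomial (Ent n) k, P ≠ 0 ∧
      ∀ g : Ent n → k, MvPolynomial.eval g P ≠ 0 → c ∈ κ → ∀ f : Fin (c.2 + 1) → Fin (n c.1),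
        minor (cell κ M c.1) c.2 f / lead (matK (K := K) g c.1 * cell κ M c.1) c.2 ∈ O := by
    intro c
    by_cases hc : c ∈ κ
    · obtain ⟨P, hP, hP2⟩ := gauss O hO (pol M c) (pol_ne M c hc)
      refine ⟨P, hP, fun g hg _ f => ?_⟩
      have h2 := (hP2 g hg).2 (mon c f)
      rw [pol_eval, pol_coeff] at h2
      exact h2
    · exact ⟨1, one_ne_zero, fun g _ h => absurd h hc⟩
  choose P hP hP2 using h1
  refine ⟨∏ c ∈ κ, P c, Finset.prod_ne_zero_iff.2 fun c _ => hP c, fun g hg c hc f => ?_⟩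
  rw [map_prod, Finset.prod_ne_zero_iff] at hg
  exact hP2 c g (hg c hc) hc f

/-- the elements `a` with `a / d ∈ O` -/
def W (O : ValuationSubring K) (hO : ∀ c : k, algebraMap k K c ∈ O) (d : K) :
    Submodule k K where
  carrier := {a | a / d ∈ O}
  zero_mem' := by
    rw [Set.mem_ofPred_eq, zero_div]
    exact O.zero_mem
  add_mem' := by
    intro a b ha hb
    rw [Set.mem_ofPred_eq] at ha hb ⊢
    rw [add_div]
    exact O.add_mem _ _ ha hb
  smul_mem' := by
    intro c a ha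
    rw [Set.mem_ofPred_eq] at ha ⊢
    rw [Algebra.smul_def, mul_div_assoc]
    exact O.mul_mem _ _ (hO c) ha

theorem mem_W (O : ValuationSubring K) (hO : ∀ c : k, algebraMap k K c ∈ O) (d a : K) :
    a ∈ W O hO d ↔ a / d ∈ O := Iff.rfl

theorem W_mul (O : ValuationSubring K) (hO : ∀ c : k, algebraMap k K c ∈ O) {S T : Submodule k K}
    {d e : K} (hS : S ≤ W O hO d) (hT : T ≤ W O hO e) : S * T ≤ W O hO (d * e) := by
  rw [Submodule.mul_le]
  intro a ha b hb
  have h1 := hS ha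
  have h2 := hT hb
  rw [mem_W] at h1 h2 ⊢
  rw [mul_div_mul_comm]
  exact O.mul_mem _ _ h1 h2

theorem W_one (O : ValuationSubring K) (hO : ∀ c : k, algebraMap k K c ∈ O) :
    (1 : Submodule k K) ≤ W O hO 1 := by
  rw [Submodule.one_le, mem_W, div_one]
  exact O.one_mem

theorem W_pow (O : ValuationSubring K) (hO : ∀ c : k, algebraMap k K c ∈ O) {S : Submodule k K}
    {d : K} (hS : S ≤ W O hO d) (N : ℕ) : S ^ N ≤ W O hO (d ^ N) := by
  induction N with
  | zero =>
    rw [pow_zero, pow_zero]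
    exact W_one O hO
  | succ N ih =>
    rw [pow_succ, pow_succ]
    exact W_mul O hO ih hS

theorem W_prod (O : ValuationSubring K) (hO : ∀ c : k, algebraMap k K c ∈ O) {ι : Type*}
    (s : Finset ι) (S : ι → Submodule k K) (d : ι → K) (h : ∀ i ∈ s, S i ≤ W O hO (d i)) :
    ∏ i ∈ s, S i ≤ W O hO (∏ i ∈ s, d i) := by
  induction s using Finset.induction_on with
  | empty =>
    rw [Finset.prod_empty, Finset.prod_empty]
    exact W_one O hO
  | insert a s ha ih =>
    rw [Finset.prod_insert ha, Finset.prod_insert ha]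
    exact W_mul O hO (h a (Finset.mem_insert_self _ _))
      (ih fun i hi => h i (Finset.mem_insert_of_mem hi))

/-- the components are bounded by the translate of the highest weight vector -/
theorem low (Y : TA k K n κ m) (O : ValuationSubring K)
    (hO : ∀ c : k, algebraMap k K c ∈ O) (g : Ent n → k) (φ : K ≃ₐ[k] K) (hact : IsAct Y g φ)
    (hg : ∀ c ∈ κ, ∀ f : Fin (c.2 + 1) → Fin (n c.1),
      minor (cell κ Y.M c.1) c.2 f / lead (matK (K := K) g c.1 * cell κ Y.M c.1) c.2 ∈ O)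
    (hx : ∀ i, Y.x i ≠ 0) (u : Fin m → ℤ) (hu : u ∈ Y.Γ) (a : K) (ha : a ∈ Y.cmp u) :
    a / φ (∏ i, Y.x i ^ u i) ∈ O := by
  have h1 : Y.cmp u ≤ W O hO
      ((∏ c ∈ κ, lead (matK (K := K) g c.1 * cell κ Y.M c.1) c.2 ^ (Y.Λ c ⬝ᵥ u).toNat) *
        ∏ i, Y.x i ^ u i) := by
    refine W_mul O hO (W_prod O hO κ _ _ fun c hc => W_pow O hO ?_ _) ?_
    · rw [minors, Submodule.span_le]
      rintro _ ⟨f, rfl⟩
      exact hg c hc f
    · rw [Submodule.span_le, Set.singleton_subset_iff]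
      show _ / _ ∈ O
      rw [div_self (Finset.prod_ne_zero_iff.2 fun i _ => zpow_ne_zero _ (hx i))]
      exact O.one_mem
  have h2 := h1 ha
  rw [mem_W] at h2
  rw [act_mon Y g φ hact u, mul_comm]
  convert h2 using 3
  refine Finset.prod_congr rfl fun c hc => ?_
  rw [← zpow_natCast, Int.toNat_of_nonneg (Y.Λ_nonneg c hc u hu)]

theorem x_ne (Y : TA k K n κ m) (i : Fin m) : Y.x i ≠ 0 := by
  have h := Y.ind.ne_zero (Sum.inr i)
  exact h

theorem x_mem (Y : TA k K n κ m) (u : Fin m → ℤ) : (∏ i, Y.x i ^ u i) ∈ Y.cmp u := by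
  have h1 : ∀ s : Finset (Σ b, Fin (n b)), s ⊆ κ →
      (1 : K) ∈ ∏ c ∈ s, minors k κ Y.M c ^ (Y.Λ c ⬝ᵥ u).toNat := by
    intro s
    induction s using Finset.induction_on with
    | empty =>
      intro _
      rw [Finset.prod_empty]
      exact Submodule.one_le.1 le_rfl
    | insert c s hc ih =>
      intro hs
      rw [Finset.prod_insert hc]
      have h2 : (1 : K) ∈ minors k κ Y.M c := by
        rw [← lead_cell (cellC Y.M c.1) c.2 (hs (Finset.mem_insert_self _ _))]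
        exact Submodule.subset_span ⟨_, rfl⟩
      have h3 : (1 : K) ∈ minors k κ Y.M c ^ (Y.Λ c ⬝ᵥ u).toNat := by
        have := Submodule.pow_mem_pow _ h2 (Y.Λ c ⬝ᵥ u).toNat
        rwa [one_pow] at this
      have h4 := Submodule.mul_mem_mul h3 (ih fun i hi => hs (Finset.mem_insert_of_mem hi))
      rwa [mul_one] at h4
  have h5 := Submodule.mul_mem_mul (h1 κ (Finset.Subset.refl _))
    (Submodule.subset_span (R := k) (Set.mem_singleton (∏ i, Y.x i ^ u i)))
  rwa [one_mul] at h5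

end Glw

/-! ### GLW: minimal values -/
section GLW

theorem gnc_low [Infinite k] (Y : TA k K n κ m) (O : ValuationSubring K)
    (hO : ∀ c : k, algebraMap k K c ∈ O) (u : Fin m → ℤ) (hu : u ∈ Y.Γ) :
    Gnc Y {g | ∀ a ∈ Y.cmp u, a / g (∏ i, Y.x i ^ u i) ∈ O} := by
  obtain ⟨P, hP, hP2⟩ := Glw.gen1 Y.M O hO
  refine ⟨P, hP, fun g φ hg hact _ => ?_⟩
  rw [Set.mem_ofPred_eq]
  intro a ha
  exact Glw.low Y O hO g φ hact (hP2 g hg) (Glw.x_ne Y) u hu a ha

/-- the translate of a valuation is integral on the coordinates -/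
theorem gnc_int [Infinite k] (Y : TA k K n κ m) (O : ValuationSubring K)
    (hO : ∀ c : k, algebraMap k K c ∈ O) :
    Gnc Y {g | ∀ s, g (Y.M s) ∈ O} := by
  obtain ⟨P, hP, hP2⟩ := Glw.gen1 Y.M O hO
  refine ⟨P, hP, fun g φ hg hact _ => ?_⟩
  rw [Set.mem_ofPred_eq]
  intro s
  rw [hact.1 s]
  have hsep : Sep (kb κ s.1.1) s.1.2.1 s.1.2.2 := s.2
  have hcut := (Nf.cut_sep hsep).1
  simp only [nf, Matrix.of_apply]
  rw [if_pos hsep, minor_mul, Finset.sum_div]
  refine sum_mem fun f _ => ?_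
  rw [mul_div_assoc]
  refine O.mul_mem _ _ (prod_mem fun p _ => hO _) ?_
  exact hP2 g hg ⟨s.1.1, cut (kb κ s.1.1) s.1.2.2⟩ hcut f

theorem gnc_unit [IsAlgClosed k] (Y : TA k K n κ m) (y : MaximalSpectrum Y.ring)
    (u : Fin m → ℤ) (hu : u ∈ Y.Γ) (a : Y.ring) (ha : (a : K) ∈ Y.cmp u) (hay : a ∉ y.asIdeal) :
    Gnc Y {g | ∃ h : g (∏ i, Y.x i ^ u i) ∈ Y.ring,
      (⟨g (∏ i, Y.x i ^ u i), h⟩ : Y.ring) ∉ y.asIdeal} := by
  obtain ⟨O, hO1, hO2⟩ := Ideal.image_subset_nonunits_valuationSubring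
    (A := Y.ring.toSubring) y.asIdeal y.isMaximal.ne_top
  have hO : ∀ c : k, algebraMap k K c ∈ O := fun c => hO1 (Y.ring.algebraMap_mem c)
  have hlt : ∀ b : Y.ring, b ∈ y.asIdeal → O.valuation (b : K) < 1 := fun b hb =>
    O.mem_nonunits_iff.1 (hO2 ⟨b, hb, rfl⟩)
  have hle : ∀ b : Y.ring, O.valuation (b : K) ≤ 1 := fun b =>
    (O.valuation_le_one_iff _).2 (hO1 b.2)
  -- the element `a` is a unit of `O`
  have haO : O.valuation (a : K) = 1 := by
    obtain ⟨b, z, hz, hbz⟩ := y.isMaximal.exists_inv hay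
    refine le_antisymm (hle a) (not_lt.1 fun hlt1 => ?_)
    have e1 : (b : K) * (a : K) + (z : K) = 1 := congrArg Subtype.val hbz
    have e2 : O.valuation ((b : K) * (a : K)) < 1 := by
      rw [map_mul]
      exact lt_of_le_of_lt (mul_le_of_le_one_left' (hle b)) hlt1
    have e3 : O.valuation ((b : K) * (a : K) + (z : K)) < 1 := Valuation.map_add_lt _ e2 (hlt z hz)
    rw [e1, map_one] at e3
    exact lt_irrefl _ e3
  obtain ⟨P, hP, hP2⟩ := Glw.gen1 Y.M O hO
  refine ⟨P, hP, fun g φ hg hact hact' => ?_⟩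
  obtain ⟨g', hg'⟩ := hact'
  have hx1 : (∏ i, Y.x i ^ u i) ∈ Y.cmp u := Glw.x_mem Y u
  have hx2 : φ (∏ i, Y.x i ^ u i) ∈ Y.cmp u := (act_stab Y g φ hact g' hg' u hu _).1 hx1
  have hx3 : φ (∏ i, Y.x i ^ u i) ∈ Y.ring := Algebra.subset_adjoin ⟨u, hu, hx2⟩
  refine ⟨hx3, fun hmem => ?_⟩
  have h1 := hlt _ hmem
  have h2 := Glw.low Y O hO g φ hact (hP2 g hg) (Glw.x_ne Y) u hu a ha
  have hne : O.valuation (φ (∏ i, Y.x i ^ u i)) ≠ 0 := by
    rw [Ne, map_eq_zero, map_eq_zero]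
    exact Finset.prod_ne_zero_iff.2 fun i _ => zpow_ne_zero _ (Glw.x_ne Y i)
  rw [← O.valuation_le_one_iff, map_div₀, haO, div_le_one₀ (zero_lt_iff.2 hne)] at h2
  exact absurd h1 (not_lt.2 h2)

end GLW

end typeA

end

end Pool.Agent.MLD.H
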