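import Pool.Agent.Lib.MP_f23696_ag.H.Act
import Pool.Agent.Lib.MP_f23696_ag.H.Gau
import Pool.Agent.Lib.MP_f23696_ag.H.Glw

/-!
Project HORO (MP_f23696_ag), module ZER: general translates of functions on the big cell are units.
-/

set_option autoImplicit false

namespace Pool.Agent.MLD.H

open scoped Classical
noncomputable section

universe u v w

namespace Zer

theorem map_minor {R : Type v} {S : Type w} [CommRing R] [CommRing S] (f : R →+* S) {n : ℕ}
    (G : Matrix (Fin n) (Fin n) R) (c : Fin n) (r : Fin (c + 1) → Fin n) :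
    f (minor G c r) = minor (G.map f) c r := by
  unfold minor
  rw [RingHom.map_det]
  rfl

theorem map_lead {R : Type v} {S : Type w} [CommRing R] [CommRing S] (f : R →+* S) {n : ℕ}
    (G : Matrix (Fin n) (Fin n) R) (c : Fin n) : f (lead G c) = lead (G.map f) c :=
  map_minor f G c _

theorem cut_mem {n : ℕ} {T : Set (Fin n)} {i j : Fin n} (h : Sep T i j) : cut T j ∈ T := by
  obtain ⟨c, hc, h1, h2⟩ := h
  have hne : (Finset.univ.filter fun c => c ∈ T ∧ j ≤ c).Nonempty :=
    ⟨c, Finset.mem_filter.2 ⟨Finset.mem_univ _, hc, h1⟩⟩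
  rw [cut, dif_pos hne]
  exact (Finset.mem_filter.1 (Finset.min'_mem _ hne)).2.1

section

variable {B : Type} [Fintype B] {n : B → ℕ} {k : Type u} [Field k]

/-- the generic matrix -/
def gm (n : B → ℕ) (k : Type u) [Field k] (b : B) :
    Matrix (Fin (n b)) (Fin (n b)) (MvPolynomial (Ent n) k) :=
  Matrix.of fun i j => MvPolynomial.X ⟨b, i, j⟩

/-- the product of the leading minors -/
def del (k : Type u) [Field k] (T : ∀ b : B, Set (Fin (n b))) : MvPolynomial (Ent n) k :=
  ∏ b, ∏ c, if c ∈ T b then lead (gm n k b) c else 1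

/-- the numerators of the entries of the normal form -/
def nu (k : Type u) [Field k] (T : ∀ b : B, Set (Fin (n b))) (e : Ent n) :
    MvPolynomial (Ent n) k :=
  if Sep (T e.1) e.2.1 e.2.2 then
    minor (gm n k e.1) (cut (T e.1) e.2.2) (repl (cut (T e.1) e.2.2) e.2.1 e.2.2)
  else if e.2.1 = e.2.2 then 1 else 0

/-- the denominators of the entries of the normal form -/
def de (k : Type u) [Field k] (T : ∀ b : B, Set (Fin (n b))) (e : Ent n) :
    MvPolynomial (Ent n) k :=
  if Sep (T e.1) e.2.1 e.2.2 then lead (gm n k e.1) (cut (T e.1) e.2.2) else 1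

theorem de_dvd (T : ∀ b : B, Set (Fin (n b))) (e : Ent n) : de k T e ∣ del k T := by
  unfold de
  split_ifs with h
  · have h1 := cut_mem h
    have h2 : lead (gm n k e.1) (cut (T e.1) e.2.2) =
        (if cut (T e.1) e.2.2 ∈ T e.1 then lead (gm n k e.1) (cut (T e.1) e.2.2) else 1) := by
      rw [if_pos h1]
    rw [h2]
    have h3 := Finset.dvd_prod_of_mem
      (fun c => if c ∈ T e.1 then lead (gm n k e.1) c else 1) (Finset.mem_univ (cut (T e.1) e.2.2))
    have h4 := Finset.dvd_prod_of_mem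
      (fun b => ∏ c, if c ∈ T b then lead (gm n k b) c else 1) (Finset.mem_univ e.1)
    exact h3.trans h4
  · exact one_dvd _

/-- the cofactors -/
def co (k : Type u) [Field k] (T : ∀ b : B, Set (Fin (n b))) (e : Ent n) :
    MvPolynomial (Ent n) k := (de_dvd (k := k) T e).choose

theorem co_spec (T : ∀ b : B, Set (Fin (n b))) (e : Ent n) : del k T = de k T e * co k T e :=
  (de_dvd (k := k) T e).choose_spec

/-- the universal numerator -/
def num (T : ∀ b : B, Set (Fin (n b))) (Q : MvPolynomial (Ent n) k) : MvPolynomial (Ent n) k :=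
  ∑ α ∈ Q.support, MvPolynomial.C (Q.coeff α) * (∏ e ∈ α.support, (nu k T e * co k T e) ^ α e) *
    del k T ^ (Q.totalDegree - α.sum fun _ p => p)

omit [Fintype B] in
theorem map_gm {K : Type w} [Field K] [Algebra k K] (h : Ent n → K) (b : B) :
    (gm n k b).map (MvPolynomial.aeval h : MvPolynomial (Ent n) k →ₐ[k] K).toRingHom =
      mat h b := by
  ext i j
  simp [gm, mat]

omit [Fintype B] in
theorem aeval_lead {K : Type w} [Field K] [Algebra k K] (h : Ent n → K) (b : B) (c : Fin (n b)) :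
    MvPolynomial.aeval h (lead (gm n k b) c) = lead (mat h b) c := by
  rw [← map_gm (k := k) h b, ← map_lead]
  rfl

omit [Fintype B] in
theorem aeval_minor {K : Type w} [Field K] [Algebra k K] (h : Ent n → K) (b : B) (c : Fin (n b))
    (r : Fin (c + 1) → Fin (n b)) :
    MvPolynomial.aeval h (minor (gm n k b) c r) = minor (mat h b) c r := by
  rw [← map_gm (k := k) h b, ← map_minor]
  rfl

theorem aeval_del {K : Type w} [Field K] [Algebra k K] (T : ∀ b : B, Set (Fin (n b)))
    (h : Ent n → K) :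
    MvPolynomial.aeval h (del k T) = ∏ b, ∏ c, if c ∈ T b then lead (mat h b) c else 1 := by
  rw [del, map_prod]
  refine Finset.prod_congr rfl fun b _ => ?_
  rw [map_prod]
  refine Finset.prod_congr rfl fun c _ => ?_
  split_ifs
  · exact aeval_lead h b c
  · exact map_one _

theorem aeval_del_ne {K : Type w} [Field K] [Algebra k K] (T : ∀ b : B, Set (Fin (n b)))
    (h : Ent n → K) (hh : ∀ b, ∀ c ∈ T b, lead (mat h b) c ≠ 0) :
    MvPolynomial.aeval h (del k T) ≠ 0 := by
  rw [aeval_del]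
  refine Finset.prod_ne_zero_iff.2 fun b _ => Finset.prod_ne_zero_iff.2 fun c _ => ?_
  split_ifs with hc
  · exact hh b c hc
  · exact one_ne_zero

theorem aeval_nu {K : Type w} [Field K] [Algebra k K] (T : ∀ b : B, Set (Fin (n b)))
    (h : Ent n → K) (hh : ∀ b, ∀ c ∈ T b, lead (mat h b) c ≠ 0) (e : Ent n) :
    MvPolynomial.aeval h (nu k T e * co k T e) =
      nf (T e.1) (mat h e.1) e.2.1 e.2.2 * MvPolynomial.aeval h (del k T) := by
  have h1 : MvPolynomial.aeval h (de k T e) ≠ 0 := by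
    intro h0
    apply aeval_del_ne (k := k) T h hh
    rw [co_spec T e, map_mul, h0, zero_mul]
  have h2 : MvPolynomial.aeval h (nu k T e) =
      nf (T e.1) (mat h e.1) e.2.1 e.2.2 * MvPolynomial.aeval h (de k T e) := by
    have h3 : nf (T e.1) (mat h e.1) e.2.1 e.2.2 = if Sep (T e.1) e.2.1 e.2.2 then
      minor (mat h e.1) (cut (T e.1) e.2.2) (repl (cut (T e.1) e.2.2) e.2.1 e.2.2) /
        lead (mat h e.1) (cut (T e.1) e.2.2) else if e.2.1 = e.2.2 then 1 else 0 := rfl
    rw [h3]
    unfold nu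
    unfold de at h1 ⊢
    by_cases hs : Sep (T e.1) e.2.1 e.2.2
    · simp only [if_pos hs] at h1 ⊢
      rw [aeval_lead (k := k) h e.1] at h1 ⊢
      rw [aeval_minor (k := k) h e.1, div_mul_cancel₀ _ h1]
    · simp only [if_neg hs]
      split_ifs <;> simp
  rw [map_mul, h2, co_spec T e, map_mul]
  ring

theorem aeval_num_aux {K : Type w} [Field K] [Algebra k K] (T : ∀ b : B, Set (Fin (n b)))
    (Q : MvPolynomial (Ent n) k) (h x : Ent n → K)
    (hx : ∀ e, MvPolynomial.aeval h (nu k T e * co k T e) =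
      x e * MvPolynomial.aeval h (del k T)) :
    MvPolynomial.aeval h (num T Q) = MvPolynomial.aeval x Q *
        MvPolynomial.aeval h (del k T) ^ Q.totalDegree := by
  rw [num, map_sum, MvPolynomial.aeval_def x, MvPolynomial.eval₂_eq, Finset.sum_mul]
  refine Finset.sum_congr rfl fun α hα => ?_
  have h1 : (α.sum fun _ p => p) ≤ Q.totalDegree := MvPolynomial.le_totalDegree hα
  have h2 : MvPolynomial.aeval h (∏ e ∈ α.support, (nu k T e * co k T e) ^ α e) =
      (∏ e ∈ α.support, x e ^ α e) *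
        MvPolynomial.aeval h (del k T) ^ (α.sum fun _ p => p) := by
    rw [map_prod, Finsupp.sum, ← Finset.prod_pow_eq_pow_sum, ← Finset.prod_mul_distrib]
    refine Finset.prod_congr rfl fun e _ => ?_
    rw [map_pow, hx, mul_pow]
  rw [map_mul, map_mul, h2, map_pow, MvPolynomial.algHom_C]
  have h3 : MvPolynomial.aeval h (del k T) ^ Q.totalDegree =
      MvPolynomial.aeval h (del k T) ^ (α.sum fun _ p => p) *
        MvPolynomial.aeval h (del k T) ^ (Q.totalDegree - α.sum fun _ p => p) := by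
    rw [← pow_add, Nat.add_sub_cancel' h1]
  rw [h3]
  ring

theorem aeval_num {K : Type w} [Field K] [Algebra k K] (T : ∀ b : B, Set (Fin (n b)))
    (Q : MvPolynomial (Ent n) k) (h : Ent n → K)
    (hh : ∀ b, ∀ c ∈ T b, lead (mat h b) c ≠ 0) :
    MvPolynomial.aeval h (num T Q) =
      MvPolynomial.aeval (fun e => nf (T e.1) (mat h e.1) e.2.1 e.2.2) Q *
        MvPolynomial.aeval h (del k T) ^ Q.totalDegree :=
  aeval_num_aux T Q h _ (aeval_nu T h hh)

theorem num_ne (T : ∀ b : B, Set (Fin (n b))) (Q : MvPolynomial (Ent n) k)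
    (L : Ent n → MvPolynomial (Ent n) k)
    (hL : ∀ b, IsCell (T b) (Matrix.of fun i j => L ⟨b, i, j⟩))
    (hQ : MvPolynomial.aeval L Q ≠ 0) : num T Q ≠ 0 := by
  intro h0
  let A := MvPolynomial (Ent n) k
  let F := FractionRing A
  let h : Ent n → F := fun e => algebraMap A F (L e)
  have hc : ∀ b, IsCell (T b) (mat h b) := by
    intro b i j hij
    change algebraMap A F (L ⟨b, i, j⟩) = _
    have h1 : L ⟨b, i, j⟩ = if i = j then 1 else 0 := hL b i j hij
    rw [h1]
    split_ifs <;> simp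
  have hl : ∀ b, ∀ c ∈ T b, lead (mat h b) c = 1 := fun b c hb => lead_cell (hc b) c hb
  have h1 := aeval_num T Q h fun b c hb => by
    rw [hl b c hb]
    exact one_ne_zero
  rw [h0, map_zero] at h1
  have h2 : (fun e : Ent n => nf (T e.1) (mat h e.1) e.2.1 e.2.2) = h := by
    funext e
    rw [nf_cell (hc e.1)]
    rfl
  have h3 : MvPolynomial.aeval h (del k T) = 1 := by
    rw [aeval_del]
    refine Finset.prod_eq_one fun b _ => Finset.prod_eq_one fun c _ => ?_
    split_ifs with hb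
    · exact hl b c hb
    · rfl
  rw [h2, h3, one_pow, mul_one] at h1
  have h4 : MvPolynomial.aeval h Q = algebraMap A F (MvPolynomial.aeval L Q) := by
    have h5 : MvPolynomial.aeval h Q = (IsScalarTower.toAlgHom k A F) (MvPolynomial.aeval L Q) := by
      rw [← AlgHom.comp_apply, MvPolynomial.comp_aeval]
      rfl
    rw [h5]
    rfl
  rw [h4] at h1
  exact hQ ((IsFractionRing.injective A F) (by rw [map_zero]; exact h1.symm))

/-- a nonzero polynomial over `k` at a general point of a translate of an integral invertible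
matrix is a unit -/
theorem gen_unit [Infinite k] {K : Type v} [Field K] [Algebra k K] (O : ValuationSubring K)
    (hO : ∀ c : k, algebraMap k K c ∈ O) (W W' : ∀ b : B, Matrix (Fin (n b)) (Fin (n b)) O)
    (hW : ∀ b, W' b * W b = 1) (P : MvPolynomial (Ent n) k) (hP : P ≠ 0) :
    ∃ P' : MvPolynomial (Ent n) k, P' ≠ 0 ∧ ∀ g : Ent n → k, MvPolynomial.eval g P' ≠ 0 →
      MvPolynomial.aeval (fun e : Ent n =>
        (matK (K := K) g e.1 * (W e.1).map (algebraMap O K)) e.2.1 e.2.2) P ∈ O ∧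
      (MvPolynomial.aeval (fun e : Ent n =>
        (matK (K := K) g e.1 * (W e.1).map (algebraMap O K)) e.2.1 e.2.2) P)⁻¹ ∈ O := by
  let ι : k →+* O := (algebraMap k K).codRestrict O hO
  let R := IsLocalRing.ResidueField O
  let res : O →+* R := IsLocalRing.residue O
  let Φ : MvPolynomial (Ent n) k →+* MvPolynomial (Ent n) O :=
    MvPolynomial.eval₂Hom (MvPolynomial.C.comp ι) fun e =>
      ∑ l, MvPolynomial.X (⟨e.1, e.2.1, l⟩ : Ent n) * MvPolynomial.C (W e.1 l e.2.2)
  let Θ : MvPolynomial (Ent n) R →+* MvPolynomial (Ent n) R :=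
    MvPolynomial.eval₂Hom MvPolynomial.C fun e =>
      ∑ l, MvPolynomial.X (⟨e.1, e.2.1, l⟩ : Ent n) * MvPolynomial.C (res (W' e.1 l e.2.2))
  have hΘ : (Θ.comp (MvPolynomial.map res)).comp Φ = MvPolynomial.map (res.comp ι) := by
    apply MvPolynomial.ringHom_ext
    · intro r
      simp [Φ, Θ]
    · rintro ⟨b, i, j⟩
      simp only [Φ, Θ, RingHom.comp_apply, MvPolynomial.coe_eval₂Hom, MvPolynomial.eval₂_X,
        map_sum, map_mul, MvPolynomial.map_X, MvPolynomial.map_C, MvPolynomial.eval₂_C,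
        Finset.sum_mul]
      have h0 : ∀ G : Fin (n b) → Fin (n b) → MvPolynomial (Ent n) R,
          ∑ x, ∑ y, G x y = ∑ y, ∑ x, G x y := fun G => Finset.sum_comm
      refine (h0 fun l l' => MvPolynomial.X (⟨b, i, l'⟩ : Ent n) *
        MvPolynomial.C (res (W' b l' l)) * MvPolynomial.C (res (W b l j))).trans ?_
      have h1 : ∀ l' : Fin (n b), ∑ l, (MvPolynomial.X (⟨b, i, l'⟩ : Ent n) *
          MvPolynomial.C (res (W' b l' l)) * MvPolynomial.C (res (W b l j)) :
            MvPolynomial (Ent n) R) =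
          if l' = j then MvPolynomial.X (⟨b, i, l'⟩ : Ent n) else 0 := by
        intro l'
        have h2 : ∑ l, W' b l' l * W b l j = if l' = j then 1 else 0 := by
          have h3 := congrFun (congrFun (hW b) l') j
          rw [Matrix.mul_apply, Matrix.one_apply] at h3
          exact h3
        calc _ = MvPolynomial.X (⟨b, i, l'⟩ : Ent n) *
            MvPolynomial.C (res (∑ l, W' b l' l * W b l j)) := by
              rw [map_sum, map_sum, Finset.mul_sum]
              refine Finset.sum_congr rfl fun l _ => ?_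
              rw [map_mul, map_mul, mul_assoc]
          _ = _ := by
              rw [h2]
              split_ifs <;> simp
      rw [Finset.sum_congr rfl fun l' _ => h1 l']
      simp
  have hF : MvPolynomial.map res (Φ P) ≠ 0 := by
    intro h0
    have h1 := congrArg (fun f : MvPolynomial (Ent n) k →+* MvPolynomial (Ent n) R => f P) hΘ
    have h2 : Θ (MvPolynomial.map res (Φ P)) = MvPolynomial.map (res.comp ι) P := h1
    rw [h0, map_zero] at h2
    exact hP (MvPolynomial.map_injective (res.comp ι) (res.comp ι).injective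
      (by rw [map_zero]; exact h2.symm))
  obtain ⟨α, hα⟩ := MvPolynomial.ne_zero_iff.1 hF
  rw [MvPolynomial.coeff_map] at hα
  have hu : IsUnit ((Φ P).coeff α) := (IsLocalRing.residue_ne_zero_iff_isUnit _).1 hα
  obtain ⟨u, hu⟩ := hu
  let F : MvPolynomial (Ent n) K := MvPolynomial.map (algebraMap O K) (Φ P)
  have hFα : F.coeff α = algebraMap O K ((Φ P).coeff α) := MvPolynomial.coeff_map _ _ _
  have hne : algebraMap O K ((Φ P).coeff α) ≠ 0 := by
    rw [← hu]
    exact (u.isUnit.map (algebraMap O K)).ne_zero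
  have hF0 : F ≠ 0 := by
    intro h0
    rw [h0, MvPolynomial.coeff_zero] at hFα
    exact hne hFα.symm
  obtain ⟨P', hP', hg⟩ := gauss O hO F hF0
  refine ⟨P', hP', fun g hgP => ?_⟩
  obtain ⟨h1, h2⟩ := hg g hgP
  have h3 : MvPolynomial.aeval (fun e : Ent n =>
      (matK (K := K) g e.1 * (W e.1).map (algebraMap O K)) e.2.1 e.2.2) P =
      MvPolynomial.eval (fun i => algebraMap k K (g i)) F := by
    have h4 : ((MvPolynomial.eval fun i => algebraMap k K (g i)).comp
        (MvPolynomial.map (algebraMap O K))).comp Φ =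
        (MvPolynomial.aeval (fun e : Ent n =>
          (matK (K := K) g e.1 * (W e.1).map (algebraMap O K)) e.2.1 e.2.2) :
          MvPolynomial (Ent n) k →ₐ[k] K).toRingHom := by
      apply MvPolynomial.ringHom_ext
      · intro r
        simp [Φ, ι]
      · rintro ⟨b, i, j⟩
        simp [Φ, Matrix.mul_apply, matK, mat]
    have h5 := congrArg (fun f : MvPolynomial (Ent n) k →+* K => f P) h4
    exact h5.symm
  have h6 : MvPolynomial.eval (fun i => algebraMap k K (g i)) F =
      algebraMap O K (MvPolynomial.eval (fun i => ι (g i)) (Φ P)) := by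
    rw [MvPolynomial.eval_map]
    exact (MvPolynomial.eval₂_comp_left (algebraMap O K) (RingHom.id O) (fun i => ι (g i))
      (Φ P)).symm
  rw [h3]
  refine ⟨?_, ?_⟩
  · rw [h6]
    exact (MvPolynomial.eval (fun i => ι (g i)) (Φ P)).2
  · have h7 := h2 α
    have h8 : ((u⁻¹ : Oˣ) : O) * (Φ P).coeff α = 1 := by
      rw [← hu]
      exact u.inv_mul
    have h9 : (MvPolynomial.eval (fun i => algebraMap k K (g i)) F)⁻¹ =
        algebraMap O K ((u⁻¹ : Oˣ) : O) *
          (F.coeff α / MvPolynomial.eval (fun i => algebraMap k K (g i)) F) := by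
      rw [hFα, ← mul_div_assoc, ← map_mul, h8, map_one, one_div]
    rw [h9]
    exact O.mul_mem _ _ ((u⁻¹ : Oˣ) : O).2 h7

end

end Zer

section ZER

variable {B : Type} [Fintype B] {n : B → ℕ} {k : Type u} {K : Type v} [Field k] [Field K]
  [Algebra k K] {m : ℕ} {κ : Finset (Σ b, Fin (n b))}

/-- universal numerators of polynomials in the entries of the normal form -/
theorem numer (T : ∀ b : B, Set (Fin (n b))) (Q : MvPolynomial (Ent n) k)
    (hQ : ∃ L : Ent n → MvPolynomial (Ent n) k,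
      (∀ b, IsCell (T b) (Matrix.of fun i j => L ⟨b, i, j⟩)) ∧ MvPolynomial.aeval L Q ≠ 0) :
    ∃ (P : MvPolynomial (Ent n) k) (a : ℕ), P ≠ 0 ∧
      ∀ (K : Type v) [Field K] [Algebra k K] (h : Ent n → K),
        (∀ b, ∀ c ∈ T b, lead (mat h b) c ≠ 0) →
        MvPolynomial.aeval h P = MvPolynomial.aeval (fun e => nf (T e.1) (mat h e.1) e.2.1 e.2.2) Q *
          ∏ b, ∏ c, if c ∈ T b then lead (mat h b) c ^ a else 1 := by
  obtain ⟨L, hL, hQ⟩ := hQ
  refine ⟨Zer.num T Q, Q.totalDegree, Zer.num_ne T Q L hL hQ, ?_⟩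
  intro K _ _ h hh
  rw [Zer.aeval_num T Q h hh, Zer.aeval_del, ← Finset.prod_pow]
  congr 1
  refine Finset.prod_congr rfl fun b _ => ?_
  rw [← Finset.prod_pow]
  refine Finset.prod_congr rfl fun c _ => ?_
  split_ifs
  · rfl
  · exact one_pow _

theorem gnc_zer [Infinite k] (Y : TA k K n κ m) (O : ValuationSubring K)
    (hO : ∀ c : k, algebraMap k K c ∈ O) (f : K)
    (hf : f ∈ Algebra.adjoin k (Set.range Y.M)) (hf0 : f ≠ 0) :
    Gnc Y {g | g f ∈ O ∧ (g f)⁻¹ ∈ O} := by
  -- `f` as a polynomial in the entries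
  rw [Algebra.adjoin_range_eq_range_aeval] at hf
  obtain ⟨Q1, hQ1⟩ := hf
  have hQ1' : MvPolynomial.aeval Y.M Q1 = f := hQ1
  let pv : Pos n κ → Ent n := fun s => s.1
  have hpv : Function.Injective pv := fun s t hst => Subtype.ext hst
  let Q : MvPolynomial (Ent n) k := MvPolynomial.rename pv Q1
  have hcell : ∀ s : Pos n κ, cell κ Y.M s.1.1 s.1.2.1 s.1.2.2 = Y.M s := fun s => dif_pos s.2
  have hcellO : ∀ (M : Pos n κ → K), (∀ s, M s ∈ O) → ∀ b i j, cell κ M b i j ∈ O := by
    intro M hM b i j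
    change (if h : _ then M ⟨⟨b, i, j⟩, h⟩ else if i = j then 1 else 0) ∈ O
    split_ifs
    · exact hM _
    · exact O.one_mem
    · exact O.zero_mem
  have hf1 : ∀ x : Ent n → K, MvPolynomial.aeval x Q =
      MvPolynomial.aeval (fun s : Pos n κ => x s.1) Q1 := fun x => MvPolynomial.aeval_rename _ _ _
  have hQ10 : Q1 ≠ 0 := by
    rintro rfl
    exact hf0 (by rw [← hQ1', map_zero])
  have hnum : Zer.num (fun b => kb κ b) Q ≠ 0 := by
    let L : Ent n → MvPolynomial (Ent n) k := fun e => if Sep (kb κ e.1) e.2.1 e.2.2 then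
      MvPolynomial.X e else if e.2.1 = e.2.2 then 1 else 0
    refine Zer.num_ne _ Q L ?_ ?_
    · intro b i j hij
      exact if_neg hij
    · have h1 : L ∘ pv = MvPolynomial.X ∘ pv := by
        funext s
        exact if_pos s.2
      have h2 : MvPolynomial.aeval L Q = MvPolynomial.rename pv Q1 := by
        rw [MvPolynomial.aeval_rename, h1, ← MvPolynomial.aeval_rename,
          MvPolynomial.aeval_X_left_apply]
      rw [h2]
      intro h3
      exact hQ10 (MvPolynomial.rename_injective pv hpv (by rw [h3, map_zero]))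
  have hdel : Zer.del k (fun b => kb κ b) ≠ 0 := by
    intro h0
    have h1 := Zer.aeval_del_ne (k := k) (K := k) (fun b => kb κ b)
      (fun e : Ent n => if e.2.1 = e.2.2 then 1 else 0) (fun b c hc => by
        have h5 : lead (mat (fun e : Ent n => if e.2.1 = e.2.2 then (1 : k) else 0) b) c = 1 :=
          lead_cell (κ := kb κ b) (fun i j _ => rfl) c hc
        rw [h5]
        exact one_ne_zero)
    rw [h0, map_zero] at h1
    exact h1 rfl
  -- the base point
  obtain ⟨P1, hP1, hP1'⟩ := exists_act Y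
  obtain ⟨P2, hP2, hP2'⟩ := gnc_int Y O hO
  obtain ⟨g0, hg0⟩ : ∃ g0 : Ent n → k, MvPolynomial.eval g0 (P1 * P2) ≠ 0 := by
    by_contra h
    push Not at h
    exact mul_ne_zero hP1 hP2 (MvPolynomial.funext fun x => by rw [h x, map_zero])
  rw [map_mul] at hg0
  obtain ⟨φ0, hφ0, hφ0'⟩ := hP1' g0 (left_ne_zero_of_mul hg0)
  have hM0 : ∀ s, φ0 (Y.M s) ∈ O := hP2' g0 φ0 (right_ne_zero_of_mul hg0) hφ0 hφ0'
  let ι : k →+* O := (algebraMap k K).codRestrict O hO
  let L0 : ∀ b, Matrix (Fin (n b)) (Fin (n b)) O := fun b => Matrix.of fun i j =>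
    ⟨cell κ (fun s => φ0 (Y.M s)) b i j, hcellO _ hM0 b i j⟩
  have hL0 : ∀ b, IsCell (kb κ b) (L0 b) := by
    intro b i j hij
    apply Subtype.ext
    have h1 : cell κ (fun s => φ0 (Y.M s)) b i j = if i = j then 1 else 0 := dif_neg hij
    change cell κ (fun s => φ0 (Y.M s)) b i j = ((if i = j then 1 else 0 : O) : K)
    rw [h1]
    split_ifs <;> rfl
  have hL0' : ∀ b, (L0 b).map (algebraMap O K) =
      nf (kb κ b) (matK (K := K) g0 b * cell κ Y.M b) := by
    intro b
    rw [← act_cell Y g0 φ0 hφ0 b]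
    ext i j
    change (if h : _ then φ0 (Y.M ⟨⟨b, i, j⟩, h⟩) else if i = j then 1 else 0) =
      φ0 (if h : _ then Y.M ⟨⟨b, i, j⟩, h⟩ else if i = j then 1 else 0)
    split_ifs <;> simp
  choose Li hLi1 hLi2 hLi3 using fun b => cell_inv (hL0 b)
  let G0 : ∀ b, Matrix (Fin (n b)) (Fin (n b)) k := fun b => matK (K := k) g0 b
  have hG0 : ∀ b, IsUnit (G0 b).det := fun b => isUnit_iff_ne_zero.2 (hφ0.2.2.1 b)
  have hG0K : ∀ b, matK (K := K) g0 b = (G0 b).map (algebraMap k K) := fun b => rfl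
  let W : ∀ b, Matrix (Fin (n b)) (Fin (n b)) O := fun b => (G0 b)⁻¹.map ι * L0 b
  let W' : ∀ b, Matrix (Fin (n b)) (Fin (n b)) O := fun b => Li b * (G0 b).map ι
  have hW : ∀ b, W' b * W b = 1 := by
    intro b
    have h1 : (G0 b).map ι * (G0 b)⁻¹.map ι = 1 := by
      rw [← Matrix.map_mul, Matrix.mul_nonsing_inv _ (hG0 b)]
      exact Matrix.map_one _ (map_zero _) (map_one _)
    calc W' b * W b = Li b * ((G0 b).map ι * (G0 b)⁻¹.map ι) * L0 b := by
          simp only [W, W', Matrix.mul_assoc]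
      _ = 1 := by rw [h1, Matrix.mul_one, hLi2]
  obtain ⟨P3, hP3, hP3'⟩ := Zer.gen_unit O hO W W' hW _ hnum
  obtain ⟨P4, hP4, hP4'⟩ := Zer.gen_unit O hO W W' hW _ hdel
  refine ⟨P3 * P4, mul_ne_zero hP3 hP4, fun g φ hg hφ _ => ?_⟩
  rw [map_mul] at hg
  obtain ⟨h3, h3'⟩ := hP3' g (left_ne_zero_of_mul hg)
  obtain ⟨h4, h4'⟩ := hP4' g (right_ne_zero_of_mul hg)
  set h : Ent n → K := fun e =>
    (matK (K := K) g e.1 * (W e.1).map (algebraMap O K)) e.2.1 e.2.2 with hh
  have hE : ∀ b, Eqv (kb κ b) (matK (K := K) g b * cell κ Y.M b) (mat h b) := by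
    intro b
    have h5 : Eqv (kb κ b) (matK (K := K) g0 b * cell κ Y.M b)
        (nf (kb κ b) (matK (K := K) g0 b * cell κ Y.M b)) :=
      nf_eqv _ _ fun c hc => hφ0.2.2.2 ⟨b, c⟩ hc
    have h6 := h5.mul_left (matK (K := K) g b * (G0 b)⁻¹.map (algebraMap k K))
    have h7 : (G0 b)⁻¹.map (algebraMap k K) * matK (K := K) g0 b = 1 := by
      rw [hG0K, ← Matrix.map_mul, Matrix.nonsing_inv_mul _ (hG0 b)]
      exact Matrix.map_one _ (map_zero _) (map_one _)
    have h8 : matK (K := K) g b * (G0 b)⁻¹.map (algebraMap k K) *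
        (matK (K := K) g0 b * cell κ Y.M b) = matK (K := K) g b * cell κ Y.M b := by
      rw [Matrix.mul_assoc, ← Matrix.mul_assoc ((G0 b)⁻¹.map (algebraMap k K)), h7,
        Matrix.one_mul]
    have h9 : matK (K := K) g b * (G0 b)⁻¹.map (algebraMap k K) *
        nf (kb κ b) (matK (K := K) g0 b * cell κ Y.M b) = mat h b := by
      have h10 : mat h b = matK (K := K) g b * (W b).map (algebraMap O K) := rfl
      rw [h10, ← hL0', Matrix.mul_assoc, Matrix.map_mul]
      rfl
    rwa [h8, h9] at h6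
  have hlead : ∀ b, ∀ c ∈ kb κ b, lead (mat h b) c ≠ 0 := by
    intro b c hc
    obtain ⟨d, hd, hd'⟩ := minor_congr (hE b) hc
    have h5 : lead (mat h b) c = d * lead (matK (K := K) g b * cell κ Y.M b) c := hd' _
    rw [h5]
    exact mul_ne_zero hd.ne_zero (hφ.2.2.2 ⟨b, c⟩ hc)
  have hφf : φ f = MvPolynomial.aeval
      (fun e : Ent n => nf (kb κ e.1) (mat h e.1) e.2.1 e.2.2) Q := by
    rw [hf1, ← hQ1']
    have h5 : φ (MvPolynomial.aeval Y.M Q1) = MvPolynomial.aeval (fun s => φ (Y.M s)) Q1 := by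
      have h6 := MvPolynomial.comp_aeval_apply (φ := (φ : K →ₐ[k] K)) Y.M Q1
      exact h6
    rw [h5]
    congr 2
    funext s
    rw [hφ.1 s, nf_congr (hE s.1.1)]
  have hmain := Zer.aeval_num (fun b => kb κ b) Q h hlead
  have hd0 : MvPolynomial.aeval h (Zer.del k fun b => kb κ b) ≠ 0 :=
    Zer.aeval_del_ne _ h hlead
  rw [← hφf] at hmain
  have h11 : φ f = MvPolynomial.aeval h (Zer.num (fun b => kb κ b) Q) *
      (MvPolynomial.aeval h (Zer.del k fun b => kb κ b))⁻¹ ^ Q.totalDegree := by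
    rw [hmain, mul_assoc, ← mul_pow, mul_inv_cancel₀ hd0, one_pow, mul_one]
  change φ f ∈ O ∧ (φ f)⁻¹ ∈ O
  rw [h11]
  refine ⟨O.mul_mem _ _ h3 (pow_mem h4' _), ?_⟩
  rw [mul_inv, inv_pow, inv_inv]
  exact O.mul_mem _ _ h3' (pow_mem h4 _)

end ZER

end

end Pool.Agent.MLD.H
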