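import Pool.Agent.Lib.MP_f23696_ag.H.Act
import Pool.Agent.Lib.MP_f23696_ag.H.Fac
import Pool.Agent.Lib.MP_f23696_ag.H.Grd
import Pool.Agent.Lib.MP_f23696_ag.H.Acp
import Pool.Agent.Lib.MP_f23696_ag.H.Hda
import Pool.Agent.Lib.MP_f23696_ag.H.Zer

/-!
MP_f23696_ag, project HORO, module FIB: general translates at a closed point.
-/

set_option autoImplicit false

namespace Pool.Agent.MLD.H

open scoped Classical
open Pool.Agent.MLD.Ten (IsGood)
noncomputable section

universe u v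

namespace Fib

/-! ### values at a closed point -/
section Val

variable {k : Type u} {K : Type v} [Field k] [Field K] [Algebra k K]
    {σ κ : Type} [Fintype σ] [Fintype κ] {m : ℕ} {X : HD k K σ κ m} {y : Ideal X.A}

theorem val_algebraMap (hy : y.IsPrime) (c : k) : X.ValAt y (algebraMap k K c) c := by
  refine ⟨algebraMap k X.A c, 1, ?_, ?_, ?_⟩
  · intro h
    exact hy.ne_top ((Ideal.eq_top_iff_one y).2 h)
  · simp
  · simp

theorem val_add (hy : y.IsPrime) {f f' : K} {c c' : k} (h : X.ValAt y f c)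
    (h' : X.ValAt y f' c') : X.ValAt y (f + f') (c + c') := by
  obtain ⟨a, b, hb, hab, ha⟩ := h
  obtain ⟨a', b', hb', hab', ha'⟩ := h'
  refine ⟨a * b' + a' * b, b * b', fun h => (hy.mem_or_mem h).elim hb hb', ?_, ?_⟩
  · push_cast
    rw [← hab, ← hab']
    ring
  · have e : a * b' + a' * b - algebraMap k X.A (c + c') * (b * b') =
        b' * (a - algebraMap k X.A c * b) + b * (a' - algebraMap k X.A c' * b') := by
      rw [map_add]
      ring
    rw [e]
    exact y.add_mem (y.mul_mem_left _ ha) (y.mul_mem_left _ ha')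

theorem val_mul (hy : y.IsPrime) {f f' : K} {c c' : k} (h : X.ValAt y f c)
    (h' : X.ValAt y f' c') : X.ValAt y (f * f') (c * c') := by
  obtain ⟨a, b, hb, hab, ha⟩ := h
  obtain ⟨a', b', hb', hab', ha'⟩ := h'
  refine ⟨a * a', b * b', fun h => (hy.mem_or_mem h).elim hb hb', ?_, ?_⟩
  · push_cast
    rw [← hab, ← hab']
    ring
  · have e : a * a' - algebraMap k X.A (c * c') * (b * b') =
        a * (a' - algebraMap k X.A c' * b') +
          (algebraMap k X.A c' * b') * (a - algebraMap k X.A c * b) := by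
      rw [map_mul]
      ring
    rw [e]
    exact y.add_mem (y.mul_mem_left _ ha') (y.mul_mem_left _ ha)

theorem val_inv {f : K} {c : k} (h : X.ValAt y f c) (hc : c ≠ 0) :
    X.ValAt y f⁻¹ c⁻¹ := by
  obtain ⟨a, b, hb, hab, ha⟩ := h
  have ha0 : a ∉ y := by
    intro h1
    have h2 : algebraMap k X.A c * b ∈ y := by
      have := y.sub_mem h1 ha
      simpa using this
    have h3 : b ∈ y := by
      have := y.mul_mem_left (algebraMap k X.A c⁻¹) h2
      rwa [← mul_assoc, ← map_mul, inv_mul_cancel₀ hc, map_one, one_mul] at this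
    exact hb h3
  have hf : f ≠ 0 := by
    rintro rfl
    apply ha0
    have : a = 0 := by
      apply Subtype.ext
      simpa using hab.symm
    rw [this]
    exact y.zero_mem
  refine ⟨b, a, ha0, ?_, ?_⟩
  · rw [← hab, ← mul_assoc, inv_mul_cancel₀ hf, one_mul]
  · have e : b - algebraMap k X.A c⁻¹ * a =
        -(algebraMap k X.A c⁻¹ * (a - algebraMap k X.A c * b)) := by
      have : algebraMap k X.A c⁻¹ * (algebraMap k X.A c * b) = b := by
        rw [← mul_assoc, ← map_mul, inv_mul_cancel₀ hc, map_one, one_mul]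
      rw [mul_sub, this]
      ring
    rw [e]
    exact y.neg_mem (y.mul_mem_left _ ha)

theorem val_unique (hy : y.IsPrime) {f : K} {c c' : k} (h : X.ValAt y f c)
    (h' : X.ValAt y f c') : c = c' := by
  obtain ⟨a, b, hb, hab, ha⟩ := h
  obtain ⟨a', b', hb', hab', ha'⟩ := h'
  by_contra hne
  have e1 : a * b' = a' * b := by
    apply Subtype.ext
    push_cast
    rw [← hab, ← hab']
    ring
  have e : algebraMap k X.A (c' - c) * (b * b') =
      b' * (a - algebraMap k X.A c * b) - b * (a' - algebraMap k X.A c' * b') := by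
    rw [map_sub]
    linear_combination -e1
  have h1 : algebraMap k X.A (c' - c) * (b * b') ∈ y := by
    rw [e]
    exact y.sub_mem (y.mul_mem_left _ ha) (y.mul_mem_left _ ha')
  have h2 : b * b' ∈ y := by
    have := y.mul_mem_left (algebraMap k X.A (c' - c)⁻¹) h1
    rwa [← mul_assoc, ← map_mul, inv_mul_cancel₀ (sub_ne_zero.2 (Ne.symm hne)), map_one,
      one_mul] at this
  exact (hy.mem_or_mem h2).elim hb hb'

/-- the pairs of an element and its value -/
def valRing (X : HD k K σ κ m) (y : Ideal X.A) (hy : y.IsPrime) : Subring (K × k) where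
  carrier := {p | X.ValAt y p.1 p.2}
  mul_mem' := fun h h' => val_mul hy h h'
  one_mem' := by
    have := val_algebraMap (X := X) hy 1
    rwa [map_one] at this
  add_mem' := fun h h' => val_add hy h h'
  zero_mem' := by
    have := val_algebraMap (X := X) hy 0
    rwa [map_zero] at this
  neg_mem' := by
    intro p h
    have := val_mul hy (val_algebraMap (X := X) hy (-1)) h
    simpa using this

theorem val_det (hy : y.IsPrime) {ι : Type} [Fintype ι] [DecidableEq ι] {G : Matrix ι ι K}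
    {H : Matrix ι ι k} (h : ∀ i j, X.ValAt y (G i j) (H i j)) : X.ValAt y G.det H.det := by
  let R := valRing X y hy
  let W : Matrix ι ι R := Matrix.of fun i j => ⟨(G i j, H i j), h i j⟩
  have h1 : ((RingHom.fst K k).comp R.subtype) W.det = G.det := by
    rw [RingHom.map_det]
    rfl
  have h2 : ((RingHom.snd K k).comp R.subtype) W.det = H.det := by
    rw [RingHom.map_det]
    rfl
  have h3 : X.ValAt y (W.det : K × k).1 (W.det : K × k).2 := W.det.2
  rw [← h1, ← h2]
  exact h3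

theorem val_sum (hy : y.IsPrime) {ι : Type} (s : Finset ι) {f : ι → K} {g : ι → k}
    (h : ∀ i ∈ s, X.ValAt y (f i) (g i)) : X.ValAt y (∑ i ∈ s, f i) (∑ i ∈ s, g i) := by
  induction s using Finset.induction_on with
  | empty =>
    have := val_algebraMap (X := X) hy 0
    rw [map_zero] at this
    simpa using this
  | insert a s ha ih =>
    rw [Finset.sum_insert ha, Finset.sum_insert ha]
    exact val_add hy (h a (Finset.mem_insert_self a s))
      (ih fun i hi => h i (Finset.mem_insert_of_mem hi))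

variable {n : ℕ}

theorem val_matMul (hy : y.IsPrime) {g : Matrix (Fin n) (Fin n) k} {G : Matrix (Fin n) (Fin n) K}
    {H : Matrix (Fin n) (Fin n) k} (h : ∀ i j, X.ValAt y (G i j) (H i j)) (i j : Fin n) :
    X.ValAt y ((g.map (algebraMap k K) * G) i j) ((g * H) i j) := by
  rw [Matrix.mul_apply, Matrix.mul_apply]
  refine val_sum hy _ fun l _ => ?_
  rw [Matrix.map_apply]
  exact val_mul hy (val_algebraMap hy _) (h l j)

theorem val_minor (hy : y.IsPrime) {G : Matrix (Fin n) (Fin n) K}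
    {H : Matrix (Fin n) (Fin n) k} (h : ∀ i j, X.ValAt y (G i j) (H i j)) (c : Fin n)
    (r : Fin (c + 1) → Fin n) : X.ValAt y (minor G c r) (minor H c r) :=
  val_det hy fun _ _ => h _ _

theorem val_nf (hy : y.IsPrime) {T : Set (Fin n)} {G : Matrix (Fin n) (Fin n) K}
    {H : Matrix (Fin n) (Fin n) k} (h : ∀ i j, X.ValAt y (G i j) (H i j))
    (i j : Fin n) (hl : Sep T i j → lead H (cut T j) ≠ 0) :
    X.ValAt y (nf T G i j) (nf T H i j) := by
  unfold nf
  rw [Matrix.of_apply, Matrix.of_apply]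
  split_ifs with hs h1
  · rw [div_eq_mul_inv, div_eq_mul_inv]
    exact val_mul hy (val_minor hy h _ _) (val_inv (val_minor hy h _ _) (hl hs))
  · have := val_algebraMap (X := X) hy 1
    rwa [map_one] at this
  · have := val_algebraMap (X := X) hy 0
    rwa [map_zero] at this

end Val

/-! ### matrices -/
section Mat

variable {n : ℕ}

theorem cut_mem {T : Set (Fin n)} {i j : Fin n} (h : Sep T i j) : cut T j ∈ T := by
  obtain ⟨c, hc, hj, -⟩ := h
  have hne : (Finset.univ.filter fun c => c ∈ T ∧ j ≤ c).Nonempty :=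
    ⟨c, by simp [hc, hj]⟩
  unfold cut
  rw [dif_pos hne]
  have := Finset.min'_mem _ hne
  rw [Finset.mem_filter] at this
  exact this.2.1

theorem minor_map {R : Type u} {S : Type v} [CommRing R] [CommRing S] (f : R →+* S)
    (G : Matrix (Fin n) (Fin n) R) (c : Fin n) (r : Fin (c + 1) → Fin n) :
    minor (G.map f) c r = f (minor G c r) := by
  unfold minor
  rw [RingHom.map_det]
  rfl

theorem lead_map {R : Type u} {S : Type v} [CommRing R] [CommRing S] (f : R →+* S)
    (G : Matrix (Fin n) (Fin n) R) (c : Fin n) : lead (G.map f) c = f (lead G c) :=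
  minor_map f G c _

theorem nf_map {R : Type u} {S : Type v} [Field R] [Field S] (f : R →+* S) (T : Set (Fin n))
    (G : Matrix (Fin n) (Fin n) R) : (nf T G).map f = nf T (G.map f) := by
  ext i j
  rw [Matrix.map_apply]
  unfold nf
  rw [Matrix.of_apply, Matrix.of_apply]
  split_ifs
  · rw [map_div₀, minor_map, lead_map]
  · exact map_one f
  · exact map_zero f

theorem lead_one {R : Type u} [CommRing R] (c : Fin n) :
    lead (1 : Matrix (Fin n) (Fin n) R) c = 1 := by
  unfold lead minor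
  have : (Matrix.of fun p q : Fin (c + 1) => (1 : Matrix (Fin n) (Fin n) R) (Fin.castLE c.2 p)
      (Fin.castLE c.2 q)) = 1 := by
    ext p q
    rw [Matrix.of_apply, Matrix.one_apply, Matrix.one_apply]
    simp
  rw [this, Matrix.det_one]

theorem Eqv_mono {R : Type u} [CommRing R] {κ T : Set (Fin n)} (hT : T ⊆ κ)
    {G G' : Matrix (Fin n) (Fin n) R} (h : Eqv κ G G') : Eqv T G G' :=
  fun c hc => h c (hT hc)

end Mat

section Act

variable {B : Type} [Fintype B] {n : B → ℕ} {k : Type u} {K : Type v} [Field k] [Field K]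
  [Algebra k K] {m : ℕ} {κ : Finset (Σ b, Fin (n b))}

/-- the action on the coarse normal form -/
theorem act_coarse (Y : TA k K n κ m) (g : Ent n → k) (φ : K ≃ₐ[k] K) (h : IsAct Y g φ) (b : B)
    {T : Set (Fin (n b))} (hT : T ⊆ kb κ b) :
    (nf T (cell κ Y.M b)).map φ = nf T (matK (K := K) g b * cell κ Y.M b) := by
  have h1 : (nf T (cell κ Y.M b)).map φ = nf T ((cell κ Y.M b).map φ) :=
    nf_map (φ : K →+* K) T _
  rw [h1, act_cell Y g φ h b]
  exact nf_nf hT _ fun c hc => h.2.2.2 ⟨b, c⟩ hc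

theorem act_trans (Y : TA k K n κ m) (g g0 : Ent n → k) (φ φ0 : K ≃ₐ[k] K) (h : IsAct Y g φ)
    (h0 : IsAct Y g0 φ0) (b : B) {T : Set (Fin (n b))} (hT : T ⊆ kb κ b) :
    (nf T (cell κ Y.M b)).map φ = nf T ((mat g b * (mat g0 b)⁻¹).map (algebraMap k K) *
      (nf T (cell κ Y.M b)).map φ0) := by
  rw [act_coarse Y g φ h b hT]
  have hdet : IsUnit (mat g0 b).det := isUnit_iff_ne_zero.2 (h0.2.2.1 b)
  have e1 : matK (K := K) g b * cell κ Y.M b = (mat g b * (mat g0 b)⁻¹).map (algebraMap k K) *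
      (matK (K := K) g0 b * cell κ Y.M b) := by
    have e2 : matK (K := K) g0 b = (mat g0 b).map (algebraMap k K) := rfl
    have e3 : matK (K := K) g b = (mat g b).map (algebraMap k K) := rfl
    rw [e2, e3, ← Matrix.mul_assoc, ← Matrix.map_mul, Matrix.mul_assoc,
      Matrix.nonsing_inv_mul _ hdet, Matrix.mul_one]
  have h3 : (nf T (cell κ Y.M b)).map φ0 = nf T ((cell κ Y.M b).map φ0) :=
    nf_map (φ0 : K →+* K) T _
  have h4 := act_cell Y g0 φ0 h0 b
  have h5 : Eqv (kb κ b) (matK (K := K) g0 b * cell κ Y.M b) ((cell κ Y.M b).map φ0) := by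
    rw [h4]
    exact nf_eqv _ _ fun c hc => h0.2.2.2 ⟨b, c⟩ hc
  have h6 : Eqv T ((cell κ Y.M b).map φ0) (nf T ((cell κ Y.M b).map φ0)) := by
    refine nf_eqv _ _ fun c hc => ?_
    have hc' : IsCell (kb κ b) ((cell κ Y.M b).map φ0) := by
      rw [h4]
      exact nf_isCell _ _
    rw [lead_cell hc' c (hT hc)]
    exact one_ne_zero
  rw [h3, e1]
  exact nf_congr (((Eqv_mono hT h5).mul_left _).trans (h6.mul_left _))

/-- values of `φ0` at the sections of the kinds in `T` -/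
theorem exists_val_S [IsAlgClosed k] (Y : TA k K n κ m) (X : HD k K (Pos n κ) κ m)
    (hX : IsHD Y X) (y : MaximalSpectrum X.A) (g0 g0' : Ent n → k) (φ0 : K ≃ₐ[k] K)
    (h0 : IsAct Y g0 φ0) (h0' : IsAct Y g0' φ0.symm) (c : κ) (u : Fin m → ℤ)
    (hu : u ∈ X.Γ) (hcu : 0 < X.Λ c ⬝ᵥ u)
    (hun : ∃ h : φ0 (X.mon u) ∈ X.A, (⟨φ0 (X.mon u), h⟩ : X.A) ∉ y.asIdeal) (f : K)
    (hf : f ∈ X.S c) : ∃ c' : k, X.ValAt y.asIdeal (φ0 f) c' := by
  obtain ⟨h1, h2⟩ := hun
  have h3 : f * X.mon u ∈ X.comp u := X.S_mem hu (by omega) hf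
  have h4 : φ0 (f * X.mon u) ∈ X.comp u := by
    rw [hd_comp Y X hX] at h3 ⊢
    exact (act_stab Y g0 φ0 h0 g0' h0' u (by rw [← hX.Γ]; exact hu) _).1 h3
  obtain ⟨c', hc'⟩ := X.exists_val y ⟨_, X.mem_A hu h4⟩ ⟨_, h1⟩ h2
  refine ⟨c', ?_⟩
  have h5 : φ0 (X.mon u) ≠ 0 := by
    rw [_root_.map_ne_zero]
    exact X.mon_ne u
  have h6 : φ0 (f * X.mon u) / φ0 (X.mon u) = φ0 f := by
    rw [map_mul, mul_div_assoc, div_self h5, mul_one]
  rw [← h6]
  exact hc'

theorem exists_eval_ne [Infinite k] {τ : Type} (P : MvPolynomial τ k) (hP : P ≠ 0) :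
    ∃ g, MvPolynomial.eval g P ≠ 0 := by
  by_contra hcon
  push Not at hcon
  exact hP (MvPolynomial.funext fun g => by rw [hcon g, map_zero])

theorem eval_bind1 {τ τ' : Type} (g : τ' → k) (f : τ → MvPolynomial τ' k)
    (P : MvPolynomial τ k) : MvPolynomial.eval g (MvPolynomial.bind₁ f P) =
      MvPolynomial.eval (fun i => MvPolynomial.eval g (f i)) P := by
  have h := MvPolynomial.eval₂Hom_bind₁ (RingHom.id k) g f P
  exact h

/-- the linear substitution `h ↦ h D` -/
def lsub (k : Type u) [Field k] (D : ∀ b, Matrix (Fin (n b)) (Fin (n b)) k) (e : Ent n) :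
    MvPolynomial (Ent n) k :=
  ∑ l, MvPolynomial.X (⟨e.1, e.2.1, l⟩ : Ent n) * MvPolynomial.C (D e.1 l e.2.2)

/-- the product with `D` -/
def lmul (D : ∀ b, Matrix (Fin (n b)) (Fin (n b)) k) (g : Ent n → k) (e : Ent n) : k :=
  (mat g e.1 * D e.1) e.2.1 e.2.2

omit [Fintype B] in
theorem mat_lmul (D : ∀ b, Matrix (Fin (n b)) (Fin (n b)) k) (g : Ent n → k) (b : B) :
    mat (lmul D g) b = mat g b * D b := rfl

omit [Fintype B] in
theorem eval_lsub (D : ∀ b, Matrix (Fin (n b)) (Fin (n b)) k) (g : Ent n → k)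
    (P : MvPolynomial (Ent n) k) :
    MvPolynomial.eval g (MvPolynomial.bind₁ (lsub k D) P) = MvPolynomial.eval (lmul D g) P := by
  rw [eval_bind1]
  congr 1
  congr 1
  funext e
  unfold lsub lmul
  rw [map_sum, Matrix.mul_apply]
  refine Finset.sum_congr rfl fun l _ => ?_
  rw [map_mul, MvPolynomial.eval_X, MvPolynomial.eval_C]
  rfl

omit [Fintype B] in
theorem lsub_ne [Infinite k] (D D' : ∀ b, Matrix (Fin (n b)) (Fin (n b)) k)
    (hD : ∀ b, D' b * D b = 1) (P : MvPolynomial (Ent n) k) (hP : P ≠ 0) :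
    MvPolynomial.bind₁ (lsub k D) P ≠ 0 := by
  obtain ⟨h, hh⟩ := exists_eval_ne P hP
  intro h0
  apply hh
  have h1 := eval_lsub D (lmul D' h) P
  rw [h0, map_zero] at h1
  have h2 : lmul D (lmul D' h) = h := by
    funext e
    have h3 : mat (lmul D (lmul D' h)) e.1 = mat h e.1 := by
      rw [mat_lmul, mat_lmul, Matrix.mul_assoc, hD, Matrix.mul_one]
    have h4 := congrFun (congrFun h3 e.2.1) e.2.2
    exact h4
  rw [h2] at h1
  exact h1.symm

/-- the polynomial of the leading minors -/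
def leadP (k : Type u) [Field k] (b : B) (c : Fin (n b)) : MvPolynomial (Ent n) k :=
  lead (Matrix.of fun i j => MvPolynomial.X (⟨b, i, j⟩ : Ent n)) c

omit [Fintype B] in
theorem eval_leadP (b : B) (c : Fin (n b)) (h : Ent n → k) :
    MvPolynomial.eval h (leadP k b c) = lead (mat h b) c := by
  unfold leadP
  rw [← lead_map]
  congr 1
  ext i j
  rw [Matrix.map_apply, Matrix.of_apply, MvPolynomial.eval_X]
  rfl

omit [Fintype B] in
theorem leadP_ne (b : B) (c : Fin (n b)) : leadP k b c ≠ 0 := by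
  intro h0
  have h1 := eval_leadP b c (fun e : Ent n => if e.2.1 = e.2.2 then (1 : k) else 0)
  have h2 : mat (fun e : Ent n => if e.2.1 = e.2.2 then (1 : k) else 0) b = 1 := by
    ext i j
    unfold mat
    rw [Matrix.of_apply, Matrix.one_apply]
  rw [h0, map_zero, h2, lead_one] at h1
  exact zero_ne_one h1

end Act

end Fib

section typeA

variable {B : Type} [Fintype B] {n : B → ℕ} {k : Type u} {K : Type v} [Field k] [Field K]
  [Algebra k K] {m : ℕ} {κ : Finset (Σ b, Fin (n b))}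

/-! ### FIB -/
section FIB

theorem gnc_fib [IsAlgClosed k] (Y : TA k K n κ m) (X : HD k K (Pos n κ) κ m) (hX : IsHD Y X)
    (hunit : ∀ (y : MaximalSpectrum X.A), ∀ u ∈ X.tau y.asIdeal,
      Gnc Y {g | ∃ h : g (X.mon u) ∈ X.A, (⟨g (X.mon u), h⟩ : X.A) ∉ y.asIdeal})
    (y : MaximalSpectrum X.A) (Q : MvPolynomial (Pos n κ) k) (hQ : Q ≠ 0) :
    Gnc Y {g | ∀ c : Pos n κ → k,
      (∀ s ∈ X.sub (X.kinds (X.tau y.asIdeal)),
        X.ValAt y.asIdeal (g (X.co (X.kinds (X.tau y.asIdeal)) s)) (c s)) →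
      X.Gen (X.kinds (X.tau y.asIdeal)) c Q} := by
  have : Infinite k := IsAlgClosed.instInfinite
  have hy : y.asIdeal.IsPrime := y.isMaximal.isPrime
  obtain ⟨T, hT⟩ : ∃ T, T = X.kinds (X.tau y.asIdeal) := ⟨_, rfl⟩
  rw [← hT]
  let Tb : ∀ b, Set (Fin (n b)) := fun b =>
    {c' | ∃ h : (⟨b, c'⟩ : Σ b, Fin (n b)) ∈ κ, (⟨_, h⟩ : κ) ∈ T}
  have hTb : ∀ b, Tb b ⊆ kb κ b := fun b c h => by
    obtain ⟨h, -⟩ := h
    exact h
  -- positions
  have hpos : ∀ b i j, Sep (Tb b) i j →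
      ∃ c : Fin (n b), (⟨b, c⟩ : Σ b, Fin (n b)) ∈ κ ∧ j ≤ c ∧ c < i := by
    rintro b i j ⟨c, hc, h1, h2⟩
    exact ⟨c, hTb b hc, h1, h2⟩
  have hsub : ∀ b i j (h : Sep (Tb b) i j), ∃ c ∈ T, X.sep c (⟨⟨b, i, j⟩, hpos b i j h⟩ : Pos n κ) := by
    intro b i j h
    obtain ⟨c, hc, h1, h2⟩ := id h
    obtain ⟨hc1, hc2⟩ := hc
    exact ⟨⟨_, hc1⟩, hc2, (hX.sep _ _).2 ⟨c, rfl, h1, h2⟩⟩
  have hsub' : ∀ s ∈ X.sub T, Sep (Tb s.1.1) s.1.2.1 s.1.2.2 := by
    rintro s ⟨c, hc, hs⟩
    obtain ⟨c', hc', h1, h2⟩ := (hX.sep c s).1 hs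
    refine ⟨c', ?_, h1, h2⟩
    have h3 : (⟨s.1.1, c'⟩ : Σ b, Fin (n b)) ∈ κ := by
      rw [← hc']
      exact c.2
    refine ⟨h3, ?_⟩
    have h4 : (⟨_, h3⟩ : κ) = c := Subtype.ext hc'.symm
    rw [h4]
    exact hc
  have hco : ∀ s ∈ X.sub T, X.co T s = nf (Tb s.1.1) (cell κ Y.M s.1.1) s.1.2.1 s.1.2.2 :=
    fun s hs => hX.co T s hs
  -- the generic element `g0`
  have hu : ∀ c : κ, c ∈ T → ∃ u ∈ X.tau y.asIdeal, 0 < X.Λ c ⬝ᵥ u := by
    intro c hc
    rw [hT] at hc
    exact hc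
  choose! u hu1 hu2 using hu
  have hP : ∀ c : κ, c ∈ T → ∃ P : MvPolynomial (Ent n) k, P ≠ 0 ∧
      ∀ g φ, MvPolynomial.eval g P ≠ 0 → IsAct Y g φ → (∃ g', IsAct Y g' φ.symm) →
        ∃ h : φ (X.mon (u c)) ∈ X.A, (⟨φ (X.mon (u c)), h⟩ : X.A) ∉ y.asIdeal :=
    fun c hc => hunit y (u c) (hu1 c hc)
  choose! P hP0 hP using hP
  obtain ⟨P0, hP00, hP0'⟩ := exists_act Y
  have hPP : P0 * ∏ c : κ, (if c ∈ T then P c else 1) ≠ 0 := by
    refine mul_ne_zero hP00 (Finset.prod_ne_zero_iff.2 fun c _ => ?_)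
    split_ifs with h
    · exact hP0 c h
    · exact one_ne_zero
  obtain ⟨g0, hg0⟩ := Fib.exists_eval_ne _ hPP
  rw [map_mul, map_prod] at hg0
  obtain ⟨φ0, hφ0, g0', hφ0'⟩ := hP0' g0 (left_ne_zero_of_mul hg0)
  have hun : ∀ c : κ, c ∈ T →
      ∃ h : φ0 (X.mon (u c)) ∈ X.A, (⟨φ0 (X.mon (u c)), h⟩ : X.A) ∉ y.asIdeal := by
    intro c hc
    refine hP c hc g0 φ0 ?_ hφ0 ⟨g0', hφ0'⟩
    have h1 := Finset.prod_ne_zero_iff.1 (right_ne_zero_of_mul hg0) c (Finset.mem_univ c)
    rwa [if_pos hc] at h1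
  -- the values of `φ0`
  have hv : ∀ s ∈ X.sub T, ∃ c' : k, X.ValAt y.asIdeal (φ0 (X.co T s)) c' := by
    intro s hs
    obtain ⟨c, hc, hcs⟩ := X.co_mem T s hs
    exact Fib.exists_val_S Y X hX y g0 g0' φ0 hφ0 hφ0' c (u c) (hu1 c hc).1 (hu2 c hc) (hun c hc)
      _ hcs
  choose! c0 hc0 using hv
  let N0 : ∀ b, Matrix (Fin (n b)) (Fin (n b)) k := fun b => Matrix.of fun i j =>
    if h : Sep (Tb b) i j then c0 ⟨⟨b, i, j⟩, hpos b i j h⟩ else if i = j then 1 else 0
  have hN0 : ∀ b, IsCell (Tb b) (N0 b) := by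
    intro b i j h
    show (if h : Sep (Tb b) i j then c0 ⟨⟨b, i, j⟩, hpos b i j h⟩ else
      if i = j then (1 : k) else 0) = _
    rw [dif_neg h]
  have hN0v : ∀ b i j, X.ValAt y.asIdeal (((nf (Tb b) (cell κ Y.M b)).map φ0) i j) (N0 b i j) := by
    intro b i j
    rw [Matrix.map_apply]
    by_cases h : Sep (Tb b) i j
    · have h1 : N0 b i j = c0 ⟨⟨b, i, j⟩, hpos b i j h⟩ := by
        show (if h : Sep (Tb b) i j then c0 ⟨⟨b, i, j⟩, hpos b i j h⟩ else
          if i = j then (1 : k) else 0) = _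
        rw [dif_pos h]
      rw [h1]
      have h2 := hc0 ⟨⟨b, i, j⟩, hpos b i j h⟩ (hsub b i j h)
      rw [hco _ (hsub b i j h)] at h2
      exact h2
    · rw [hN0 b i j h, nf_isCell (Tb b) (cell κ Y.M b) i j h]
      split_ifs
      · have := Fib.val_algebraMap (X := X) hy 1
        rwa [map_one] at this ⊢
      · have := Fib.val_algebraMap (X := X) hy 0
        rwa [map_zero] at this ⊢
  -- the inverse of `N0`
  have hinv : ∀ b, ∃ N' : Matrix (Fin (n b)) (Fin (n b)) k, N' * N0 b = 1 := by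
    intro b
    obtain ⟨N', -, h, -⟩ := cell_inv (hN0 b)
    exact ⟨N', h⟩
  choose N' hN' using hinv
  -- the polynomial
  obtain ⟨d, hd⟩ := Fib.exists_eval_ne Q hQ
  let Q1 : MvPolynomial (Ent n) k := MvPolynomial.bind₁ (fun s : Pos n κ =>
    if s ∈ X.sub T then MvPolynomial.X s.1 else MvPolynomial.C (d s)) Q
  have hQ1 : ∀ h : Ent n → k, MvPolynomial.eval h Q1 =
      MvPolynomial.eval (fun s : Pos n κ => if s ∈ X.sub T then h s.1 else d s) Q := by
    intro h
    rw [Fib.eval_bind1]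
    congr 2
    funext s
    split_ifs
    · rw [MvPolynomial.eval_X]
    · rw [MvPolynomial.eval_C]
  have hL : ∃ L : Ent n → MvPolynomial (Ent n) k,
      (∀ b, IsCell (Tb b) (Matrix.of fun i j => L ⟨b, i, j⟩)) ∧ MvPolynomial.aeval L Q1 ≠ 0 := by
    let e0 : Ent n → k := fun e => if h : Sep (Tb e.1) e.2.1 e.2.2 then
      d ⟨⟨e.1, e.2.1, e.2.2⟩, hpos _ _ _ h⟩ else if e.2.1 = e.2.2 then 1 else 0
    refine ⟨fun e => MvPolynomial.C (e0 e), ?_, ?_⟩
    · intro b i j h
      rw [Matrix.of_apply]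
      have : e0 ⟨b, i, j⟩ = if i = j then 1 else 0 := by
        show (if h : Sep (Tb b) i j then d ⟨⟨b, i, j⟩, hpos _ _ _ h⟩ else
          if i = j then (1 : k) else 0) = _
        rw [dif_neg h]
      show MvPolynomial.C (e0 ⟨b, i, j⟩) = _
      rw [this]
      split_ifs
      · exact map_one _
      · exact map_zero _
    · have h1 : MvPolynomial.aeval (fun e => (MvPolynomial.C (e0 e) : MvPolynomial (Ent n) k)) Q1 =
          MvPolynomial.C (MvPolynomial.eval e0 Q1) := by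
        rw [MvPolynomial.aeval_def, MvPolynomial.algebraMap_eq, MvPolynomial.eval,
          MvPolynomial.coe_eval₂Hom, MvPolynomial.eval₂_comp_left]
        congr 1
      rw [h1]
      have h2 : MvPolynomial.eval e0 Q1 ≠ 0 := by
        rw [hQ1]
        have h3 : (fun s : Pos n κ => if s ∈ X.sub T then e0 s.1 else d s) = d := by
          funext s
          split_ifs with hs
          · show (if h : Sep (Tb s.1.1) s.1.2.1 s.1.2.2 then
              d ⟨⟨s.1.1, s.1.2.1, s.1.2.2⟩, hpos _ _ _ h⟩ else _) = _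
            rw [dif_pos (hsub' s hs)]
            rfl
          · rfl
        rw [h3]
        exact hd
      exact fun h => h2 ((MvPolynomial.C_eq_zero).1 h)
  obtain ⟨P1, a, hP1, hnum⟩ := numer.{u, u} Tb Q1 hL
  let P2 : MvPolynomial (Ent n) k :=
    P1 * ∏ b, ∏ c : Fin (n b), if c ∈ Tb b then Fib.leadP k b c else 1
  have hP2 : P2 ≠ 0 := by
    refine mul_ne_zero hP1 (Finset.prod_ne_zero_iff.2 fun b _ =>
      Finset.prod_ne_zero_iff.2 fun c _ => ?_)
    split_ifs
    · exact Fib.leadP_ne b c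
    · exact one_ne_zero
  let D : ∀ b, Matrix (Fin (n b)) (Fin (n b)) k := fun b => (mat g0 b)⁻¹ * N0 b
  let D' : ∀ b, Matrix (Fin (n b)) (Fin (n b)) k := fun b => N' b * mat g0 b
  have hDD : ∀ b, D' b * D b = 1 := by
    intro b
    have hdet : IsUnit (mat g0 b).det := isUnit_iff_ne_zero.2 (hφ0.2.2.1 b)
    show N' b * mat g0 b * ((mat g0 b)⁻¹ * N0 b) = 1
    rw [Matrix.mul_assoc, ← Matrix.mul_assoc (mat g0 b), Matrix.mul_nonsing_inv _ hdet,
      Matrix.one_mul, hN']
  refine ⟨MvPolynomial.bind₁ (Fib.lsub k D) P2, Fib.lsub_ne D D' hDD P2 hP2, ?_⟩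
  intro g φ hg hφ _ c hc
  rw [Fib.eval_lsub, map_mul, map_prod] at hg
  have hlead : ∀ b, ∀ c ∈ Tb b, lead (mat (Fib.lmul D g) b) c ≠ 0 := by
    intro b c hc
    have h1 := Finset.prod_ne_zero_iff.1 (right_ne_zero_of_mul hg) b (Finset.mem_univ b)
    rw [map_prod] at h1
    have h2 := Finset.prod_ne_zero_iff.1 h1 c (Finset.mem_univ c)
    rw [if_pos hc, Fib.eval_leadP] at h2
    exact h2
  have hP1g := left_ne_zero_of_mul hg
  have hnum1 := hnum k (Fib.lmul D g) hlead
  -- the values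
  have hval : ∀ s ∈ X.sub T, c s =
      nf (Tb s.1.1) (mat (Fib.lmul D g) s.1.1) s.1.2.1 s.1.2.2 := by
    intro s hs
    have h1 := hc s hs
    rw [hco s hs] at h1
    have h2 := Fib.act_trans Y g g0 φ φ0 hφ hφ0 s.1.1 (hTb s.1.1)
    have h3 := congrFun (congrFun h2 s.1.2.1) s.1.2.2
    rw [Matrix.map_apply] at h3
    rw [h3] at h1
    refine Fib.val_unique hy h1 ?_
    refine Fib.val_nf hy ?_ _ _ ?_
    · intro i j
      have h4 := Fib.val_matMul hy (g := mat g s.1.1 * (mat g0 s.1.1)⁻¹) (hN0v s.1.1) i j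
      have h5 : mat g s.1.1 * (mat g0 s.1.1)⁻¹ * N0 s.1.1 = mat (Fib.lmul D g) s.1.1 := by
        rw [Fib.mat_lmul, Matrix.mul_assoc]
      rw [h5] at h4
      exact h4
    · intro h
      exact hlead _ _ (Fib.cut_mem h)
  -- conclusion
  have hQc : MvPolynomial.eval (fun s : Pos n κ => if s ∈ X.sub T then c s else d s) Q ≠ 0 := by
    have h1 : MvPolynomial.eval (fun e : Ent n =>
        nf (Tb e.1) (mat (Fib.lmul D g) e.1) e.2.1 e.2.2) Q1 ≠ 0 := by
      intro h0
      apply hP1g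
      have h2 : MvPolynomial.aeval (fun e : Ent n =>
        nf (Tb e.1) (mat (Fib.lmul D g) e.1) e.2.1 e.2.2) Q1 = 0 := h0
      rw [h2, zero_mul] at hnum1
      exact hnum1
    rw [hQ1] at h1
    convert h1 using 3
    funext s
    split_ifs with hs
    · exact hval s hs
    · rfl
  intro h0
  apply hQc
  have h1 : MvPolynomial.eval d (MvPolynomial.bind₁
      (fun s => if s ∈ X.sub T then MvPolynomial.C (c s) else MvPolynomial.X s) Q) =
      MvPolynomial.eval (fun s : Pos n κ => if s ∈ X.sub T then c s else d s) Q := by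
    rw [Fib.eval_bind1]
    congr 2
    funext s
    split_ifs
    · rw [MvPolynomial.eval_C]
    · rw [MvPolynomial.eval_X]
  rw [← h1, h0, map_zero]

end FIB

end typeA

end

end Pool.Agent.MLD.H
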