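import Pool.Agent.Lib.MP_f23696_ag.H.Acp
import Pool.Agent.Lib.MP_f23696_ag.H.Glw
import Pool.Agent.Lib.MP_f23696_ag.H.Zer
import Pool.Agent.Lib.MP_f23696_ag.H.Fib
import Pool.Agent.Lib.MP_f23696_ag.H.Hda
import Pool.Agent.Lib.MP_f23696_ag.T.Val

/-!
The generic automorphisms of the data of type A (module HGX of the project HORO, MP_f23696_ag).
-/

set_option autoImplicit false

namespace Pool.Agent.MLD.H

open scoped Classical
noncomputable section

universe u v

section typeA

variable {B : Type} [Fintype B] {n : B → ℕ} {k : Type u} {K : Type v} [Field k] [Field K]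
  [Algebra k K] {m : ℕ} {κ : Finset (Σ b, Fin (n b))}

namespace HGX

/-- the valuation ring of a discrete valuation -/
def vs (v : DVal k K) : ValuationSubring K :=
  { (Ten.ring v).toSubring with
    mem_or_inv_mem' := by
      intro a
      rcases eq_or_ne a 0 with rfl | ha
      · exact Or.inl (Subring.zero_mem _)
      rcases le_total 0 (v.ord a) with h | h
      · exact Or.inl fun _ => h
      · refine Or.inr fun _ => ?_
        rw [Jac.ord_inv v a ha]
        omega }

theorem mem_vs (v : DVal k K) (a : K) : a ∈ vs v ↔ v.Integral a := Iff.rfl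

theorem vs_const (v : DVal k K) (c : k) : algebraMap k K c ∈ vs v := Ten.LB_algebraMap v c

theorem opn (Y : TA k K n κ m) [IsAlgClosed k] (A : Subalgebra k K) (hA : A = Y.ring)
    (y : MaximalSpectrum A) (s : A) (hs : s ∉ y.asIdeal) :
    Gnc Y {g | ∃ h : g (s : K) ∈ A, (⟨g (s : K), h⟩ : A) ∉ y.asIdeal} := by
  subst hA
  exact gnc_opn Y y s hs

theorem unit (Y : TA k K n κ m) [IsAlgClosed k] (A : Subalgebra k K) (hA : A = Y.ring)
    (y : MaximalSpectrum A) (u : Fin m → ℤ) (hu : u ∈ Y.Γ) (a : A) (ha : (a : K) ∈ Y.cmp u)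
    (hay : a ∉ y.asIdeal) :
    Gnc Y {g | ∃ h : g (∏ i, Y.x i ^ u i) ∈ A, (⟨g (∏ i, Y.x i ^ u i), h⟩ : A) ∉ y.asIdeal} := by
  subst hA
  exact gnc_unit Y y u hu a ha hay

theorem ring_eq (Y : TA k K n κ m) (X : HD k K (Pos n κ) κ m) (hX : IsHD Y X) :
    X.A = Y.ring := by
  unfold HD.A TA.ring coordRing
  congr 1
  ext a
  simp only [Set.mem_ofPred_eq, hX.Γ, hd_comp Y X hX]

theorem mon_eq (Y : TA k K n κ m) (X : HD k K (Pos n κ) κ m) (hX : IsHD Y X) (u : Fin m → ℤ) :
    X.mon u = ∏ i, Y.x i ^ u i := by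
  unfold HD.mon
  rw [hX.x]

theorem mon_ne (X : HD k K (Pos n κ) κ m) (u : Fin m → ℤ) : X.mon u ≠ 0 := by
  unfold HD.mon
  refine Finset.prod_ne_zero_iff.2 fun i _ => zpow_ne_zero _ ?_
  have := X.ind.ne_zero (Sum.inr i)
  exact this

end HGX

open HGX

theorem exists_hg [IsAlgClosed k] (Y : TA k K n κ m) (X : HD k K (Pos n κ) κ m)
    (hX : IsHD Y X) : Nonempty X.HG := by
  have hinf : Infinite k := IsAlgClosed.instInfinite
  obtain ⟨F, hne, hF⟩ := exists_filter Y
  have hA := ring_eq Y X hX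
  have hunit : ∀ (y : MaximalSpectrum X.A), ∀ u ∈ X.tau y.asIdeal,
      Gnc Y {g | ∃ h : g (X.mon u) ∈ X.A, (⟨g (X.mon u), h⟩ : X.A) ∉ y.asIdeal} := by
    rintro y u ⟨hu, a, ha, hay⟩
    rw [hX.Γ] at hu
    rw [hd_comp Y X hX] at ha
    have h := HGX.unit Y X.A hA y u hu a ha hay
    have e : (fun g : K ≃ₐ[k] K => g (X.mon u)) = fun g => g (∏ i, Y.x i ^ u i) := by
      rw [mon_eq Y X hX]
    have e' := mon_eq Y X hX u
    simp only [e']
    exact h
  refine ⟨{ F := F, neBot := hne, stab := ?_, opn := ?_, unit := ?_, low := ?_, zer := ?_,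
            fib := ?_ }⟩
  · refine (hF _).2 ⟨1, one_ne_zero, ?_⟩
    rintro g φ - hφ ⟨g', hg'⟩ u hu a
    rw [hd_comp Y X hX]
    exact act_stab Y g φ hφ g' hg' u (by rw [← hX.Γ]; exact hu) a
  · intro y s hs
    exact (hF _).2 (HGX.opn Y X.A hA y s hs)
  · intro y u hu
    exact (hF _).2 (hunit y u hu)
  · intro v hv u hu
    rw [hX.Γ] at hu
    refine Filter.mem_of_superset ((hF _).2 (gnc_low Y (vs v) (vs_const v) u hu)) ?_
    intro g hg a ha ha0
    rw [hd_comp Y X hX] at ha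
    have h1 := hg a ha
    rw [← mon_eq Y X hX] at h1
    have hm : g (X.mon u) ≠ 0 := by
      intro h
      exact mon_ne X u (by simpa using h)
    have h2 := h1 (div_ne_zero ha0 hm)
    rw [Ten.ord_div v _ _ ha0 hm] at h2
    omega
  · intro v hv f hf hf0
    have hf' : f ∈ Algebra.adjoin k (Set.range Y.M) := by
      have := hf
      unfold HD.kM at this
      rwa [hX.M] at this
    refine Filter.mem_of_superset ((hF _).2 (gnc_zer Y (vs v) (vs_const v) f hf' hf0)) ?_
    rintro g ⟨h1, h2⟩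
    have hg0 : g f ≠ 0 := by
      intro h
      exact hf0 (by simpa using h)
    have h3 := h1 hg0
    have h4 := h2 (inv_ne_zero hg0)
    rw [Jac.ord_inv v _ hg0] at h4
    show v.ord (g f) = 0
    omega
  · intro y Q hQ
    exact (hF _).2 (gnc_fib Y X hX hunit y Q hQ)

end typeA

end

end Pool.Agent.MLD.H
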