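import Pool.Agent.Lib.MP_f23696_ag.H.Key
import Pool.Agent.Lib.MP_f23696_ag.H.Hda
import Pool.Agent.Lib.MP_f23696_ag.H.Hgx
import Pool.Agent.Lib.MP_f23696_ag.H.Grd

/-!
Project HORO (MP_f23696_ag): final assembly, lower semicontinuity of minimal log discrepancies for
horospherical varieties of type A.
-/

set_option autoImplicit false

namespace Pool.Agent.MLD.H

open scoped Classical
open Pool.Agent.MLD.Ten (IsGood)
noncomputable section

universe u v

namespace Fin0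

variable {k : Type u} {K : Type v} [Field k] [Field K] [Algebra k K]
  {σ κ : Type} [Fintype σ] [Fintype κ] {m : ℕ}

/-- the abstract theorem for a subalgebra equal to `X.A` -/
theorem final_abs' [IsAlgClosed k] [CharZero k] (X : HD k K σ κ m) {N : ℕ} (G : X.HG)
    (e : Fin (N + 1) ≃ σ ⊕ Fin m) (D : Fin (N + 1) → Derivation k K K)
    (hD : ∀ i j, D i (Sum.elim X.M X.x (e j)) = if i = j then 1 else 0)
    (A : Subalgebra k K) (hXA : X.A = A) (hfrac : IsFractionRing A K) (hn : IsIntegrallyClosed A)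
    (δ : Ideal A →₀ ℝ) (hδ0 : ∀ q, 0 ≤ δ q)
    (hδ : ∀ q, δ q ≠ 0 → q = Ideal.span {a : A | ∃ u ∈ X.Γ, (a : K) ∈ X.comp u ∧
      ∀ b : A, (b : K) ∈ X.comp u → b ∈ q})
    (hRC : ∀ x : MaximalSpectrum A, ∃ γ : Kˣ →₀ ℝ, IsLocalEq A D δ x.asIdeal γ) :
    LowerSemicontinuous (mld A D δ) := by
  subst hXA
  have hA : IsGood X.A := by
    refine ⟨X.A_fg, ?_, ?_⟩
    · intro f
      obtain ⟨a, b, hb, h⟩ := IsFractionRing.div_surjective (A := X.A) f
      refine ⟨a, b, ?_, h.symm⟩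
      have := nonZeroDivisors.ne_zero hb
      intro h0
      exact this (Subtype.ext h0)
    · intro f hf
      obtain ⟨y, hy⟩ := (IsIntegrallyClosed.isIntegral_iff (R := X.A) (K := K)).1 hf
      rw [← hy]
      exact y.2
  exact X.final_abs G ⟨e, D, hD⟩ hA δ hδ0 hδ hRC

end Fin0

open Fin0

/-- Horospherical varieties of type A. -/
theorem final {k : Type u} {K : Type v} [Field k] [IsAlgClosed k] [CharZero k] [Field K]
    [Algebra k K] {B : Type} [Fintype B] (n : B → ℕ) (κ : Finset (Σ b, Fin (n b))) {m : ℕ}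
    (Γ : AddSubmonoid (Fin m → ℤ)) (hΓ : Γ.FG) (Λ : (Σ b, Fin (n b)) → Fin m → ℤ)
    (hΛ : ∀ c ∈ κ, (∀ u ∈ Γ, 0 ≤ Λ c ⬝ᵥ u) ∧ ∃ u ∈ Γ, 0 < Λ c ⬝ᵥ u)
    (M : Pos n κ → K) (x : Fin m → K) (hind : AlgebraicIndependent k (Sum.elim M x))
    (hgen : IntermediateField.adjoin k (Set.range M ∪ Set.range x) = ⊤)
    {N : ℕ} (e : Fin (N + 1) ≃ Pos n κ ⊕ Fin m) (D : Fin (N + 1) → Derivation k K K)
    (hD : ∀ i j, D i (Sum.elim M x (e j)) = if i = j then 1 else 0)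
    [IsFractionRing (coordRing k κ Λ Γ M x) K] [IsIntegrallyClosed (coordRing k κ Λ Γ M x)]
    (δ : Ideal (coordRing k κ Λ Γ M x) →₀ ℝ) (hδ0 : ∀ p, 0 ≤ δ p)
    (hδ : ∀ p, δ p ≠ 0 → IsHeightOne p ∧ IsStable κ Λ Γ M x p)
    (hRC : ∀ p : MaximalSpectrum (coordRing k κ Λ Γ M x), ∃ γ : Kˣ →₀ ℝ,
      IsLocalEq (coordRing k κ Λ Γ M x) D δ p.asIdeal γ) :
    LowerSemicontinuous (mld (coordRing k κ Λ Γ M x) D δ) := by
  let Y : TA k K n κ m := ⟨Λ, Γ, hΓ, fun c hc => (hΛ c hc).1, fun c hc => (hΛ c hc).2, M, x, hind,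
    by rw [Set.Sum.elim_range]; exact hgen⟩
  obtain ⟨X, hX⟩ := exists_hd Y
  obtain ⟨G⟩ := exists_hg Y X hX
  have hc : ∀ u, X.comp u = compA k κ Λ M x u := hd_comp Y X hX
  have hXA : X.A = coordRing k κ Λ Γ M x := by
    unfold HD.A coordRing
    rw [hX.Γ]
    simp only [hc]
    rfl
  refine final_abs' X G e D ?_ _ hXA inferInstance inferInstance δ hδ0 ?_ hRC
  · intro i j
    rw [hX.M, hX.x]
    exact hD i j
  · intro q hq
    have h1 := (hδ q hq).2
    unfold IsStable at h1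
    rw [hX.Γ]
    simp only [hc]
    exact h1

end

end Pool.Agent.MLD.H
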