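import Pool.Agent.Lib.MP_f23696_ag.H.Ctx
import Pool.Agent.Lib.MP_f23696_ag.T.Ind
import Pool.Agent.Lib.MP_f23696_ag.T.Der

/-!
Module GEO of project HORO (MP_f23696_ag): effective real combinations (Hartogs), local equations
are local equations in a neighbourhood.
-/

set_option autoImplicit false

namespace Pool.Agent.MLD.H

open scoped Classical
open Pool.Agent.MLD.Ten (IsGood)
noncomputable section

universe u v

namespace Geo

/-- real nonnegativity from integral nonnegativity -/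
theorem farkas_real {ι κ : Type*} (T : Finset ι) (Q : Finset κ) (u : κ → ι → ℤ) (r : ι → ℝ)
    (z : ι → ℤ) (hQ : ∀ q ∈ Q, 0 ≤ ∑ g ∈ T, r g * (u q g : ℝ))
    (h : ∀ n : ι → ℤ, (∀ q ∈ Q, 0 ≤ ∑ g ∈ T, n g * u q g) → 0 ≤ ∑ g ∈ T, n g * z g) :
    0 ≤ ∑ g ∈ T, r g * (z g : ℝ) := by
  by_contra hneg
  push Not at hneg
  let b := Module.Basis.ofVectorSpace ℚ ℝ
  let L : Finset _ := T.biUnion fun g => (b.repr (r g)).support
  have hr : ∀ g ∈ T, r g = ∑ l ∈ L, (b.repr (r g) l : ℝ) * b l := by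
    intro g hg
    conv_lhs => rw [← b.linearCombination_repr (r g)]
    rw [Finsupp.linearCombination_apply, Finsupp.sum_of_support_subset (s := L)]
    · refine Finset.sum_congr rfl fun l _ => ?_
      rw [Rat.smul_def]
    · exact Finset.subset_biUnion_of_mem (fun g => (b.repr (r g)).support) hg
    · intro l _
      rw [zero_smul]
  let F : (ι → ℤ) → (_ → ℝ) → ℝ := fun w ρ =>
    ∑ g ∈ T, (∑ l ∈ L, (b.repr (r g) l : ℝ) * ρ l) * (w g : ℝ)
  have hFb : ∀ w, F w b = ∑ g ∈ T, r g * (w g : ℝ) := by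
    intro w
    refine Finset.sum_congr rfl fun g hg => ?_
    rw [← hr g hg]
  have hFc : ∀ w, Continuous (F w) := by
    intro w
    refine continuous_finsetSum _ fun g _ => Continuous.mul ?_ continuous_const
    exact continuous_finsetSum _ fun l _ => continuous_const.mul (continuous_apply l)
  have hF0 : ∀ w, F w b = 0 → ∀ ρ, F w ρ = 0 := by
    intro w hw ρ
    have hcoord : ∀ l, ∑ g ∈ T, (b.repr (r g) l) * (w g : ℚ) = 0 := by
      intro l
      have h1 : b.coord l (∑ g ∈ T, r g * (w g : ℝ)) = 0 := by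
        rw [← hFb, hw, map_zero]
      rw [map_sum] at h1
      rw [← h1]
      refine Finset.sum_congr rfl fun g _ => ?_
      have : r g * (w g : ℝ) = (w g : ℚ) • r g := by
        rw [Rat.smul_def]
        push_cast
        ring
      rw [this, map_smul, smul_eq_mul, mul_comm]
      rfl
    have h2 : F w ρ = ∑ l ∈ L, ρ l * ((∑ g ∈ T, (b.repr (r g) l) * (w g : ℚ) : ℚ) : ℝ) := by
      simp only [F, Finset.sum_mul]
      rw [Finset.sum_comm]
      refine Finset.sum_congr rfl fun l _ => ?_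
      push_cast
      rw [Finset.mul_sum]
      refine Finset.sum_congr rfl fun g _ => ?_
      ring
    rw [h2]
    refine Finset.sum_eq_zero fun l _ => ?_
    rw [hcoord l]
    simp
  let U : Set (Module.Basis.ofVectorSpaceIndex ℚ ℝ → ℝ) :=
    {ρ | F z ρ < 0} ∩ ⋂ q ∈ Q.filter (fun q => 0 < F (u q) b), {ρ | 0 < F (u q) ρ}
  have hU : IsOpen U := by
    refine (isOpen_lt (hFc z) continuous_const).inter ?_
    refine isOpen_biInter_finset fun q _ => ?_
    exact isOpen_lt continuous_const (hFc _)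
  have hbU : (b : _ → ℝ) ∈ U := by
    refine ⟨?_, ?_⟩
    · change F z b < 0
      rw [hFb]
      exact hneg
    · simp only [Set.mem_iInter]
      intro q hq
      exact (Finset.mem_filter.1 hq).2
  have hdense : Dense (Set.pi Set.univ fun _ => Set.range (fun q : ℚ => (q : ℝ)) :
      Set (Module.Basis.ofVectorSpaceIndex ℚ ℝ → ℝ)) :=
    dense_pi Set.univ fun _ _ => Rat.denseRange_cast
  obtain ⟨ρ, hρU, hρ⟩ := hdense.inter_open_nonempty U hU ⟨_, hbU⟩
  have hρ' : ∀ l, ∃ q : ℚ, (q : ℝ) = ρ l := fun l => hρ l (Set.mem_univ l)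
  choose s hs using hρ'
  let r' : ι → ℚ := fun g => ∑ l ∈ L, b.repr (r g) l * s l
  have hr' : ∀ w, F w ρ = ∑ g ∈ T, (r' g : ℝ) * (w g : ℝ) := by
    intro w
    refine Finset.sum_congr rfl fun g _ => ?_
    simp only [r']
    push_cast
    simp only [hs]
  obtain ⟨N, hN⟩ := IsLocalization.exist_integer_multiples_of_finset (nonZeroDivisors ℤ)
    (T.image r')
  have hN0 : (N : ℤ) ≠ 0 := nonZeroDivisors.ne_zero N.2
  have hex : ∀ g : ι, ∃ m : ℤ, g ∈ T → (m : ℚ) = ((N : ℤ) : ℚ) * r' g := by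
    intro g
    by_cases hg : g ∈ T
    · obtain ⟨m, hm⟩ := hN _ (Finset.mem_image_of_mem _ hg)
      refine ⟨m, fun _ => ?_⟩
      have : (algebraMap ℤ ℚ) m = (m : ℚ) := rfl
      rw [← this, hm]
      rw [zsmul_eq_mul]
    · exact ⟨0, fun h => absurd h hg⟩
  choose m hm using hex
  have key : ∀ w : ι → ℤ, ((∑ g ∈ T, ((N : ℤ) * m g) * w g : ℤ) : ℝ) =
      ((N : ℤ) : ℝ) ^ 2 * F w ρ := by
    intro w
    rw [hr']
    push_cast
    rw [Finset.mul_sum]
    refine Finset.sum_congr rfl fun g hg => ?_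
    have h1 : ((m g : ℤ) : ℝ) = ((N : ℤ) : ℝ) * (r' g : ℝ) := by
      exact_mod_cast hm g hg
    rw [h1]
    ring
  have hNpos : (0 : ℝ) < ((N : ℤ) : ℝ) ^ 2 := by
    have : ((N : ℤ) : ℝ) ≠ 0 := by exact_mod_cast hN0
    positivity
  have h1 := h (fun g => (N : ℤ) * m g) (by
    intro q hq
    have h2 : 0 ≤ F (u q) ρ := by
      rcases (hQ q hq).eq_or_lt with h3 | h3
      · rw [hF0 (u q) (by rw [hFb]; exact h3.symm) ρ]
      · have h4 := hρU.2
        simp only [Set.mem_iInter] at h4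
        exact (h4 q (Finset.mem_filter.2 ⟨hq, by rw [hFb]; exact h3⟩)).le
    have h3 : (0 : ℝ) ≤ ((∑ g ∈ T, ((N : ℤ) * m g) * u q g : ℤ) : ℝ) := by
      rw [key]
      positivity
    exact_mod_cast h3)
  have h2 : (0 : ℝ) ≤ ((∑ g ∈ T, ((N : ℤ) * m g) * z g : ℤ) : ℝ) := by
    exact_mod_cast h1
  rw [key] at h2
  have h3 : F z ρ < 0 := hρU.1
  nlinarith

section GEO
variable {k : Type u} [Field k] {K : Type v} [Field K] [Algebra k K]

theorem fin_units (A : Subalgebra k K) (hA : IsGood A) (T : Finset Kˣ) :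
    ∃ s : A, (s : K) ≠ 0 ∧ ∀ (p : Ideal A) (v : DVal k K), v.HasCenter A p → s ∉ p →
      ∀ g ∈ T, v.ord (g : K) = 0 := by
  choose a b hb hab using hA.frac
  have ha : ∀ g : Kˣ, (a (g : K) : K) ≠ 0 := by
    intro g h0
    have := hab (g : K)
    rw [h0, zero_div] at this
    exact g.ne_zero this
  refine ⟨∏ g ∈ T, (a (g : K) * b (g : K)), ?_, ?_⟩
  · have : ((∏ g ∈ T, (a (g : K) * b (g : K)) : A) : K) =
        ∏ g ∈ T, ((a (g : K) : K) * (b (g : K) : K)) := by
      rw [← Subalgebra.coe_val, map_prod]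
      rfl
    rw [this]
    exact Finset.prod_ne_zero_iff.2 fun g _ => mul_ne_zero (ha g) (hb _)
  · intro p v hv hs g hg
    rw [← Finset.mul_prod_erase T _ hg] at hs
    have h1 : a (g : K) ∉ p := fun h =>
      hs (p.mul_mem_right _ (p.mul_mem_right _ h))
    have h2 : b (g : K) ∉ p := fun h =>
      hs (p.mul_mem_right _ (p.mul_mem_left _ h))
    obtain ⟨h3, h4⟩ := Ten.Ind.out v hv h1
    obtain ⟨h5, h6⟩ := Ten.Ind.out v hv h2
    rw [hab (g : K), Ten.ord_div v _ _ h3 h5, h4, h6, sub_zero]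

theorem hartogs_ord (A : Subalgebra k K) (hA : IsGood A) (p : Ideal A) (hp : p.IsPrime) (f : K)
    (hf : f ≠ 0)
    (h : ∀ q : Ideal A, IsHeightOne q → q ≤ p → ∀ w : DVal k K, w.HasCenter A q → 0 ≤ w.ord f)
    (v : DVal k K) (hv : v.HasCenter A p) : 0 ≤ v.ord f := by
  obtain ⟨s, hs, hsf⟩ := hartogs A (Ten.Ind.noeth A hA.fg) hA.frac hA.norm p hp f hf (by
    intro q hq hqp
    obtain ⟨w, hw, hw'⟩ := dvr A (Ten.Ind.noeth A hA.fg) hA.frac hA.norm q hq
    exact (hw' f hf).1 (h q hq hqp w hw))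
  obtain ⟨hs0, hs1⟩ := Ten.Ind.out v hv hs
  have h1 := hv.1 ⟨_, hsf⟩ (mul_ne_zero hs0 hf)
  change 0 ≤ v.ord ((s : K) * f) at h1
  rw [v.ord_mul _ _ hs0 hf, hs1, zero_add] at h1
  exact h1

theorem exists_jac (A : Subalgebra k K) (hA : IsGood A) {n : ℕ} (D : Fin n → Derivation k K K)
    (y : Fin n → K) (hD : ∀ i j, D i (y j) = if i = j then 1 else 0) :
    ∃ c : Fin n → K, (∀ i, c i ∈ A) ∧ jac D c ≠ 0 := by
  let s : Set (Fin n → K) := {x | ∃ a ∈ A, x = fun i => D i a}
  have hmem : ∀ f : K, (fun i => D i f) ∈ Submodule.span K s := by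
    intro f
    obtain ⟨a, b, hb, hf⟩ := hA.frac f
    have h1 : (fun i => D i f) = (b : K)⁻¹ • (fun i => D i (a : K)) -
        ((a : K) * (b : K)⁻¹ ^ 2) • fun i => D i (b : K) := by
      ext i
      simp only [Pi.sub_apply, Pi.smul_apply, smul_eq_mul]
      rw [hf, div_eq_mul_inv, Derivation.leibniz, Derivation.leibniz_inv]
      simp only [smul_eq_mul]
      ring
    rw [h1]
    exact Submodule.sub_mem _ (Submodule.smul_mem _ _ (Submodule.subset_span ⟨a, a.2, rfl⟩))
      (Submodule.smul_mem _ _ (Submodule.subset_span ⟨b, b.2, rfl⟩))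
  have htop : Submodule.span K s = ⊤ := by
    rw [eq_top_iff]
    intro x _
    have : x = ∑ j, x j • (fun i => D i (y j)) := by
      ext i
      simp [hD, Finset.sum_apply]
    rw [this]
    exact Submodule.sum_mem _ fun j _ => Submodule.smul_mem _ _ (hmem _)
  have hfr : Module.finrank K (Submodule.span K s) = n := by
    rw [htop, finrank_top, Module.finrank_fin_fun]
  obtain ⟨f, hf, -, hli⟩ := Submodule.exists_fun_fin_finrank_span_eq K s
  let e : Fin n ≃ Fin (Module.finrank K (Submodule.span K s)) := finCongr hfr.symm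
  choose c hc hc' using fun j => hf (e j)
  refine ⟨c, hc, ?_⟩
  have hli' : LinearIndependent K (fun j => f (e j)) := hli.comp _ e.injective
  have h1 : IsUnit (Matrix.of fun j i => D i (c j)) := by
    rw [← Matrix.linearIndependent_rows_iff_isUnit]
    have h0 : (Matrix.of fun j i => D i (c j)).row = fun j => f (e j) := by
      funext j
      rw [hc' j]
      rfl
    rw [h0]
    exact hli'
  have h2 := (Matrix.isUnit_iff_isUnit_det _).1 h1
  have h3 : jac D c = (Matrix.of fun j i => D i (c j)).det := by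
    unfold jac
    rw [← Matrix.det_transpose]
    rfl
  rw [h3]
  exact h2.ne_zero

end GEO

end Geo

section GEO
variable {k : Type u} [Field k] {K : Type v} [Field K] [Algebra k K]

theorem real_hartogs (A : Subalgebra k K) (hA : IsGood A) (p : Ideal A) (hp : p.IsPrime)
    (γ : Kˣ →₀ ℝ) (h : ∀ q : Ideal A, IsHeightOne q → q ≤ p → ∀ v : DVal k K, v.HasCenter A q →
      0 ≤ v.val γ) (v : DVal k K) (hv : v.HasCenter A p) : 0 ≤ v.val γ := by
  obtain ⟨s, hs0, hs⟩ := Geo.fin_units A hA γ.support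
  have hs0' : s ≠ 0 := by
    rintro rfl
    exact hs0 rfl
  have hfin := finite_heightOne A (Ten.Ind.noeth A hA.fg) s hs0'
  let Q : Finset (Ideal A) := hfin.toFinset.filter (fun q => q ≤ p)
  have hQ : ∀ q, q ∈ Q ↔ (IsHeightOne q ∧ s ∈ q) ∧ q ≤ p := by
    intro q
    rw [Finset.mem_filter, Set.Finite.mem_toFinset]
    rfl
  have hex : ∀ q : Ideal A, ∃ w : DVal k K, IsHeightOne q → w.HasCenter A q := by
    intro q
    by_cases hq : IsHeightOne q
    · obtain ⟨w, hw, -⟩ := dvr A (Ten.Ind.noeth A hA.fg) hA.frac hA.norm q hq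
      exact ⟨w, fun _ => hw⟩
    · exact ⟨v, fun h => absurd h hq⟩
  choose w hw using hex
  have hval : ∀ v : DVal k K, v.val γ = ∑ g ∈ γ.support, γ g * (v.ord (g : K) : ℝ) := by
    intro v
    rfl
  rw [hval]
  refine Geo.farkas_real γ.support Q (fun q g => (w q).ord (g : K)) γ (fun g => v.ord (g : K))
    ?_ ?_
  · intro q hq
    obtain ⟨⟨h1, h2⟩, h3⟩ := (hQ q).1 hq
    rw [← hval]
    exact h q h1 h3 _ (hw q h1)
  · intro n hn
    let f : K := ∏ g ∈ γ.support, (g : K) ^ n g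
    have hf : f ≠ 0 := Finset.prod_ne_zero_iff.2 fun g _ => zpow_ne_zero _ g.ne_zero
    have hord : ∀ w : DVal k K, w.ord f = ∑ g ∈ γ.support, n g * w.ord (g : K) := by
      intro w
      rw [Jac.ord_prod w _ _ fun g _ => zpow_ne_zero _ g.ne_zero]
      exact Finset.sum_congr rfl fun g _ => Jac.ord_zpow w _ g.ne_zero _
    rw [← hord]
    refine Geo.hartogs_ord A hA p hp f hf ?_ v hv
    intro q hq hqp w' hw'
    by_cases hsq : s ∈ q
    · have h1 := hn q ((hQ q).2 ⟨⟨hq, hsq⟩, hqp⟩)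
      rw [← hord] at h1
      rwa [dvr_unique A (Ten.Ind.noeth A hA.fg) hA.frac hA.norm q hq w' (w q) hw' (hw q hq) f hf]
    · rw [hord]
      refine (Finset.sum_eq_zero fun g hg => ?_).ge
      rw [hs q w' hw' hsq g hg, mul_zero]

theorem open_eq [CharZero k] (A : Subalgebra k K) (hA : IsGood A) {n : ℕ}
    (D : Fin n → Derivation k K K)
    (y : Fin n → K) (hD : ∀ i j, D i (y j) = if i = j then 1 else 0)
    (hy : IsTranscendenceBasis k y) (δ : Ideal A →₀ ℝ) (p : Ideal A) (hp : p.IsPrime)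
    (γ : Kˣ →₀ ℝ) (h : IsLocalEq A D δ p γ) :
    ∃ s : A, s ∉ p ∧ ∀ p' : Ideal A, p'.IsPrime → s ∉ p' → IsLocalEq A D δ p' γ := by
  obtain ⟨c, hcA, hc⟩ := Geo.exists_jac A hA D y hD
  obtain ⟨E, hE1, hE2, hE3⟩ := Ten.dual D c hc
  obtain ⟨d, hd0, hd⟩ := Ten.Ind.der_den A hA E
  obtain ⟨s1, hs10, hs1⟩ := Geo.fin_units A hA (γ.support ∪ {Units.mk0 _ hc})
  have hkey : ∀ q : Ideal A, IsHeightOne q → s1 * d ∉ q → δ q = 0 → ∀ v : DVal k K,
      v.HasCenter A q → ∀ j : ℤ, v.FormOrd D j → (j : ℝ) + δ q = v.val γ := by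
    intro q hq hsq hδ v hv j hj
    have h1 : s1 ∉ q := fun h => hsq (q.mul_mem_right _ h)
    have h2 : d ∉ q := fun h => hsq (q.mul_mem_left _ h)
    have hunit := hs1 q v hv h1
    have hJ : v.ord (jac D c) = 0 := hunit (Units.mk0 _ hc) (Finset.mem_union_right _ (by simp))
    have hγ : v.val γ = 0 := by
      unfold DVal.val
      refine Finset.sum_eq_zero fun g hg => ?_
      change γ g * ((v.ord (g : K) : ℤ) : ℝ) = 0
      rw [hunit g (Finset.mem_union_left _ hg)]
      simp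
    obtain ⟨hd1, hd2⟩ := Ten.Ind.out v hv h2
    have hEA : ∀ i, ∀ a ∈ A, v.Integral (E i a) := by
      intro i a ha
      refine Ten.Ind.LB_of_mul v hd1 (N := 0) ?_
      rw [hd2, add_zero]
      exact hv.1 ⟨_, hd i a ha⟩
    have hEi : ∀ i f, v.Integral f → v.Integral (E i f) := by
      intro i f hf
      by_cases hf0 : f = 0
      · rw [hf0, map_zero]
        exact fun h => absurd rfl h
      obtain ⟨w, hw, hw'⟩ := dvr A (Ten.Ind.noeth A hA.fg) hA.frac hA.norm q hq
      have h1 : 0 ≤ w.ord f := by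
        rw [← dvr_unique A (Ten.Ind.noeth A hA.fg) hA.frac hA.norm q hq v w hv hw f hf0]
        exact hf hf0
      obtain ⟨s, hs, hsf⟩ := (hw' f hf0).1 h1
      obtain ⟨hs0, hs1⟩ := Ten.Ind.out v hv hs
      refine Ten.Ind.LB_of_mul v hs0 (N := 0) ?_
      rw [hs1, zero_add]
      have h2 : (s : K) * E i f = E i ((s : K) * f) - f * E i (s : K) := by
        rw [Derivation.leibniz]
        simp only [smul_eq_mul]
        ring
      rw [h2]
      refine Ten.LB_sub v (hEA i _ hsf) ?_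
      have h3 := Jac.LB.mul (v := v) (M := 0) (N := 0) hf (hEA i s s.2)
      rwa [zero_add] at h3
    obtain ⟨hj1, a, ha, ha0, hj2⟩ := hj
    have e1 := hj1 c (fun i => hv.1 ⟨c i, hcA i⟩) hc
    rw [hJ] at e1
    have e2 : jac E a ≠ 0 := by
      intro h0
      apply ha0
      rw [hE3, h0, mul_zero]
    have e3 : v.Integral (jac E a) := Ten.det_integral v _ fun i l => hEi i _ (ha l)
    have e4 := e3 e2
    rw [hE3, v.ord_mul _ _ hc e2, hJ] at hj2
    have e5 : j = 0 := by omega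
    rw [e5, hδ, hγ]
    simp
  have hs0 : s1 * d ≠ 0 := by
    intro h0
    have : ((s1 * d : A) : K) = 0 := by rw [h0]; rfl
    push_cast at this
    exact mul_ne_zero hs10 hd0 this
  have hfin : {q : Ideal A | IsHeightOne q ∧ ¬ q ≤ p ∧ (s1 * d ∈ q ∨ δ q ≠ 0)}.Finite := by
    refine ((finite_heightOne A (Ten.Ind.noeth A hA.fg) (s1 * d) hs0).union
      δ.support.finite_toSet).subset ?_
    rintro q ⟨h1, -, h2 | h2⟩
    · exact Or.inl ⟨h1, h2⟩
    · exact Or.inr (by simpa using h2)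
  have hex : ∀ q : Ideal A, ∃ a : A, ¬ q ≤ p → a ∈ q ∧ a ∉ p := by
    intro q
    by_cases hq : q ≤ p
    · exact ⟨0, fun h => absurd hq h⟩
    · obtain ⟨a, h1, h2⟩ := SetLike.not_le_iff_exists.1 hq
      exact ⟨a, fun _ => ⟨h1, h2⟩⟩
  choose a ha using hex
  refine ⟨∏ q ∈ hfin.toFinset, a q, ?_, ?_⟩
  · intro hmem
    obtain ⟨q, hq, h1⟩ := (Ideal.IsPrime.prod_mem_iff (hp := hp)).1 hmem
    rw [Set.Finite.mem_toFinset] at hq
    exact (ha q hq.2.1).2 h1
  · intro p' hp' hs q hqp hq v hv j hj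
    by_cases hqp2 : q ≤ p
    · exact h q hqp2 hq v hv j hj
    by_cases hb : s1 * d ∈ q ∨ δ q ≠ 0
    · exfalso
      apply hs
      have h1 : q ∈ hfin.toFinset := by
        rw [Set.Finite.mem_toFinset]
        exact ⟨hq, hqp2, hb⟩
      rw [← Finset.mul_prod_erase _ _ h1]
      exact p'.mul_mem_right _ (hqp (ha q hqp2).1)
    · push Not at hb
      exact hkey q hq hb.1 hb.2 v hv j hj

end GEO

end

end Pool.Agent.MLD.H
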