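import Pool.Agent.Lib.MP_f23696_ag.H.Grd
import Pool.Agent.Lib.MP_f23696_ag.T.Ind
import Pool.Agent.Lib.MP_f23696_ag.T.Der
import Pool.Agent.Lib.MP_f23696_ag.Hdv
import Pool.Agent.Lib.MP_f23696_ag.Heq

/-!
HORO module HEQ: non-homogeneous prime divisors, homogeneous local equations.
-/

set_option autoImplicit false

namespace Pool.Agent.MLD.H

open scoped Classical
open Pool.Agent.MLD.Ten (IsGood)
open Pool.Agent.MLD.Jac (LB LB.zero LB.mono LB.add LB.mul LB.sum)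
noncomputable section

universe u v

variable {k : Type u} [Field k] {K : Type v} [Field K] [Algebra k K]
  {σ κ : Type} [Fintype σ] [Fintype κ] {m : ℕ} (X : HD k K σ κ m)

namespace HD

namespace Hq

/-- the ring of Laurent polynomials over `k(M)` -/
abbrev GA := AddMonoidAlgebra X.K₀ (Fin m → ℤ)

def monH : Multiplicative (Fin m → ℤ) →* K where
  toFun u := X.mon u.toAdd
  map_one' := X.mon_zero
  map_mul' _ _ := X.mon_add _ _

def phi : GA X →ₐ[X.K₀] K := AddMonoidAlgebra.lift X.K₀ K (Fin m → ℤ) (monH X)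

/-- the component of degree `u` -/
def trm (c : GA X) (u : Fin m → ℤ) : K := (c.coeff u : K) * X.mon u

theorem phi_eq (c : GA X) : phi X c = ∑ u ∈ c.coeff.support, trm X c u := by
  rw [phi, AddMonoidAlgebra.lift_apply']
  rfl

theorem trm_eq_zero {c : GA X} {u : Fin m → ℤ} : trm X c u = 0 ↔ c.coeff u = 0 := by
  rw [trm, mul_eq_zero, or_iff_left (X.mon_ne u)]
  exact ZeroMemClass.coe_eq_zero

theorem trm_ne {c : GA X} {u : Fin m → ℤ} : trm X c u ≠ 0 ↔ u ∈ c.coeff.support := by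
  rw [Finsupp.mem_support_iff, Ne, trm_eq_zero]

theorem phi_inj : Function.Injective (phi X) := by
  rw [injective_iff_map_eq_zero]
  intro c hc
  rw [phi_eq] at hc
  have h := X.li c.coeff.support (fun u => (c.coeff u : K)) (fun u _ => (c.coeff u).2) hc
  apply AddMonoidAlgebra.coeff_injective
  ext u
  by_cases hu : u ∈ c.coeff.support
  · simpa using h u hu
  · rw [Finsupp.notMem_support_iff.1 hu]
    rfl

theorem trm_add (a b : GA X) (u : Fin m → ℤ) : trm X (a + b) u = trm X a u + trm X b u := by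
  rw [trm, trm, trm, AddMonoidAlgebra.coeff_add, Finsupp.add_apply]
  push_cast
  ring

theorem trm_mul (a b : GA X) (u : Fin m → ℤ) :
    trm X (a * b) u = ∑ x ∈ a.coeff.support, ∑ y ∈ b.coeff.support,
      if x + y = u then trm X a x * trm X b y else 0 := by
  rw [trm, AddMonoidAlgebra.coeff_mul, Finsupp.sum]
  simp only [Finsupp.sum]
  push_cast
  rw [Finset.sum_mul]
  refine Finset.sum_congr rfl fun x _ => ?_
  rw [Finset.sum_mul]
  refine Finset.sum_congr rfl fun y _ => ?_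
  split_ifs with h
  · rw [trm, trm, ← h, X.mon_add]
    push_cast
    ring
  · simp

/-- all components have order at least `N` -/
def LBc (v : DVal k K) (N : ℤ) (c : GA X) : Prop := ∀ u, LB v N (trm X c u)

variable {X}

theorem LBc_add {v : DVal k K} {N : ℤ} {a b : GA X} (ha : LBc X v N a) (hb : LBc X v N b) :
    LBc X v N (a + b) := by
  intro u
  rw [trm_add]
  exact (ha u).add (hb u)

theorem LBc_mul {v : DVal k K} {M N : ℤ} {a b : GA X} (ha : LBc X v M a) (hb : LBc X v N b) :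
    LBc X v (M + N) (a * b) := by
  intro u
  rw [trm_mul]
  refine LB.sum _ _ fun x _ => LB.sum _ _ fun y _ => ?_
  split_ifs
  · exact (ha x).mul (hb y)
  · exact LB.zero v _

theorem LBc_phi {v : DVal k K} {N : ℤ} {a : GA X} (ha : LBc X v N a) : LB v N (phi X a) := by
  rw [phi_eq]
  exact LB.sum _ _ fun x _ => ha x

/-- the least order of a component is `N` -/
def EQc (v : DVal k K) (N : ℤ) (c : GA X) : Prop :=
  LBc X v N c ∧ ∃ u, trm X c u ≠ 0 ∧ v.ord (trm X c u) = N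

theorem exists_EQc (v : DVal k K) {c : GA X} (hc : c ≠ 0) : ∃ N, EQc v N c := by
  have hne : c.coeff.support.Nonempty := by
    rw [Finsupp.support_nonempty_iff]
    intro h
    exact hc (AddMonoidAlgebra.coeff_eq_zero.1 h)
  obtain ⟨u, hu, hmin⟩ := Finset.exists_min_image c.coeff.support
    (fun u => v.ord (trm X c u)) hne
  refine ⟨v.ord (trm X c u), fun w hw => hmin w ((trm_ne X).1 hw), u, (trm_ne X).2 hu, rfl⟩

/-- Gauss lemma -/
theorem gauss {v : DVal k K} {a b : GA X} {α β : ℤ} (ha : EQc v α a) (hb : EQc v β b) :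
    EQc v (α + β) (a * b) := by
  obtain ⟨ha, a₁, ha₁, ha₂⟩ := ha
  obtain ⟨hb, b₁, hb₁, hb₂⟩ := hb
  refine ⟨LBc_mul ha hb, ?_⟩
  set S := a.coeff.support.filter (fun u => v.ord (trm X a u) = α) with hS
  set T := b.coeff.support.filter (fun u => v.ord (trm X b u) = β) with hT
  have hSn : S.Nonempty := ⟨a₁, Finset.mem_filter.2 ⟨(trm_ne X).1 ha₁, ha₂⟩⟩
  have hTn : T.Nonempty := ⟨b₁, Finset.mem_filter.2 ⟨(trm_ne X).1 hb₁, hb₂⟩⟩
  obtain ⟨x₀, hx₀, y₀, hy₀, hun⟩ := UniqueSums.uniqueAdd_of_nonempty hSn hTn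
  have hx := Finset.mem_filter.1 hx₀
  have hy := Finset.mem_filter.1 hy₀
  have hx' := (trm_ne X).2 hx.1
  have hy' := (trm_ne X).2 hy.1
  have key : trm X (a * b) (x₀ + y₀) = trm X a x₀ * trm X b y₀ +
      ∑ p ∈ (a.coeff.support ×ˢ b.coeff.support).erase (x₀, y₀),
        if p.1 + p.2 = x₀ + y₀ then trm X a p.1 * trm X b p.2 else 0 := by
    rw [trm_mul, ← Finset.sum_product', ← Finset.add_sum_erase _ _
      (Finset.mem_product.2 ⟨hx.1, hy.1⟩ : (x₀, y₀) ∈ _)]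
    simp
  have hord : v.ord (trm X a x₀ * trm X b y₀) = α + β := by
    rw [v.ord_mul _ _ hx' hy', hx.2, hy.2]
  have hrest : LB v (v.ord (trm X a x₀ * trm X b y₀) + 1)
      (∑ p ∈ (a.coeff.support ×ˢ b.coeff.support).erase (x₀, y₀),
        if p.1 + p.2 = x₀ + y₀ then trm X a p.1 * trm X b p.2 else 0) := by
    refine LB.sum _ _ fun p hp => ?_
    split_ifs with h
    · intro h0
      have h1 := left_ne_zero_of_mul h0
      have h2 := right_ne_zero_of_mul h0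
      rw [v.ord_mul _ _ h1 h2, hord]
      have h3 := ha p.1 h1
      have h4 := hb p.2 h2
      by_contra hlt
      push Not at hlt
      have h5 : p.1 ∈ S := Finset.mem_filter.2 ⟨(trm_ne X).1 h1, by omega⟩
      have h6 : p.2 ∈ T := Finset.mem_filter.2 ⟨(trm_ne X).1 h2, by omega⟩
      obtain ⟨h7, h8⟩ := hun h5 h6 h
      exact (Finset.mem_erase.1 hp).1 (Prod.ext h7 h8)
    · exact LB.zero v _
  obtain ⟨h1, h2⟩ := Ten.ord_add_eq v (mul_ne_zero hx' hy') hrest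
  refine ⟨x₀ + y₀, ?_, ?_⟩
  · rw [key]
    exact h1
  · rw [key, h2, hord]

theorem trm_single (u : Fin m → ℤ) (g : X.K₀) :
    trm X (AddMonoidAlgebra.single u g) u = (g : K) * X.mon u := by
  rw [trm, AddMonoidAlgebra.coeff_single, Finsupp.single_eq_same]

theorem trm_single_ne {u w : Fin m → ℤ} (g : X.K₀)
    (h : trm X (AddMonoidAlgebra.single u g) w ≠ 0) : w = u := by
  by_contra hne
  apply h
  rw [trm, AddMonoidAlgebra.coeff_single, Finsupp.single_eq_of_ne hne]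
  simp

theorem LBc_single {v : DVal k K} {N : ℤ} {u : Fin m → ℤ} {g : X.K₀}
    (h : LB v N ((g : K) * X.mon u)) : LBc X v N (AddMonoidAlgebra.single u g) := by
  intro w hw
  have := trm_single_ne g hw
  subst this
  rw [trm_single] at hw ⊢
  exact h hw

theorem phi_single (u : Fin m → ℤ) (g : X.K₀) :
    phi X (AddMonoidAlgebra.single u g) = (g : K) * X.mon u := by
  rw [phi, AddMonoidAlgebra.lift_single]
  rfl

theorem kM_le {a : K} (h : a ∈ X.kM) : a ∈ X.K₀ :=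
  IntermediateField.algebra_adjoin_le_adjoin _ _ h

theorem exists_single {u : Fin m → ℤ} {a : K} (ha : a ∈ X.comp u) :
    ∃ g : X.K₀, a = (g : K) * X.mon u := by
  obtain ⟨p, hp, h⟩ := X.comp_form ha
  exact ⟨⟨p, kM_le hp⟩, h⟩

theorem exists_lift {a : K} (ha : a ∈ X.A) : ∃ c : GA X, phi X c = a := by
  obtain ⟨s, f, hf, hs⟩ := X.gr1 ⟨a, ha⟩
  have hs' : a = ∑ u ∈ s, f u := hs
  have h : a ∈ (phi X).range := by
    rw [hs']
    refine Subalgebra.sum_mem _ fun u hu => ?_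
    obtain ⟨g, hg⟩ := exists_single (hf u hu).2
    exact ⟨AddMonoidAlgebra.single u g, by rw [hg]; exact phi_single u g⟩
  exact h

theorem comp_of_phi {c : GA X} (h : phi X c ∈ X.A) {u : Fin m → ℤ} (hu : trm X c u ≠ 0) :
    u ∈ X.Γ ∧ trm X c u ∈ X.comp u := by
  rw [phi_eq] at h
  exact X.gr2 c.coeff.support (fun u => (c.coeff u : K)) (fun u _ => (c.coeff u).2) h u
    ((trm_ne X).1 hu) (left_ne_zero_of_mul hu)

theorem LBc_A {v : DVal k K} {q : Ideal X.A} (hv : v.HasCenter X.A q) {c : GA X}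
    (h : phi X c ∈ X.A) : LBc X v 0 c := by
  intro u hu
  obtain ⟨h1, h2⟩ := comp_of_phi h hu
  exact hv.1 ⟨_, X.mem_A h1 h2⟩ hu

/-- the elements of `A` with all components in `q` -/
def P (v : DVal k K) (q : Ideal X.A) (hv : v.HasCenter X.A q) : Ideal X.A where
  carrier := {a | ∃ c : GA X, phi X c = (a : K) ∧ LBc X v 1 c}
  add_mem' := by
    rintro a b ⟨c, hc, h⟩ ⟨d, hd, h'⟩
    refine ⟨c + d, ?_, LBc_add h h'⟩
    rw [map_add, hc, hd]
    rfl
  zero_mem' := by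
    refine ⟨0, map_zero _, fun u hu => ?_⟩
    exact absurd ((trm_eq_zero X).2 (by simp)) hu
  smul_mem' := by
    rintro r a ⟨c, hc, h⟩
    obtain ⟨d, hd⟩ := exists_lift r.2
    refine ⟨d * c, ?_, ?_⟩
    · rw [map_mul, hc, hd]
      rfl
    · have := LBc_mul (LBc_A hv (hd ▸ r.2)) h
      rwa [zero_add] at this

theorem P_isPrime {v : DVal k K} {q : Ideal X.A} (hv : v.HasCenter X.A q) :
    (P v q hv).IsPrime := by
  constructor
  · rw [Ideal.ne_top_iff_one]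
    rintro ⟨c, hc, h⟩
    have h1 := LBc_phi h
    rw [hc] at h1
    exact Ten.small_one v h1
  · rintro a b ⟨e, he, h⟩
    obtain ⟨c, hc⟩ := exists_lift a.2
    obtain ⟨d, hd⟩ := exists_lift b.2
    have he' : e = c * d := by
      apply phi_inj X
      rw [he, map_mul, hc, hd]
      rfl
    have key : ∀ (a : X.A) (c : GA X), phi X c = (a : K) → a ∉ P v q hv → EQc v 0 c := by
      intro a c hc ha
      have hc0 : c ≠ 0 := by
        rintro rfl
        apply ha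
        refine ⟨0, hc, fun u hu => ?_⟩
        exact absurd ((trm_eq_zero X).2 (by simp)) hu
      obtain ⟨N, hN, u, hu, huN⟩ := exists_EQc v hc0
      have h0 := LBc_A hv (hc ▸ a.2) u hu
      have h1 : ¬ 1 ≤ N := fun h1 => ha ⟨c, hc, fun u => (hN u).mono h1⟩
      have h2 : N = 0 := by omega
      subst h2
      exact ⟨hN, u, hu, huN⟩
    by_contra hcon
    push Not at hcon
    obtain ⟨-, u, hu, hu0⟩ := gauss (key a c hc hcon.1) (key b d hd hcon.2)
    rw [← he'] at hu hu0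
    have := h u hu
    omega

theorem mem_of_LB {v : DVal k K} {q : Ideal X.A} (hv : v.HasCenter X.A q) {a : X.A}
    (h : LB v 1 (a : K)) : a ∈ q := (hv.2 a).2 h

theorem P_le {v : DVal k K} {q : Ideal X.A} (hv : v.HasCenter X.A q) : P v q hv ≤ q := by
  rintro a ⟨c, hc, h⟩
  apply mem_of_LB hv
  rw [← hc]
  exact LBc_phi h

/-- an element of `A` with all components in `q` is a combination of homogeneous elements of `q` -/
theorem mem_span {q : Ideal X.A} {a : X.A} {c : GA X} (hc : phi X c = (a : K))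
    (h : ∀ u, ∀ hu : trm X c u ∈ X.A, (⟨_, hu⟩ : X.A) ∈ q) :
    a ∈ Ideal.span {a : X.A | a ∈ q ∧ ∃ u ∈ X.Γ, (a : K) ∈ X.comp u} := by
  have hA : phi X c ∈ X.A := hc ▸ a.2
  have h1 : ∀ u, trm X c u ≠ 0 → trm X c u ∈ X.A := fun u hu =>
    X.mem_A (comp_of_phi hA hu).1 (comp_of_phi hA hu).2
  have h2 : a = ∑ u ∈ c.coeff.support.attach,
      (⟨trm X c u, h1 u ((trm_ne X).2 u.2)⟩ : X.A) := by
    apply Subtype.ext
    rw [← hc, phi_eq]
    push_cast
    exact (Finset.sum_attach _ fun u => trm X c u).symm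
  rw [h2]
  refine Ideal.sum_mem _ fun u _ => Ideal.subset_span ⟨h _ _, ?_⟩
  have hu := (trm_ne X).2 u.2
  exact ⟨u, (comp_of_phi hA hu).1, (comp_of_phi hA hu).2⟩

theorem hom_of_eq {v : DVal k K} {q : Ideal X.A} (hv : v.HasCenter X.A q) (h : P v q hv = q) :
    X.Hom q := by
  refine le_antisymm ?_ (Ideal.span_le.2 fun a ha => ha.1)
  intro a ha
  rw [← h] at ha
  obtain ⟨c, hc, hL⟩ := ha
  exact mem_span hc fun u hu => mem_of_LB hv (hL u)

theorem P_eq_bot {v : DVal k K} {q : Ideal X.A} (hv : v.HasCenter X.A q) (hq : IsHeightOne q)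
    (hn : ¬ X.Hom q) : P v q hv = ⊥ := by
  by_contra hne
  exact hn (hom_of_eq hv (hq.2.2 _ (P_isPrime hv) hne (P_le hv)))

theorem ord_comp {v : DVal k K} {q : Ideal X.A} (hv : v.HasCenter X.A q) (hq : IsHeightOne q)
    (hn : ¬ X.Hom q) {u : Fin m → ℤ} (hu : u ∈ X.Γ) {a : K} (ha : a ∈ X.comp u) (ha0 : a ≠ 0) :
    v.ord a = 0 := by
  have h0 : 0 ≤ v.ord a := hv.1 ⟨a, X.mem_A hu ha⟩ ha0
  by_contra hne
  have h1 : LB v 1 a := fun _ => by omega
  obtain ⟨g, hg⟩ := exists_single ha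
  have h2 : (⟨a, X.mem_A hu ha⟩ : X.A) ∈ P v q hv := by
    refine ⟨AddMonoidAlgebra.single u g, ?_, LBc_single ?_⟩
    · rw [phi_single, ← hg]
    · rwa [← hg]
  rw [P_eq_bot hv hq hn, Ideal.mem_bot] at h2
  exact ha0 (congrArg Subtype.val h2)

/-- homogeneous elements are quotients of homogeneous elements of `A` -/
theorem ratio (hA : IsGood X.A) {g : K} (hg : g ∈ X.K₀) (hg0 : g ≠ 0) (u : Fin m → ℤ) :
    ∃ a b : K, ∃ t w : Fin m → ℤ, t ∈ X.Γ ∧ w ∈ X.Γ ∧ a ∈ X.comp t ∧ b ∈ X.comp w ∧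
      a ≠ 0 ∧ b ≠ 0 ∧ g * X.mon u * b = a := by
  obtain ⟨a, b, hb, hab⟩ := hA.frac (g * X.mon u)
  obtain ⟨c, hc⟩ := exists_lift b.2
  have hc0 : c ≠ 0 := by
    rintro rfl
    rw [map_zero] at hc
    exact hb hc.symm
  have hne : c.coeff.support.Nonempty := by
    rw [Finsupp.support_nonempty_iff]
    intro h
    exact hc0 (AddMonoidAlgebra.coeff_eq_zero.1 h)
  obtain ⟨w, hw⟩ := hne
  have hw' := (trm_ne X).2 hw
  have hbc := comp_of_phi (hc ▸ b.2) hw'
  have h1 : phi X (AddMonoidAlgebra.single u ⟨g, hg⟩ * c) = (a : K) := by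
    rw [map_mul, phi_single, hc]
    show g * X.mon u * b = a
    rw [hab, div_mul_cancel₀ _ hb]
  have h2 : trm X (AddMonoidAlgebra.single u ⟨g, hg⟩ * c) (u + w) = g * X.mon u * trm X c w := by
    rw [trm, AddMonoidAlgebra.coeff_single_mul_apply, neg_add_cancel_left, trm, X.mon_add]
    push_cast
    ring
  have h3 : trm X (AddMonoidAlgebra.single u ⟨g, hg⟩ * c) (u + w) ≠ 0 := by
    rw [h2]
    exact mul_ne_zero (mul_ne_zero hg0 (X.mon_ne u)) hw'
  have h4 := comp_of_phi (h1 ▸ a.2) h3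
  exact ⟨_, _, _, _, h4.1, hbc.1, h4.2, hbc.2, h3, hw', h2.symm⟩

theorem ord_hom (hA : IsGood X.A) {v : DVal k K} {q : Ideal X.A} (hv : v.HasCenter X.A q)
    (hq : IsHeightOne q) (hn : ¬ X.Hom q) {g : K} (hg : g ∈ X.K₀) (hg0 : g ≠ 0)
    (u : Fin m → ℤ) : v.ord (g * X.mon u) = 0 := by
  obtain ⟨a, b, t, w, ht, hw, ha, hb, ha0, hb0, h⟩ := ratio hA hg hg0 u
  have h1 := ord_comp hv hq hn ht ha ha0
  have h2 := ord_comp hv hq hn hw hb hb0
  rw [← h, v.ord_mul _ _ (mul_ne_zero hg0 (X.mon_ne u)) hb0, h2, add_zero] at h1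
  exact h1

theorem mon_single (i : Fin m) : X.mon (Pi.single i 1) = X.x i := by
  rw [mon, Finset.prod_eq_single i]
  · rw [Pi.single_eq_same, zpow_one]
  · intro b _ hb
    rw [Pi.single_eq_of_ne hb, zpow_zero]
  · intro hj
    exact absurd (Finset.mem_univ i) hj

theorem D_y {N : ℕ} (R : X.Dr N) (i : Fin (N + 1)) (s : σ ⊕ Fin m) :
    R.D i (Sum.elim X.M X.x s) = 0 ∨ R.D i (Sum.elim X.M X.x s) = 1 := by
  have h := R.dual i (R.e.symm s)
  rw [Equiv.apply_symm_apply] at h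
  rw [h]
  split_ifs
  · exact Or.inr rfl
  · exact Or.inl rfl

/-- all nonzero homogeneous elements have order zero -/
def Triv (X : HD k K σ κ m) (v : DVal k K) : Prop :=
  ∀ g ∈ X.K₀, g ≠ 0 → ∀ u, v.ord (g * X.mon u) = 0

theorem Triv.K₀ {v : DVal k K} (h : Triv X v) {g : K} (hg : g ∈ X.K₀) (hg0 : g ≠ 0) :
    v.ord g = 0 := by
  have := h g hg hg0 0
  rwa [X.mon_zero, mul_one] at this

theorem Triv.x {v : DVal k K} (h : Triv X v) (i : Fin m) : v.ord (X.x i) = 0 := by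
  have := h 1 X.K₀.one_mem one_ne_zero (Pi.single i 1)
  rwa [mon_single, one_mul] at this

theorem M_mem (s : σ) : X.M s ∈ X.K₀ :=
  IntermediateField.subset_adjoin _ _ ⟨s, rfl⟩

theorem Triv.y {v : DVal k K} (h : Triv X v) (s : σ ⊕ Fin m) :
    v.ord (Sum.elim X.M X.x s) = 0 := by
  rcases s with s | s
  · exact h.K₀ (M_mem s) (X.ind.ne_zero (Sum.inl s))
  · exact h.x s

theorem int01 (v : DVal k K) {a : K} (h : a = 0 ∨ a = 1) : v.Integral a := by
  rcases h with rfl | rfl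
  · exact fun h => absurd rfl h
  · intro _
    rw [Hdv.ord_one]

theorem y_dring {N : ℕ} (R : X.Dr N) (i : Fin (N + 1)) {v : DVal k K} (h : Triv X v)
    (s : σ ⊕ Fin m) : Sum.elim X.M X.x s ∈ Hdv.dring v (R.D i) :=
  ⟨fun _ => (h.y s).ge, int01 v (D_y R i s)⟩

theorem K₀_dring {N : ℕ} (R : X.Dr N) (i : Fin (N + 1)) {v : DVal k K} (h : Triv X v) {g : K}
    (hg : g ∈ X.K₀) : g ∈ Hdv.dring v (R.D i) := by
  induction hg using IntermediateField.adjoin_induction with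
  | mem x hx =>
    obtain ⟨s, rfl⟩ := hx
    exact y_dring R i h (Sum.inl s)
  | algebraMap c => exact (Hdv.dring v (R.D i)).algebraMap_mem c
  | add x y _ _ hx hy => exact (Hdv.dring v (R.D i)).add_mem hx hy
  | mul x y _ _ hx hy => exact (Hdv.dring v (R.D i)).mul_mem hx hy
  | inv x hx' hx =>
    refine Hdv.inv_mem_dring v hx fun hx0 => ?_
    exact (h.K₀ (inv_mem hx') hx0).ge

theorem mon_dring {N : ℕ} (R : X.Dr N) (i : Fin (N + 1)) {v : DVal k K} (h : Triv X v)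
    (u : Fin m → ℤ) : X.mon u ∈ Hdv.dring v (R.D i) := by
  have hxm : ∀ j, X.x j ∈ Hdv.dring v (R.D i) := fun j => y_dring R i h (Sum.inr j)
  have hxi : ∀ j, (X.x j)⁻¹ ∈ Hdv.dring v (R.D i) := by
    intro j
    apply Hdv.inv_mem_dring v (hxm j)
    intro _
    rw [Hdv.ord_inv v (X.x_ne j), h.x j, neg_zero]
  refine (Hdv.dring v (R.D i)).prod_mem fun j _ => ?_
  cases u j with
  | ofNat n =>
    simp only [Int.ofNat_eq_natCast, zpow_natCast]
    exact (Hdv.dring v (R.D i)).pow_mem (hxm j) n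
  | negSucc n =>
    rw [zpow_negSucc, ← inv_pow]
    exact (Hdv.dring v (R.D i)).pow_mem (hxi j) _

theorem A_dring {N : ℕ} (R : X.Dr N) (i : Fin (N + 1)) {v : DVal k K} (h : Triv X v)
    (b : X.A) : (b : K) ∈ Hdv.dring v (R.D i) := by
  obtain ⟨c, hc⟩ := exists_lift b.2
  rw [← hc, phi_eq]
  exact (Hdv.dring v (R.D i)).sum_mem fun u _ =>
    (Hdv.dring v (R.D i)).mul_mem (K₀_dring R i h (c.coeff u).2) (mon_dring R i h u)

end Hq

variable {N : ℕ}

theorem nonhom [CharZero k] (R : X.Dr N) (hA : IsGood X.A) (q : Ideal X.A) (hq : IsHeightOne q)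
    (hn : ¬ X.Hom q) (v : DVal k K) (hv : v.HasCenter X.A q) :
    v.FormOrd R.D 0 ∧ ∀ g ∈ X.K₀, g ≠ 0 → ∀ u, v.ord (g * X.mon u) = 0 := by
  have hT : Hq.Triv X v := fun g hg hg0 u => Hq.ord_hom hA hv hq hn hg hg0 u
  refine ⟨⟨?_, ?_⟩, hT⟩
  · intro a ha hj
    obtain ⟨w, hw, hval⟩ := dvr X.A (Ten.Ind.noeth X.A hA.fg) hA.frac hA.norm q hq
    have hder : ∀ (i : Fin (N + 1)) (f : K), v.Integral f → v.Integral (R.D i f) := by
      intro i f hf
      by_cases hf0 : f = 0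
      · rw [hf0, map_zero]
        exact fun h => absurd rfl h
      have hf' := hf hf0
      rw [dvr_unique X.A (Ten.Ind.noeth X.A hA.fg) hA.frac hA.norm q hq v w hv hw f hf0] at hf'
      obtain ⟨s, hsp, hsf⟩ := (hval f hf0).1 hf'
      have hs0 : (s : K) ≠ 0 := HEQ.ne_of_not_mem s hsp
      have hso := Hdv.ord_eq_zero hv s hsp
      have h1 : R.D i f = (s : K)⁻¹ * (R.D i ((s : K) * f) + -(f * R.D i (s : K))) := by
        rw [Derivation.leibniz, smul_eq_mul, smul_eq_mul]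
        field_simp
        ring
      rw [h1]
      apply Hdv.integral_mul
      · intro _
        rw [Hdv.ord_inv v hs0, hso, neg_zero]
      · apply Hdv.integral_add
        · exact (Hq.A_dring R i hT ⟨_, hsf⟩).2
        · exact (Hdv.ring v).neg_mem (Hdv.integral_mul v hf (Hq.A_dring R i hT s).2)
    rw [neg_zero]
    have h2 : LB v (((N + 1 : ℕ) : ℤ) * 0) (jac R.D a) :=
      Ten.Ind.LB_det v 0 _ fun i j => hder i _ (ha j)
    rw [mul_zero] at h2
    exact h2 hj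
  · have hj : jac R.D (Sum.elim X.M X.x ∘ R.e) = 1 := Ten.jac_dual R.D _ R.dual
    refine ⟨Sum.elim X.M X.x ∘ R.e, fun i _ => (hT.y (R.e i)).ge, ?_, ?_⟩
    · rw [hj]
      exact one_ne_zero
    · rw [hj, Hdv.ord_one, neg_zero]

namespace Hq

variable {X}

theorem LBc_one (v : DVal k K) : LBc X v 0 1 := by
  rw [AddMonoidAlgebra.one_def]
  refine LBc_single ?_
  intro _
  rw [X.mon_zero, mul_one]
  have : ((1 : X.K₀) : K) = 1 := rfl
  rw [this, Hdv.ord_one]

theorem LBc_pow {v : DVal k K} {N : ℤ} {a : GA X} (h : LBc X v N a) (n : ℕ) :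
    LBc X v (n * N) (a ^ n) := by
  induction n with
  | zero =>
    rw [pow_zero]
    simpa using LBc_one v
  | succ n ih =>
    rw [pow_succ]
    have := LBc_mul ih h
    intro u
    exact (this u).mono (by push_cast; linarith)

/-- a homogeneous uniformizer -/
theorem unif (hA : IsGood X.A) {q : Ideal X.A} (hq : IsHeightOne q) (hh : X.Hom q)
    {v : DVal k K} (hv : v.HasCenter X.A q) :
    ∃ u ∈ X.Γ, ∃ t ∈ X.comp u, t ≠ 0 ∧ v.ord t = 1 := by
  by_contra hcon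
  push Not at hcon
  have h2 : ∀ a ∈ q, LB v 2 (a : K) := by
    intro a ha
    rw [hh] at ha
    refine Submodule.span_induction ?_ ?_ ?_ ?_ ha
    · rintro x ⟨hx, u, hu, hxu⟩ hx0
      have h1 := (hv.2 x).1 hx hx0
      have h3 := hcon u hu x hxu hx0
      omega
    · exact LB.zero v 2
    · intro x y _ _ hx hy
      exact hx.add hy
    · intro r x _ hx
      have := LB.mul (v := v) (M := 0) (N := 2) (hv.1 r) hx
      rwa [zero_add] at this
  obtain ⟨π, hπ, hπ1⟩ := v.exists_ord_eq_one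
  obtain ⟨w, hw, hval⟩ := dvr X.A (Ten.Ind.noeth X.A hA.fg) hA.frac hA.norm q hq
  obtain ⟨s, hsq, hs⟩ := (hval π hπ).1 (by
    rw [← dvr_unique X.A (Ten.Ind.noeth X.A hA.fg) hA.frac hA.norm q hq v w hv hw π hπ]
    omega)
  have hs0 := HEQ.ne_of_not_mem s hsq
  have h3 : v.ord ((s : K) * π) = 1 := by
    rw [v.ord_mul _ _ hs0 hπ, HEQ.ord_eq_zero hv s hsq, hπ1, zero_add]
  have h4 : (⟨_, hs⟩ : X.A) ∈ q := (hv.2 _).2 fun _ => by rw [h3]; exact one_pos
  have h5 := h2 _ h4 (mul_ne_zero hs0 hπ)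
  rw [h3] at h5
  omega

/-- along a homogeneous prime divisor the components have at least the order of the sum -/
theorem le_comp (hA : IsGood X.A) {q : Ideal X.A} (hq : IsHeightOne q) (hh : X.Hom q)
    {v : DVal k K} (hv : v.HasCenter X.A q) {c : GA X} (hc : phi X c ∈ X.A) :
    LBc X v (v.ord (phi X c)) c := by
  by_cases hc0 : c = 0
  · intro u hu
    exact absurd ((trm_eq_zero X).2 (by simp [hc0])) hu
  have hf0 : phi X c ≠ 0 := by
    intro h
    apply hc0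
    apply phi_inj X
    rw [h, map_zero]
  set f := phi X c with hf
  have hn : 0 ≤ v.ord f := hv.1 ⟨f, hc⟩ hf0
  obtain ⟨n, hn'⟩ := Int.eq_ofNat_of_zero_le hn
  obtain ⟨u₀, hu₀, t, ht, ht0, ht1⟩ := unif hA hq hh hv
  obtain ⟨τ, hτ⟩ := exists_single ht
  have htn : t ^ n ≠ 0 := pow_ne_zero n ht0
  have hg0 : f / t ^ n ≠ 0 := div_ne_zero hf0 htn
  have hg : v.ord (f / t ^ n) = 0 := by
    rw [Ten.ord_div v _ _ hf0 htn, HEQ.ord_pow v ht0, ht1, hn']
    ring
  obtain ⟨w, hw, hval⟩ := dvr X.A (Ten.Ind.noeth X.A hA.fg) hA.frac hA.norm q hq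
  obtain ⟨s, hsq, hs⟩ := (hval _ hg0).1 (by
    rw [← dvr_unique X.A (Ten.Ind.noeth X.A hA.fg) hA.frac hA.norm q hq v w hv hw _ hg0]
    exact hg.ge)
  obtain ⟨d, hd⟩ := exists_lift s.2
  obtain ⟨b, hb⟩ := exists_lift hs
  have hd0 : d ≠ 0 := by
    rintro rfl
    rw [map_zero] at hd
    exact HEQ.ne_of_not_mem s hsq hd.symm
  have hdE : EQc v 0 d := by
    obtain ⟨N, hN, u, hu, huN⟩ := exists_EQc v hd0
    have h0 := LBc_A hv (hd ▸ s.2) u hu
    have h1 : ¬ 1 ≤ N := fun h1 => hsq (mem_of_LB hv (by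
      rw [← hd]
      exact (LBc_phi hN).mono h1))
    have h2 : N = 0 := by omega
    subst h2
    exact ⟨hN, u, hu, huN⟩
  obtain ⟨β, hβ⟩ := exists_EQc v hc0
  have hprod : d * c = AddMonoidAlgebra.single u₀ τ ^ n * b := by
    apply phi_inj X
    rw [map_mul, map_mul, map_pow, phi_single, ← hτ, hd, hb, ← hf]
    field_simp
  have h3 : LBc X v n (AddMonoidAlgebra.single u₀ τ ^ n * b) := by
    have h4 : LBc X v 1 (AddMonoidAlgebra.single u₀ τ) := by
      refine LBc_single ?_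
      rw [← hτ]
      intro _
      exact ht1.ge
    have h5 := LBc_mul (LBc_pow h4 n) (LBc_A hv (hb ▸ hs))
    intro u
    exact (h5 u).mono (by linarith)
  obtain ⟨-, u, hu, huβ⟩ := gauss hdE hβ
  rw [hprod] at hu huβ
  have h4 := h3 u hu
  intro w
  refine (hβ.1 w).mono ?_
  rw [hn']
  linarith

theorem exists_semi (q : Ideal X.A) (hq : IsHeightOne q) (hh : X.Hom q) :
    ∃ u ∈ X.Γ, ∃ t ∈ X.comp u, t ≠ 0 ∧ ∀ v : DVal k K, v.HasCenter X.A q → 1 ≤ v.ord t := by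
  by_contra hcon
  push Not at hcon
  apply hq.2.1
  rw [eq_bot_iff, hh, Ideal.span_le]
  rintro a ⟨ha, u, hu, hau⟩
  by_contra hne
  have ha0 : (a : K) ≠ 0 := fun h => hne (Subtype.ext h)
  obtain ⟨v, hv, h1⟩ := hcon u hu a hau ha0
  have := (hv.2 a).1 ha ha0
  omega

theorem comp_pow {u : Fin m → ℤ} (hu : u ∈ X.Γ) {t : K} (ht : t ∈ X.comp u) (n : ℕ) :
    t ^ n ∈ X.comp (n • u) := by
  induction n with
  | zero =>
    rw [pow_zero, zero_smul, X.comp_zero]
    exact Submodule.mem_span_singleton_self _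
  | succ n ih =>
    rw [pow_succ, succ_nsmul, X.comp_mul (X.Γ.nsmul_mem hu n) hu]
    exact Submodule.mul_mem_mul ih ht

theorem clear (F : Finset (Ideal X.A)) (hF : ∀ q ∈ F, IsHeightOne q ∧ X.Hom q)
    (N : Ideal X.A → ℕ) :
    ∃ u ∈ X.Γ, ∃ G ∈ X.comp u, G ≠ 0 ∧ ∀ q ∈ F, ∀ v : DVal k K, v.HasCenter X.A q →
      (N q : ℤ) ≤ v.ord G := by
  induction F using Finset.induction_on with
  | empty =>
    refine ⟨0, X.Γ.zero_mem, 1, ?_, one_ne_zero, fun q hq => absurd hq (Finset.notMem_empty q)⟩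
    rw [X.comp_zero]
    exact Submodule.mem_span_singleton_self _
  | insert q₀ F hq₀ ih =>
    obtain ⟨u, hu, G, hG, hG0, h1⟩ := ih fun q hq => hF q (Finset.mem_insert_of_mem hq)
    obtain ⟨h0, hi0⟩ := hF q₀ (Finset.mem_insert_self q₀ F)
    obtain ⟨u₀, hu₀, t, ht, ht0, h2⟩ := exists_semi q₀ h0 hi0
    have hmem : G * t ^ N q₀ ∈ X.comp (u + N q₀ • u₀) := by
      rw [X.comp_mul hu (X.Γ.nsmul_mem hu₀ _)]
      exact Submodule.mul_mem_mul hG (comp_pow hu₀ ht _)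
    refine ⟨u + N q₀ • u₀, X.Γ.add_mem hu (X.Γ.nsmul_mem hu₀ _), G * t ^ N q₀, hmem,
      mul_ne_zero hG0 (pow_ne_zero _ ht0), fun q hq v hv => ?_⟩
    rw [v.ord_mul _ _ hG0 (pow_ne_zero _ ht0), HEQ.ord_pow v ht0]
    have p1 : 0 ≤ v.ord G := hv.1 ⟨_, X.mem_A hu hG⟩ hG0
    have p2 : 0 ≤ v.ord t := hv.1 ⟨_, X.mem_A hu₀ ht⟩ ht0
    rcases Finset.mem_insert.1 hq with rfl | hq'
    · have p3 := h2 v hv
      have p4 : (N q : ℤ) * 1 ≤ (N q : ℤ) * v.ord t :=
        mul_le_mul_of_nonneg_left p3 (Int.natCast_nonneg _)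
      linarith
    · have p3 := h1 q hq' v hv
      have p4 : 0 ≤ (N q₀ : ℤ) * v.ord t := mul_nonneg (Int.natCast_nonneg _) p2
      linarith

theorem unique (hA : IsGood X.A) (q : Ideal X.A) (hq : IsHeightOne q) (v v' : DVal k K)
    (hv : v.HasCenter X.A q) (hv' : v'.HasCenter X.A q) (f : K) (hf : f ≠ 0) :
    v.ord f = v'.ord f :=
  dvr_unique X.A (Ten.Ind.noeth X.A hA.fg) hA.frac hA.norm q hq v v' hv hv' f hf

theorem hart (hA : IsGood X.A) (p : Ideal X.A) (hp : p.IsPrime) (f : K) (hf : f ≠ 0)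
    (h : ∀ q : Ideal X.A, IsHeightOne q → q ≤ p → ∀ v : DVal k K, v.HasCenter X.A q →
      0 ≤ v.ord f) :
    ∃ s : X.A, s ∉ p ∧ (s : K) * f ∈ X.A := by
  refine hartogs X.A (Ten.Ind.noeth X.A hA.fg) hA.frac hA.norm p hp f hf fun q hq hqp => ?_
  obtain ⟨v, hv, h1⟩ := dvr X.A (Ten.Ind.noeth X.A hA.fg) hA.frac hA.norm q hq
  exact (h1 f hf).1 (h q hq hqp v hv)

theorem claim (hA : IsGood X.A) (p : Ideal X.A) (hp : p.IsPrime) (f : K) (hf : f ≠ 0)
    (h0 : ∀ q : Ideal X.A, IsHeightOne q → ¬ X.Hom q → q ≤ p → ∀ v : DVal k K,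
      v.HasCenter X.A q → v.ord f = 0) :
    ∃ (g : K) (u : Fin m → ℤ), g ∈ X.K₀ ∧ g ≠ 0 ∧ ∀ q : Ideal X.A, IsHeightOne q → q ≤ p →
      ∀ v : DVal k K, v.HasCenter X.A q → v.ord f = v.ord (g * X.mon u) := by
  obtain ⟨a₁, a₂, ha₂, hfa⟩ := hA.frac f
  have hfa' : f * (a₂ : K) = a₁ := by
    rw [hfa]
    exact div_mul_cancel₀ _ ha₂
  have ha₁ : (a₁ : K) ≠ 0 := by
    rw [← hfa']
    exact mul_ne_zero hf ha₂
  have ha₂' : a₂ ≠ 0 := fun h => ha₂ (by rw [h]; rfl)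
  have hfin : {q : Ideal X.A | IsHeightOne q ∧ a₂ ∈ q ∧ X.Hom q}.Finite :=
    (finite_heightOne X.A (Ten.Ind.noeth X.A hA.fg) a₂ ha₂').subset fun q hq => ⟨hq.1, hq.2.1⟩
  have hb : ∀ q : Ideal X.A, ∃ n : ℕ, IsHeightOne q → ∀ v : DVal k K, v.HasCenter X.A q →
      v.ord (a₂ : K) ≤ n := by
    intro q
    by_cases hq : IsHeightOne q
    · obtain ⟨v, hv, -⟩ := dvr X.A (Ten.Ind.noeth X.A hA.fg) hA.frac hA.norm q hq
      refine ⟨(v.ord (a₂ : K)).toNat, fun _ v' hv' => ?_⟩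
      rw [unique hA q hq v' v hv' hv _ ha₂]
      exact Int.self_le_toNat _
    · exact ⟨0, fun h => absurd h hq⟩
  choose N hN using hb
  obtain ⟨U, hU, G, hG, hb0, hclear⟩ := clear hfin.toFinset
    (fun q hq => by
      have := (Set.Finite.mem_toFinset hfin).1 hq
      exact ⟨this.1, this.2.2⟩) N
  have hGA := X.mem_A hU hG
  obtain ⟨γ, hγ⟩ := exists_single hG
  have hbf : G * f ≠ 0 := mul_ne_zero hb0 hf
  have h1 : ∀ q : Ideal X.A, IsHeightOne q → q ≤ p → ∀ v : DVal k K, v.HasCenter X.A q →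
      0 ≤ v.ord (G * f) := by
    intro q hq hqp v hv
    rw [v.ord_mul _ _ hb0 hf]
    have e1 : v.ord f + v.ord (a₂ : K) = v.ord (a₁ : K) := by
      rw [← v.ord_mul _ _ hf ha₂, hfa']
    have e2 := HEQ.ord_nonneg hv a₁ ha₁
    have e3 : 0 ≤ v.ord G := hv.1 ⟨_, hGA⟩ hb0
    by_cases haq : a₂ ∈ q
    · by_cases hi : X.Hom q
      · have e4 := hN q hq v hv
        have e5 := hclear q ((Set.Finite.mem_toFinset hfin).2 ⟨hq, haq, hi⟩) v hv
        omega
      · have e4 := h0 q hq hi hqp v hv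
        omega
    · have e4 := HEQ.ord_eq_zero hv a₂ haq
      omega
  obtain ⟨s, hsp, hsA⟩ := hart hA p hp _ hbf h1
  have hs0 := HEQ.ne_of_not_mem s hsp
  have hc0 : (s : K) * (G * f) ≠ 0 := mul_ne_zero hs0 hbf
  obtain ⟨C, hC⟩ := exists_lift hsA
  set S := C.coeff.support with hS
  have hc' : (s : K) * (G * f) = ∑ u ∈ S, trm X C u := by rw [← hC, phi_eq]
  set c : K := (s : K) * (G * f) with hcdef
  have hordc : ∀ q : Ideal X.A, IsHeightOne q → q ≤ p → ∀ v : DVal k K, v.HasCenter X.A q →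
      v.ord c = v.ord G + v.ord f := by
    intro q hq hqp v hv
    rw [hcdef, v.ord_mul _ _ hs0 hbf, v.ord_mul _ _ hb0 hf,
      HEQ.ord_eq_zero hv s fun h => hsp (hqp h), zero_add]
  have hle : ∀ u ∈ S, ∀ q : Ideal X.A, IsHeightOne q → q ≤ p → ∀ v : DVal k K,
      v.HasCenter X.A q → v.ord c ≤ v.ord (trm X C u) := by
    intro u hu q hq hqp v hv
    have hgu := (trm_ne X).2 hu
    by_cases hi : X.Hom q
    · rw [← hC]
      exact le_comp hA hq hi hv (hC ▸ hsA) u hgu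
    · rw [hordc q hq hqp v hv, h0 q hq hi hqp v hv, ord_comp hv hq hi hU hG hb0]
      exact (ord_hom hA hv hq hi (C.coeff u).2 (left_ne_zero_of_mul hgu) u).ge
  have hdiv : ∀ u, ∃ t : X.A, t ∉ p ∧ (u ∈ S → (t : K) * (trm X C u / c) ∈ X.A) := by
    intro u
    by_cases hu : u ∈ S
    · have hgu := (trm_ne X).2 hu
      obtain ⟨t, ht, htA⟩ := hart hA p hp (trm X C u / c) (div_ne_zero hgu hc0) (by
        intro q hq hqp v hv
        have e : v.ord (trm X C u / c) + v.ord c = v.ord (trm X C u) := by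
          rw [← v.ord_mul _ _ (div_ne_zero hgu hc0) hc0, div_mul_cancel₀ _ hc0]
        have := hle u hu q hq hqp v hv
        omega)
      exact ⟨t, ht, fun _ => htA⟩
    · refine ⟨1, fun h => hp.ne_top ((Ideal.eq_top_iff_one p).2 h), fun h => absurd h hu⟩
  choose t ht htA using hdiv
  have hT : ∏ u ∈ S, t u ∉ p := by
    intro h
    obtain ⟨u, -, hu⟩ := (hp.prod_mem_iff).1 h
    exact ht u hu
  have hTA : ∀ u ∈ S, ((∏ u ∈ S, t u : X.A) : K) * (trm X C u / c) ∈ X.A := by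
    intro u hu
    have e : ((∏ u ∈ S, t u : X.A) : K) * (trm X C u / c) =
        ((∏ u ∈ S.erase u, t u : X.A) : K) * ((t u : K) * (trm X C u / c)) := by
      rw [← Finset.prod_erase_mul S t hu]
      push_cast
      ring
    rw [e]
    exact X.A.mul_mem (Subtype.property _) (htA u hu)
  have hex : ∃ u, ∃ hu : u ∈ S, (⟨_, hTA u hu⟩ : X.A) ∉ p := by
    by_contra hcon
    push Not at hcon
    apply hT
    have e : (∏ u ∈ S, t u : X.A) = ∑ u ∈ S.attach, (⟨_, hTA u.1 u.2⟩ : X.A) := by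
      ext
      rw [AddSubmonoidClass.coe_finsetSum]
      show _ = ∑ u ∈ S.attach, ((∏ u ∈ S, t u : X.A) : K) * (trm X C u.1 / c)
      rw [Finset.sum_attach S fun u => ((∏ u ∈ S, t u : X.A) : K) * (trm X C u / c),
        ← Finset.mul_sum, ← Finset.sum_div, ← hc', div_self hc0, mul_one]
    rw [e]
    exact Ideal.sum_mem _ fun u _ => hcon u.1 u.2
  obtain ⟨u, hu, hdu⟩ := hex
  have hgu := (trm_ne X).2 hu
  have hγ0 : (γ : K) ≠ 0 := by
    intro h
    rw [hγ, h, zero_mul] at hb0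
    exact hb0 rfl
  refine ⟨(C.coeff u : K) * (γ : K)⁻¹, u - U, mul_mem (C.coeff u).2 (inv_mem γ.2),
    mul_ne_zero (left_ne_zero_of_mul hgu) (inv_ne_zero hγ0), fun q hq hqp v hv => ?_⟩
  have e1 : (C.coeff u : K) * (γ : K)⁻¹ * X.mon (u - U) * G = trm X C u := by
    rw [hγ, trm]
    have : X.mon u = X.mon (u - U) * X.mon U := by rw [← X.mon_add, sub_add_cancel]
    rw [this]
    field_simp
  have hh : (C.coeff u : K) * (γ : K)⁻¹ * X.mon (u - U) ≠ 0 := by
    intro h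
    rw [h, zero_mul] at e1
    exact hgu e1.symm
  have e2 : v.ord ((C.coeff u : K) * (γ : K)⁻¹ * X.mon (u - U)) + v.ord G =
      v.ord (trm X C u) := by
    rw [← v.ord_mul _ _ hh hb0, e1]
  have e3 : v.ord (((∏ u ∈ S, t u : X.A) : K) * (trm X C u / c)) = 0 :=
    HEQ.ord_eq_zero hv ⟨_, hTA u hu⟩ fun h => hdu (hqp h)
  have hT0 : ((∏ u ∈ S, t u : X.A) : K) ≠ 0 := HEQ.ne_of_not_mem _ hT
  have e4 : v.ord ((∏ u ∈ S, t u : X.A) : K) = 0 := HEQ.ord_eq_zero hv _ fun h => hT (hqp h)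
  have e5 : v.ord (trm X C u / c) + v.ord c = v.ord (trm X C u) := by
    rw [← v.ord_mul _ _ (div_ne_zero hgu hc0) hc0, div_mul_cancel₀ _ hc0]
  rw [v.ord_mul _ _ hT0 (div_ne_zero hgu hc0)] at e3
  have e6 := hordc q hq hqp v hv
  omega

end Hq

theorem homEq [CharZero k] (R : X.Dr N) (hA : IsGood X.A) (δ : Ideal X.A →₀ ℝ)
    (hδ : ∀ q, δ q ≠ 0 → X.Hom q) (p : Ideal X.A) (hp : p.IsPrime)
    (γ : Kˣ →₀ ℝ) (h : IsLocalEq X.A R.D δ p γ) :
    ∃ γ' : (K × (Fin m → ℤ)) →₀ ℝ, (∀ h ∈ γ'.support, h.1 ≠ 0 ∧ h.1 ∈ X.K₀) ∧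
      IsLocalEq X.A R.D δ p (X.toEq γ') := by
  obtain ⟨n, ρ, f, hρ, hval⟩ := qbasis (k := k) γ
  have h0 : ∀ i, ∀ q : Ideal X.A, IsHeightOne q → ¬ X.Hom q → q ≤ p → ∀ v : DVal k K,
      v.HasCenter X.A q → v.ord (f i : K) = 0 := by
    intro i q hq hi hqp v hv
    obtain ⟨hj, -⟩ := X.nonhom R hA q hq hi v hv
    have e1 := h q hqp hq v hv 0 hj
    have e2 : δ q = 0 := by
      by_contra hne
      exact hi (hδ q hne)
    rw [e2, hval v] at e1
    have e3 : ∑ i, ((v.ord (f i : K) : ℤ) : ℚ) • ρ i = 0 := by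
      have e5 : ∑ i, ρ i * (v.ord (f i : K) : ℝ) = 0 := by simpa using e1.symm
      rw [← e5]
      refine Finset.sum_congr rfl fun i _ => ?_
      rw [Rat.smul_def]
      push_cast
      ring
    have e4 := Fintype.linearIndependent_iff.1 hρ _ e3 i
    exact_mod_cast e4
  have hcl := fun i => Hq.claim hA p hp (f i : K) (f i).ne_zero (h0 i)
  choose g u hg hg0 hgu using hcl
  refine ⟨∑ i, Finsupp.single (g i, u i) (ρ i), fun a ha => ?_, fun q hqp hq v hv j hj => ?_⟩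
  · have h1 := Finsupp.support_finsetSum ha
    rw [Finset.mem_biUnion] at h1
    obtain ⟨i, -, hi⟩ := h1
    have h2 := Finsupp.support_single_subset hi
    rw [Finset.mem_singleton] at h2
    rw [h2]
    exact ⟨hg0 i, hg i⟩
  · rw [h q hqp hq v hv j hj, hval v, toEq, Finsupp.mapDomain_finsetSum, HEQ.val_sum]
    refine Finset.sum_congr rfl fun i _ => ?_
    rw [Finsupp.mapDomain_single, HEQ.val_single, hgu i q hq hqp v hv]
    have : ((X.monU (g i, u i) : Kˣ) : K) = g i * X.mon (u i) := by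
      unfold monU
      rw [dif_pos (mul_ne_zero (hg0 i) (X.mon_ne (u i)))]
      rfl
    rw [this]

theorem toEq_val (γ' : (K × (Fin m → ℤ)) →₀ ℝ) (hγ : ∀ h ∈ γ'.support, h.1 ≠ 0) (v : DVal k K)
    (n : ℕ) (w : Fin m → ℤ) (h0 : ∀ h ∈ γ'.support, v.ord h.1 = 0)
    (hw : ∀ u, n * v.ord (X.mon u) = w ⬝ᵥ u) :
    n * v.val (X.toEq γ') = γ'.sum fun h r => r * ((w ⬝ᵥ h.2 : ℤ) : ℝ) := by
  rw [toEq, DVal.val, Finsupp.sum_mapDomain_index (fun _ => by simp) (fun _ _ _ => by ring),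
    Finsupp.sum, Finsupp.sum, Finset.mul_sum]
  refine Finset.sum_congr rfl fun h hh => ?_
  have h1 : ((X.monU h : Kˣ) : K) = h.1 * X.mon h.2 := by
    unfold monU
    rw [dif_pos (mul_ne_zero (hγ h hh) (X.mon_ne h.2))]
    rfl
  rw [h1, v.ord_mul _ _ (hγ h hh) (X.mon_ne h.2), h0 h hh, zero_add, ← hw h.2]
  push_cast
  ring

end HD

end

end Pool.Agent.MLD.H
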