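import Pool.Agent.Lib.MP_f23696_ag.H.Ctx
import Pool.Agent.Lib.MP_f23696_ag.T.Der
import Pool.Agent.Lib.MP_f23696_ag.T.Ind

/-!
Change of coordinates and invariance of log discrepancies under automorphisms (module INV of the
project HORO, MP_f23696_ag).
-/

set_option autoImplicit false

namespace Pool.Agent.MLD.H

open scoped Classical
open Pool.Agent.MLD.Ten (IsGood)
noncomputable section

universe u v

/-! ### JCH: change of coordinates -/
section JCH
variable {k : Type u} [Field k] {K : Type v} [Field K] [Algebra k K]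

theorem formOrd_change (v : DVal k K) {n : ℕ} (D E : Fin n → Derivation k K K) (b : Fin n → K)
    (hE : ∀ i j, E i (b j) = if i = j then 1 else 0)
    (hJ : jac D b ≠ 0) (hD : ∀ a, jac D a = jac D b * jac E a) (j : ℤ) :
    v.FormOrd E j ↔ v.FormOrd D (j - v.ord (jac D b)) := by
  have hne : ∀ a, jac D a ≠ 0 ↔ jac E a ≠ 0 := fun a => by
    rw [hD a]
    exact ⟨fun h => right_ne_zero_of_mul h, fun h => mul_ne_zero hJ h⟩
  have hord : ∀ a, jac E a ≠ 0 → v.ord (jac D a) = v.ord (jac D b) + v.ord (jac E a) :=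
    fun a ha => by rw [hD a, v.ord_mul _ _ hJ ha]
  constructor
  · rintro ⟨h1, a, ha, ha0, haj⟩
    refine ⟨fun c hc hc0 => ?_, a, ha, (hne a).2 ha0, ?_⟩
    · have h2 := (hne c).1 hc0
      have h3 := h1 c hc h2
      rw [hord c h2]
      omega
    · rw [hord a ha0, haj]
      ring
  · rintro ⟨h1, a, ha, ha0, haj⟩
    have ha1 := (hne a).1 ha0
    refine ⟨fun c hc hc0 => ?_, a, ha, ha1, ?_⟩
    · have h3 := h1 c hc ((hne c).2 hc0)
      rw [hord c hc0] at h3
      omega
    · rw [hord a ha1] at haj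
      omega

/-- chain rule, both families being dual to generating systems -/
theorem jac_chain [CharZero k] {n : ℕ} (D E : Fin n → Derivation k K K) (y b : Fin n → K)
    (hD : ∀ i j, D i (y j) = if i = j then 1 else 0)
    (hE : ∀ i j, E i (b j) = if i = j then 1 else 0)
    (hy : IsTranscendenceBasis k y) (hb : IsTranscendenceBasis k b) :
    jac D b ≠ 0 ∧ ∀ a, jac D a = jac D b * jac E a := by
  have h0 := Ten.jac_ne y hy D hD b hb.1
  obtain ⟨E', hE', -, h2⟩ := Ten.dual D b h0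
  have h3 : E' = E := by
    funext i
    have h4 : E' i - E i = 0 := Ten.der_zero b hb _ fun l => by
      rw [Derivation.sub_apply, hE', hE, sub_self]
    exact sub_eq_zero.1 h4
  rw [h3] at h2
  exact ⟨h0, h2⟩

end JCH

/-! ### INV: invariance of log discrepancies under automorphisms -/
section INV
variable {k : Type u} [Field k] {K : Type v} [Field K] [Algebra k K]

/-- the valuation `v ∘ g` -/
theorem exists_comp (v : DVal k K) (g : K ≃ₐ[k] K) :
    ∃ v' : DVal k K, ∀ a, v'.ord a = v.ord (g a) := by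
  refine ⟨⟨fun a => v.ord (g a), fun a b ha hb => ?_, fun a b ha hb hab => ?_, fun c hc => ?_, ?_⟩,
    fun a => rfl⟩
  · change v.ord (g (a * b)) = _
    rw [map_mul, v.ord_mul _ _ ((map_ne_zero g).2 ha) ((map_ne_zero g).2 hb)]
  · change _ ≤ v.ord (g (a + b))
    rw [map_add]
    apply v.ord_add _ _ ((map_ne_zero g).2 ha) ((map_ne_zero g).2 hb)
    rw [← map_add]
    exact (map_ne_zero g).2 hab
  · change v.ord (g (algebraMap k K c)) = 0
    rw [AlgEquiv.commutes, v.ord_algebraMap c hc]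
  · obtain ⟨a, ha, ha1⟩ := v.exists_ord_eq_one
    refine ⟨g.symm a, (map_ne_zero g.symm).2 ha, ?_⟩
    change v.ord (g (g.symm a)) = 1
    rw [AlgEquiv.apply_symm_apply, ha1]

namespace Inv

variable {v v' : DVal k K} {g : K ≃ₐ[k] K}

theorem small_iff (hv' : ∀ a, v'.ord a = v.ord (g a)) (a : K) : v'.Small a ↔ v.Small (g a) := by
  unfold DVal.Small
  rw [hv', map_ne_zero]

theorem integral_iff (hv' : ∀ a, v'.ord a = v.ord (g a)) (a : K) :
    v'.Integral a ↔ v.Integral (g a) := by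
  unfold DVal.Integral
  rw [hv', map_ne_zero]

theorem divisorial (hv' : ∀ a, v'.ord a = v.ord (g a)) (d : ℕ) (h : v.IsDivisorial d) :
    v'.IsDivisorial d := by
  obtain ⟨t, ht, hF⟩ := h
  refine ⟨fun i => g.symm (t i), fun i => ?_, fun F hF0 hs => hF F hF0 ?_⟩
  · rw [integral_iff hv', AlgEquiv.apply_symm_apply]
    exact ht i
  · rw [small_iff hv'] at hs
    have h1 : g (MvPolynomial.aeval (fun i => g.symm (t i)) F) = MvPolynomial.aeval t F := by
      have h3 : g (MvPolynomial.aeval (fun i => g.symm (t i)) F) =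
          MvPolynomial.aeval (fun i => g (g.symm (t i))) F := by
        have h4 := MvPolynomial.comp_aeval (R := k) (fun i => g.symm (t i)) (g : K →ₐ[k] K)
        have h5 := DFunLike.congr_fun h4 F
        exact h5
      rw [h3]
      congr 2
      funext i
      exact AlgEquiv.apply_symm_apply g (t i)
    rw [h1] at hs
    exact hs

variable {A : Subalgebra k K} {φ : A ≃ₐ[k] A}

theorem center (hv' : ∀ a, v'.ord a = v.ord (g a)) (hφ : ∀ a : A, (φ a : K) = g a) {q : Ideal A}
    (hv : v.HasCenter A q) : v'.HasCenter A (q.comap φ) := by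
  refine ⟨fun a => ?_, fun a => ?_⟩
  · rw [integral_iff hv', ← hφ]
    exact hv.1 (φ a)
  · rw [small_iff hv', ← hφ, ← hv.2 (φ a), Ideal.mem_comap]

theorem comap_comap (φ : A ≃ₐ[k] A) (q : Ideal A) : (q.comap φ.symm).comap φ = q := by
  ext a
  rw [Ideal.mem_comap, Ideal.mem_comap, AlgEquiv.symm_apply_apply]

theorem comap_comap' (φ : A ≃ₐ[k] A) (q : Ideal A) : (q.comap φ).comap φ.symm = q := by
  ext a
  rw [Ideal.mem_comap, Ideal.mem_comap, AlgEquiv.apply_symm_apply]

theorem comap_ne_bot (φ : A ≃ₐ[k] A) {q : Ideal A} (hq : q ≠ ⊥) : q.comap φ ≠ ⊥ := by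
  obtain ⟨a, ha, ha0⟩ := Submodule.exists_mem_ne_zero_of_ne_bot hq
  intro h
  have h1 : φ.symm a ∈ q.comap φ := by
    rw [Ideal.mem_comap, AlgEquiv.apply_symm_apply]
    exact ha
  rw [h, Ideal.mem_bot] at h1
  exact ha0 ((map_eq_zero_iff φ.symm φ.symm.injective).1 h1)

theorem heightOne (φ : A ≃ₐ[k] A) {q : Ideal A} (hq : IsHeightOne q) :
    IsHeightOne (q.comap φ) := by
  obtain ⟨h1, h2, h3⟩ := hq
  refine ⟨h1.comap φ, comap_ne_bot φ h2, fun r hr hr0 hrq => ?_⟩
  have h4 : r.comap φ.symm = q := by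
    apply h3 _ (hr.comap φ.symm) (comap_ne_bot φ.symm hr0)
    intro a ha
    have h5 := hrq (Ideal.mem_comap.1 ha)
    rw [Ideal.mem_comap, AlgEquiv.apply_symm_apply] at h5
    exact h5
  rw [← h4, comap_comap]

/-- the conjugate derivation -/
def conj (g : K ≃ₐ[k] K) (δ : Derivation k K K) : Derivation k K K :=
  Derivation.mk' ((g : K ≃ₗ[k] K).toLinearMap ∘ₗ (δ : K →ₗ[k] K) ∘ₗ
    (g.symm : K ≃ₗ[k] K).toLinearMap) (fun a b => by
      change g (δ (g.symm (a * b))) = a • g (δ (g.symm b)) + b • g (δ (g.symm a))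
      rw [map_mul, Derivation.leibniz, map_add, smul_eq_mul, smul_eq_mul, map_mul, map_mul,
        AlgEquiv.apply_symm_apply, AlgEquiv.apply_symm_apply, smul_eq_mul, smul_eq_mul])

theorem conj_apply (g : K ≃ₐ[k] K) (δ : Derivation k K K) (a : K) :
    conj g δ a = g (δ (g.symm a)) := rfl

theorem jac_conj (g : K ≃ₐ[k] K) {n : ℕ} (D : Fin n → Derivation k K K) (a : Fin n → K) :
    jac (fun i => conj g (D i)) (fun j => g (a j)) = g (jac D a) := by
  unfold jac
  rw [AlgEquiv.map_det]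
  congr 1
  ext i j
  rw [Matrix.of_apply, conj_apply, AlgEquiv.symm_apply_apply]
  rfl

theorem chain [CharZero k] {n : ℕ} (D : Fin n → Derivation k K K) (y : Fin n → K)
    (hD : ∀ i j, D i (y j) = if i = j then 1 else 0) (hy : IsTranscendenceBasis k y)
    (g : K ≃ₐ[k] K) : jac D (fun j => g (y j)) ≠ 0 ∧
      ∀ a : Fin n → K, jac D (fun j => g (a j)) = jac D (fun j => g (y j)) * g (jac D a) := by
  have h := jac_chain D (fun i => conj g (D i)) y (fun j => g (y j)) hD (fun i j => by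
    rw [conj_apply, AlgEquiv.symm_apply_apply, hD]
    split_ifs
    · exact map_one g
    · exact map_zero g) hy (g.isTranscendenceBasis hy)
  exact ⟨h.1, fun a => by rw [h.2, jac_conj]⟩

theorem form [CharZero k] {n : ℕ} (D : Fin n → Derivation k K K) (y : Fin n → K)
    (hD : ∀ i j, D i (y j) = if i = j then 1 else 0) (hy : IsTranscendenceBasis k y)
    (hv' : ∀ a, v'.ord a = v.ord (g a)) (j : ℤ) (h : v.FormOrd D j) :
    v'.FormOrd D (j + v.ord (jac D fun j => g (y j))) := by
  obtain ⟨hJ, hch⟩ := chain D y hD hy g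
  have hord : ∀ a : Fin n → K, jac D a ≠ 0 → v.ord (jac D fun j => g (a j)) =
      v.ord (jac D fun j => g (y j)) + v'.ord (jac D a) := by
    intro a ha
    rw [hch, v.ord_mul _ _ hJ ((map_ne_zero g).2 ha), hv']
  obtain ⟨h1, b, hb, hb0, hbj⟩ := h
  refine ⟨fun a ha ha0 => ?_, fun i => g.symm (b i), fun i => ?_, ?_, ?_⟩
  · have h2 := h1 (fun j => g (a j)) (fun i => (integral_iff hv' _).1 (ha i)) (by
      rw [hch]
      exact mul_ne_zero hJ ((map_ne_zero g).2 ha0))
    rw [hord a ha0] at h2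
    omega
  · rw [integral_iff hv', AlgEquiv.apply_symm_apply]
    exact hb i
  · intro h3
    have h4 := hch (fun i => g.symm (b i))
    simp only [AlgEquiv.apply_symm_apply] at h4
    rw [h3, map_zero, mul_zero] at h4
    exact hb0 h4
  · have h4 := hch (fun i => g.symm (b i))
    simp only [AlgEquiv.apply_symm_apply] at h4
    have h5 : jac D (fun i => g.symm (b i)) ≠ 0 := by
      intro h3
      rw [h3, map_zero, mul_zero] at h4
      exact hb0 h4
    have h6 := hord _ h5
    simp only [AlgEquiv.apply_symm_apply] at h6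
    have h7 : v.ord (jac D fun i => b i) = -j := hbj
    omega

/-- the transported local equation -/
def tr (g : K ≃ₐ[k] K) (J : Kˣ) (γ : Kˣ →₀ ℝ) : Kˣ →₀ ℝ :=
  γ.mapDomain (Units.map (g : K →* K)) - Finsupp.single J 1

theorem val_tr (hv' : ∀ a, v'.ord a = v.ord (g a)) (J : Kˣ) (γ : Kˣ →₀ ℝ) :
    v.val (tr g J γ) = v'.val γ - (v.ord (J : K) : ℝ) := by
  unfold tr DVal.val
  rw [Finsupp.sum_sub_index (fun a b₁ b₂ => by ring), Finsupp.sum_single_index (by ring), one_mul,
    Finsupp.sum_mapDomain_index (fun _ => by ring) (fun _ _ _ => by ring)]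
  congr 1
  refine Finsupp.sum_congr fun a _ => ?_
  rw [hv']
  rfl

end Inv

open Inv in
theorem inv (A : Subalgebra k K) (hA : IsGood A) {n : ℕ} (D : Fin (n + 1) → Derivation k K K)
    (y : Fin (n + 1) → K) (hD : ∀ i j, D i (y j) = if i = j then 1 else 0)
    (hy : IsTranscendenceBasis k y) [CharZero k] (δ : Ideal A →₀ ℝ)
    (g : K ≃ₐ[k] K) (φ : A ≃ₐ[k] A) (hφ : ∀ a : A, (φ a : K) = g a)
    (hδ : ∀ q : Ideal A, IsHeightOne q → δ (q.comap φ) = δ q)
    (p p' : Ideal A) (hp : p.IsPrime) (hp' : p' = p.comap φ) (γ γ' : Kˣ →₀ ℝ)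
    (h : IsLocalEq A D δ p γ) (h' : IsLocalEq A D δ p' γ') (v v' : DVal k K)
    (hv : v.HasCenter A p) (hv' : ∀ a, v'.ord a = v.ord (g a)) (j : ℤ) (hj : v.FormOrd D j) :
    v'.HasCenter A p' ∧ (∀ d, v.IsDivisorial d → v'.IsDivisorial d) ∧
      ∃ j' : ℤ, v'.FormOrd D j' ∧ 1 + (j' : ℝ) - v'.val γ' = 1 + (j : ℝ) - v.val γ := by
  subst hp'
  have hJ := (chain D y hD hy g).1
  refine ⟨center hv' hφ hv, fun d hd => divisorial hv' d hd, _, form D y hD hy hv' j hj, ?_⟩
  have hγ : IsLocalEq A D δ p (tr g (Units.mk0 _ hJ) γ') := by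
    intro q hqp hq w hw jw hjw
    obtain ⟨w', hw'⟩ := exists_comp w g
    have h1 := h' (q.comap φ) (Ideal.comap_mono hqp) (heightOne φ hq) w' (center hw' hφ hw) _
      (form D y hD hy hw' jw hjw)
    rw [hδ q hq] at h1
    rw [val_tr hw', Units.val_mk0, ← h1]
    push_cast
    ring
  have h1 := Ten.indep_gen A hA D ⟨_, hJ⟩ δ p hp γ _ h hγ v hv
  rw [val_tr hv', Units.val_mk0] at h1
  rw [h1]
  push_cast
  ring

end INV

end

end Pool.Agent.MLD.H
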