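import Pool.Agent.Lib.MP_f23696_ag.H.Ctx
import Pool.Agent.Lib.MP_f23696_ag.T.Der

/-!
# HORO, module QJ: adapted coordinates
-/

set_option autoImplicit false

namespace Pool.Agent.MLD.H

open scoped Classical
noncomputable section

universe u v

namespace Qj

variable {k : Type u} [Field k] {K : Type v} [Field K] [Algebra k K]

/-- derivative of a Laurent monomial -/
theorem der_prod {ι : Type} (E : Derivation k K K) (x : ι → K) (hx : ∀ i, x i ≠ 0) (u : ι → ℤ)
    (s : Finset ι) : E (∏ i ∈ s, x i ^ u i) =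
      (∏ i ∈ s, x i ^ u i) * ∑ i ∈ s, (u i : K) * (x i)⁻¹ * E (x i) := by
  induction s using Finset.induction_on with
  | empty => simp
  | insert a s ha ih =>
    rw [Finset.prod_insert ha, Finset.sum_insert ha, Derivation.leibniz, ih,
      Derivation.leibniz_zpow]
    simp only [smul_eq_mul, zsmul_eq_mul]
    rw [zpow_sub_one₀ (hx a)]
    ring

/-- a derivation maps `k[S]` to itself if it maps the generators to it -/
theorem der_adjoin (E : Derivation k K K) (S : Set K) (B : Subalgebra k K)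
    (hB : Algebra.adjoin k S ≤ B) (h : ∀ s ∈ S, E s ∈ B) (f : K)
    (hf : f ∈ Algebra.adjoin k S) : E f ∈ B := by
  induction hf using Algebra.adjoin_induction with
  | mem x hx => exact h x hx
  | algebraMap r => rw [Derivation.map_algebraMap]; exact zero_mem _
  | add x y hx hy h1 h2 => rw [map_add]; exact add_mem h1 h2
  | mul x y hx hy h1 h2 =>
    rw [Derivation.leibniz]
    exact add_mem (mul_mem (hB hx) h2) (mul_mem (hB hy) h1)

/-- a determinant with entries in a subalgebra -/
theorem det_mem (B : Subalgebra k K) {n : ℕ} (M : Matrix (Fin n) (Fin n) K)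
    (h : ∀ i j, M i j ∈ B) : M.det ∈ B := by
  rw [Matrix.det_apply]
  refine sum_mem fun σ _ => ?_
  have h1 : ∏ i, M (σ i) i ∈ B := prod_mem fun i _ => h _ _
  rcases Int.units_eq_one_or (Equiv.Perm.sign σ) with h2 | h2
  · rw [h2, one_smul]
    exact h1
  · rw [h2, Units.neg_smul, one_smul]
    exact neg_mem h1

theorem top_alg {ι : Type} (y : ι → K) (h : IntermediateField.adjoin k (Set.range y) = ⊤) :
    Algebra.IsAlgebraic (Algebra.adjoin k (Set.range y)) K := by
  rw [← IntermediateField.isAlgebraic_adjoin_iff_top, h]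
  constructor
  intro a
  exact isAlgebraic_algebraMap (⟨a, trivial⟩ : (⊤ : IntermediateField k K))

end Qj

section HD
variable {k : Type u} [Field k] {K : Type v} [Field K] [Algebra k K]
  {σ κ : Type} [Fintype σ] [Fintype κ] {m : ℕ} (X : HD k K σ κ m)

namespace HD

section QJ
variable {N : ℕ}

theorem co_mem_kM (T : Set κ) (s : σ) : X.co T s ∈ X.kM := by
  by_cases h : ∃ c ∈ T, X.sep c s
  · obtain ⟨c, -, hc⟩ := X.co_mem T s h
    exact X.S_le c _ hc
  · rw [X.co_out T s h]
    exact Algebra.subset_adjoin ⟨s, rfl⟩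

theorem Qj_adj (T : Set κ) : Algebra.adjoin k (Set.range (X.co T)) = X.kM := by
  apply le_antisymm
  · rw [Algebra.adjoin_le_iff]
    rintro _ ⟨s, rfl⟩
    exact X.co_mem_kM T s
  · unfold kM
    rw [Algebra.adjoin_le_iff]
    rintro _ ⟨s, rfl⟩
    exact X.co_gen T s

theorem Qj_gen (T : Set κ) :
    IntermediateField.adjoin k (Set.range (Sum.elim (X.co T) X.x)) = ⊤ := by
  rw [← X.gen]
  apply le_antisymm
  · rw [X.gen]
    exact le_top
  · rw [IntermediateField.adjoin_le_iff]
    rintro _ ⟨s | i, rfl⟩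
    · have h1 := X.co_gen T s
      have h2 : Algebra.adjoin k (Set.range (X.co T)) ≤
          (IntermediateField.adjoin k (Set.range (Sum.elim (X.co T) X.x))).toSubalgebra := by
        rw [Algebra.adjoin_le_iff]
        rintro _ ⟨t, rfl⟩
        exact IntermediateField.subset_adjoin _ _ ⟨Sum.inl t, rfl⟩
      exact h2 h1
    · exact IntermediateField.subset_adjoin _ _ ⟨Sum.inr i, rfl⟩

theorem Qj_tb : IsTranscendenceBasis k (Sum.elim X.M X.x) := by
  have h := Qj.top_alg _ X.gen
  exact X.ind.isTranscendenceBasis_iff_isAlgebraic.mpr h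

theorem Qj_tb' (T : Set κ) : IsTranscendenceBasis k (Sum.elim (X.co T) X.x) := by
  have h := Qj.top_alg _ (X.Qj_gen T)
  refine Algebra.IsAlgebraic.isTranscendenceBasis_of_lift_le_trdeg_of_finite k _ ?_
  rw [← X.Qj_tb.lift_cardinalMk_eq_trdeg]

theorem co_tb (T : Set κ) : AlgebraicIndependent k (Sum.elim (X.co T) X.x) ∧
    IntermediateField.adjoin k (Set.range (Sum.elim (X.co T) X.x)) = ⊤ ∧
    ∀ f ∈ X.kM, ∃ Q : MvPolynomial σ k, f = MvPolynomial.aeval (X.co T) Q := by
  refine ⟨(X.Qj_tb' T).1, X.Qj_gen T, fun f hf => ?_⟩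
  rw [← X.Qj_adj T, Algebra.adjoin_range_eq_range_aeval] at hf
  obtain ⟨Q, hQ⟩ := hf
  exact ⟨Q, hQ.symm⟩

theorem Qj_unit {f g : K} (hf : f ∈ X.kM) (hg : g ∈ X.kM) (h : f * g = 1) :
    ∃ c : k, c ≠ 0 ∧ f = algebraMap k K c := by
  have hM : AlgebraicIndependent k X.M := by
    have := X.ind.comp Sum.inl Sum.inl_injective
    exact this
  unfold kM at hf hg
  rw [Algebra.adjoin_range_eq_range_aeval] at hf hg
  obtain ⟨P, rfl⟩ := hf
  obtain ⟨Q, rfl⟩ := hg
  have h1 : P * Q = 1 := by
    apply hM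
    rw [map_mul, map_one]
    exact h
  have h2 : IsUnit P := IsUnit.of_mul_eq_one _ h1
  obtain ⟨c, hc, rfl⟩ := MvPolynomial.isUnit_iff_eq_C_of_isReduced.mp h2
  refine ⟨c, hc.ne_zero, ?_⟩
  exact MvPolynomial.aeval_C _ _

theorem dr_tb (R : X.Dr N) : IsTranscendenceBasis k (fun j => Sum.elim X.M X.x (R.e j)) :=
  X.Qj_tb.comp_equiv R.e

theorem Qj_tb_co (R : X.Dr N) (T : Set κ) :
    IsTranscendenceBasis k (fun j => Sum.elim (X.co T) X.x (R.e j)) :=
  (X.Qj_tb' T).comp_equiv R.e

theorem co_jac [CharZero k] (R : X.Dr N) (T : Set κ) :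
    ∃ c : k, c ≠ 0 ∧
      jac R.D (fun j => Sum.elim (X.co T) X.x (R.e j)) = algebraMap k K c := by
  have hne := Ten.jac_ne _ (X.dr_tb R) R.D R.dual _ (X.Qj_tb_co R T).1
  obtain ⟨E, hE1, hE2, hE3⟩ := Ten.dual R.D (fun j => Sum.elim (X.co T) X.x (R.e j)) hne
  have h1 := hE3 (fun j => Sum.elim X.M X.x (R.e j))
  rw [Ten.jac_dual R.D _ R.dual] at h1
  refine X.Qj_unit ?_ ?_ h1.symm
  · refine Qj.det_mem _ _ fun i j => ?_
    rw [Matrix.of_apply]
    beta_reduce
    rcases hj : R.e j with s | r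
    · rw [Sum.elim_inl]
      refine Qj.der_adjoin (R.D i) (Set.range X.M) X.kM le_rfl ?_ _ (X.co_mem_kM T s)
      rintro _ ⟨t, rfl⟩
      have h2 := R.dual i (R.e.symm (Sum.inl t))
      rw [Equiv.apply_symm_apply, Sum.elim_inl] at h2
      rw [h2]
      split_ifs
      · exact X.kM.one_mem
      · exact zero_mem _
    · have h2 := R.dual i j
      rw [hj, Sum.elim_inr] at h2
      rw [Sum.elim_inr, h2]
      split_ifs
      · exact X.kM.one_mem
      · exact zero_mem _
  · refine Qj.det_mem _ _ fun i j => ?_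
    rw [Matrix.of_apply]
    beta_reduce
    rcases hj : R.e j with s | r
    · rw [Sum.elim_inl]
      have hs : X.M s ∈ Algebra.adjoin k (Set.range (X.co T)) := X.co_gen T s
      refine Qj.der_adjoin (E i) (Set.range (X.co T)) X.kM (X.Qj_adj T).le ?_ _ hs
      rintro _ ⟨t, rfl⟩
      have h2 := hE1 i (R.e.symm (Sum.inl t))
      rw [Equiv.apply_symm_apply, Sum.elim_inl] at h2
      rw [h2]
      split_ifs
      · exact X.kM.one_mem
      · exact zero_mem _
    · have h2 := hE1 i j
      rw [hj, Sum.elim_inr] at h2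
      rw [Sum.elim_inr, h2]
      split_ifs
      · exact X.kM.one_mem
      · exact zero_mem _

/-- Jacobian determinant of adapted coordinates and monomials -/
theorem co_jac_mon [CharZero k] (R : X.Dr N) (T : Set κ) (U : Matrix (Fin m) (Fin m) ℤ) :
    ∃ c : k, c ≠ 0 ∧
      jac R.D (fun j => Sum.elim (X.co T) (fun i => X.mon (U i)) (R.e j)) =
        algebraMap k K c * (U.det : K) * ∏ i, (X.mon (U i) * (X.x i)⁻¹) := by
  obtain ⟨c, hc, hjc⟩ := X.co_jac R T
  refine ⟨c, hc, ?_⟩
  have hne := Ten.jac_ne _ (X.dr_tb R) R.D R.dual _ (X.Qj_tb_co R T).1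
  obtain ⟨E, hE1, hE2, hE3⟩ := Ten.dual R.D (fun j => Sum.elim (X.co T) X.x (R.e j)) hne
  have hx : ∀ i, X.x i ≠ 0 := fun i => X.ind.ne_zero (Sum.inr i)
  rw [hE3, hjc, mul_assoc]
  congr 1
  -- the matrix of the monomials with respect to the dual derivations
  have h1 : ∀ (a b : σ ⊕ Fin m), E (R.e.symm a) (Sum.elim (X.co T) (fun i => X.mon (U i)) b) =
      Matrix.fromBlocks (1 : Matrix σ σ K) 0 0
        (Matrix.of fun t r : Fin m => X.mon (U r) * ((U r t : K) * (X.x t)⁻¹)) a b := by
    have hx' : ∀ (a : σ ⊕ Fin m) (t : Fin m), E (R.e.symm a) (X.x t) =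
        if a = Sum.inr t then 1 else 0 := by
      intro a t
      have h2 := hE1 (R.e.symm a) (R.e.symm (Sum.inr t))
      rw [Equiv.apply_symm_apply, Sum.elim_inr] at h2
      rw [h2]
      simp only [EmbeddingLike.apply_eq_iff_eq]
    have hco : ∀ (a : σ ⊕ Fin m) (t : σ), E (R.e.symm a) (X.co T t) =
        if a = Sum.inl t then 1 else 0 := by
      intro a t
      have h2 := hE1 (R.e.symm a) (R.e.symm (Sum.inl t))
      rw [Equiv.apply_symm_apply, Sum.elim_inl] at h2
      rw [h2]
      simp only [EmbeddingLike.apply_eq_iff_eq]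
    have hmon : ∀ (a : σ ⊕ Fin m) (u : Fin m → ℤ), E (R.e.symm a) (X.mon u) =
        X.mon u * ∑ t, (u t : K) * (X.x t)⁻¹ * (if a = Sum.inr t then 1 else 0) := by
      intro a u
      unfold HD.mon
      rw [Qj.der_prod _ _ hx]
      simp only [hx']
    rintro (a | a) (b | b)
    · rw [Sum.elim_inl, hco, Matrix.fromBlocks_apply₁₁, Matrix.one_apply]
      simp only [Sum.inl.injEq]
    · rw [Sum.elim_inr, hmon, Matrix.fromBlocks_apply₁₂, Matrix.zero_apply]
      simp
    · rw [Sum.elim_inl, hco, Matrix.fromBlocks_apply₂₁, Matrix.zero_apply]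
      simp
    · rw [Sum.elim_inr, hmon, Matrix.fromBlocks_apply₂₂, Matrix.of_apply]
      simp
  have h2 : (Matrix.of fun i j => E i (Sum.elim (X.co T) (fun i => X.mon (U i)) (R.e j))) =
      (Matrix.fromBlocks (1 : Matrix σ σ K) 0 0
        (Matrix.of fun t r : Fin m => X.mon (U r) * ((U r t : K) * (X.x t)⁻¹))).submatrix
          R.e R.e := by
    ext i j
    rw [Matrix.of_apply, Matrix.submatrix_apply, ← h1, Equiv.symm_apply_apply]
  unfold jac
  rw [h2, Matrix.det_submatrix_equiv_self, Matrix.det_fromBlocks_zero₂₁, Matrix.det_one, one_mul]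
  have h3 : (Matrix.of fun t r : Fin m => X.mon (U r) * ((U r t : K) * (X.x t)⁻¹)) =
      Matrix.diagonal (fun t => (X.x t)⁻¹) * ((U.map (fun z : ℤ => (z : K))).transpose *
        Matrix.diagonal (fun r => X.mon (U r))) := by
    ext t r
    rw [Matrix.of_apply, Matrix.diagonal_mul, Matrix.mul_diagonal, Matrix.transpose_apply,
      Matrix.map_apply]
    ring
  rw [h3, Matrix.det_mul, Matrix.det_mul, Matrix.det_diagonal, Matrix.det_diagonal,
    Matrix.det_transpose, Finset.prod_mul_distrib]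
  have h4 : (U.map (fun z : ℤ => (z : K))).det = (U.det : K) := by
    have := (Int.castRingHom K).map_det U
    rw [RingHom.mapMatrix_apply] at this
    exact this.symm
  rw [h4]
  ring

end QJ

end HD

end HD

end

end Pool.Agent.MLD.H
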