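import Pool.Agent.Lib.MP_f23696_ag.H.Ctx

/-!
HORO module ZB: integral bases adapted to a saturated set of degrees.
-/

set_option autoImplicit false

namespace Pool.Agent.MLD.H

open scoped Classical
noncomputable section

universe u v

namespace Zb

/-- the subgroup generated by `τ` -/
def LL {m : ℕ} (τ : Set (Fin m → ℤ)) (h0 : 0 ∈ τ) (hadd : ∀ u ∈ τ, ∀ t ∈ τ, u + t ∈ τ) :
    AddSubgroup (Fin m → ℤ) where
  carrier := {z | ∃ a ∈ τ, ∃ b ∈ τ, z = a - b}
  zero_mem' := ⟨0, h0, 0, h0, by simp⟩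
  add_mem' := by
    rintro _ _ ⟨a, ha, b, hb, rfl⟩ ⟨c, hc, d, hd, rfl⟩
    exact ⟨a + c, hadd a ha c hc, b + d, hadd b hb d hd, by abel⟩
  neg_mem' := by
    rintro _ ⟨a, ha, b, hb, rfl⟩
    exact ⟨b, hb, a, ha, by abel⟩

/-- cast to rational vectors -/
def castL (m : ℕ) : (Fin m → ℤ) →ₗ[ℤ] (Fin m → ℚ) where
  toFun u i := (u i : ℚ)
  map_add' u t := by
    funext i
    simp
  map_smul' c u := by
    funext i
    simp

theorem castL_inj (m : ℕ) : Function.Injective (castL m) := by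
  intro u t h
  funext i
  have h1 : ((u i : ℤ) : ℚ) = ((t i : ℤ) : ℚ) := congrFun h i
  exact_mod_cast h1

end Zb

theorem zbasis {m : ℕ} (τ : Set (Fin m → ℤ)) (h0 : 0 ∈ τ) (hadd : ∀ u ∈ τ, ∀ t ∈ τ, u + t ∈ τ)
    (hsat : ∀ (u : Fin m → ℤ) (N : ℕ), 1 ≤ N → N • u ∈ {z | ∃ a ∈ τ, ∃ b ∈ τ, z = a - b} →
      ∃ a ∈ τ, ∃ b ∈ τ, u = a - b) :
    ∃ (U V : Matrix (Fin m) (Fin m) ℤ) (I : Finset (Fin m)), U * V = 1 ∧ V * U = 1 ∧
      I.card = HD.rk τ ∧ (∀ i ∈ I, ∃ a ∈ τ, ∃ b ∈ τ, U i = a - b) ∧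
      ∀ u ∈ τ, ∀ i ∉ I, (Matrix.vecMul u V) i = 0 := by
  set L : Submodule ℤ (Fin m → ℤ) := AddSubgroup.toIntSubmodule (Zb.LL τ h0 hadd) with hL
  have memL : ∀ z : Fin m → ℤ, z ∈ L ↔ ∃ a ∈ τ, ∃ b ∈ τ, z = a - b := fun z => Iff.rfl
  have memτ : ∀ u ∈ τ, u ∈ L := fun u hu => ⟨u, hu, 0, h0, by simp⟩
  obtain ⟨n, snf⟩ := L.smithNormalForm (Pi.basisFun ℤ (Fin m))
  have hsnf := snf.snf
  -- the basis vectors belong to L
  have hb : ∀ i : Fin n, snf.bM (snf.f i) ∈ L := by
    intro i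
    have ha : snf.a i ≠ 0 := by
      intro h
      have h1 := hsnf i
      rw [h, zero_smul] at h1
      have h2 : snf.bN i = 0 := by
        apply Subtype.ext
        exact h1
      exact snf.bN.ne_zero i h2
    have h1 : snf.a i • snf.bM (snf.f i) ∈ L := by
      rw [← hsnf i]
      exact (snf.bN i).2
    have h2 : ((snf.a i).natAbs : ℤ) • snf.bM (snf.f i) ∈ L := by
      rcases Int.natAbs_eq (snf.a i) with h | h
      · rw [← h]
        exact h1
      · have h3 : ((snf.a i).natAbs : ℤ) = -(snf.a i) := by omega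
        rw [h3, neg_smul]
        exact L.neg_mem h1
    rw [natCast_zsmul] at h2
    obtain ⟨a, ha', b, hb', hab⟩ := hsat _ _ (Int.natAbs_pos.mpr ha) ((memL _).1 h2)
    exact ⟨a, ha', b, hb', hab⟩
  set U : Matrix (Fin m) (Fin m) ℤ := fun i => snf.bM i with hU
  set V : Matrix (Fin m) (Fin m) ℤ := fun i j => snf.bM.repr (Pi.single i 1) j with hV
  have hVU : V * U = 1 := by
    ext i j
    rw [Matrix.mul_apply]
    have h1 := congrFun (snf.bM.sum_repr (Pi.single i (1 : ℤ))) j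
    rw [Finset.sum_apply] at h1
    simp only [Pi.smul_apply, smul_eq_mul] at h1
    rw [h1, Matrix.one_apply, Pi.single_apply]
    simp [eq_comm]
  have hUV : U * V = 1 := mul_eq_one_comm.mp hVU
  have hrepr : ∀ (u : Fin m → ℤ) (i : Fin m), (Matrix.vecMul u V) i = snf.bM.repr u i := by
    intro u i
    have h1 : u = ∑ j, u j • (Pi.single j (1 : ℤ) : Fin m → ℤ) := by
      funext l
      rw [Finset.sum_apply]
      simp [Pi.single_apply]
    conv_rhs => rw [h1]
    rw [map_sum, Finsupp.finsetSum_apply, Matrix.vecMul, dotProduct]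
    refine Finset.sum_congr rfl fun j _ => ?_
    rw [map_smul, Finsupp.smul_apply, smul_eq_mul]
  refine ⟨U, V, Finset.univ.map snf.f, hUV, hVU, ?_, ?_, ?_⟩
  · rw [Finset.card_map, Finset.card_univ, Fintype.card_fin]
    unfold HD.rk
    set w : Fin n → (Fin m → ℚ) := fun i => Zb.castL m (snf.bM (snf.f i)) with hw
    have hli : LinearIndependent ℚ w := by
      rw [← LinearIndependent.iff_fractionRing ℤ ℚ]
      have h1 : LinearIndependent ℤ (fun i => snf.bM (snf.f i)) :=
        snf.bM.linearIndependent.comp snf.f snf.f.injective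
      exact h1.map' (Zb.castL m) (LinearMap.ker_eq_bot.mpr (Zb.castL_inj m))
    have hspan : Submodule.span ℚ {x : Fin m → ℚ | ∃ u ∈ τ, x = fun i => (u i : ℚ)} =
        Submodule.span ℚ (Set.range w) := by
      apply le_antisymm
      · rw [Submodule.span_le]
        rintro _ ⟨u, hu, rfl⟩
        have h1 : u = ∑ i, snf.bM.repr u i • snf.bM i := (snf.bM.sum_repr u).symm
        have h2 : (fun i => (u i : ℚ)) = Zb.castL m u := rfl
        rw [h2, h1, map_sum]
        refine Submodule.sum_mem _ fun i _ => ?_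
        rw [map_smul]
        by_cases hi : i ∈ Set.range snf.f
        · obtain ⟨j, rfl⟩ := hi
          have h3 : snf.bM.repr u (snf.f j) • Zb.castL m (snf.bM (snf.f j)) =
              ((snf.bM.repr u (snf.f j) : ℤ) : ℚ) • w j := by
            rw [Int.cast_smul_eq_zsmul]
          rw [h3]
          exact Submodule.smul_mem _ _ (Submodule.subset_span ⟨j, rfl⟩)
        · have h3 : snf.bM.repr u i = 0 :=
            snf.repr_eq_zero_of_notMem_range ⟨u, memτ u hu⟩ hi
          rw [h3, zero_smul]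
          exact Submodule.zero_mem _
      · rw [Submodule.span_le]
        rintro _ ⟨i, rfl⟩
        obtain ⟨a, ha, b, hb', hab⟩ := (memL _).1 (hb i)
        have h1 : w i = (fun j => (a j : ℚ)) - fun j => (b j : ℚ) := by
          funext j
          have : w i j = ((snf.bM (snf.f i) j : ℤ) : ℚ) := rfl
          rw [this, hab]
          simp
        rw [h1]
        exact Submodule.sub_mem _ (Submodule.subset_span ⟨a, ha, rfl⟩)
          (Submodule.subset_span ⟨b, hb', rfl⟩)
    rw [hspan, finrank_span_eq_card hli, Fintype.card_fin]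
  · intro i hi
    rw [Finset.mem_map] at hi
    obtain ⟨j, _, rfl⟩ := hi
    exact (memL _).1 (hb j)
  · intro u hu i hi
    rw [hrepr]
    apply snf.repr_eq_zero_of_notMem_range ⟨u, memτ u hu⟩
    rintro ⟨j, rfl⟩
    exact hi (Finset.mem_map.mpr ⟨j, Finset.mem_univ _, rfl⟩)

end

end Pool.Agent.MLD.H
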