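import Pool.Agent.Lib.MP_f23696_ag.H.Fac
import Pool.Agent.Lib.MP_f23696_ag.H.Qj
import Pool.Agent.Lib.MP_f23696_ag.H.Zb
import Pool.Agent.Lib.MP_f23696_ag.JacLog

/-!
Lower bound for the form order of a valuation with a given centre (module LOW of project HORO).
-/

set_option autoImplicit false

namespace Pool.Agent.MLD.H

open scoped Classical
open Pool.Agent.MLD.Ten (IsGood)
noncomputable section

universe u v

section HD
variable {k : Type u} [Field k] {K : Type v} [Field K] [Algebra k K]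
  {σ κ : Type} [Fintype σ] [Fintype κ] {m : ℕ} (X : HD k K σ κ m)

namespace HD

section LOW
variable {N : ℕ}

/-- the differences of the elements of `tau` form a saturated set -/
theorem Low.sat_tau (hA : IsGood X.A) (τ : Set (Fin m → ℤ)) (hτ : X.IsFace τ)
    (u : Fin m → ℤ) (n : ℕ) (hn : 1 ≤ n)
    (h : n • u ∈ {z | ∃ a ∈ τ, ∃ b ∈ τ, z = a - b}) : ∃ a ∈ τ, ∃ b ∈ τ, u = a - b := by
  obtain ⟨a, ha, b, hb, hab⟩ := h
  have hmul : ∀ (q : ℕ) (t : Fin m → ℤ), t ∈ τ → q • t ∈ τ := by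
    intro q t ht
    induction q with
    | zero => rw [zero_smul]; exact hτ.zero
    | succ q ih => rw [succ_nsmul]; exact hτ.add _ ih _ ht
  obtain ⟨q, rfl⟩ : ∃ q, n = q + 1 := ⟨n - 1, by omega⟩
  have h1 : (q + 1) • (u + b) = a + q • b := by
    rw [smul_add, hab, succ_nsmul b q]
    abel
  have h2 : (q + 1) • (u + b) ∈ τ := by
    rw [h1]
    exact hτ.add _ ha _ (hmul q b hb)
  have h3 : u + b ∈ X.Γ := X.sat hA (u + b) (q + 1) (by omega) (hτ.le _ h2)
  have h4 : u + b ∈ τ := by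
    refine hτ.of_add (u + b) h3 (q • (u + b)) (X.Γ.nsmul_mem h3 q) ?_
    have : u + b + q • (u + b) = (q + 1) • (u + b) := by rw [succ_nsmul]; abel
    rw [this]
    exact h2
  exact ⟨u + b, h4, b, hb, by abel⟩

/-- a vanishing entry makes the Jacobian determinant vanish -/
theorem Low.ne_zero {n : ℕ} (D : Fin n → Derivation k K K) (b : Fin n → K) (h : jac D b ≠ 0)
    (i : Fin n) : b i ≠ 0 := by
  intro h0
  apply h
  unfold jac
  refine Matrix.det_eq_zero_of_column_eq_zero i fun r => ?_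
  rw [Matrix.of_apply, h0, map_zero]

/-- changing the entries by constants does not change the Jacobian determinant -/
theorem Low.jac_congr {n : ℕ} (D : Fin n → Derivation k K K) (a b : Fin n → K)
    (h : ∀ i, ∃ c : k, b i = a i - algebraMap k K c) : jac D b = jac D a := by
  unfold jac
  congr 1
  ext r i
  obtain ⟨c, hc⟩ := h i
  rw [Matrix.of_apply, Matrix.of_apply, hc, map_sub, Derivation.map_algebraMap, sub_zero]

theorem low0 [IsAlgClosed k] [CharZero k] (R : X.Dr N) (hA : IsGood X.A)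
    (x : MaximalSpectrum X.A) (v : DVal k K) (hv : v.HasCenter X.A x.asIdeal) (w : Fin m → ℤ)
    (hw : ∀ u, v.ord (X.mon u) = w ⬝ᵥ u)
    (hmin : ∀ u ∈ X.Γ, ∀ a ∈ X.comp u, a ≠ 0 → w ⬝ᵥ u ≤ v.ord a) (j : ℤ)
    (hj : v.FormOrd R.D j) : ∑ i, w i + (X.dd (X.tau x.asIdeal) : ℤ) ≤ 1 + j := by
  have hface : X.IsFace (X.tau x.asIdeal) := X.tau_isFace x.asIdeal x.isMaximal.isPrime
  have hpos : ∀ u ∈ X.Γ, 0 ≤ w ⬝ᵥ u := by
    intro u hu
    rw [← hw]
    exact hv.1 ⟨X.mon u, X.mem_A hu (X.mon_mem hu)⟩ (X.mon_ne u)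
  have hzero : ∀ u ∈ X.tau x.asIdeal, w ⬝ᵥ u = 0 := by
    rintro u ⟨hu, a, ha, hax⟩
    refine le_antisymm ?_ (hpos u hu)
    have h1 : ¬ v.Small (a : K) := fun h => hax ((hv.2 a).2 h)
    unfold DVal.Small at h1
    push Not at h1
    exact (hmin u hu a ha h1.1).trans h1.2
  have hmon : ∀ u ∈ X.tau x.asIdeal, ∃ h : X.mon u ∈ X.A,
      (⟨X.mon u, h⟩ : X.A) ∉ x.asIdeal := by
    intro u hu
    refine ⟨X.mem_A hu.1 (X.mon_mem hu.1), fun h => ?_⟩
    have h1 := (hv.2 _).1 h (X.mon_ne u)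
    have h2 : v.ord (X.mon u) = 0 := by rw [hw, hzero u hu]
    change 0 < v.ord (X.mon u) at h1
    omega
  have hS : ∀ (c : κ) (f : K), f ∈ X.S c → v.Integral f := by
    intro c f hf hf0
    obtain ⟨u, hu, hc⟩ := X.Λ_pos c
    have h1 := hmin u hu _ (X.S_mem hu (by omega) hf) (mul_ne_zero hf0 (X.mon_ne u))
    rw [v.ord_mul _ _ hf0 (X.mon_ne u), hw] at h1
    omega
  obtain ⟨U, V, I, hUV, hVU, hcard, hI, hout⟩ := zbasis (X.tau x.asIdeal) hface.zero hface.add
    (fun u n hn h => Low.sat_tau X hA _ hface u n hn h)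
  set T := X.kinds (X.tau x.asIdeal) with hT
  -- the values
  have hval : ∀ s, ∃ c : k, v.Integral (X.co T s - algebraMap k K c) ∧
      (s ∈ X.sub T → v.Small (X.co T s - algebraMap k K c)) := by
    intro s
    by_cases hs : s ∈ X.sub T
    · obtain ⟨c, hc, hcs⟩ := X.co_mem T s hs
      obtain ⟨c', hc'⟩ := X.S_val x hmon c hc _ hcs
      have h1 := X.valAt_ord x.asIdeal v hv _ _ hc'
      refine ⟨c', ?_, fun _ => h1.2⟩
      intro h0
      exact (h1.2 h0).le
    · refine ⟨0, ?_, fun h => absurd h hs⟩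
      rw [map_zero, sub_zero, X.co_out T s hs]
      obtain ⟨c, -, hc⟩ := X.M_mem s
      exact hS c _ hc
  choose c hc using hval
  have hval2 : ∀ i, ∃ c : k, (i ∈ I → v.Small (X.mon (U i) - algebraMap k K c)) ∧
      (i ∉ I → c = 0) := by
    intro i
    by_cases hi : i ∈ I
    · obtain ⟨a, ha, b, hb, hab⟩ := hI i hi
      obtain ⟨ha', ha2⟩ := hmon a ha
      obtain ⟨hb', hb2⟩ := hmon b hb
      obtain ⟨d, hd⟩ := X.exists_val x ⟨_, ha'⟩ ⟨_, hb'⟩ hb2
      refine ⟨d, fun _ => ?_, fun h => absurd hi h⟩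
      have h1 : X.mon (U i) = X.mon a / X.mon b := by
        rw [hab, sub_eq_add_neg, X.mon_add, X.mon_neg, div_eq_mul_inv]
      rw [h1]
      exact (X.valAt_ord x.asIdeal v hv _ _ hd).2
    · exact ⟨0, fun h => absurd h hi, fun _ => rfl⟩
  choose d hd hd0 using hval2
  set a : σ ⊕ Fin m → K := Sum.elim (X.co T) (fun i => X.mon (U i)) with ha
  set e : σ ⊕ Fin m → k := Sum.elim c d with he
  set b : σ ⊕ Fin m → K := fun s => a s - algebraMap k K (e s) with hb
  obtain ⟨c', hc', hjac⟩ := X.co_jac_mon R T U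
  have hdet : U.det = 1 ∨ U.det = -1 := by
    have : U.det * V.det = 1 := by rw [← Matrix.det_mul, hUV, Matrix.det_one]
    exact Int.isUnit_iff.1 (IsUnit.of_mul_eq_one _ this)
  have hdetK : (U.det : K) ≠ 0 := by
    rcases hdet with h | h <;> rw [h] <;> simp
  have hdet0 : v.ord (U.det : K) = 0 := by
    have h1 : ((U.det : ℤ) : K) = algebraMap k K ((U.det : ℤ) : k) := by simp
    rw [h1]
    refine v.ord_algebraMap _ ?_
    rcases hdet with h | h <;> rw [h] <;> simp
  have hc'K : algebraMap k K c' ≠ 0 := by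
    rwa [Ne, map_eq_zero]
  have hterm : ∀ i, X.mon (U i) * (X.x i)⁻¹ ≠ 0 := fun i =>
    mul_ne_zero (X.mon_ne _) (inv_ne_zero (X.x_ne i))
  have hx : ∀ i, v.ord (X.x i) = w i := by
    intro i
    have h1 : X.mon (Pi.single i 1) = X.x i := by
      unfold HD.mon
      rw [Finset.prod_eq_single i]
      · rw [Pi.single_eq_same, zpow_one]
      · intro l _ hl
        rw [Pi.single_eq_of_ne hl, zpow_zero]
      · intro h
        exact absurd (Finset.mem_univ i) h
    rw [← h1, hw]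
    simp
  have hjb : jac R.D (fun l => b (R.e l)) = jac R.D (fun l => a (R.e l)) :=
    Low.jac_congr _ _ _ fun i => ⟨e (R.e i), rfl⟩
  have hjne : jac R.D (fun l => b (R.e l)) ≠ 0 := by
    rw [hjb, hjac]
    exact mul_ne_zero (mul_ne_zero hc'K hdetK) (Finset.prod_ne_zero_iff.2 fun i _ => hterm i)
  have hjord : v.ord (jac R.D (fun l => b (R.e l))) = ∑ i, w ⬝ᵥ U i - ∑ i, w i := by
    rw [hjb, hjac, v.ord_mul _ _ (mul_ne_zero hc'K hdetK)
      (Finset.prod_ne_zero_iff.2 fun i _ => hterm i), v.ord_mul _ _ hc'K hdetK,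
      v.ord_algebraMap c' hc', hdet0, Jac.ord_prod v _ _ (fun i _ => hterm i),
      ← Finset.sum_sub_distrib, zero_add, zero_add]
    refine Finset.sum_congr rfl fun i _ => ?_
    rw [v.ord_mul _ _ (X.mon_ne _) (inv_ne_zero (X.x_ne i)), hw, Jac.ord_inv v _ (X.x_ne i), hx]
    ring
  have hbne : ∀ l, b l ≠ 0 := by
    intro l
    have h1 := Low.ne_zero R.D _ hjne (R.e.symm l)
    simpa using h1
  have hlog := log_ineq v R.D j hj _ (fun l => hbne (R.e l)) hjne
  rw [hjord] at hlog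
  have hsum : ∑ l, v.ord (b (R.e l)) = ∑ s : σ, v.ord (b (Sum.inl s)) +
      ∑ i : Fin m, v.ord (b (Sum.inr i)) := by
    rw [Equiv.sum_comp R.e (fun l => v.ord (b l)), Fintype.sum_sum_type]
  have hs1 : ((X.sub T).ncard : ℤ) ≤ ∑ s : σ, v.ord (b (Sum.inl s)) := by
    have h1 : ((X.sub T).ncard : ℤ) = ∑ s : σ, (if s ∈ X.sub T then (1 : ℤ) else 0) := by
      rw [Finset.sum_boole, Set.ncard_eq_toFinset_card']
      congr 1
      congr 1
      ext s
      simp
    rw [h1]
    refine Finset.sum_le_sum fun s _ => ?_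
    split_ifs with hs
    · exact (hc s).2 hs (hbne (Sum.inl s))
    · exact (hc s).1 (hbne (Sum.inl s))
  have hs2 : (I.card : ℤ) + ∑ i, w ⬝ᵥ U i ≤ ∑ i : Fin m, v.ord (b (Sum.inr i)) := by
    have h1 : (I.card : ℤ) = ∑ i : Fin m, (if i ∈ I then (1 : ℤ) else 0) := by
      rw [Finset.sum_boole]
      simp
    rw [h1, ← Finset.sum_add_distrib]
    refine Finset.sum_le_sum fun i _ => ?_
    split_ifs with hi
    · obtain ⟨a', ha', b', hb', hab⟩ := hI i hi
      have h2 : w ⬝ᵥ U i = 0 := by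
        rw [hab, dotProduct_sub, hzero a' ha', hzero b' hb', sub_zero]
      rw [h2, add_zero]
      exact hd i hi (hbne (Sum.inr i))
    · have h2 : b (Sum.inr i) = X.mon (U i) := by
        simp only [hb, ha, he, Sum.elim_inr, hd0 i hi, map_zero, sub_zero]
      rw [h2, hw, zero_add]
  rw [hsum] at hlog
  have hdd : (X.dd (X.tau x.asIdeal) : ℤ) = I.card + (X.sub T).ncard := by
    unfold HD.dd
    rw [← hcard]
    push_cast
    rfl
  rw [hdd]
  linarith

end LOW

end HD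

end HD

end

end Pool.Agent.MLD.H
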