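import Pool.Agent.Lib.MP_f23696_ag.H.Ctx
import Pool.Agent.Lib.MP_f23696_ag.Phi1
import Pool.Agent.Lib.MP_f23696_ag.T.Der

/-!
# HORO, module MV: monomial valuations
-/

set_option autoImplicit false

namespace Pool.Agent.MLD.H

open scoped Classical
open Pool.Agent.MLD.Ten (IsGood)
noncomputable section

universe u v

/-! ### MV: monomial valuations -/
section MV
variable {k : Type u} [Field k] {K : Type v} [Field K] [Algebra k K]

namespace MV

open Pool.Agent.MLD.Jac Pool.Agent.MLD.Ten

/-- maps of a purely transcendental field -/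
theorem exists_lift {n : ℕ} (b : Fin n → K) (hb : AlgebraicIndependent k b)
    (hg : IntermediateField.adjoin k (Set.range b) = ⊤) {T : Type v} [CommRing T] [Algebra k T]
    (c : Fin n → T) (hc : ∀ F : MvPolynomial (Fin n) k, F ≠ 0 → IsUnit (MvPolynomial.aeval c F)) :
    ∃ Φ : K →ₐ[k] T, ∀ i, Φ (b i) = c i := by
  let _ : Algebra (MvPolynomial (Fin n) k) K := (MvPolynomial.aeval b).toRingHom.toAlgebra
  have hmap : ∀ F : MvPolynomial (Fin n) k, algebraMap (MvPolynomial (Fin n) k) K F =
      MvPolynomial.aeval b F := fun F => rfl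
  have : IsScalarTower k (MvPolynomial (Fin n) k) K := IsScalarTower.of_algebraMap_eq fun x => by
    rw [hmap, MvPolynomial.algebraMap_eq, MvPolynomial.aeval_C]
  have hinj : Function.Injective (algebraMap (MvPolynomial (Fin n) k) K) := hb
  have : FaithfulSMul (MvPolynomial (Fin n) k) K := (faithfulSMul_iff_algebraMap_injective _ _).2 hinj
  have : IsFractionRing (MvPolynomial (Fin n) k) K := IsFractionRing.of_field _ _ fun z => by
    have hz : z ∈ IntermediateField.adjoin k (Set.range b) := by rw [hg]; trivial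
    obtain ⟨p, q, h⟩ := (IntermediateField.mem_adjoin_range_iff k b z).1 hz
    exact ⟨p, q, h⟩
  let Φ : K →ₐ[k] T := IsLocalization.liftAlgHom (M := nonZeroDivisors (MvPolynomial (Fin n) k))
    (f := MvPolynomial.aeval c) fun y => hc _ (nonZeroDivisors.coe_ne_zero y)
  refine ⟨Φ, fun i => ?_⟩
  have h1 : b i = algebraMap (MvPolynomial (Fin n) k) K (MvPolynomial.X i) := by
    rw [hmap, MvPolynomial.aeval_X]
  rw [h1]
  refine (IsLocalization.lift_eq _ (MvPolynomial.X i)).trans ?_
  exact MvPolynomial.aeval_X _ _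

theorem quot {n : ℕ} (b : Fin n → K) (hg : IntermediateField.adjoin k (Set.range b) = ⊤) (x : K) :
    ∃ P Q : MvPolynomial (Fin n) k, x = MvPolynomial.aeval b P / MvPolynomial.aeval b Q := by
  have hz : x ∈ IntermediateField.adjoin k (Set.range b) := by rw [hg]; trivial
  exact (IntermediateField.mem_adjoin_range_iff k b x).1 hz

end MV

/-- existence of the dual derivations of a generating system -/
theorem exists_dual {n : ℕ} (b : Fin n → K) (hb : AlgebraicIndependent k b)
    (hg : IntermediateField.adjoin k (Set.range b) = ⊤) :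
    ∃ E : Fin n → Derivation k K K, ∀ i j, E i (b j) = if i = j then 1 else 0 := by
  suffices h : ∀ i, ∃ D : Derivation k K K, ∀ j, D (b j) = if i = j then 1 else 0 by
    choose E hE using h
    exact ⟨E, hE⟩
  intro i
  let T := TrivSqZeroExt K K
  let c : Fin n → T := fun j =>
    TrivSqZeroExt.inl (b j) + TrivSqZeroExt.inr (if i = j then 1 else 0)
  let g : MvPolynomial (Fin n) k →ₐ[k] T := MvPolynomial.aeval c
  have hg1 : ∀ p : MvPolynomial (Fin n) k, (g p).fst = MvPolynomial.aeval b p := by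
    intro p
    have h : (TrivSqZeroExt.fstHom k K K).comp g = MvPolynomial.aeval b := by
      apply MvPolynomial.algHom_ext
      intro j
      change TrivSqZeroExt.fst (MvPolynomial.aeval c (MvPolynomial.X j)) =
        MvPolynomial.aeval b (MvPolynomial.X j)
      rw [MvPolynomial.aeval_X, MvPolynomial.aeval_X, TrivSqZeroExt.fst_add,
        TrivSqZeroExt.fst_inl, TrivSqZeroExt.fst_inr, add_zero]
    exact congrArg (fun f => f p) h
  have hu : ∀ F : MvPolynomial (Fin n) k, F ≠ 0 → IsUnit (MvPolynomial.aeval c F) := by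
    intro F hF
    change IsUnit (g F)
    rw [TrivSqZeroExt.isUnit_iff_isUnit_fst, hg1]
    exact isUnit_iff_ne_zero.2 fun h => hF ((injective_iff_map_eq_zero _).1 hb F h)
  obtain ⟨h, hh⟩ := MV.exists_lift b hb hg c hu
  have hh' : ∀ p : MvPolynomial (Fin n) k, h (MvPolynomial.aeval b p) = g p := by
    intro p
    have h1 : h.comp (MvPolynomial.aeval b) = g := by
      apply MvPolynomial.algHom_ext
      intro j
      change h (MvPolynomial.aeval b (MvPolynomial.X j)) = MvPolynomial.aeval c (MvPolynomial.X j)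
      rw [MvPolynomial.aeval_X, MvPolynomial.aeval_X, hh]
    exact congrArg (fun f => f p) h1
  have hf : ∀ x : K, (h x).fst = x := by
    intro x
    have h1 : ((TrivSqZeroExt.fstHom k K K).comp h) x = x := by
      obtain ⟨P, Q, rfl⟩ := MV.quot b hg x
      rw [map_div₀]
      congr 1
      · change (h (MvPolynomial.aeval b P)).fst = _
        rw [hh', hg1]
      · change (h (MvPolynomial.aeval b Q)).fst = _
        rw [hh', hg1]
    exact h1
  have hadd : ∀ a b : K, (h (a + b)).snd = (h a).snd + (h b).snd := by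
    intro a b
    rw [map_add]
    exact TrivSqZeroExt.snd_add _ _
  have hsmul : ∀ (c : k) (x : K), (h (c • x)).snd = c • (h x).snd := by
    intro c x
    rw [map_smul]
    exact TrivSqZeroExt.snd_smul _ _
  refine ⟨Derivation.mk' ⟨⟨fun x => (h x).snd, hadd⟩, hsmul⟩ ?_, ?_⟩
  · intro a b
    change (h (a * b)).snd = a • (h b).snd + b • (h a).snd
    rw [map_mul]
    refine (TrivSqZeroExt.snd_mul (h a) (h b)).trans ?_
    rw [hf, hf]
    simp only [smul_eq_mul, MulOpposite.smul_eq_mul_unop, MulOpposite.unop_op]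
    ring
  · intro j
    change (h (b j)).snd = _
    rw [hh]
    change (TrivSqZeroExt.inl (b j) + TrivSqZeroExt.inr (if i = j then 1 else 0) : T).snd = _
    rw [TrivSqZeroExt.snd_add, TrivSqZeroExt.snd_inl, TrivSqZeroExt.snd_inr, zero_add]

namespace MV

open Pool.Agent.MLD.Jac Pool.Agent.MLD.Ten

section Mono

variable {n : ℕ} (b : Fin (n + 1) → K) (ω : Fin (n + 1) → ℤ)

/-- the monomials -/
def mn (b : Fin (n + 1) → K) (α : Fin (n + 1) →₀ ℕ) : K := ∏ i, b i ^ α i

/-- the weight of a monomial -/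
def wt (ω : Fin (n + 1) → ℤ) (α : Fin (n + 1) →₀ ℕ) : ℤ := ∑ i, ω i * (α i : ℤ)

theorem aeval_eq {L : Type v} [CommRing L] [Algebra k L] (c : Fin (n + 1) → L)
    (F : MvPolynomial (Fin (n + 1)) k) :
    MvPolynomial.aeval c F = ∑ α ∈ F.support, algebraMap k L (F.coeff α) * ∏ i, c i ^ α i := by
  rw [MvPolynomial.aeval_def, MvPolynomial.eval₂_eq']

theorem single_pow_prod (α : Fin (n + 1) →₀ ℕ) :
    ∏ i, (HahnSeries.single (ω i) (b i) : HahnSeries ℤ K) ^ α i =
      HahnSeries.single (wt ω α) (mn b α) := by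
  have key : ∀ s : Finset (Fin (n + 1)),
      ∏ i ∈ s, (HahnSeries.single (ω i) (b i) : HahnSeries ℤ K) ^ α i =
      HahnSeries.single (∑ i ∈ s, ω i * (α i : ℤ)) (∏ i ∈ s, b i ^ α i) := by
    intro s
    induction s using Finset.induction_on with
    | empty => simp
    | insert i s hi ih =>
      rw [Finset.prod_insert hi, ih, Finset.prod_insert hi, Finset.sum_insert hi,
        HahnSeries.single_pow, HahnSeries.single_mul_single]
      congr 2
      rw [nsmul_eq_mul, mul_comm]
  exact key _

theorem single_zpow_prod (e : Fin (n + 1) → ℤ) :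
    ∏ i, (HahnSeries.single (ω i) (b i) : LaurentSeries K) ^ e i =
      HahnSeries.single (∑ i, e i * ω i) (∏ i, b i ^ e i) := by
  have key : ∀ s : Finset (Fin (n + 1)),
      ∏ i ∈ s, (HahnSeries.single (ω i) (b i) : LaurentSeries K) ^ e i =
      HahnSeries.single (∑ i ∈ s, e i * ω i) (∏ i ∈ s, b i ^ e i) := by
    intro s
    induction s using Finset.induction_on with
    | empty => simp
    | insert i s hi ih =>
      have h1 : (HahnSeries.single (ω i) (b i) : LaurentSeries K) ^ e i =
          HahnSeries.single (e i * ω i) (b i ^ e i) := by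
        obtain ⟨r, hr | hr⟩ := (e i).eq_nat_or_neg
        · rw [hr, zpow_natCast, HahnSeries.single_pow, zpow_natCast, nsmul_eq_mul]
        · rw [hr, zpow_neg, zpow_natCast, HahnSeries.single_pow, HahnSeries.inv_single, zpow_neg,
            zpow_natCast, nsmul_eq_mul, neg_mul]
      rw [Finset.prod_insert hi, ih, Finset.prod_insert hi, Finset.sum_insert hi, h1,
        HahnSeries.single_mul_single]
  exact key _

theorem algMap (c : k) :
    algebraMap k (LaurentSeries K) c = HahnSeries.single 0 (algebraMap k K c) := by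
  rw [HahnSeries.algebraMap_apply', PowerSeries.algebraMap_apply, HahnSeries.ofPowerSeries_C]
  rfl

theorem coeff_fsum {ι : Type*} (s : Finset ι) (f : ι → LaurentSeries K) (i : ℤ) :
    (∑ j ∈ s, f j).coeff i = ∑ j ∈ s, (f j).coeff i := by
  induction s using Finset.induction_on with
  | empty => simp
  | insert j s hj ih => rw [Finset.sum_insert hj, Finset.sum_insert hj, HahnSeries.coeff_add, ih]

theorem coeff_aeval (F : MvPolynomial (Fin (n + 1)) k) (N : ℤ) :
    (MvPolynomial.aeval (fun i => (HahnSeries.single (ω i) (b i) : LaurentSeries K)) F).coeff N =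
      ∑ α ∈ F.support with wt ω α = N, algebraMap k K (F.coeff α) * mn b α := by
  rw [aeval_eq, coeff_fsum, Finset.sum_filter]
  refine Finset.sum_congr rfl fun α _ => ?_
  have h1 : algebraMap k (LaurentSeries K) (F.coeff α) *
      ∏ i, (HahnSeries.single (ω i) (b i) : LaurentSeries K) ^ α i =
      HahnSeries.single (wt ω α) (algebraMap k K (F.coeff α) * mn b α) := by
    rw [algMap]
    have h2 := single_pow_prod b ω α
    have h3 : ∏ i, (HahnSeries.single (ω i) (b i) : LaurentSeries K) ^ α i =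
      HahnSeries.single (wt ω α) (mn b α) := h2
    rw [h3, HahnSeries.single_mul_single, zero_add]
  rw [h1]
  split_ifs with h
  · rw [← h, HahnSeries.coeff_single_same]
  · rw [HahnSeries.coeff_single_of_ne]
    exact fun h' => h h'.symm

variable {b} (hb : AlgebraicIndependent k b)
include hb

theorem b_ne (i : Fin (n + 1)) : b i ≠ 0 := hb.ne_zero i

theorem part_ne (F : MvPolynomial (Fin (n + 1)) k) (S : Finset (Fin (n + 1) →₀ ℕ))
    (hS : S ⊆ F.support) (hne : S.Nonempty) :
    ∑ α ∈ S, algebraMap k K (F.coeff α) * mn b α ≠ 0 := by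
  let G : MvPolynomial (Fin (n + 1)) k := ∑ α ∈ S, MvPolynomial.monomial α (F.coeff α)
  have h1 : MvPolynomial.aeval b G = ∑ α ∈ S, algebraMap k K (F.coeff α) * mn b α := by
    rw [map_sum]
    refine Finset.sum_congr rfl fun α _ => ?_
    rw [MvPolynomial.aeval_monomial, Finsupp.prod_fintype _ _ fun i => pow_zero _]
    rfl
  rw [← h1]
  intro h0
  have h2 : G = 0 := (injective_iff_map_eq_zero _).1 hb G h0
  obtain ⟨α, hα⟩ := hne
  have h3 : G.coeff α = F.coeff α := by
    rw [MvPolynomial.coeff_sum, Finset.sum_eq_single α]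
    · rw [MvPolynomial.coeff_monomial, if_pos rfl]
    · intro β _ hβ
      rw [MvPolynomial.coeff_monomial, if_neg hβ]
    · exact fun h => absurd hα h
  rw [h2, MvPolynomial.coeff_zero] at h3
  exact MvPolynomial.mem_support_iff.1 (hS hα) h3.symm

/-- the order of the image of a polynomial -/
theorem order_aeval (F : MvPolynomial (Fin (n + 1)) k) (hF : F ≠ 0) :
    MvPolynomial.aeval (fun i => (HahnSeries.single (ω i) (b i) : LaurentSeries K)) F ≠ 0 ∧
    (∀ α ∈ F.support,
      (MvPolynomial.aeval (fun i => (HahnSeries.single (ω i) (b i) : LaurentSeries K)) F).order ≤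
        wt ω α) ∧
    ∃ α ∈ F.support,
      (MvPolynomial.aeval (fun i => (HahnSeries.single (ω i) (b i) : LaurentSeries K)) F).order =
        wt ω α := by
  set f := MvPolynomial.aeval (fun i => (HahnSeries.single (ω i) (b i) : LaurentSeries K)) F
  have hne : F.support.Nonempty := by
    rw [Finset.nonempty_iff_ne_empty]
    exact fun h => hF (MvPolynomial.support_eq_empty.1 h)
  have h1 : ∀ α ∈ F.support, f.coeff (wt ω α) ≠ 0 := by
    intro α hα
    rw [coeff_aeval]
    exact part_ne hb F _ (Finset.filter_subset _ _) ⟨α, Finset.mem_filter.2 ⟨hα, rfl⟩⟩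
  have h2 : f ≠ 0 := by
    obtain ⟨α, hα⟩ := hne
    intro h
    exact h1 α hα (by rw [h]; rfl)
  refine ⟨h2, fun α hα => HahnSeries.order_le_of_coeff_ne_zero (h1 α hα), ?_⟩
  have h3 : f.coeff f.order ≠ 0 := fun h => h2 (HahnSeries.coeff_order_eq_zero.1 h)
  rw [coeff_aeval] at h3
  obtain ⟨α, hα, -⟩ := Finset.exists_ne_zero_of_sum_ne_zero h3
  rw [Finset.mem_filter] at hα
  exact ⟨α, hα.1, hα.2.symm⟩

theorem exists_val [CharZero k] (hg : IntermediateField.adjoin k (Set.range b) = ⊤)
    (hω : ∃ t : Fin (n + 1) → ℤ, ∑ i, ω i * t i = 1) :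
    ∃ (Φ : K →ₐ[k] LaurentSeries K) (v : DVal k K),
      (∀ i, Φ (b i) = HahnSeries.single (ω i) (b i)) ∧ ∀ a, a ≠ 0 → v.ord a = (Φ a).order := by
  obtain ⟨Φ, hΦ⟩ := exists_lift (T := LaurentSeries K) b hb hg
    (fun i => (HahnSeries.single (ω i) (b i) : LaurentSeries K)) fun F hF =>
      isUnit_iff_ne_zero.2 (order_aeval ω hb F hF).1
  obtain ⟨t, ht⟩ := hω
  obtain ⟨v, hv⟩ := exists_dval Φ ⟨∏ i, b i ^ t i,
    Finset.prod_ne_zero_iff.2 fun i _ => zpow_ne_zero _ (b_ne hb i), by
      rw [map_prod]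
      have h1 : ∏ i, Φ (b i ^ t i) =
          ∏ i, (HahnSeries.single (ω i) (b i) : LaurentSeries K) ^ t i :=
        Finset.prod_congr rfl fun i _ => by rw [map_zpow₀, hΦ]
      rw [h1, single_zpow_prod, HahnSeries.order_single]
      · rw [← ht]
        exact Finset.sum_congr rfl fun i _ => mul_comm _ _
      · exact Finset.prod_ne_zero_iff.2 fun i _ => zpow_ne_zero _ (b_ne hb i)⟩
  exact ⟨Φ, v, hΦ, hv⟩

end Mono

theorem LB_of_mul (v : DVal k K) {s x : K} (hs : s ≠ 0) {N : ℤ}
    (h : LB v (v.ord s + N) (s * x)) : LB v N x := by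
  intro hx
  have h1 := h (mul_ne_zero hs hx)
  rw [v.ord_mul s x hs hx] at h1
  omega

theorem ord_int [CharZero k] (v : DVal k K) {m : ℤ} (hm : m ≠ 0) :
    ((m : ℤ) : K) ≠ 0 ∧ v.ord ((m : ℤ) : K) = 0 := by
  have h1 : ((m : ℤ) : K) = algebraMap k K (m : k) := by simp
  have h2 : (m : k) ≠ 0 := Int.cast_ne_zero.2 hm
  rw [h1]
  exact ⟨(map_ne_zero_iff _ (algebraMap k K).injective).2 h2, v.ord_algebraMap _ h2⟩

theorem LB_int [CharZero k] (v : DVal k K) (m : ℤ) : LB v 0 ((m : ℤ) : K) := by
  intro h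
  have hm : m ≠ 0 := by
    rintro rfl
    simp at h
  rw [(ord_int v hm).2]

section Eul

variable {n : ℕ} {b : Fin (n + 1) → K} {E : Fin (n + 1) → Derivation k K K}
    (hE : ∀ i j, E i (b j) = if i = j then 1 else 0) (hne : ∀ i, b i ≠ 0)
include hE hne

theorem euler (e : Fin (n + 1) → ℤ) (i : Fin (n + 1)) :
    b i * E i (∏ j, b j ^ e j) = ((e i : ℤ) : K) * ∏ j, b j ^ e j := by
  have key : ∀ s : Finset (Fin (n + 1)), b i * E i (∏ j ∈ s, b j ^ e j) =
      (if i ∈ s then ((e i : ℤ) : K) else 0) * ∏ j ∈ s, b j ^ e j := by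
    intro s
    induction s using Finset.induction_on with
    | empty => simp
    | insert a s ha ih =>
      rw [Finset.prod_insert ha, Derivation.leibniz, smul_eq_mul, smul_eq_mul, mul_add,
        mul_left_comm, ih, Derivation.leibniz_zpow, hE]
      by_cases hia : i = a
      · subst hia
        rw [if_pos rfl, if_neg ha, if_pos (Finset.mem_insert_self _ _)]
        have h1 : b i ^ e i = b i ^ (e i - 1) * b i := by
          rw [← zpow_add_one₀ (hne i), sub_add_cancel]
        rw [h1]
        simp only [zsmul_eq_mul, smul_eq_mul, mul_one, zero_mul, mul_zero, zero_add]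
        ring
      · rw [if_neg hia]
        have h2 : (i ∈ insert a s) = (i ∈ s) := by
          simp [Finset.mem_insert, hia]
        simp only [h2, smul_zero, mul_zero, add_zero]
        ring
  have := key Finset.univ
  rwa [if_pos (Finset.mem_univ _)] at this

theorem euler_poly (F : MvPolynomial (Fin (n + 1)) k) (i : Fin (n + 1)) :
    b i * E i (MvPolynomial.aeval b F) =
      ∑ α ∈ F.support, (((α i : ℤ)) : K) * (algebraMap k K (F.coeff α) * mn b α) := by
  rw [aeval_eq, map_sum, Finset.mul_sum]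
  refine Finset.sum_congr rfl fun α _ => ?_
  have h1 : ∏ j, b j ^ α j = ∏ j, b j ^ ((α j : ℤ)) :=
    Finset.prod_congr rfl fun j _ => (zpow_natCast _ _).symm
  rw [Derivation.leibniz, Derivation.map_algebraMap, smul_zero, add_zero, smul_eq_mul,
    mul_left_comm, h1, euler hE hne (fun j => (α j : ℤ)) i, mn, h1]
  ring

end Eul

/-- bounds for derivations, from polynomials to quotients -/
theorem der_quot {n : ℕ} {b : Fin n → K} (hg : IntermediateField.adjoin k (Set.range b) = ⊤)
    (v : DVal k K) (T : Derivation k K K) (s : ℤ) (g : ℤ →+ K)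
    (h : ∀ F : MvPolynomial (Fin n) k, MvPolynomial.aeval b F ≠ 0 →
      LB v (v.ord (MvPolynomial.aeval b F) + s)
        (T (MvPolynomial.aeval b F) - g (v.ord (MvPolynomial.aeval b F)) * MvPolynomial.aeval b F))
    (x : K) (hx : x ≠ 0) : LB v (v.ord x + s) (T x - g (v.ord x) * x) := by
  obtain ⟨P, Q, hPQ⟩ := quot b hg x
  set p := MvPolynomial.aeval b P with hp
  set q := MvPolynomial.aeval b Q with hq
  have hq0 : q ≠ 0 := by
    intro h0
    rw [h0, div_zero] at hPQ
    exact hx hPQ
  have hp0 : p ≠ 0 := by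
    intro h0
    rw [h0, zero_div] at hPQ
    exact hx hPQ
  have hx2 : x * q = p := by rw [hPQ, div_mul_cancel₀ _ hq0]
  have h1 : v.ord p = v.ord x + v.ord q := by rw [← hx2, v.ord_mul x q hx hq0]
  refine LB_of_mul v hq0 ?_
  have h2 : T p = x * T q + q * T x := by
    rw [← hx2, Derivation.leibniz, smul_eq_mul, smul_eq_mul]
  have h3 : q * (T x - g (v.ord x) * x) =
      (T p - g (v.ord p) * p) - x * (T q - g (v.ord q) * q) := by
    rw [h2, h1, map_add, ← hx2]
    ring
  rw [h3]
  have h4 := h P hp0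
  have h5 := (LB_self v x).mul (h Q hq0)
  refine Ten.LB_sub v ?_ ?_
  · refine h4.mono ?_
    rw [← hp, h1]
    omega
  · refine h5.mono ?_
    rw [← hq]
    omega

section Fin

variable [CharZero k] {n : ℕ} {b : Fin (n + 1) → K} (ω : Fin (n + 1) → ℤ) (v : DVal k K)
    (key : ∀ F : MvPolynomial (Fin (n + 1)) k, F ≠ 0 →
        (∀ α ∈ F.support, v.ord (MvPolynomial.aeval b F) ≤ wt ω α) ∧
        ∃ α ∈ F.support, v.ord (MvPolynomial.aeval b F) = wt ω α)
include key

omit [CharZero k] in
theorem mono_LB (α : Fin (n + 1) →₀ ℕ) (c : k) : LB v (wt ω α) (algebraMap k K c * mn b α) := by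
  by_cases hc : c = 0
  · rw [hc, map_zero, zero_mul]
    exact LB.zero v _
  have h1 : MvPolynomial.aeval b (MvPolynomial.monomial α c) = algebraMap k K c * mn b α := by
    rw [MvPolynomial.aeval_monomial, Finsupp.prod_fintype _ _ fun i => pow_zero _]
    rfl
  have h2 : MvPolynomial.monomial α c ≠ 0 := fun h => hc (MvPolynomial.monomial_eq_zero.1 h)
  obtain ⟨β, hβ, hβ'⟩ := (key _ h2).2
  have h3 : β = α := by
    have h4 := MvPolynomial.support_monomial_subset hβ
    exact Finset.mem_singleton.1 h4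
  intro _
  rw [← h1, hβ', h3]

theorem lin_LB (hne : ∀ i, b i ≠ 0) {E : Fin (n + 1) → Derivation k K K}
    (hE : ∀ i j, E i (b j) = if i = j then 1 else 0) (i : Fin (n + 1))
    (hg : IntermediateField.adjoin k (Set.range b) = ⊤) (x : K) (hx : x ≠ 0) :
    LB v (v.ord x) (b i * E i x) := by
  have h := der_quot hg v (b i • E i) 0 0 (fun F hF => ?_) x hx
  · simpa using h
  · have hF0 : F ≠ 0 := by
      rintro rfl
      simp at hF
    have h1 : (b i • E i) (MvPolynomial.aeval b F) = b i * E i (MvPolynomial.aeval b F) := rfl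
    rw [h1, euler_poly hE hne, AddMonoidHom.zero_apply, zero_mul, sub_zero, add_zero]
    refine LB.sum _ _ fun α hα => ?_
    have h2 := (LB_int v (α i : ℤ)).mul (mono_LB ω v key α (F.coeff α))
    exact h2.mono (by rw [zero_add]; exact (key F hF0).1 α hα)

theorem wt_LB (hne : ∀ i, b i ≠ 0) {E : Fin (n + 1) → Derivation k K K}
    (hE : ∀ i j, E i (b j) = if i = j then 1 else 0)
    (hg : IntermediateField.adjoin k (Set.range b) = ⊤) (x : K) (hx : x ≠ 0) :
    LB v (v.ord x + 1) (∑ i, ((ω i : ℤ) : K) * (b i * E i x) - ((v.ord x : ℤ) : K) * x) := by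
  have h := der_quot hg v (∑ i, ((ω i : ℤ) : K) • (b i • E i)) 1 (Int.castAddHom K)
    (fun F hF => ?_) x hx
  · have h1 : (∑ i, ((ω i : ℤ) : K) • (b i • E i)) x = ∑ i, ((ω i : ℤ) : K) * (b i * E i x) := by
      rw [Der.sum_apply]
      rfl
    rw [h1] at h
    exact h
  · have hF0 : F ≠ 0 := by
      rintro rfl
      simp at hF
    set N := v.ord (MvPolynomial.aeval b F) with hN
    have h1 : (∑ i, ((ω i : ℤ) : K) • (b i • E i)) (MvPolynomial.aeval b F) =
        ∑ i, ((ω i : ℤ) : K) * (b i * E i (MvPolynomial.aeval b F)) := by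
      rw [Der.sum_apply]
      rfl
    have h2 : ∑ i, ((ω i : ℤ) : K) * (b i * E i (MvPolynomial.aeval b F)) =
        ∑ α ∈ F.support, ((wt ω α : ℤ) : K) * (algebraMap k K (F.coeff α) * mn b α) := by
      simp only [euler_poly hE hne, Finset.mul_sum]
      rw [Finset.sum_comm]
      refine Finset.sum_congr rfl fun α _ => ?_
      rw [wt]
      push_cast
      rw [Finset.sum_mul]
      exact Finset.sum_congr rfl fun i _ => by ring
    have h3 : Int.castAddHom K N * MvPolynomial.aeval b F =
        ∑ α ∈ F.support, ((N : ℤ) : K) * (algebraMap k K (F.coeff α) * mn b α) := by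
      conv_lhs => rw [aeval_eq]
      rw [Finset.mul_sum]
      rfl
    rw [h1, h2, h3, ← Finset.sum_sub_distrib]
    refine LB.sum _ _ fun α hα => ?_
    rw [← sub_mul, ← Int.cast_sub]
    by_cases hw : wt ω α = N
    · rw [hw, sub_self, Int.cast_zero, zero_mul]
      exact LB.zero v _
    · have h4 := (LB_int v (wt ω α - N)).mul (mono_LB ω v key α (F.coeff α))
      have h5 := (key F hF0).1 α hα
      exact h4.mono (by omega)

theorem jac_LB (hne : ∀ i, b i ≠ 0) {E : Fin (n + 1) → Derivation k K K}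
    (hE : ∀ i j, E i (b j) = if i = j then 1 else 0)
    (hg : IntermediateField.adjoin k (Set.range b) = ⊤) (i0 : Fin (n + 1)) (hi0 : ω i0 ≠ 0)
    (a : Fin (n + 1) → K) (ha : ∀ i, v.Integral (a i)) :
    LB v 1 (Matrix.det (Matrix.of fun i j => b i * E i (a j))) := by
  set Θ : Matrix (Fin (n + 1)) (Fin (n + 1)) K := Matrix.of fun i j => b i * E i (a j) with hΘ
  have h1 : ∀ i j, v.Integral (Θ i j) := by
    intro i j
    change LB v 0 (b i * E i (a j))
    by_cases h0 : a j = 0
    · rw [h0, map_zero, mul_zero]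
      exact LB.zero v _
    · exact (lin_LB ω v key hne hE i hg (a j) h0).mono (ha j h0)
  have h2 : ∀ j, LB v 1 (∑ i, ((ω i : ℤ) : K) * Θ i j) := by
    intro j
    change LB v 1 (∑ i, ((ω i : ℤ) : K) * (b i * E i (a j)))
    by_cases h0 : a j = 0
    · rw [h0]
      simp only [map_zero, mul_zero, Finset.sum_const_zero]
      exact LB.zero v _
    · have h3 := wt_LB ω v key hne hE hg (a j) h0
      have h4 : 0 ≤ v.ord (a j) := ha j h0
      have h5 : LB v 1 (((v.ord (a j) : ℤ) : K) * a j) := by
        rcases h4.eq_or_lt with h6 | h6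
        · rw [← h6, Int.cast_zero, zero_mul]
          exact LB.zero v _
        · exact ((LB_int v (v.ord (a j))).mul (LB_self v (a j))).mono (by omega)
      have h6 := (h3.mono (show 1 ≤ v.ord (a j) + 1 by omega)).add h5
      rwa [sub_add_cancel] at h6
  have h3 : v.Small (Matrix.det (Θ.updateRow i0 (∑ i, ((ω i : ℤ) : K) • Θ i))) := by
    refine det_small v _ ?_ i0 ?_
    · intro i j
      by_cases hi : i = i0
      · subst hi
        rw [Matrix.updateRow_self]
        have h4 := h2 j
        have h5 : (∑ i, ((ω i : ℤ) : K) • Θ i) j = ∑ i, ((ω i : ℤ) : K) * Θ i j := by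
          rw [Finset.sum_apply]
          rfl
        rw [h5]
        exact h4.mono zero_le_one
      · rw [Matrix.updateRow_ne hi]
        exact h1 i j
    · intro j
      rw [Matrix.updateRow_self]
      have h5 : (∑ i, ((ω i : ℤ) : K) • Θ i) j = ∑ i, ((ω i : ℤ) : K) * Θ i j := by
        rw [Finset.sum_apply]
        rfl
      rw [h5]
      exact h2 j
  rw [Matrix.det_updateRow_sum, smul_eq_mul] at h3
  refine LB_of_mul v (ord_int v hi0).1 ?_
  rw [(ord_int v hi0).2, zero_add]
  exact h3

end Fin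

theorem aeval_C {n : ℕ} (t : Fin n → K) (F : MvPolynomial (Fin n) k) :
    MvPolynomial.aeval (fun i => (HahnSeries.single 0 (t i) : LaurentSeries K)) F =
      HahnSeries.single 0 (MvPolynomial.aeval t F) := by
  induction F using MvPolynomial.induction_on with
  | C c => rw [MvPolynomial.algHom_C, MvPolynomial.algHom_C, algMap]
  | add p q hp hq =>
    rw [map_add, map_add, hp, hq]
    exact (map_add (HahnSeries.C : K →+* HahnSeries ℤ K) _ _).symm
  | mul_X p i hp =>
    rw [map_mul, map_mul, hp, MvPolynomial.aeval_X, MvPolynomial.aeval_X,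
      HahnSeries.single_mul_single, zero_add]

/-- exponents of a frame -/
def ex {n : ℕ} (ω t : Fin (n + 1) → ℤ) (i0 : Fin (n + 1)) (j l : Fin (n + 1)) : ℤ :=
  if j = i0 then t l else (if l = j then ω i0 else 0) - (if l = i0 then ω j else 0)

theorem ex_wt {n : ℕ} (ω t : Fin (n + 1) → ℤ) (ht : ∑ i, ω i * t i = 1) (i0 j : Fin (n + 1)) :
    ∑ l, ex ω t i0 j l * ω l = if j = i0 then 1 else 0 := by
  unfold ex
  split_ifs with h
  · rw [← ht]
    exact Finset.sum_congr rfl fun l _ => mul_comm _ _
  · simp only [sub_mul, ite_mul, zero_mul, Finset.sum_sub_distrib, Finset.sum_ite_eq',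
      Finset.mem_univ, if_true]
    ring

theorem ex_det {n : ℕ} (ω t : Fin (n + 1) → ℤ) (ht : ∑ i, ω i * t i = 1) (i0 : Fin (n + 1))
    (hi0 : ω i0 ≠ 0) :
    Matrix.det (Matrix.of fun i j => ex ω t i0 j i) ≠ 0 := by
  intro h0
  obtain ⟨x, hx, hx0⟩ := Matrix.exists_vecMul_eq_zero_iff.2 h0
  have h1 : ∀ j, ∑ i, x i * ex ω t i0 j i = 0 := by
    intro j
    have := congrFun hx0 j
    simpa [Matrix.vecMul, dotProduct] using this
  have h2 : ∀ j, ω i0 * x j = ω j * x i0 := by
    intro j
    by_cases hj : j = i0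
    · rw [hj]
    · have h3 := h1 j
      simp only [ex, if_neg hj, mul_sub, mul_ite, mul_zero, Finset.sum_sub_distrib,
        Finset.sum_ite_eq', Finset.mem_univ, if_true] at h3
      linear_combination h3
  have h3 := h1 i0
  simp only [ex, if_true] at h3
  have h4 : x i0 = 0 := by
    have h5 : ω i0 * ∑ i, x i * t i = (∑ i, ω i * t i) * x i0 := by
      rw [Finset.mul_sum, Finset.sum_mul]
      refine Finset.sum_congr rfl fun i _ => ?_
      linear_combination t i * h2 i
    rw [h3, ht, mul_zero, one_mul] at h5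
    exact h5.symm
  apply hx
  funext j
  have h5 := h2 j
  rw [h4, mul_zero] at h5
  exact (mul_eq_zero.1 h5).resolve_left hi0

end MV

theorem mono_val [CharZero k] {n : ℕ} (b : Fin (n + 1) → K) (hb : AlgebraicIndependent k b)
    (hg : IntermediateField.adjoin k (Set.range b) = ⊤) (E : Fin (n + 1) → Derivation k K K)
    (hE : ∀ i j, E i (b j) = if i = j then 1 else 0) (ω : Fin (n + 1) → ℤ)
    (hω : ∃ t : Fin (n + 1) → ℤ, ∑ i, ω i * t i = 1) :
    ∃ v : DVal k K, v.IsDivisorial n ∧ v.FormOrd E (∑ i, ω i - 1) ∧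
      ∀ F : MvPolynomial (Fin (n + 1)) k, F ≠ 0 →
        (∀ α ∈ F.support, v.ord (MvPolynomial.aeval b F) ≤ ∑ i, ω i * (α i : ℤ)) ∧
        ∃ α ∈ F.support, v.ord (MvPolynomial.aeval b F) = ∑ i, ω i * (α i : ℤ) := by
  have hne : ∀ i, b i ≠ 0 := MV.b_ne hb
  obtain ⟨Φ, v, hΦ, hv⟩ := MV.exists_val ω hb hg hω
  have hΦa : ∀ F : MvPolynomial (Fin (n + 1)) k, Φ (MvPolynomial.aeval b F) =
      MvPolynomial.aeval (fun i => (HahnSeries.single (ω i) (b i) : LaurentSeries K)) F := by
    intro F
    have h : Φ.comp (MvPolynomial.aeval b) =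
        MvPolynomial.aeval (fun i => (HahnSeries.single (ω i) (b i) : LaurentSeries K)) := by
      apply MvPolynomial.algHom_ext
      intro i
      change Φ (MvPolynomial.aeval b (MvPolynomial.X i)) = _
      rw [MvPolynomial.aeval_X, MvPolynomial.aeval_X, hΦ]
    exact congrArg (fun f => f F) h
  have key : ∀ F : MvPolynomial (Fin (n + 1)) k, F ≠ 0 →
      (∀ α ∈ F.support, v.ord (MvPolynomial.aeval b F) ≤ MV.wt ω α) ∧
      ∃ α ∈ F.support, v.ord (MvPolynomial.aeval b F) = MV.wt ω α := by
    intro F hF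
    have h1 : MvPolynomial.aeval b F ≠ 0 := fun h =>
      hF ((injective_iff_map_eq_zero _).1 hb F h)
    have h2 := MV.order_aeval ω hb F hF
    rw [← hΦa, ← hv _ h1] at h2
    exact h2.2
  obtain ⟨t, ht⟩ := hω
  have hi0 : ∃ i0, ω i0 ≠ 0 := by
    by_contra hc
    push Not at hc
    simp [hc] at ht
  obtain ⟨i0, hi0⟩ := hi0
  -- the frame
  let a : Fin (n + 1) → K := fun j => ∏ l, b l ^ MV.ex ω t i0 j l
  have ha0 : ∀ j, a j ≠ 0 := fun j =>
    Finset.prod_ne_zero_iff.2 fun i _ => zpow_ne_zero _ (hne i)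
  have hΦj : ∀ j, Φ (a j) = HahnSeries.single (if j = i0 then 1 else 0) (a j) := by
    intro j
    rw [map_prod]
    have h1 : ∏ i, Φ (b i ^ MV.ex ω t i0 j i) =
        ∏ i, (HahnSeries.single (ω i) (b i) : LaurentSeries K) ^ MV.ex ω t i0 j i :=
      Finset.prod_congr rfl fun i _ => by rw [map_zpow₀, hΦ]
    rw [h1, MV.single_zpow_prod, MV.ex_wt ω t ht]
  have hva : ∀ j, v.ord (a j) = if j = i0 then 1 else 0 := by
    intro j
    rw [hv _ (ha0 j), hΦj, HahnSeries.order_single (ha0 j)]
  have haI : ∀ j, v.Integral (a j) := by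
    intro j _
    rw [hva]
    split_ifs
    · exact zero_le_one
    · exact le_rfl
  -- the Jacobian of the frame
  have hvb : ∀ i, v.ord (b i) = ω i := by
    intro i
    rw [hv _ (hne i), hΦ, HahnSeries.order_single (hne i)]
  have hprod : ∏ i, b i ≠ 0 := Finset.prod_ne_zero_iff.2 fun i _ => hne i
  have hvprod : v.ord (∏ i, b i) = ∑ i, ω i := by
    rw [Jac.ord_prod v _ _ fun i _ => hne i]
    exact Finset.sum_congr rfl fun i _ => hvb i
  have hdet : ∀ c : Fin (n + 1) → K, Matrix.det (Matrix.of fun i j => b i * E i (c j)) =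
      (∏ i, b i) * jac E c := fun c => Matrix.det_mul_column b (Matrix.of fun i j => E i (c j))
  have hCZ : CharZero K := charZero_of_injective_algebraMap (algebraMap k K).injective
  have hJ : (∏ i, b i) * jac E a ≠ 0 ∧ v.ord ((∏ i, b i) * jac E a) = 1 := by
    have h1 : (Matrix.of fun i j => b i * E i (a j)) =
        Matrix.of fun i j => a j * ((Matrix.of fun i j => MV.ex ω t i0 j i).map
          fun x : ℤ => (x : K)) i j := by
      ext i j
      change b i * E i (∏ l, b l ^ MV.ex ω t i0 j l) = a j * ((MV.ex ω t i0 j i : ℤ) : K)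
      rw [MV.euler hE hne]
      exact mul_comm _ _
    have h2 : ((Matrix.of fun i j => MV.ex ω t i0 j i).map fun x : ℤ => (x : K)).det =
        ((Matrix.det (Matrix.of fun i j => MV.ex ω t i0 j i) : ℤ) : K) :=
      (Int.cast_det _).symm
    have h3 := MV.ord_int v (MV.ex_det ω t ht i0 hi0)
    have h4 : ∏ j, a j ≠ 0 := Finset.prod_ne_zero_iff.2 fun j _ => ha0 j
    rw [← hdet, h1, Matrix.det_mul_row, h2]
    refine ⟨mul_ne_zero h4 h3.1, ?_⟩
    rw [v.ord_mul _ _ h4 h3.1, h3.2, add_zero, Jac.ord_prod v _ _ fun i _ => ha0 i]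
    simp only [hva, Finset.sum_ite_eq', Finset.mem_univ, if_true]
  have hJa : jac E a ≠ 0 := right_ne_zero_of_mul hJ.1
  have hJv : v.ord (jac E a) = -(∑ i, ω i - 1) := by
    have h1 := hJ.2
    rw [v.ord_mul _ _ hprod hJa, hvprod] at h1
    linarith
  refine ⟨v, ?_, ⟨?_, a, haI, hJa, hJv⟩, key⟩
  · refine ⟨fun j => a (i0.succAbove j), fun j => haI _, ?_⟩
    intro F hF hs
    have h1 : AlgebraicIndependent k fun j => a (i0.succAbove j) :=
      (jac_indep E a hJa).comp _ i0.succAbove_right_injective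
    have h2 : MvPolynomial.aeval (fun j => a (i0.succAbove j)) F ≠ 0 := fun h =>
      hF ((injective_iff_map_eq_zero _).1 h1 F h)
    have h3 := hs h2
    have h4 : Φ (MvPolynomial.aeval (fun j => a (i0.succAbove j)) F) =
        HahnSeries.single 0 (MvPolynomial.aeval (fun j => a (i0.succAbove j)) F) := by
      rw [← MV.aeval_C]
      have h5 : Φ.comp (MvPolynomial.aeval fun j => a (i0.succAbove j)) =
          MvPolynomial.aeval
            (fun j => (HahnSeries.single 0 (a (i0.succAbove j)) : LaurentSeries K)) := by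
        apply MvPolynomial.algHom_ext
        intro j
        change Φ (MvPolynomial.aeval (fun j => a (i0.succAbove j)) (MvPolynomial.X j)) = _
        rw [MvPolynomial.aeval_X, MvPolynomial.aeval_X, hΦj, if_neg (i0.succAbove_ne j)]
      exact congrArg (fun f => f F) h5
    rw [hv _ h2, h4, HahnSeries.order_single h2] at h3
    exact lt_irrefl _ h3
  · intro c hc hJc
    have h1 := MV.jac_LB ω v key hne hE hg i0 hi0 c hc
    rw [hdet] at h1
    have h2 := h1 (mul_ne_zero hprod hJc)
    rw [v.ord_mul _ _ hprod hJc, hvprod] at h2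
    linarith

end MV

end

end Pool.Agent.MLD.H
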