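import Pool.Agent.Lib.MP_f23696_ag.H.Fac
import Pool.Agent.Lib.MP_f23696_ag.H.Qj
import Pool.Agent.Lib.MP_f23696_ag.H.Zb
import Pool.Agent.Lib.MP_f23696_ag.H.Mv
import Pool.Agent.Lib.MP_f23696_ag.H.Inv
import Pool.Agent.Lib.MP_f23696_ag.T.Val
import Pool.Agent.Lib.MP_f23696_ag.T.Der

/-!
Upper bound for log discrepancies on horospherical varieties (project HORO, module UP).
-/

set_option autoImplicit false

namespace Pool.Agent.MLD.H

open scoped Classical
open Pool.Agent.MLD.Ten (IsGood)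
open Pool.Agent.MLD.Jac (LB)
noncomputable section

universe u v

namespace Up

variable {k : Type u} [Field k] {K : Type v} [Field K] [Algebra k K]
  {σ κ : Type} [Fintype σ] [Fintype κ] {m : ℕ} (X : HD k K σ κ m)

/-! ### integer weights with their greatest common divisor taken out -/

theorem gcd_weights {ι : Type} [Fintype ι] (ω : ι → ℤ) (h : ∃ i, ω i ≠ 0) :
    ∃ (n : ℕ) (ω' : ι → ℤ), 1 ≤ n ∧ (∀ i, ω i = n * ω' i) ∧ ∃ t : ι → ℤ, ∑ i, ω' i * t i = 1 := by
  let I : Ideal ℤ := Ideal.span (Set.range ω)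
  obtain ⟨d, hd⟩ := (inferInstance : I.IsPrincipal)
  have hd' : I = Ideal.span {(d.natAbs : ℤ)} := by
    rw [hd, Ideal.submodule_span_eq, Int.span_natAbs]
  have hmem : ∀ i, (d.natAbs : ℤ) ∣ ω i := by
    intro i
    rw [← Ideal.mem_span_singleton, ← hd']
    exact Ideal.subset_span ⟨i, rfl⟩
  have hdm : (d.natAbs : ℤ) ∈ I := by
    rw [hd']
    exact Ideal.subset_span rfl
  obtain ⟨t, ht⟩ := (Submodule.mem_span_range_iff_exists_fun ℤ).1 hdm
  choose ω' hω' using hmem
  have hd0 : (d.natAbs : ℤ) ≠ 0 := by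
    intro h0
    obtain ⟨i, hi⟩ := h
    apply hi
    rw [hω' i, h0, zero_mul]
  refine ⟨d.natAbs, ω', by omega, hω', t, ?_⟩
  apply mul_left_cancel₀ hd0
  rw [mul_one, Finset.mul_sum]
  conv_rhs => rw [← ht]
  refine Finset.sum_congr rfl fun i _ => ?_
  rw [smul_eq_mul, hω' i]
  ring

/-! ### values at a point and residues -/

section Ok

variable (y : Ideal X.A) (v : DVal k K)

/-- `c` is the value of `f` at `y` and the residue of `f` at `v` -/
def Ok (f : K) (c : k) : Prop := X.ValAt y f c ∧ v.Small (f - algebraMap k K c)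

variable {X y v}

theorem Ok.const [y.IsPrime] (c : k) : Ok X y v (algebraMap k K c) c := by
  refine ⟨⟨algebraMap k X.A c, 1, ?_, ?_, ?_⟩, ?_⟩
  · exact fun h => (Ideal.IsPrime.ne_top ‹_›) ((Ideal.eq_top_iff_one _).2 h)
  · simp
  · simp
  · intro h
    simp at h

theorem Ok.add [hy : y.IsPrime] {f g : K} {c d : k} (hf : Ok X y v f c) (hg : Ok X y v g d) :
    Ok X y v (f + g) (c + d) := by
  obtain ⟨⟨a, b, hb, h1, h2⟩, h3⟩ := hf
  obtain ⟨⟨a', b', hb', h1', h2'⟩, h3'⟩ := hg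
  refine ⟨⟨a * b' + a' * b, b * b', fun h => (hy.mem_or_mem h).elim hb hb', ?_, ?_⟩, ?_⟩
  · push_cast
    linear_combination (b' : K) * h1 + (b : K) * h1'
  · have := y.add_mem (y.mul_mem_left b' h2) (y.mul_mem_left b h2')
    rw [map_add]
    convert this using 1
    ring
  · have h4 : f + g - algebraMap k K (c + d) = (f - algebraMap k K c) + (g - algebraMap k K d) := by
      rw [map_add]
      ring
    rw [h4]
    exact LB.add (N := 1) h3 h3'

theorem Ok.integral [y.IsPrime] {f : K} {c : k} (hf : Ok X y v f c) : v.Integral f := by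
  have h1 : LB v 0 (f - algebraMap k K c) := LB.mono (N := 1) hf.2 (by norm_num)
  have h2 := h1.add (Ten.LB_algebraMap v c)
  rwa [sub_add_cancel] at h2

theorem Ok.mul [hy : y.IsPrime] {f g : K} {c d : k} (hf : Ok X y v f c) (hg : Ok X y v g d) :
    Ok X y v (f * g) (c * d) := by
  have hgi : LB v 0 g := hg.integral
  obtain ⟨⟨a, b, hb, h1, h2⟩, h3⟩ := hf
  obtain ⟨⟨a', b', hb', h1', h2'⟩, h3'⟩ := hg
  refine ⟨⟨a * a', b * b', fun h => (hy.mem_or_mem h).elim hb hb', ?_, ?_⟩, ?_⟩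
  · push_cast
    linear_combination (g * b' : K) * h1 + (a : K) * h1'
  · have := y.add_mem (y.mul_mem_left a' h2)
      (y.mul_mem_left (algebraMap k X.A c * b) h2')
    rw [map_mul]
    convert this using 1
    ring
  · have h4 : f * g - algebraMap k K (c * d) =
        (f - algebraMap k K c) * g + algebraMap k K c * (g - algebraMap k K d) := by
      rw [map_mul]
      ring
    rw [h4]
    have h5 := LB.mul (M := 1) (N := 0) h3 hgi
    have h6 := LB.mul (M := 0) (N := 1) (Ten.LB_algebraMap v c) h3'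
    exact LB.add (N := 1) h5 h6

theorem Ok.ord [y.IsPrime] {f : K} {c : k} (hf : Ok X y v f c) (hc : c ≠ 0) :
    f ≠ 0 ∧ v.ord f = 0 := by
  have hc' : algebraMap k K c ≠ 0 := by simpa using hc
  have h0 : v.ord (algebraMap k K c) = 0 := v.ord_algebraMap c hc
  have h1 : LB v (v.ord (algebraMap k K c) + 1) (f - algebraMap k K c) := by
    rw [h0]
    exact hf.2
  have h2 := Ten.ord_add_eq v hc' h1
  rw [add_sub_cancel, h0] at h2
  exact h2

theorem Ok.inv [hy : y.IsPrime] {f : K} {c : k} (hf : Ok X y v f c) (hc : c ≠ 0) :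
    Ok X y v f⁻¹ c⁻¹ := by
  obtain ⟨hf0, hford⟩ := hf.ord hc
  obtain ⟨⟨a, b, hb, h1, h2⟩, h3⟩ := hf
  have ha : a ∉ y := by
    intro ha
    have h4 : algebraMap k X.A c * b ∈ y := by
      have := y.sub_mem ha h2
      rwa [sub_sub_cancel] at this
    have h5 := y.mul_mem_left (algebraMap k X.A c⁻¹) h4
    rw [← mul_assoc, ← map_mul, inv_mul_cancel₀ hc, map_one, one_mul] at h5
    exact hb h5
  refine ⟨⟨b, a, ha, ?_, ?_⟩, ?_⟩
  · rw [← h1]
    field_simp
  · have h6 := y.mul_mem_left (-(algebraMap k X.A c⁻¹)) h2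
    have h7 : algebraMap k X.A c⁻¹ * algebraMap k X.A c = 1 := by
      rw [← map_mul, inv_mul_cancel₀ hc, map_one]
    convert h6 using 1
    linear_combination (-b) * h7
  · have hc' : algebraMap k K c ≠ 0 := by simpa using hc
    have h4 : f⁻¹ - algebraMap k K c⁻¹ =
        (f⁻¹ * (-(algebraMap k K c⁻¹))) * (f - algebraMap k K c) := by
      rw [map_inv₀]
      field_simp
      ring
    rw [h4]
    have h5 : LB v 0 f⁻¹ := by
      intro _
      rw [Jac.ord_inv v _ hf0, hford, neg_zero]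
    have h6 : LB v 0 (-(algebraMap k K c⁻¹)) := Ten.LB_neg v (Ten.LB_algebraMap v _)
    have h7 := (h5.mul h6).mul (N := 1) h3
    exact h7.mono (by norm_num)

theorem Ok.pow [y.IsPrime] {f : K} {c : k} (hf : Ok X y v f c) (n : ℕ) :
    Ok X y v (f ^ n) (c ^ n) := by
  induction n with
  | zero =>
    have := Ok.const (X := X) (y := y) (v := v) 1
    simpa using this
  | succ n ih =>
    rw [pow_succ, pow_succ]
    exact ih.mul hf

theorem Ok.zpow [y.IsPrime] {f : K} {c : k} (hf : Ok X y v f c) (hc : c ≠ 0) (n : ℤ) :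
    Ok X y v (f ^ n) (c ^ n) := by
  cases n with
  | ofNat n =>
    rw [Int.ofNat_eq_natCast, zpow_natCast, zpow_natCast]
    exact hf.pow n
  | negSucc n =>
    rw [zpow_negSucc, zpow_negSucc]
    exact (hf.pow _).inv (pow_ne_zero _ hc)

theorem Ok.prod [y.IsPrime] {ι : Type} (s : Finset ι) {f : ι → K}
    (hf : ∀ i ∈ s, ∃ c : k, c ≠ 0 ∧ Ok X y v (f i) c) :
    ∃ c : k, c ≠ 0 ∧ Ok X y v (∏ i ∈ s, f i) c := by
  induction s using Finset.induction_on with
  | empty =>
    refine ⟨1, one_ne_zero, ?_⟩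
    have := Ok.const (X := X) (y := y) (v := v) 1
    simpa using this
  | insert a s ha ih =>
    obtain ⟨c, hc, h1⟩ := ih fun i hi => hf i (Finset.mem_insert_of_mem hi)
    obtain ⟨d, hd, h2⟩ := hf a (Finset.mem_insert_self _ _)
    rw [Finset.prod_insert ha]
    exact ⟨d * c, mul_ne_zero hd hc, h2.mul h1⟩

theorem Ok.sum [y.IsPrime] {ι : Type} (s : Finset ι) {f : ι → K}
    (hf : ∀ i ∈ s, ∃ c : k, Ok X y v (f i) c) : ∃ c : k, Ok X y v (∑ i ∈ s, f i) c := by
  induction s using Finset.induction_on with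
  | empty =>
    refine ⟨0, ?_⟩
    have := Ok.const (X := X) (y := y) (v := v) 0
    simpa using this
  | insert a s ha ih =>
    obtain ⟨c, h1⟩ := ih fun i hi => hf i (Finset.mem_insert_of_mem hi)
    obtain ⟨d, h2⟩ := hf a (Finset.mem_insert_self _ _)
    rw [Finset.sum_insert ha]
    exact ⟨d + c, h2.add h1⟩

theorem Ok.adjoin [y.IsPrime] {G : Set K} (hG : ∀ g ∈ G, ∃ c : k, Ok X y v g c) {p : K}
    (hp : p ∈ Algebra.adjoin k G) : ∃ c : k, Ok X y v p c := by
  induction hp using Algebra.adjoin_induction with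
  | mem x hx => exact hG x hx
  | algebraMap r => exact ⟨r, Ok.const r⟩
  | add x y _ _ hx hy =>
    obtain ⟨c, hc⟩ := hx
    obtain ⟨d, hd⟩ := hy
    exact ⟨c + d, hc.add hd⟩
  | mul x y _ _ hx hy =>
    obtain ⟨c, hc⟩ := hx
    obtain ⟨d, hd⟩ := hy
    exact ⟨c * d, hc.mul hd⟩

theorem Ok.mem [hy : y.IsPrime] {a : X.A} {c : k} (h : Ok X y v (a : K) c) :
    a - algebraMap k X.A c ∈ y := by
  obtain ⟨⟨a', b, hb, h1, h2⟩, -⟩ := h
  have h3 : a * b = a' := Subtype.ext h1
  rw [← h3, ← sub_mul] at h2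
  exact (hy.mem_or_mem h2).resolve_right hb

/-- a valuation such that all elements of the ring have the right residue has the right centre -/
theorem Ok.center [hy : y.IsPrime] (h : ∀ a : X.A, ∃ c : k, Ok X y v (a : K) c) :
    v.HasCenter X.A y := by
  have hconst : ∀ c : k, algebraMap k X.A c ∈ y → c = 0 := by
    intro c hc
    by_contra hne
    apply hy.ne_top
    rw [Ideal.eq_top_iff_one]
    have h5 := y.mul_mem_left (algebraMap k X.A c⁻¹) hc
    rwa [← map_mul, inv_mul_cancel₀ hne, map_one] at h5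
  refine ⟨fun a => ?_, fun a => ⟨fun ha => ?_, fun ha => ?_⟩⟩
  · obtain ⟨c, hc⟩ := h a
    exact hc.integral
  · obtain ⟨c, hc⟩ := h a
    have h1 := hc.mem
    have h2 : algebraMap k X.A c ∈ y := by
      have := y.sub_mem ha h1
      rwa [sub_sub_cancel] at this
    have h3 := hconst c h2
    have h4 := hc.2
    rw [h3, map_zero, sub_zero] at h4
    exact h4
  · obtain ⟨c, hc⟩ := h a
    have h0 : c = 0 := by
      by_contra hne
      obtain ⟨h1, h2⟩ := hc.ord hne
      exact Ten.not_small_of v h1 h2 ha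
    have h1 := hc.mem
    rwa [h0, map_zero, sub_zero] at h1

end Ok

/-! ### monomials -/

theorem mon_zsmul (z : ℤ) (t : Fin m → ℤ) : X.mon (z • t) = X.mon t ^ z := by
  unfold HD.mon
  rw [← Finset.prod_zpow]
  refine Finset.prod_congr rfl fun i _ => ?_
  rw [← zpow_mul, Pi.smul_apply, smul_eq_mul, mul_comm]

theorem mon_sum {ι : Type} (s : Finset ι) (f : ι → Fin m → ℤ) :
    X.mon (∑ i ∈ s, f i) = ∏ i ∈ s, X.mon (f i) := by
  induction s using Finset.induction_on with
  | empty => simp [HD.mon]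
  | insert a s ha ih => rw [Finset.sum_insert ha, Finset.prod_insert ha, X.mon_add, ih]

theorem mon_basis {U V : Matrix (Fin m) (Fin m) ℤ} (h : V * U = 1) (t : Fin m → ℤ) :
    t = ∑ i, (Matrix.vecMul t V) i • U i ∧
      X.mon t = ∏ i, X.mon (U i) ^ (Matrix.vecMul t V) i := by
  have h1 : t = ∑ i, (Matrix.vecMul t V) i • U i := by
    have h2 : Matrix.vecMul (Matrix.vecMul t V) U = t := by
      rw [Matrix.vecMul_vecMul, h, Matrix.vecMul_one]
    conv_lhs => rw [← h2]
    exact Matrix.vecMul_eq_sum _ _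
  refine ⟨h1, ?_⟩
  conv_lhs => rw [h1]
  rw [mon_sum]
  exact Finset.prod_congr rfl fun i _ => mon_zsmul X _ _

theorem mon_single (i : Fin m) : X.mon (Pi.single i 1) = X.x i := by
  unfold HD.mon
  rw [Finset.prod_eq_single i]
  · simp
  · intro j _ hj
    rw [Pi.single_eq_of_ne hj, zpow_zero]
  · intro h
    exact absurd (Finset.mem_univ i) h

/-! ### transcendence bases from generating systems -/

theorem indep_of_gen {n : ℕ} (y : Fin n → K) (hy : IsTranscendenceBasis k y) (b : Fin n → K)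
    (hb : IntermediateField.adjoin k (Set.range b) = ⊤) : IsTranscendenceBasis k b := by
  have halg : Algebra.IsAlgebraic (Algebra.adjoin k (Set.range b)) K := by
    refine ⟨fun f => ?_⟩
    have hf : f ∈ IntermediateField.adjoin k (Set.range b) := by
      rw [hb]
      trivial
    obtain ⟨r, hr, s, hs, rfl⟩ := (IntermediateField.mem_adjoin_iff_div).1 hf
    have h1 : IsAlgebraic (Algebra.adjoin k (Set.range b)) (r : K) :=
      isAlgebraic_algebraMap (A := K) (⟨r, hr⟩ : Algebra.adjoin k (Set.range b))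
    have h2 : IsAlgebraic (Algebra.adjoin k (Set.range b)) (s : K) :=
      isAlgebraic_algebraMap (A := K) (⟨s, hs⟩ : Algebra.adjoin k (Set.range b))
    rw [div_eq_mul_inv]
    exact h1.mul h2.inv
  have h3 := hy.lift_cardinalMk_eq_trdeg
  exact Algebra.IsAlgebraic.isTranscendenceBasis_of_lift_le_trdeg_of_finite k b h3.le

end Up

namespace Up

/-! ### supports of polynomials -/

section Supp

open MvPolynomial

variable {k : Type u} [Field k] {σ ι υ : Type}

theorem mem_supp (f : σ → ι) (hf : Function.Injective f) (P : MvPolynomial σ k) (s : ι →₀ ℕ)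
    (α : ι →₀ ℕ) : coeff α (rename f P * monomial s 1) ≠ 0 ↔
      ∃ β ∈ P.support, α = β.mapDomain f + s := by
  rw [coeff_mul_monomial']
  constructor
  · intro h
    by_cases hs : s ≤ α
    · rw [if_pos hs, mul_one] at h
      obtain ⟨β, h1, h2⟩ := coeff_rename_ne_zero f P _ h
      refine ⟨β, mem_support_iff.2 h2, ?_⟩
      rw [h1]
      exact (tsub_add_cancel_of_le hs).symm
    · rw [if_neg hs] at h
      exact absurd rfl h
  · rintro ⟨β, hβ, rfl⟩
    rw [if_pos le_add_self, mul_one, add_tsub_cancel_right, coeff_rename_mapDomain f hf]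
    exact mem_support_iff.1 hβ

theorem supp_sum (s : Finset υ) (P : υ → MvPolynomial σ k) (e : υ → ι →₀ ℕ) (f : σ → ι)
    (hf : Function.Injective f)
    (hd : ∀ u ∈ s, ∀ u' ∈ s, (∀ i ∉ Set.range f, e u i = e u' i) → u = u') (α : ι →₀ ℕ) :
    α ∈ (∑ u ∈ s, rename f (P u) * monomial (e u) (1 : k)).support ↔
      ∃ u ∈ s, ∃ β ∈ (P u).support, α = β.mapDomain f + e u := by
  rw [mem_support_iff, coeff_sum]
  constructor
  · intro h
    obtain ⟨u, hu, h1⟩ := Finset.exists_ne_zero_of_sum_ne_zero h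
    exact ⟨u, hu, (mem_supp f hf _ _ _).1 h1⟩
  · rintro ⟨u, hu, β, hβ, rfl⟩
    rw [Finset.sum_eq_single u]
    · exact (mem_supp f hf _ _ _).2 ⟨β, hβ, rfl⟩
    · intro u' hu' hne
      by_contra h
      obtain ⟨β', -, h1⟩ := (mem_supp f hf _ _ _).1 h
      apply hne
      refine (hd u hu u' hu' fun i hi => ?_).symm
      have h2 := DFunLike.congr_fun h1 i
      rw [Finsupp.add_apply, Finsupp.add_apply, Finsupp.mapDomain_of_notMem_range _ _ hi,
        Finsupp.mapDomain_of_notMem_range _ _ hi, zero_add, zero_add] at h2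
      exact h2
    · exact fun h => absurd hu h

theorem wt_map {ι : Type} [Fintype ι] [Fintype σ] (f : σ → ι) (ω : ι → ℤ) (β : σ →₀ ℕ) :
    ∑ i, ω i * ((β.mapDomain f) i : ℤ) = ∑ s, ω (f s) * (β s : ℤ) := by
  induction β using Finsupp.induction_linear with
  | zero => simp
  | add a b ha hb =>
    simp only [Finsupp.mapDomain_add, Finsupp.add_apply, Nat.cast_add, mul_add,
      Finset.sum_add_distrib, ha, hb]
  | single a b =>
    rw [Finsupp.mapDomain_single]
    rw [Finset.sum_eq_single (f a), Finset.sum_eq_single a]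
    · simp
    · intro j _ hj
      rw [Finsupp.single_eq_of_ne hj]
      simp
    · intro h
      exact absurd (Finset.mem_univ _) h
    · intro j _ hj
      rw [Finsupp.single_eq_of_ne hj]
      simp
    · intro h
      exact absurd (Finset.mem_univ _) h

end Supp

/-! ### denominators -/

section Den

variable {k : Type u} [Field k] {K : Type v} [Field K] [Algebra k K]
  {σ κ : Type} [Fintype σ] [Fintype κ] {m : ℕ} (X : HD k K σ κ m)

theorem denom {υ : Type} (s : Finset υ) (g : υ → K) (hg : ∀ u ∈ s, g u ∈ X.K₀) :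
    ∃ q ∈ X.kM, q ≠ 0 ∧ ∀ u ∈ s, q * g u ∈ X.kM := by
  induction s using Finset.induction_on with
  | empty => exact ⟨1, X.kM.one_mem, one_ne_zero, by simp⟩
  | insert a s ha ih =>
    obtain ⟨q, hq, hq0, h⟩ := ih fun u hu => hg u (Finset.mem_insert_of_mem hu)
    obtain ⟨r, hr, t, ht, h1⟩ :=
      (IntermediateField.mem_adjoin_iff_div).1 (hg a (Finset.mem_insert_self _ _))
    by_cases ht0 : t = 0
    · refine ⟨q, hq, hq0, fun u hu => ?_⟩
      rcases Finset.mem_insert.1 hu with rfl | hu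
      · rw [h1, ht0, div_zero, mul_zero]
        exact X.kM.zero_mem
      · exact h u hu
    · refine ⟨t * q, X.kM.mul_mem ht hq, mul_ne_zero ht0 hq0, fun u hu => ?_⟩
      rcases Finset.mem_insert.1 hu with rfl | hu
      · have h2 : t * q * g u = q * r := by
          rw [h1]
          field_simp
        rw [h2]
        exact X.kM.mul_mem hq hr
      · rw [mul_assoc]
        exact X.kM.mul_mem ht (h u hu)

theorem kM_aeval {f : K} (hf : f ∈ X.kM) :
    ∃ P : MvPolynomial σ k, f = MvPolynomial.aeval X.M P := by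
  unfold HD.kM at hf
  rw [Algebra.adjoin_range_eq_range_aeval] at hf
  obtain ⟨P, hP⟩ := hf
  exact ⟨P, hP.symm⟩

variable {N : ℕ}

theorem gen_e (R : X.Dr N) (bb : σ ⊕ Fin m → K)
    (h : IntermediateField.adjoin k (Set.range bb) = ⊤) :
    IntermediateField.adjoin k (Set.range fun j => bb (R.e j)) = ⊤ := by
  have : (Set.range fun j => bb (R.e j)) = Set.range bb :=
    R.e.surjective.range_comp bb
  rw [this, h]

theorem sum_e (R : X.Dr N) (f : σ ⊕ Fin m → ℤ) :
    ∑ j, f (R.e j) = ∑ s, f (Sum.inl s) + ∑ i, f (Sum.inr i) := by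
  rw [Equiv.sum_comp R.e f, Fintype.sum_sum_type]

end Den

end Up

namespace Up

section Up0

variable {k : Type u} [Field k] {K : Type v} [Field K] [Algebra k K]
  {σ κ : Type} [Fintype σ] [Fintype κ] {m : ℕ} (X : HD k K σ κ m) {N : ℕ}

theorem zb (hA : IsGood X.A) (τ : Set (Fin m → ℤ)) (hτ : X.IsFace τ) :
    ∃ (U V : Matrix (Fin m) (Fin m) ℤ) (I : Finset (Fin m)), U * V = 1 ∧ V * U = 1 ∧
      I.card = HD.rk τ ∧ (∀ i ∈ I, ∃ a ∈ τ, ∃ b ∈ τ, U i = a - b) ∧
      ∀ u ∈ τ, ∀ i ∉ I, (Matrix.vecMul u V) i = 0 := by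
  refine zbasis τ hτ.zero hτ.add ?_
  rintro u N hN ⟨a, ha, b, hb, h⟩
  have h1 : ∀ n : ℕ, n • b ∈ τ := by
    intro n
    induction n with
    | zero => rw [zero_smul]; exact hτ.zero
    | succ n ih => rw [succ_nsmul]; exact hτ.add _ ih _ hb
  obtain ⟨N, rfl⟩ : ∃ N', N = N' + 1 := ⟨N - 1, by omega⟩
  have h2 : (N + 1) • (u + b) = a + N • b := by
    rw [smul_add, h, succ_nsmul]
    abel
  have h3 : (N + 1) • (u + b) ∈ τ := by
    rw [h2]
    exact hτ.add _ ha _ (h1 N)
  have h4 : u + b ∈ X.Γ := X.sat hA _ (N + 1) hN (hτ.le _ h3)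
  have h5 : u + b ∈ τ := by
    refine hτ.of_add (u + b) h4 (N • (u + b)) (X.Γ.nsmul_mem h4 _) ?_
    have h6 : u + b + N • (u + b) = (N + 1) • (u + b) := by
      rw [succ_nsmul]
      abel
    rw [h6]
    exact h3
  exact ⟨u + b, h5, b, hb, by abel⟩

theorem val_mon [IsAlgClosed k] (y : MaximalSpectrum X.A)
    (hmon : ∀ u ∈ X.tau y.asIdeal, ∃ h : X.mon u ∈ X.A, (⟨X.mon u, h⟩ : X.A) ∉ y.asIdeal)
    (a b : Fin m → ℤ) (ha : a ∈ X.tau y.asIdeal) (hb : b ∈ X.tau y.asIdeal) :
    ∃ β : k, β ≠ 0 ∧ X.ValAt y.asIdeal (X.mon (a - b)) β := by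
  obtain ⟨h1, h1'⟩ := hmon a ha
  obtain ⟨h2, h2'⟩ := hmon b hb
  have hy : y.asIdeal.IsPrime := y.isMaximal.isPrime
  obtain ⟨c, hc⟩ := X.exists_val y ⟨X.mon a, h1⟩ ⟨X.mon b, h2⟩ h2'
  have h3 : X.mon (a - b) = X.mon a / X.mon b := by
    rw [sub_eq_add_neg, X.mon_add, X.mon_neg, div_eq_mul_inv]
  refine ⟨c, ?_, by rw [h3]; exact hc⟩
  rintro rfl
  obtain ⟨a', b', hb', e1, e2⟩ := hc
  rw [map_zero, zero_mul, sub_zero] at e2
  have e3 : (⟨X.mon a, h1⟩ : X.A) * b' = a' * ⟨X.mon b, h2⟩ := by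
    apply Subtype.ext
    push_cast
    rw [← e1]
    have := X.mon_ne b
    field_simp
  have e4 : (⟨X.mon a, h1⟩ : X.A) * b' ∈ y.asIdeal := by
    rw [e3]
    exact y.asIdeal.mul_mem_right _ e2
  exact (hy.mem_or_mem e4).elim h1' hb'

/-- the adapted coordinates -/
def bb (T : Set κ) (U : Matrix (Fin m) (Fin m) ℤ) (c : σ → k) (β : Fin m → k) : σ ⊕ Fin m → K :=
  Sum.elim (fun s => X.co T s - algebraMap k K (c s)) (fun i => X.mon (U i) - algebraMap k K (β i))

theorem bb_gen (T : Set κ) (U V : Matrix (Fin m) (Fin m) ℤ) (hVU : V * U = 1) (c : σ → k)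
    (β : Fin m → k) : IntermediateField.adjoin k (Set.range (bb X T U c β)) = ⊤ := by
  have h0 : ∀ z, bb X T U c β z ∈ IntermediateField.adjoin k (Set.range (bb X T U c β)) :=
    fun z => IntermediateField.subset_adjoin _ _ ⟨z, rfl⟩
  have hmon : ∀ i, X.mon (U i) ∈ IntermediateField.adjoin k (Set.range (bb X T U c β)) := by
    intro i
    have h1 := add_mem (h0 (Sum.inr i)) (IntermediateField.algebraMap_mem _ (β i))
    have h2 : bb X T U c β (Sum.inr i) + algebraMap k K (β i) = X.mon (U i) := by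
      simp [bb]
    rwa [h2] at h1
  rw [eq_top_iff, ← (X.co_tb T).2.1, IntermediateField.adjoin_le_iff]
  rintro _ ⟨s | i, rfl⟩
  · have h1 := add_mem (h0 (Sum.inl s)) (IntermediateField.algebraMap_mem _ (c s))
    have h2 : bb X T U c β (Sum.inl s) + algebraMap k K (c s) = X.co T s := by
      simp [bb]
    rw [h2] at h1
    exact h1
  · rw [Sum.elim_inr, ← mon_single, (mon_basis X hVU _).2]
    exact prod_mem fun j _ => zpow_mem (hmon j) _

theorem bb_jac (R : X.Dr N) (T : Set κ) (U : Matrix (Fin m) (Fin m) ℤ) (c : σ → k)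
    (β : Fin m → k) : jac R.D (fun j => bb X T U c β (R.e j)) =
      jac R.D (fun j => Sum.elim (X.co T) (fun i => X.mon (U i)) (R.e j)) := by
  unfold jac
  congr 1
  ext i j
  rw [Matrix.of_apply, Matrix.of_apply]
  change R.D i (bb X T U c β (R.e j)) =
    R.D i (Sum.elim (X.co T) (fun i => X.mon (U i)) (R.e j))
  generalize R.e j = z
  rcases z with s | l
  · simp [bb]
  · simp [bb]

theorem det_U {U V : Matrix (Fin m) (Fin m) ℤ} (hUV : U * V = 1) : U.det = 1 ∨ U.det = -1 := by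
  have h1 : U.det * V.det = 1 := by
    rw [← Matrix.det_mul, hUV, Matrix.det_one]
  exact Int.isUnit_iff.1 (IsUnit.of_mul_eq_one _ h1)

end Up0

end Up

namespace HD

variable {k : Type u} [Field k] {K : Type v} [Field K] [Algebra k K]
  {σ κ : Type} [Fintype σ] [Fintype κ] {m : ℕ} (X : HD k K σ κ m) {N : ℕ}

open MvPolynomial in
/-- the monomial valuations, trivial on `k(M)` -/
theorem mono0 [CharZero k] (R : X.Dr N) (w : Fin m → ℤ) (hw : ∃ t : Fin m → ℤ, w ⬝ᵥ t = 1) :
    ∃ v : DVal k K, v.FormOrd R.D (∑ i, w i - 1) ∧ (∀ g ∈ X.K₀, g ≠ 0 → v.ord g = 0) ∧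
      (∀ u, v.ord (X.mon u) = w ⬝ᵥ u) ∧
      ∀ (s : Finset (Fin m → ℤ)) (g : (Fin m → ℤ) → K), (∀ u ∈ s, g u ∈ X.K₀ ∧ g u ≠ 0) →
        s.Nonempty → (∀ u ∈ s, v.ord (∑ u ∈ s, g u * X.mon u) ≤ w ⬝ᵥ u) ∧
          ∃ u ∈ s, v.ord (∑ u ∈ s, g u * X.mon u) = w ⬝ᵥ u := by
  obtain ⟨t, ht⟩ := hw
  set ωω : σ ⊕ Fin m → ℤ := Sum.elim 0 w with hωω
  obtain ⟨v, -, hform, hF⟩ := mono_val (fun j => Sum.elim X.M X.x (R.e j)) (X.dr_tb R).1
    (Up.gen_e X R _ X.gen) R.D R.dual (fun j => ωω (R.e j))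
    ⟨fun j => Sum.elim (0 : σ → ℤ) t (R.e j), by
      rw [Up.sum_e X R fun z => ωω z * Sum.elim (0 : σ → ℤ) t z, hωω]
      simpa [dotProduct] using ht⟩
  have hsum : ∑ j, ωω (R.e j) = ∑ i, w i := by
    rw [Up.sum_e X R, hωω]
    simp
  rw [hsum] at hform
  have hfl : Function.Injective fun s : σ => R.e.symm (Sum.inl s) :=
    R.e.symm.injective.comp Sum.inl_injective
  -- polynomials in `M`
  have hPM : ∀ P : MvPolynomial σ k, aeval X.M P =
      aeval (fun j => Sum.elim X.M X.x (R.e j)) (rename (fun s => R.e.symm (Sum.inl s)) P) := by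
    intro P
    rw [aeval_rename]
    congr 2
    funext s
    simp
  have hord0 : ∀ f ∈ X.kM, f ≠ 0 → v.ord f = 0 := by
    intro f hf hf0
    obtain ⟨P, rfl⟩ := Up.kM_aeval X hf
    have hP0 : P ≠ 0 := by
      rintro rfl
      simp at hf0
    have h1 : rename (fun s => R.e.symm (Sum.inl s)) P ≠ (0 : MvPolynomial (Fin (N + 1)) k) := by
      intro h
      exact hP0 (rename_injective _ hfl (h.trans (map_zero _).symm))
    obtain ⟨-, α, hα, h2⟩ := hF _ h1
    rw [hPM, h2]
    obtain ⟨β, rfl, -⟩ := coeff_rename_ne_zero _ _ _ (mem_support_iff.1 hα)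
    rw [Up.wt_map]
    simp [hωω]
  have hK0 : ∀ g ∈ X.K₀, g ≠ 0 → v.ord g = 0 := by
    intro g hg hg0
    obtain ⟨r, hr, q, hq, rfl⟩ := (IntermediateField.mem_adjoin_iff_div).1 hg
    have hr0 : r ≠ 0 := fun h => hg0 (by rw [h, zero_div])
    have hq0 : q ≠ 0 := fun h => hg0 (by rw [h, div_zero])
    rw [Ten.ord_div v _ _ hr0 hq0, hord0 r hr hr0, hord0 q hq hq0, sub_zero]
  have hx : ∀ i, v.ord (X.x i) = w i := by
    intro i
    have h1 := (hF (MvPolynomial.X (R.e.symm (Sum.inr i))) (X_ne_zero _)).2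
    obtain ⟨α, hα, h2⟩ := h1
    rw [support_X, Finset.mem_singleton] at hα
    rw [aeval_X, hα] at h2
    simp only [Equiv.apply_symm_apply, Sum.elim_inr] at h2
    rw [h2, Finset.sum_eq_single (R.e.symm (Sum.inr i))]
    · simp [hωω]
    · intro j _ hj
      rw [Finsupp.single_eq_of_ne hj]
      simp
    · exact fun h => absurd (Finset.mem_univ _) h
  have hmon : ∀ u, v.ord (X.mon u) = w ⬝ᵥ u := by
    intro u
    unfold HD.mon
    rw [Jac.ord_prod v _ _ fun i _ => zpow_ne_zero _ (X.x_ne i)]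
    unfold dotProduct
    refine Finset.sum_congr rfl fun i _ => ?_
    rw [Jac.ord_zpow v _ (X.x_ne i), hx, mul_comm]
  refine ⟨v, hform, hK0, hmon, fun s g hg hs => ?_⟩
  obtain ⟨q, hq, hq0, hqg⟩ := Up.denom X s g fun u hu => (hg u hu).1
  choose! P hP using fun u (hu : u ∈ s) => Up.kM_aeval X (hqg u hu)
  -- shift
  obtain ⟨t0, ht0⟩ : ∃ t0 : Fin m → ℤ, ∀ u ∈ s, ∀ i, 0 ≤ u i + t0 i := by
    refine ⟨fun i => ∑ u ∈ s, |u i|, fun u hu i => ?_⟩
    have h1 : |u i| ≤ ∑ u ∈ s, |u i| :=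
      Finset.single_le_sum (f := fun u : Fin m → ℤ => |u i|) (fun _ _ => abs_nonneg _) hu
    have h2 := neg_abs_le (u i)
    simp only
    linarith
  set e : (Fin m → ℤ) → Fin (N + 1) →₀ ℕ := fun u =>
    (Finsupp.equivFunOnFinite.symm fun i => (u i + t0 i).toNat).mapDomain
      (fun i : Fin m => R.e.symm (Sum.inr i)) with he
  have hfr : Function.Injective fun i : Fin m => R.e.symm (Sum.inr i) :=
    R.e.symm.injective.comp Sum.inr_injective
  have he1 : ∀ u i, e u (R.e.symm (Sum.inr i)) = (u i + t0 i).toNat := by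
    intro u i
    rw [he]
    exact Finsupp.mapDomain_apply hfr _ _
  set F : MvPolynomial (Fin (N + 1)) k :=
    ∑ u ∈ s, rename (fun s => R.e.symm (Sum.inl s)) (P u) * monomial (e u) 1 with hFdef
  have hsupp := Up.supp_sum (k := k) s P e (fun s : σ => R.e.symm (Sum.inl s)) hfl (by
    intro u hu u' hu' h
    funext i
    have h1 := h (R.e.symm (Sum.inr i)) (by
      rintro ⟨s, hs⟩
      have := R.e.symm.injective hs
      exact Sum.inl_ne_inr this)
    rw [he1, he1] at h1
    have h2 := ht0 u hu i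
    have h3 := ht0 u' hu' i
    omega)
  have hwt : ∀ u ∈ s, ∀ β : σ →₀ ℕ, ∑ j, ωω (R.e j) *
      (((β.mapDomain fun s : σ => R.e.symm (Sum.inl s)) + e u) j : ℤ) =
        w ⬝ᵥ u + w ⬝ᵥ t0 := by
    intro u hu β
    have h1 : ∀ j, ωω (R.e j) * ((((β.mapDomain fun s : σ => R.e.symm (Sum.inl s)) + e u) j : ℕ) : ℤ) =
        ωω (R.e j) * ((β.mapDomain fun s : σ => R.e.symm (Sum.inl s)) j : ℤ) +
          ωω (R.e j) * (e u j : ℤ) := by
      intro j
      rw [Finsupp.add_apply]
      push_cast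
      ring
    rw [Finset.sum_congr rfl fun j _ => h1 j, Finset.sum_add_distrib, Up.wt_map, he, Up.wt_map]
    have h2 : ∑ s : σ, ωω (R.e (R.e.symm (Sum.inl s))) * (β s : ℤ) = 0 := by
      simp [hωω]
    rw [h2, zero_add, ← dotProduct_add]
    unfold dotProduct
    refine Finset.sum_congr rfl fun i _ => ?_
    rw [Equiv.apply_symm_apply, hωω, Sum.elim_inr]
    simp only [Finsupp.equivFunOnFinite_symm_apply_apply, Pi.add_apply]
    rw [Int.toNat_of_nonneg (ht0 u hu i)]
  have hPne : ∀ u ∈ s, ∃ β, β ∈ (P u).support := by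
    intro u hu
    have : P u ≠ 0 := by
      intro h
      have h1 := hP u hu
      rw [h, map_zero] at h1
      exact (mul_ne_zero hq0 (hg u hu).2) h1
    exact Finset.nonempty_iff_ne_empty.2 (by simpa using this)
  have hF0 : F ≠ 0 := by
    obtain ⟨u, hu⟩ := hs
    obtain ⟨β, hβ⟩ := hPne u hu
    have := (hsupp (β.mapDomain (fun s : σ => R.e.symm (Sum.inl s)) + e u)).2 ⟨u, hu, β, hβ, rfl⟩
    intro h
    rw [hFdef] at h
    rw [h] at this
    simp at this
  have hval : aeval (fun j => Sum.elim X.M X.x (R.e j)) F =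
      (q * X.mon t0) * ∑ u ∈ s, g u * X.mon u := by
    rw [hFdef, map_sum, Finset.mul_sum]
    refine Finset.sum_congr rfl fun u hu => ?_
    rw [map_mul, ← hPM, ← hP u hu, aeval_monomial, map_one, one_mul]
    have h1 : ((e u).prod fun j n => Sum.elim X.M X.x (R.e j) ^ n) = X.mon (u + t0) := by
      rw [he]
      rw [Finsupp.prod_mapDomain_index (fun _ => pow_zero _) (fun _ _ _ => pow_add _ _ _),
        Finsupp.prod_fintype _ _ (fun _ => pow_zero _)]
      unfold HD.mon
      refine Finset.prod_congr rfl fun i _ => ?_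
      rw [Equiv.apply_symm_apply, Sum.elim_inr]
      simp only [Finsupp.equivFunOnFinite_symm_apply_apply, Pi.add_apply]
      rw [← zpow_natCast, Int.toNat_of_nonneg (ht0 u hu i)]
    rw [h1, X.mon_add]
    ring
  obtain ⟨h1, α, hα, h2⟩ := hF F hF0
  -- the sum is nonzero
  have hne : ∑ u ∈ s, g u * X.mon u ≠ 0 := by
    intro h
    obtain ⟨u, hu⟩ := hs
    have h3 := X.li s g (fun u hu => (hg u hu).1) h u hu
    exact (hg u hu).2 h3
  have hordq : v.ord (q * X.mon t0) = w ⬝ᵥ t0 := by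
    rw [v.ord_mul _ _ hq0 (X.mon_ne _), hord0 q hq hq0, hmon, zero_add]
  have hS : v.ord (aeval (fun j => Sum.elim X.M X.x (R.e j)) F) =
      w ⬝ᵥ t0 + v.ord (∑ u ∈ s, g u * X.mon u) := by
    rw [hval, v.ord_mul _ _ (mul_ne_zero hq0 (X.mon_ne _)) hne, hordq]
  constructor
  · intro u hu
    obtain ⟨β, hβ⟩ := hPne u hu
    have h3 := h1 _ ((hsupp (β.mapDomain (fun s : σ => R.e.symm (Sum.inl s)) + e u)).2
      ⟨u, hu, β, hβ, rfl⟩)
    rw [hwt u hu β, hS] at h3
    linarith
  · obtain ⟨u, hu, β, hβ, rfl⟩ := (hsupp α).1 hα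
    refine ⟨u, hu, ?_⟩
    rw [hwt u hu β, hS] at h2
    linarith

open MvPolynomial in
theorem up0 [IsAlgClosed k] [CharZero k] (R : X.Dr N) (hA : IsGood X.A)
    (y : MaximalSpectrum X.A)
    (hmon : ∀ u ∈ X.tau y.asIdeal, ∃ h : X.mon u ∈ X.A, (⟨X.mon u, h⟩ : X.A) ∉ y.asIdeal)
    (c : σ → k) (hc : ∀ s ∈ X.sub (X.kinds (X.tau y.asIdeal)),
      X.ValAt y.asIdeal (X.co (X.kinds (X.tau y.asIdeal)) s) (c s))
    (w : Fin m → ℤ) (hw : ∀ u ∈ X.Γ, 0 ≤ w ⬝ᵥ u)
    (hw0 : ∀ u ∈ X.Γ, w ⬝ᵥ u = 0 ↔ u ∈ X.tau y.asIdeal) :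
    ∃ (n : ℕ) (v : DVal k K) (j : ℤ), 1 ≤ n ∧ v.IsDivisorial N ∧ v.HasCenter X.A y.asIdeal ∧
      v.FormOrd R.D j ∧ (∀ u, n * v.ord (X.mon u) = w ⬝ᵥ u) ∧
      (∀ Q : MvPolynomial σ k, X.Gen (X.kinds (X.tau y.asIdeal)) c Q →
        v.ord (MvPolynomial.aeval (X.co (X.kinds (X.tau y.asIdeal))) Q) = 0) ∧
      n * (1 + j) = ∑ i, w i + (X.dd (X.tau y.asIdeal) : ℤ) := by
  have hy : y.asIdeal.IsPrime := y.isMaximal.isPrime
  have hface : X.IsFace (X.tau y.asIdeal) := X.tau_isFace y.asIdeal hy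
  obtain ⟨U, V, I, hUV, hVU, hI, hIτ, hVτ⟩ := Up.zb X hA _ hface
  have hβ : ∀ i ∈ I, ∃ β : k, β ≠ 0 ∧ X.ValAt y.asIdeal (X.mon (U i)) β := by
    intro i hi
    obtain ⟨a, ha, b, hb, h⟩ := hIτ i hi
    rw [h]
    exact Up.val_mon X y hmon a b ha hb
  choose! β hβ0 hβ1 using hβ
  have hwI : ∀ i ∈ I, w ⬝ᵥ U i = 0 := by
    intro i hi
    obtain ⟨a, ha, b, hb, h⟩ := hIτ i hi
    rw [h, dotProduct_sub, (hw0 a (hface.le a ha)).2 ha, (hw0 b (hface.le b hb)).2 hb, sub_zero]
  generalize hτ : X.tau y.asIdeal = τ at *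
  generalize hT : X.kinds τ = T at *
  set c' : σ → k := fun s => if s ∈ X.sub T then c s else 0 with hc'
  set β' : Fin m → k := fun i => if i ∈ I then β i else 0 with hβ'
  set bb := Up.bb X T U c' β' with hbb
  set ωω : σ ⊕ Fin m → ℤ := Sum.elim (fun s => if s ∈ X.sub T then 1 else 0)
    (fun i => if i ∈ I then 1 else w ⬝ᵥ U i) with hωω
  have hgen := Up.gen_e X R bb (Up.bb_gen X T U V hVU c' β')
  have hb : IsTranscendenceBasis k (fun j => bb (R.e j)) := Up.indep_of_gen _ (X.dr_tb R) _ hgen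
  obtain ⟨E, hE⟩ := exists_dual _ hb.1 hgen
  have hne : ∃ j, ωω (R.e j) ≠ 0 := by
    by_contra hcon
    push Not at hcon
    have hz : ∀ z, ωω z = 0 := fun z => by simpa using hcon (R.e.symm z)
    have hI0 : ∀ i, i ∉ I := fun i hi => by
      have := hz (Sum.inr i)
      simp [hωω, hi] at this
    have hwU : ∀ i, w ⬝ᵥ U i = 0 := fun i => by
      have := hz (Sum.inr i)
      simpa [hωω, hI0 i] using this
    have hwu : ∀ u, w ⬝ᵥ u = 0 := by
      intro u
      rw [(Up.mon_basis X hVU u).1, dotProduct_sum]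
      refine Finset.sum_eq_zero fun i _ => ?_
      rw [dotProduct_smul, hwU i, smul_zero]
    have hΓ : ∀ u ∈ X.Γ, u = 0 := by
      intro u hu
      have h1 : u ∈ τ := (hw0 u hu).1 (hwu u)
      rw [(Up.mon_basis X hVU u).1]
      refine Finset.sum_eq_zero fun i _ => ?_
      rw [hVτ u h1 i (hI0 i), zero_smul]
    have hm : m = 0 := by
      by_contra hm
      obtain ⟨a, ha, b, hb, h⟩ := X.diff hA (Pi.single ⟨0, by omega⟩ 1)
      rw [hΓ a ha, hΓ b hb] at h
      have := congr_fun h ⟨0, by omega⟩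
      simp at this
    rcases R.e 0 with s | i
    · obtain ⟨l, -⟩ := X.M_mem s
      obtain ⟨u, hu, h⟩ := X.Λ_pos l
      rw [hΓ u hu] at h
      simp at h
    · exact absurd i.2 (by omega)
  obtain ⟨n, ω', hn, hω', t, ht⟩ := Up.gcd_weights _ hne
  obtain ⟨v, hdiv, hform, hF⟩ := mono_val _ hb.1 hgen E hE ω' ⟨t, ht⟩
  -- orders of the coordinates
  have hX : ∀ j, v.ord (bb (R.e j)) = ω' j := by
    intro j
    obtain ⟨α, hα, h2⟩ := (hF (MvPolynomial.X j) (X_ne_zero _)).2
    rw [support_X, Finset.mem_singleton] at hα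
    rw [aeval_X, hα] at h2
    rw [h2, Finset.sum_eq_single j]
    · simp
    · intro l _ hl
      rw [Finsupp.single_eq_of_ne hl]
      simp
    · exact fun h => absurd (Finset.mem_univ _) h
  have hX' : ∀ z, (n : ℤ) * v.ord (bb z) = ωω z := by
    intro z
    have h1 := hX (R.e.symm z)
    rw [Equiv.apply_symm_apply] at h1
    have h2 := hω' (R.e.symm z)
    rw [Equiv.apply_symm_apply] at h2
    rw [h1, h2]
  have hn0 : (0 : ℤ) < n := by exact_mod_cast hn
  have hpos : ∀ z, ωω z = 1 → v.Small (bb z) := by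
    intro z hz _
    have h1 := hX' z
    rw [hz] at h1
    by_contra h2
    have h3 : (n : ℤ) * v.ord (bb z) ≤ 0 := mul_nonpos_of_nonneg_of_nonpos hn0.le (not_lt.1 h2)
    omega
  -- the elements with prescribed residues
  have hokM : ∀ s ∈ X.sub T, Up.Ok X y.asIdeal v (X.co T s) (c s) := by
    intro s hs
    refine ⟨hc s hs, ?_⟩
    have h1 := hpos (Sum.inl s) (by simp [hωω, hs])
    simpa [hbb, Up.bb, hc', hs] using h1
  have hokU : ∀ i ∈ I, Up.Ok X y.asIdeal v (X.mon (U i)) (β i) := by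
    intro i hi
    refine ⟨hβ1 i hi, ?_⟩
    have h1 := hpos (Sum.inr i) (by simp [hωω, hi])
    simpa [hbb, Up.bb, hβ', hi] using h1
  have hmU : ∀ i, (n : ℤ) * v.ord (X.mon (U i)) = w ⬝ᵥ U i := by
    intro i
    by_cases hi : i ∈ I
    · rw [((hokU i hi).ord (hβ0 i hi)).2, hwI i hi, mul_zero]
    · have h1 := hX' (Sum.inr i)
      simpa [hbb, Up.bb, hβ', hi, hωω] using h1
  have hmu : ∀ u, (n : ℤ) * v.ord (X.mon u) = w ⬝ᵥ u := by
    intro u
    obtain ⟨h1, h2⟩ := Up.mon_basis X hVU u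
    have h3 := Jac.ord_prod v Finset.univ (fun i => X.mon (U i) ^ Matrix.vecMul u V i)
      fun i _ => zpow_ne_zero _ (X.mon_ne _)
    rw [h2, h3, Finset.mul_sum]
    conv_rhs => rw [h1]
    rw [dotProduct_sum]
    refine Finset.sum_congr rfl fun i _ => ?_
    rw [Jac.ord_zpow v _ (X.mon_ne _), dotProduct_smul, ← hmU i, smul_eq_mul]
    ring
  -- integrality of `k[M]`
  have hintM : ∀ s, LB v 0 (X.co T s) := by
    intro s
    by_cases hs : s ∈ X.sub T
    · exact (hokM s hs).integral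
    · intro _
      have h1 := hX' (Sum.inl s)
      have h2 : bb (Sum.inl s) = X.co T s := by simp [hbb, Up.bb, hc', hs]
      have h3 : ωω (Sum.inl s) = 0 := by simp [hωω, hs]
      rw [h2, h3] at h1
      rcases mul_eq_zero.1 h1 with h4 | h4
      · omega
      · rw [h4]
  have hintkM : ∀ f ∈ X.kM, LB v 0 f := by
    intro f hf
    obtain ⟨Q, rfl⟩ := (X.co_tb T).2.2 f hf
    have h1 : aeval (X.co T) Q ∈ Ten.ring v := by
      have h2 : aeval (X.co T) Q ∈ Algebra.adjoin k (Set.range (X.co T)) := by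
        rw [Algebra.adjoin_range_eq_range_aeval]
        exact ⟨Q, rfl⟩
      refine (Algebra.adjoin_le ?_ : Algebra.adjoin k (Set.range (X.co T)) ≤ Ten.ring v) h2
      rintro _ ⟨s, rfl⟩
      exact hintM s
    exact h1
  have hcen : v.HasCenter X.A y.asIdeal := by
    refine Up.Ok.center fun a => ?_
    obtain ⟨s, f, hsf, ha⟩ := X.gr1 a
    rw [ha]
    refine Up.Ok.sum s fun u hu => ?_
    obtain ⟨huΓ, hfu⟩ := hsf u hu
    by_cases huτ : u ∈ τ
    · obtain ⟨p, hp, hfp⟩ := X.comp_form' hfu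
      have h1 : ∃ d : k, Up.Ok X y.asIdeal v p d := by
        refine Up.Ok.adjoin ?_ hp
        rintro g ⟨l, hl, hg⟩
        have hlT : l ∈ T := by
          rw [← hT]
          exact ⟨u, huτ, hl⟩
        refine Up.Ok.adjoin ?_ (X.co_adj T l hlT g hg)
        rintro _ ⟨s, hs, rfl⟩
        exact ⟨c s, hokM s hs⟩
      obtain ⟨d, hd⟩ := h1
      have h2 : ∃ e : k, e ≠ 0 ∧ Up.Ok X y.asIdeal v (X.mon u) e := by
        rw [(Up.mon_basis X hVU u).2]
        refine Up.Ok.prod _ fun i _ => ?_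
        by_cases hi : i ∈ I
        · exact ⟨_, zpow_ne_zero _ (hβ0 i hi), (hokU i hi).zpow (hβ0 i hi) _⟩
        · refine ⟨1, one_ne_zero, ?_⟩
          rw [hVτ u huτ i hi, zpow_zero]
          have := Up.Ok.const (X := X) (y := y.asIdeal) (v := v) 1
          simpa using this
      obtain ⟨e, -, he⟩ := h2
      rw [hfp]
      exact ⟨d * e, hd.mul he⟩
    · refine ⟨0, ?_, ?_⟩
      · refine ⟨⟨f u, X.mem_A huΓ hfu⟩, 1, ?_, ?_, ?_⟩
        · exact fun h => hy.ne_top ((Ideal.eq_top_iff_one _).2 h)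
        · simp
        · rw [map_zero, zero_mul, sub_zero]
          by_contra h
          apply huτ
          rw [← hτ]
          exact ⟨huΓ, _, hfu, h⟩
      · rw [map_zero, sub_zero]
        obtain ⟨p, hp, hfp⟩ := X.comp_form hfu
        rw [hfp]
        have h1 : 0 < w ⬝ᵥ u := lt_of_le_of_ne (hw u huΓ) fun h => huτ ((hw0 u huΓ).1 h.symm)
        have h2 : LB v 1 (X.mon u) := by
          intro _
          have h3 := hmu u
          by_contra h4
          have h5 : (n : ℤ) * v.ord (X.mon u) ≤ 0 :=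
            mul_nonpos_of_nonneg_of_nonpos hn0.le (by omega)
          omega
        have h3 := (hintkM p hp).mul h2
        rw [zero_add] at h3
        exact h3
  -- the order of the form
  obtain ⟨hJ, hch⟩ := jac_chain R.D E _ _ R.dual hE (X.dr_tb R) hb
  have hform' := (formOrd_change v R.D E _ hE hJ hch _).1 hform
  refine ⟨n, v, _, hn, hdiv, hcen, hform', hmu, ?_, ?_⟩
  · intro Q hQ
    have hfl : Function.Injective fun s : σ => R.e.symm (Sum.inl s) :=
      R.e.symm.injective.comp Sum.inl_injective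
    set Q' : MvPolynomial σ k := bind₁ (fun s => MvPolynomial.X s + C (c' s)) Q with hQ'
    have h1 : aeval (X.co T) Q =
        aeval (fun j => bb (R.e j)) (rename (fun s => R.e.symm (Sum.inl s)) Q') := by
      rw [aeval_rename, hQ', aeval_bind₁]
      congr 2
      funext s
      rw [map_add, aeval_X, aeval_C]
      simp [hbb, Up.bb]
    have h2 : bind₁ (fun s => if s ∈ X.sub T then (0 : MvPolynomial σ k)
        else MvPolynomial.X s) Q' ≠ 0 := by
      have h9 : (fun s => bind₁ (fun s => if s ∈ X.sub T then (0 : MvPolynomial σ k)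
          else MvPolynomial.X s) (MvPolynomial.X s + C (c' s))) =
          fun s => if s ∈ X.sub T then C (c s) else MvPolynomial.X s := by
        funext s
        rw [map_add, bind₁_X_right, bind₁_C_right]
        by_cases hs : s ∈ X.sub T
        · simp [hs, hc']
        · simp [hs, hc']
      rw [hQ', bind₁_bind₁, h9]
      exact hQ
    have h3 : ∃ γ ∈ Q'.support, ∀ s ∈ X.sub T, γ s = 0 := by
      by_contra hcon
      push Not at hcon
      apply h2
      rw [bind₁, aeval_def, eval₂_eq]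
      refine Finset.sum_eq_zero fun γ hγ => ?_
      obtain ⟨s, hs, hγs⟩ := hcon γ hγ
      rw [Finset.prod_eq_zero (Finsupp.mem_support_iff.2 hγs), mul_zero]
      rw [if_pos hs, zero_pow hγs]
    obtain ⟨γ, hγ, hγ0⟩ := h3
    have hQ0 : Q' ≠ 0 := by
      rintro h
      rw [h] at hγ
      simp at hγ
    have hF0 : rename (fun s => R.e.symm (Sum.inl s)) Q' ≠ (0 : MvPolynomial (Fin (N + 1)) k) := by
      intro h
      exact hQ0 (rename_injective _ hfl (h.trans (map_zero _).symm))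
    have hω1 : ∀ s, (n : ℤ) * ω' (R.e.symm (Sum.inl s)) = if s ∈ X.sub T then 1 else 0 := by
      intro s
      rw [← hω', Equiv.apply_symm_apply, hωω]
      simp
    have hω2 : ∀ s, 0 ≤ ω' (R.e.symm (Sum.inl s)) := by
      intro s
      have h4 := hω1 s
      by_contra h5
      have h6 : (n : ℤ) * ω' (R.e.symm (Sum.inl s)) < 0 := mul_neg_of_pos_of_neg hn0 (not_le.1 h5)
      split_ifs at h4 <;> omega
    have hω3 : ∀ s, s ∉ X.sub T → ω' (R.e.symm (Sum.inl s)) = 0 := by
      intro s hs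
      have h4 := hω1 s
      rw [if_neg hs] at h4
      rcases mul_eq_zero.1 h4 with h5 | h5
      · omega
      · exact h5
    obtain ⟨h4, α, hα, h5⟩ := hF _ hF0
    rw [h1]
    apply le_antisymm
    · have h6 := h4 (γ.mapDomain fun s => R.e.symm (Sum.inl s)) (by
        rw [mem_support_iff, coeff_rename_mapDomain _ hfl]
        exact mem_support_iff.1 hγ)
      rw [Up.wt_map] at h6
      refine h6.trans (le_of_eq (Finset.sum_eq_zero fun s _ => ?_))
      by_cases hs : s ∈ X.sub T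
      · rw [hγ0 s hs]
        simp
      · rw [hω3 s hs, zero_mul]
    · rw [h5]
      obtain ⟨δ, rfl, -⟩ := coeff_rename_ne_zero _ _ _ (mem_support_iff.1 hα)
      rw [Up.wt_map]
      exact Finset.sum_nonneg fun s _ => mul_nonneg (hω2 s) (Int.natCast_nonneg _)
  · have h1 : jac R.D (fun j => bb (R.e j)) ≠ 0 := hJ
    obtain ⟨d, hd, h2⟩ := X.co_jac_mon R T U
    have h3 : (n : ℤ) * v.ord (jac R.D (fun j => bb (R.e j))) =
        ∑ i, w ⬝ᵥ U i - ∑ i, w i := by
      rw [hbb, Up.bb_jac, h2]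
      have h4 : algebraMap k K d ≠ 0 := by simpa using hd
      have h5 : ((U.det : ℤ) : K) ≠ 0 ∧ v.ord ((U.det : ℤ) : K) = 0 := by
        rcases Up.det_U hUV with h | h
        · rw [h]
          simp [Jac.ord_one]
        · rw [h]
          push_cast
          refine ⟨by simp, ?_⟩
          rw [Ten.ord_neg v 1 one_ne_zero, Jac.ord_one]
      have h6 : ∀ i, X.mon (U i) * (X.x i)⁻¹ ≠ 0 := fun i =>
        mul_ne_zero (X.mon_ne _) (inv_ne_zero (X.x_ne i))
      have h7 := Jac.ord_prod v Finset.univ (fun i => X.mon (U i) * (X.x i)⁻¹) fun i _ => h6 i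
      have h8 : ∏ i, X.mon (U i) * (X.x i)⁻¹ ≠ 0 := Finset.prod_ne_zero_iff.2 fun i _ => h6 i
      rw [v.ord_mul _ _ (mul_ne_zero h4 h5.1) h8, v.ord_mul _ _ h4 h5.1, v.ord_algebraMap d hd,
        h5.2, h7, zero_add, zero_add, Finset.mul_sum, ← Finset.sum_sub_distrib]
      refine Finset.sum_congr rfl fun i _ => ?_
      have h9 : (n : ℤ) * v.ord (X.x i) = w i := by
        have := hmu (Pi.single i 1)
        rw [Up.mon_single] at this
        rw [this]
        simp
      rw [v.ord_mul _ _ (X.mon_ne _) (inv_ne_zero (X.x_ne i)), Jac.ord_inv v _ (X.x_ne i), mul_add,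
        hmu, mul_neg, h9]
      ring
    have h4 : (n : ℤ) * ∑ j, ω' j = (X.sub T).ncard + (I.card : ℤ) + ∑ i, w ⬝ᵥ U i := by
      rw [Finset.mul_sum, ← Finset.sum_congr rfl fun j _ => hω' j, Up.sum_e X R]
      have h5 : ∑ s : σ, ωω (Sum.inl s) = (X.sub T).ncard := by
        have h6 : X.sub T = ((Finset.univ.filter fun s => s ∈ X.sub T : Finset σ) : Set σ) := by
          ext s
          simp
        rw [h6, Set.ncard_coe_finset]
        simp [hωω]
      have h6 : ∑ i : Fin m, ωω (Sum.inr i) = (I.card : ℤ) + ∑ i, w ⬝ᵥ U i := by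
        have h7 : ∀ i : Fin m, ωω (Sum.inr i) = (if i ∈ I then 1 else 0) + w ⬝ᵥ U i := by
          intro i
          by_cases hi : i ∈ I
          · simp [hωω, hi, hwI i hi]
          · simp [hωω, hi]
        rw [Finset.sum_congr rfl fun i _ => h7 i, Finset.sum_add_distrib]
        simp
      rw [h5, h6]
      ring
    have h5 : (X.dd τ : ℤ) = (I.card : ℤ) + (X.sub T).ncard := by
      unfold HD.dd
      rw [hI, hT]
      push_cast
      ring
    rw [h5]
    linear_combination h4 - h3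

end HD

end

end Pool.Agent.MLD.H
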