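import Pool.Agent.Lib.MP_f23696_ag.H.Grd
import Pool.Agent.Lib.MP_f23696_ag.T.Val

/-!
HORO, module WV: the weight vector of a valuation.
-/

set_option autoImplicit false

namespace Pool.Agent.MLD.H

open scoped Classical
open Pool.Agent.MLD.Ten (IsGood)
noncomputable section

universe u v

section HD
variable {k : Type u} [Field k] {K : Type v} [Field K] [Algebra k K]
  {σ κ : Type} [Fintype σ] [Fintype κ] {m : ℕ} (X : HD k K σ κ m)

namespace HD

/-! ### WV: the weight vector of a valuation -/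
section WV

/-- the order of `g x^u` is linear in `u` -/
theorem wv_ord_mon (v : DVal k K) (g : K ≃ₐ[k] K) (u : Fin m → ℤ) :
    v.ord (g (X.mon u)) = (fun j => v.ord (g (X.x j))) ⬝ᵥ u := by
  have hne : ∀ i, g (X.x i) ≠ 0 := fun i => (map_ne_zero g).2 (X.x_ne i)
  have h1 : g (X.mon u) = ∏ i, g (X.x i) ^ u i := by
    unfold mon
    rw [map_prod]
    exact Finset.prod_congr rfl fun i _ => map_zpow₀ g _ _
  rw [h1, Jac.ord_prod v _ _ (fun i _ => zpow_ne_zero _ (hne i))]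
  simp only [dotProduct]
  exact Finset.sum_congr rfl fun i _ => by rw [Jac.ord_zpow v _ (hne i), mul_comm]

/-- lower bounds on two components give a lower bound on their product -/
theorem wv_mul (v : DVal k K) (P Q : Submodule k K) (M N : ℤ) (hP : ∀ a ∈ P, Jac.LB v M a)
    (hQ : ∀ a ∈ Q, Jac.LB v N a) : ∀ a ∈ P * Q, Jac.LB v (M + N) a := by
  intro a ha
  induction ha using Submodule.mul_induction_on' with
  | mem_mul_mem p hp q hq => exact (hP p hp).mul (hQ q hq)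
  | add p _ q _ hp hq => exact hp.add hq

theorem weight (G : X.HG) (hA : IsGood X.A) (v : DVal k K) (x : Ideal X.A) (hx : x.IsPrime)
    (hv : v.HasCenter X.A x) :
    ∃ w : Fin m → ℤ, (∀ u ∈ X.Γ, 0 ≤ w ⬝ᵥ u) ∧ (∀ u ∈ X.Γ, w ⬝ᵥ u = 0 ↔ u ∈ X.tau x) ∧
      (∀ u ∈ X.Γ, ∀ a ∈ X.comp u, a ≠ 0 → w ⬝ᵥ u ≤ v.ord a) ∧
      ∀ᶠ g in G.F, ∀ u, v.ord (g (X.mon u)) = w ⬝ᵥ u := by
  obtain ⟨s, hs⟩ := X.Γfg
  have hsΓ : ∀ γ ∈ s, γ ∈ X.Γ := fun γ hγ => hs ▸ AddSubmonoid.subset_closure hγ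
  have hlow : ∀ᶠ g in G.F, ∀ γ ∈ s, ∀ a ∈ X.comp γ, a ≠ 0 → v.ord (g (X.mon γ)) ≤ v.ord a :=
    (Filter.eventually_all_finset s).2 fun γ hγ => G.low v hv.1 γ (hsΓ γ hγ)
  have hW := hlow.and G.stab
  have := G.neBot
  obtain ⟨g₁, hlow₁, hst₁⟩ := hW.exists
  have hgm : ∀ g : K ≃ₐ[k] K, (∀ u ∈ X.Γ, ∀ a, a ∈ X.comp u ↔ g a ∈ X.comp u) →
      ∀ u ∈ X.Γ, g (X.mon u) ∈ X.comp u ∧ g (X.mon u) ≠ 0 := by
    intro g hg u hu
    exact ⟨(hg u hu _).1 (X.mon_mem hu), (map_ne_zero g).2 (X.mon_ne u)⟩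
  set w : Fin m → ℤ := fun j => v.ord (g₁ (X.x j)) with hw
  have hwu : ∀ u, v.ord (g₁ (X.mon u)) = w ⬝ᵥ u := X.wv_ord_mon v g₁
  -- lower bound on the components
  have hmin : ∀ u ∈ X.Γ, ∀ a ∈ X.comp u, Jac.LB v (w ⬝ᵥ u) a := by
    intro u hu
    have h : ∀ u ∈ AddSubmonoid.closure (s : Set (Fin m → ℤ)),
        ∀ a ∈ X.comp u, Jac.LB v (w ⬝ᵥ u) a := by
      intro u hu
      induction hu using AddSubmonoid.closure_induction with
      | mem γ hγ =>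
        intro a ha h0
        rw [← hwu]
        exact hlow₁ γ hγ a ha h0
      | zero =>
        intro a ha
        rw [X.comp_zero, Submodule.mem_span_singleton] at ha
        obtain ⟨c, rfl⟩ := ha
        rw [dotProduct_zero]
        exact Ten.LB_smul v c fun _ => by rw [Jac.ord_one]
      | add u t hu ht ihu iht =>
        intro a ha
        rw [X.comp_mul (hs ▸ hu) (hs ▸ ht)] at ha
        rw [dotProduct_add]
        exact wv_mul v _ _ _ _ ihu iht a ha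
    exact h u (hs ▸ hu)
  refine ⟨w, ?_, ?_, ?_, ?_⟩
  · intro u hu
    obtain ⟨h1, h2⟩ := hgm g₁ hst₁ u hu
    rw [← hwu]
    exact hv.1 ⟨_, X.mem_A hu h1⟩ h2
  · intro u hu
    constructor
    · intro h
      obtain ⟨h1, h2⟩ := hgm g₁ hst₁ u hu
      refine ⟨hu, ⟨_, X.mem_A hu h1⟩, h1, fun h3 => ?_⟩
      have h4 := (hv.2 _).1 h3 h2
      have h5 : v.ord (g₁ (X.mon u)) = 0 := by rw [hwu, h]
      change 0 < v.ord (g₁ (X.mon u)) at h4
      omega
    · rintro ⟨-, a, ha, hax⟩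
      have h1 : ¬ v.Small (a : K) := fun h => hax ((hv.2 a).2 h)
      obtain ⟨h2, h3⟩ := Ten.ord_eq_zero_of v (hv.1 a) h1
      have h4 := hmin u hu _ ha h2
      have h5 : 0 ≤ w ⬝ᵥ u := by
        obtain ⟨h1, h2⟩ := hgm g₁ hst₁ u hu
        rw [← hwu]
        exact hv.1 ⟨_, X.mem_A hu h1⟩ h2
      omega
  · intro u hu a ha h0
    exact hmin u hu a ha h0
  · filter_upwards [hW] with g hg u
    obtain ⟨hlow₂, hst₂⟩ := hg
    set w' : Fin m → ℤ := fun j => v.ord (g (X.x j)) with hw'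
    have hwu' : ∀ u, v.ord (g (X.mon u)) = w' ⬝ᵥ u := X.wv_ord_mon v g
    have hγ : ∀ γ ∈ s, w' ⬝ᵥ γ = w ⬝ᵥ γ := by
      intro γ hγ
      obtain ⟨h1, h2⟩ := hgm g₁ hst₁ γ (hsΓ γ hγ)
      obtain ⟨h3, h4⟩ := hgm g hst₂ γ (hsΓ γ hγ)
      have h5 := hlow₁ γ hγ _ h3 h4
      have h6 := hlow₂ γ hγ _ h1 h2
      rw [hwu, hwu'] at h5 h6
      omega
    have hΓ : ∀ u ∈ X.Γ, w' ⬝ᵥ u = w ⬝ᵥ u := by
      intro u hu
      rw [← hs] at hu
      induction hu using AddSubmonoid.closure_induction with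
      | mem γ h => exact hγ γ h
      | zero => rw [dotProduct_zero, dotProduct_zero]
      | add u t _ _ ihu iht => rw [dotProduct_add, dotProduct_add, ihu, iht]
    obtain ⟨a, ha, b, hb, rfl⟩ := X.diff hA u
    rw [hwu', dotProduct_sub, dotProduct_sub, hΓ a ha, hΓ b hb]

end WV

end HD

end HD

end

end Pool.Agent.MLD.H
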