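import Pool.Agent.Lib.MP_f23696_ag.H.Ctx
import Pool.Agent.Lib.MP_f23696_ag.H.Grd
import Pool.Agent.Lib.MP_f23696_ag.H.Fac
import Pool.Agent.Lib.MP_f23696_ag.H.Wv
import Pool.Agent.Lib.MP_f23696_ag.H.Inv
import Pool.Agent.Lib.MP_f23696_ag.H.Geo
import Pool.Agent.Lib.MP_f23696_ag.H.Qj
import Pool.Agent.Lib.MP_f23696_ag.H.Low
import Pool.Agent.Lib.MP_f23696_ag.H.Up
import Pool.Agent.Lib.MP_f23696_ag.H.Heq
import Pool.Agent.Lib.MP_f23696_ag.H.Mat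
import Pool.Agent.Lib.MP_f23696_ag.H.Chain


set_option autoImplicit false

namespace Pool.Agent.MLD.H

open scoped Classical
open Pool.Agent.MLD.Ten (IsGood)
noncomputable section

universe u v

section HD
variable {k : Type u} {K : Type v} [Field k] [Field K] [Algebra k K]
  {σ κ : Type} [Fintype σ] [Fintype κ] {m : ℕ} (X : HD k K σ κ m)

namespace HD

namespace KEY

theorem ord_of_mul (v : DVal k K) {f p q : K} (hf : f ≠ 0) (hq : q ≠ 0)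
    (h : f * q = p) (hp0 : v.ord p = 0) (hq0 : v.ord q = 0) : v.ord f = 0 := by
  have := v.ord_mul f q hf hq
  rw [h, hp0, hq0] at this
  omega

/-- the elements of `K₀` are quotients of elements of `kM` -/
theorem frac (f : K) (hf : f ∈ X.K₀) (h0 : f ≠ 0) :
    ∃ p ∈ X.kM, ∃ q ∈ X.kM, p ≠ 0 ∧ q ≠ 0 ∧ f * q = p := by
  obtain ⟨p, hp, q, hq, h⟩ := IntermediateField.mem_adjoin_iff_div.1 hf
  have hq0 : q ≠ 0 := by
    rintro rfl
    rw [div_zero] at h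
    exact h0 h
  have hp0 : p ≠ 0 := by
    rintro rfl
    rw [zero_div] at h
    exact h0 h
  refine ⟨p, hp, q, hq, hp0, hq0, ?_⟩
  rw [h, div_mul_cancel₀ _ hq0]

theorem comap_isMaximal (φ : X.A ≃ₐ[k] X.A) (x : MaximalSpectrum X.A) :
    (x.asIdeal.comap φ).IsMaximal := by
  have := x.isMaximal
  exact Ideal.comap_isMaximal_of_surjective φ φ.surjective

theorem delta_inv (δ : Ideal X.A →₀ ℝ) (hδ : ∀ q, δ q ≠ 0 → X.Stab q) (g : K ≃ₐ[k] K)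
    (hg : ∀ u ∈ X.Γ, ∀ a, a ∈ X.comp u ↔ g a ∈ X.comp u) (φ : X.A ≃ₐ[k] X.A)
    (hφ : ∀ a : X.A, (φ a : K) = g a) (q : Ideal X.A) : δ (q.comap φ) = δ q := by
  by_cases h : δ q = 0
  · by_contra hn
    rw [h] at hn
    have h1 := X.stab_comap (q.comap φ) (hδ _ hn) g hg φ hφ
    have h2 : q.comap φ = q := by
      ext a
      obtain ⟨b, rfl⟩ := φ.surjective a
      have : b ∈ (q.comap φ).comap φ ↔ b ∈ q.comap φ := by rw [h1]
      simpa only [Ideal.mem_comap] using this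
    rw [h2] at hn
    exact hn h
  · rw [X.stab_comap q (hδ _ h) g hg φ hφ]

/-- a face is closed under generation: a property of the generators in the face that is
additive holds on the face -/
theorem face_induction {τ : Set (Fin m → ℤ)} (hτ : X.IsFace τ) (S : Set (Fin m → ℤ))
    (hS : AddSubmonoid.closure S = X.Γ) (P : (Fin m → ℤ) → Prop) (h0 : P 0)
    (hS' : ∀ u ∈ S, u ∈ τ → P u) (hadd : ∀ u t, P u → P t → P (u + t)) : ∀ u ∈ τ, P u := by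
  intro u hu
  have hu' : u ∈ AddSubmonoid.closure S := by
    rw [hS]
    exact hτ.le u hu
  revert hu
  induction hu' using AddSubmonoid.closure_induction with
  | mem x hx => exact fun h => hS' x hx h
  | zero => exact fun _ => h0
  | add x y hx hy ihx ihy =>
    intro h
    rw [hS] at hx hy
    have h1 := hτ.of_add x hx y hy h
    have h2 := hτ.of_add y hy x hx (by rwa [add_comm] at h)
    exact hadd x y (ihx h1) (ihy h2)

theorem valAt_comap (g : K ≃ₐ[k] K) (φ : X.A ≃ₐ[k] X.A) (hφ : ∀ a : X.A, (φ a : K) = g a)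
    (y : Ideal X.A) (f : K) (c : k) (h : X.ValAt (y.comap φ) f c) : X.ValAt y (g f) c := by
  obtain ⟨a, b, hb, hab, hc⟩ := h
  refine ⟨φ a, φ b, fun hm => hb (Ideal.mem_comap.2 hm), ?_, ?_⟩
  · rw [hφ, hφ, ← map_mul, hab]
  · have := Ideal.mem_comap.1 hc
    rw [map_sub, map_mul, AlgEquiv.commutes] at this
    exact this

end KEY

variable {N : ℕ}

open KEY in
/-- lower bound for the log discrepancies near `y` -/
theorem key_low [IsAlgClosed k] [CharZero k] (G : X.HG) (R : X.Dr N) (hA : IsGood X.A)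
    (δ : Ideal X.A →₀ ℝ) (hδ : ∀ q, δ q ≠ 0 → X.Stab q) (γ' : (K × (Fin m → ℤ)) →₀ ℝ)
    (hγ : ∀ h ∈ γ'.support, h.1 ≠ 0 ∧ h.1 ∈ X.K₀) (s : X.A)
    (hs : ∀ x : Ideal X.A, x.IsPrime → s ∉ x → IsLocalEq X.A R.D δ x (X.toEq γ'))
    (x : MaximalSpectrum X.A) (hx : s ∉ x.asIdeal) (l : ℝ) (hl : l ∈ logDiscs X.A R.D δ x) :
    ∃ w : Fin m → ℤ, (∀ u ∈ X.Γ, 0 ≤ w ⬝ᵥ u) ∧
      (∀ u ∈ X.Γ, w ⬝ᵥ u = 0 ↔ u ∈ X.tau x.asIdeal) ∧
      mu γ' w + X.dd (X.tau x.asIdeal) ≤ l := by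
  obtain ⟨v, -, hv, j, hj, γx, hγx, rfl⟩ := hl
  have hxp : x.asIdeal.IsPrime := x.isMaximal.isPrime
  obtain ⟨w, hw0, hwz, hwmin, hwev⟩ := X.weight G hA v x.asIdeal hxp hv
  refine ⟨w, hw0, hwz, ?_⟩
  have hfr : ∀ h ∈ γ'.support, ∀ᶠ g in G.F, v.ord (g h.1) = 0 := by
    intro h hh
    obtain ⟨p, hp, q, hq, hp0, hq0, he⟩ := frac X h.1 (hγ h hh).2 (hγ h hh).1
    filter_upwards [G.zer v hv.1 p hp hp0, G.zer v hv.1 q hq hq0] with g h1 h2
    refine ord_of_mul v (f := g h.1) (p := g p) (q := g q) ?_ ?_ ?_ h1 h2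
    · rw [Ne, EmbeddingLike.map_eq_zero_iff]
      exact (hγ h hh).1
    · rw [Ne, EmbeddingLike.map_eq_zero_iff]
      exact hq0
    · rw [← map_mul, he]
  have hall : ∀ᶠ g in G.F, ∀ h ∈ γ'.support, v.ord (g h.1) = 0 :=
    (Filter.eventually_all_finset _).2 hfr
  have := G.neBot
  obtain ⟨g, ⟨⟨hg, hgs⟩, hgw⟩, hg0⟩ := (((G.stab.and (G.opn x s hx)).and hwev).and hall).exists
  obtain ⟨φ, hφ⟩ := X.exists_phi g hg
  obtain ⟨v', hv'⟩ := exists_comp v g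
  set x' : MaximalSpectrum X.A := ⟨x.asIdeal.comap φ, comap_isMaximal X φ x⟩ with hx'
  have hsx' : s ∉ x'.asIdeal := by
    obtain ⟨h1, h2⟩ := hgs
    intro hm
    apply h2
    have h3 : φ s ∈ x.asIdeal := Ideal.mem_comap.1 hm
    have h4 : φ s = ⟨g (s : K), h1⟩ := Subtype.ext (hφ s)
    rwa [h4] at h3
  obtain ⟨hc', -, j', hj', hld⟩ := inv X.A hA R.D (fun j => Sum.elim X.M X.x (R.e j))
    R.dual (X.dr_tb R) δ g φ hφ (fun q _ => delta_inv X δ hδ g hg φ hφ q) x.asIdeal x'.asIdeal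
    hxp rfl γx (X.toEq γ') hγx (hs x'.asIdeal x'.isMaximal.isPrime hsx') v v' hv hv' j hj
  have hlow := X.low0 R hA x' v' hc' w (fun u => by rw [hv', hgw]) (fun u hu a ha ha0 => by
    rw [hv']
    exact hwmin u hu (g a) ((hg u hu a).1 ha) (by
      rw [Ne, EmbeddingLike.map_eq_zero_iff]
      exact ha0)) j' hj'
  have htau : X.tau x'.asIdeal = X.tau x.asIdeal := X.tau_comap g hg φ hφ x.asIdeal
  rw [htau] at hlow
  have hval := X.toEq_val γ' (fun h hh => (hγ h hh).1) v' 1 w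
    (fun h hh => by rw [hv']; exact hg0 h hh) (fun u => by rw [Nat.cast_one, one_mul, hv', hgw])
  rw [Nat.cast_one, one_mul] at hval
  have hlow' : ((∑ i, w i : ℤ) : ℝ) + (X.dd (X.tau x.asIdeal) : ℝ) ≤ 1 + (j' : ℝ) := by
    exact_mod_cast hlow
  rw [← hld, hval]
  unfold mu
  linarith

open KEY in
/-- upper bound for a log discrepancy at `y` -/
theorem key_up [IsAlgClosed k] [CharZero k] (G : X.HG) (R : X.Dr N) (hA : IsGood X.A)
    (δ : Ideal X.A →₀ ℝ) (hδ : ∀ q, δ q ≠ 0 → X.Stab q) (γ' : (K × (Fin m → ℤ)) →₀ ℝ)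
    (hγ : ∀ h ∈ γ'.support, h.1 ≠ 0 ∧ h.1 ∈ X.K₀) (s : X.A)
    (hs : ∀ x : Ideal X.A, x.IsPrime → s ∉ x → IsLocalEq X.A R.D δ x (X.toEq γ'))
    (y : MaximalSpectrum X.A) (hy : s ∉ y.asIdeal) (w : Fin m → ℤ)
    (hw : ∀ u ∈ X.Γ, 0 ≤ w ⬝ᵥ u) (hw0 : ∀ u ∈ X.Γ, w ⬝ᵥ u = 0 ↔ u ∈ X.tau y.asIdeal) :
    ∃ n : ℕ, 1 ≤ n ∧ ∃ l ∈ logDiscs X.A R.D δ y, n * l ≤ mu γ' w + X.dd (X.tau y.asIdeal) := by
  have hyp : y.asIdeal.IsPrime := y.isMaximal.isPrime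
  set T : Set κ := X.kinds (X.tau y.asIdeal) with hT
  -- the generators of the face
  obtain ⟨S, hS⟩ := X.Γfg
  have hface := X.tau_isFace y.asIdeal hyp
  have hunit : ∀ᶠ g in G.F, ∀ u ∈ S, u ∈ X.tau y.asIdeal →
      ∃ h : g (X.mon u) ∈ X.A, (⟨g (X.mon u), h⟩ : X.A) ∉ y.asIdeal := by
    rw [Filter.eventually_all_finset]
    intro u hu
    by_cases h : u ∈ X.tau y.asIdeal
    · filter_upwards [G.unit y u h] with g hg _
      exact hg
    · exact Filter.Eventually.of_forall fun g h' => absurd h' h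
  -- the polynomials
  have hpoly : ∀ h ∈ γ'.support, ∃ P Q : MvPolynomial σ k, P ≠ 0 ∧ Q ≠ 0 ∧
      MvPolynomial.aeval (X.co T) Q ≠ 0 ∧
      h.1 * MvPolynomial.aeval (X.co T) Q = MvPolynomial.aeval (X.co T) P := by
    intro h hh
    obtain ⟨p, hp, q, hq, hp0, hq0, he⟩ := frac X h.1 (hγ h hh).2 (hγ h hh).1
    obtain ⟨P, rfl⟩ := (X.co_tb T).2.2 p hp
    obtain ⟨Q, rfl⟩ := (X.co_tb T).2.2 q hq
    refine ⟨P, Q, ?_, ?_, hq0, he⟩
    · rintro rfl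
      rw [map_zero] at hp0
      exact hp0 rfl
    · rintro rfl
      rw [map_zero] at hq0
      exact hq0 rfl
  choose! P Q hP hQ hQ0 hPQ using hpoly
  have hfib : ∀ᶠ g in G.F, ∀ h ∈ γ'.support, (∀ c : σ → k,
      (∀ s ∈ X.sub T, X.ValAt y.asIdeal (g (X.co T s)) (c s)) → X.Gen T c (P h)) ∧
      (∀ c : σ → k,
      (∀ s ∈ X.sub T, X.ValAt y.asIdeal (g (X.co T s)) (c s)) → X.Gen T c (Q h)) := by
    rw [Filter.eventually_all_finset]
    intro h hh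
    exact (G.fib y (P h) (hP h hh)).and (G.fib y (Q h) (hQ h hh))
  have := G.neBot
  obtain ⟨g, ⟨⟨hg, hgs⟩, hgu⟩, hgf⟩ :=
    (((G.stab.and (G.opn y s hy)).and hunit).and hfib).exists
  obtain ⟨φ, hφ⟩ := X.exists_phi g hg
  set y' : MaximalSpectrum X.A := ⟨y.asIdeal.comap φ, comap_isMaximal X φ y⟩ with hy'
  have hsy' : s ∉ y'.asIdeal := by
    obtain ⟨h1, h2⟩ := hgs
    intro hm
    apply h2
    have h3 : φ s ∈ y.asIdeal := Ideal.mem_comap.1 hm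
    have h4 : φ s = ⟨g (s : K), h1⟩ := Subtype.ext (hφ s)
    rwa [h4] at h3
  have htau : X.tau y'.asIdeal = X.tau y.asIdeal := X.tau_comap g hg φ hφ y.asIdeal
  have hgu' : ∀ u ∈ X.tau y.asIdeal,
      ∃ h : g (X.mon u) ∈ X.A, (⟨g (X.mon u), h⟩ : X.A) ∉ y.asIdeal := by
    refine face_induction X hface (S : Set (Fin m → ℤ)) hS _ ?_ (fun u hu hu' => hgu u hu hu') ?_
    · rw [X.mon_zero, map_one]
      refine ⟨X.A.one_mem, fun h => ?_⟩
      exact hyp.ne_top ((Ideal.eq_top_iff_one _).2 h)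
    · rintro u t ⟨h1, h2⟩ ⟨h3, h4⟩
      rw [X.mon_add, map_mul]
      refine ⟨X.A.mul_mem h1 h3, fun h => ?_⟩
      rcases hyp.mem_or_mem (show (⟨g (X.mon u), h1⟩ : X.A) * ⟨g (X.mon t), h3⟩ ∈ y.asIdeal from h)
        with h5 | h5
      · exact h2 h5
      · exact h4 h5
  have hmon : ∀ u ∈ X.tau y'.asIdeal,
      ∃ h : X.mon u ∈ X.A, (⟨X.mon u, h⟩ : X.A) ∉ y'.asIdeal := by
    intro u hu
    rw [htau] at hu
    have huΓ : u ∈ X.Γ := hu.1
    refine ⟨X.mem_A huΓ (X.mon_mem huΓ), fun hm => ?_⟩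
    obtain ⟨h1, h2⟩ := hgu' u hu
    apply h2
    have h3 : φ ⟨X.mon u, X.mem_A huΓ (X.mon_mem huΓ)⟩ ∈ y.asIdeal := Ideal.mem_comap.1 hm
    have h4 : φ ⟨X.mon u, X.mem_A huΓ (X.mon_mem huΓ)⟩ = ⟨g (X.mon u), h1⟩ :=
      Subtype.ext (hφ _)
    rwa [h4] at h3
  have hT' : X.kinds (X.tau y'.asIdeal) = T := by rw [htau]
  -- the values of the coordinates
  have hc0 : ∀ s, s ∈ X.sub T → ∃ c : k, X.ValAt y'.asIdeal (X.co T s) c := by
    intro s hs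
    obtain ⟨c, hcT, hcS⟩ := X.co_mem T s hs
    exact X.S_val y' hmon c (by rw [hT']; exact hcT) _ hcS
  choose! c hc using hc0
  have hc' : ∀ s ∈ X.sub (X.kinds (X.tau y'.asIdeal)),
      X.ValAt y'.asIdeal (X.co (X.kinds (X.tau y'.asIdeal)) s) (c s) := by
    rw [hT']
    exact hc
  have hw0' : ∀ u ∈ X.Γ, w ⬝ᵥ u = 0 ↔ u ∈ X.tau y'.asIdeal := by
    rw [htau]
    exact hw0
  obtain ⟨n, v', j', hn, hdiv, hcen, hform, hord, hgen, hnj⟩ :=
    X.up0 R hA y' hmon c hc' w hw hw0'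
  rw [hT'] at hgen
  rw [htau] at hnj
  have hval0 : ∀ s ∈ X.sub T, X.ValAt y.asIdeal (g (X.co T s)) (c s) := fun s hs =>
    valAt_comap X g φ hφ y.asIdeal (X.co T s) (c s) (hc s hs)
  have hz : ∀ h ∈ γ'.support, v'.ord h.1 = 0 := by
    intro h hh
    exact ord_of_mul v' (hγ h hh).1 (hQ0 h hh) (hPQ h hh)
      (hgen (P h) ((hgf h hh).1 c hval0)) (hgen (Q h) ((hgf h hh).2 c hval0))
  have hval := X.toEq_val γ' (fun h hh => (hγ h hh).1) v' n w hz hord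
  -- back to `y`
  obtain ⟨v, hv⟩ := exists_comp v' g.symm
  have hφs : ∀ a : X.A, (φ.symm a : K) = g.symm a := by
    intro a
    rw [AlgEquiv.eq_symm_apply, ← hφ, AlgEquiv.apply_symm_apply]
  have hgsymm : ∀ u ∈ X.Γ, ∀ a, a ∈ X.comp u ↔ g.symm a ∈ X.comp u := by
    intro u hu a
    rw [hg u hu (g.symm a), AlgEquiv.apply_symm_apply]
  have hyy : y.asIdeal = y'.asIdeal.comap φ.symm := by
    ext a
    rw [Ideal.mem_comap, hy', Ideal.mem_comap, AlgEquiv.apply_symm_apply]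
  obtain ⟨hcy, hdy, j, hj, hld⟩ := inv X.A hA R.D (fun j => Sum.elim X.M X.x (R.e j))
    R.dual (X.dr_tb R) δ g.symm φ.symm hφs
    (fun q _ => delta_inv X δ hδ g.symm hgsymm φ.symm hφs q) y'.asIdeal y.asIdeal
    y'.isMaximal.isPrime hyy (X.toEq γ') (X.toEq γ')
    (hs y'.asIdeal y'.isMaximal.isPrime hsy') (hs y.asIdeal hyp hy) v' v hcen hv j' hform
  refine ⟨n, hn, _, ⟨v, hdy N hdiv, hcy, j, hj, X.toEq γ', hs y.asIdeal hyp hy, rfl⟩, ?_⟩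
  rw [hld]
  have hnj' : (n : ℝ) * (1 + (j' : ℝ)) =
      ((∑ i, w i : ℤ) : ℝ) + (X.dd (X.tau y.asIdeal) : ℝ) := by
    exact_mod_cast hnj
  have e : (n : ℝ) * (1 + (j' : ℝ) - v'.val (X.toEq γ')) =
      (n : ℝ) * (1 + (j' : ℝ)) - n * v'.val (X.toEq γ') := by ring
  rw [e, hnj', hval]
  unfold mu
  linarith

namespace KEY

theorem mld_le {A : Subalgebra k K} (D : Fin (N + 1) → Derivation k K K) (δ : Ideal A →₀ ℝ)
    (x y : MaximalSpectrum A)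
    (h : ∀ l ∈ logDiscs A D δ x, ∃ n : ℕ, 1 ≤ n ∧ ∃ l' ∈ logDiscs A D δ y, n * l' ≤ l) :
    mld A D δ y ≤ mld A D δ x := by
  by_cases hneg : ∃ l ∈ logDiscs A D δ y, l < 0
  · unfold mld
    rw [if_pos hneg]
    exact bot_le
  have hneg' : ¬ ∃ l ∈ logDiscs A D δ x, l < 0 := by
    rintro ⟨l, hl, hl0⟩
    obtain ⟨n, hn, l', hl', hle⟩ := h l hl
    refine hneg ⟨l', hl', ?_⟩
    by_contra hcon
    push Not at hcon
    have : (0 : ℝ) ≤ n * l' := mul_nonneg (Nat.cast_nonneg n) hcon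
    linarith
  unfold mld
  rw [if_neg hneg, if_neg hneg']
  refine le_iInf₂ fun l hl => ?_
  obtain ⟨n, hn, l', hl', hle⟩ := h l hl
  refine (iInf₂_le l' hl').trans ?_
  have h0 : 0 ≤ l' := by
    by_contra hcon
    push Not at hcon
    exact hneg ⟨l', hl', hcon⟩
  have h1 : (1 : ℝ) ≤ n := by exact_mod_cast hn
  have h2 : l' ≤ l := by nlinarith
  exact_mod_cast h2

theorem isOpen_basic {A : Subalgebra k K} (s : A) :
    IsOpen {x : MaximalSpectrum A | s ∉ x.asIdeal} := by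
  have h1 : {x : MaximalSpectrum A | s ∉ x.asIdeal} =
      MaximalSpectrum.toPrimeSpectrum ⁻¹' (PrimeSpectrum.basicOpen s : Set _) := by
    ext x
    simp only [Set.mem_ofPred_eq, Set.mem_preimage, SetLike.mem_coe, PrimeSpectrum.mem_basicOpen]
    rfl
  rw [h1]
  exact (PrimeSpectrum.isOpen_basicOpen).preimage MaximalSpectrum.toPrimeSpectrum_continuous

end KEY

open KEY in
theorem final_abs [IsAlgClosed k] [CharZero k] (G : X.HG) (R : X.Dr N) (hA : IsGood X.A)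
    (δ : Ideal X.A →₀ ℝ) (hδ0 : ∀ q, 0 ≤ δ q) (hδ : ∀ q, δ q ≠ 0 → X.Stab q)
    (hRC : ∀ x : MaximalSpectrum X.A, ∃ γ : Kˣ →₀ ℝ, IsLocalEq X.A R.D δ x.asIdeal γ) :
    LowerSemicontinuous (mld X.A R.D δ) := by
  intro y a ha
  have hyp : y.asIdeal.IsPrime := y.isMaximal.isPrime
  obtain ⟨γ, hγy⟩ := hRC y
  obtain ⟨γ', hγ, hloc⟩ := X.homEq R hA δ (fun q hq => X.stab_hom q (hδ q hq)) y.asIdeal hyp γ hγy
  obtain ⟨s₁, hs₁, hopen⟩ := open_eq X.A hA R.D (fun j => Sum.elim X.M X.x (R.e j))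
    R.dual (X.dr_tb R) δ y.asIdeal hyp (X.toEq γ') hloc
  obtain ⟨s₂, hs₂, htau⟩ := X.tau_open y.asIdeal hyp
  have hev : ∀ᶠ x in nhds y, s₁ ∉ x.asIdeal ∧ s₂ ∉ x.asIdeal :=
    ((isOpen_basic s₁).mem_nhds hs₁ |> fun h1 =>
      Filter.inter_mem h1 ((isOpen_basic s₂).mem_nhds hs₂))
  filter_upwards [hev] with x hx
  refine ha.trans_le (mld_le R.D δ x y fun l hl => ?_)
  obtain ⟨w, hw, hwz, hwl⟩ := X.key_low G R hA δ hδ γ' hγ s₁ hopen x hx.1 l hl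
  have hxt := htau x.asIdeal x.isMaximal.isPrime hx.2
  have hzs : X.zs w = X.tau x.asIdeal := by
    ext u
    constructor
    · rintro ⟨h1, h2⟩
      exact (hwz u h1).1 h2
    · intro h
      exact ⟨h.1, (hwz u h.1).2 h⟩
  obtain ⟨w', hw', hwz', hle⟩ := X.chain (fun u N hN h => X.sat hA u N hN h) (X.diff hA) γ'
    (X.tau y.asIdeal) (X.tau_isFace y.asIdeal hyp)
    (fun ρ hρ h0 => X.mat R hA δ hδ0 y.asIdeal hyp γ' hγ hloc ρ hρ h0) w hw
    (fun u hu => (hwz u hu.1).2 (hxt hu))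
  rw [hzs] at hle
  obtain ⟨n, hn, l', hl', hle'⟩ := X.key_up G R hA δ hδ γ' hγ s₁ hopen y hs₁ w' hw' hwz'
  exact ⟨n, hn, l', hl', by linarith⟩

end HD

end HD

end

end Pool.Agent.MLD.H
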