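import Pool.Agent.Lib.MP_f23696_ag.H.Geo
import Pool.Agent.Lib.MP_f23696_ag.H.Up
import Pool.Agent.Lib.MP_f23696_ag.H.Qj
import Pool.Agent.Lib.MP_f23696_ag.H.Heq
import Pool.Agent.Lib.MP_f23696_ag.H.Grd
import Pool.Agent.Lib.MP_f23696_ag.T.Ind
import Pool.Agent.Lib.MP_f23696_ag.T.Der
import Pool.Agent.Lib.MP_f23696_ag.T.Val

/-!
Project HORO (MP_f23696_ag), module MAT: the Mather bound.
-/

set_option autoImplicit false
set_option linter.unusedVariables false

namespace Pool.Agent.MLD.H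

open scoped Classical
open Pool.Agent.MLD.Ten (IsGood)
open Pool.Agent.MLD.Jac (LB ord_prod ord_inv)
noncomputable section

universe u v

namespace MAT

/-- independent rows: a maximal independent subset of `τ` and `u₀` -/
theorem rows {m : ℕ} (τ : Set (Fin m → ℤ)) (ρ : Fin m → ℤ) (hτ : ∀ u ∈ τ, ρ ⬝ᵥ u = 0)
    (hr : HD.rk τ + 1 = m) (u₀ : Fin m → ℤ) (hu : ρ ⬝ᵥ u₀ = 1) :
    ∃ (U : Matrix (Fin m) (Fin m) ℤ) (i₀ : Fin m), U.det ≠ 0 ∧ U i₀ = u₀ ∧
      ∀ i, i ≠ i₀ → U i ∈ τ := by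
  cases m with
  | zero => exact absurd hr (Nat.succ_ne_zero _)
  | succ m' =>
    have hr' : HD.rk τ = m' := Nat.succ_injective hr
    set S : Set (Fin (m' + 1) → ℚ) := {x | ∃ u ∈ τ, x = fun i => (u i : ℚ)} with hS
    obtain ⟨b, hbS, hspan, hli⟩ := exists_linearIndependent ℚ S
    have : Finite b := hli.finite
    have : Fintype b := Fintype.ofFinite b
    have hcard : Fintype.card b = m' := by
      have h1 := finrank_span_set_eq_card hli
      rw [hspan] at h1
      have h2 : Module.finrank ℚ (Submodule.span ℚ S) = m' := hr'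
      rw [h2, Set.toFinset_card] at h1
      exact h1.symm
    let e : b ≃ Fin m' := Fintype.equivFinOfCardEq hcard
    have hf : ∀ j : Fin m', ∃ u ∈ τ, ((e.symm j : b) : Fin (m' + 1) → ℚ) = fun i => (u i : ℚ) :=
      fun j => hbS (e.symm j).2
    choose f hfτ hfe using hf
    let U : Matrix (Fin (m' + 1)) (Fin (m' + 1)) ℤ := Matrix.of (Fin.cons u₀ f : Fin (m' + 1) → _)
    refine ⟨U, 0, ?_, rfl, ?_⟩
    · let Uq : Matrix (Fin (m' + 1)) (Fin (m' + 1)) ℚ := U.map (Int.cast : ℤ → ℚ)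
      have hrow : Uq.row = Fin.cons (fun i => (u₀ i : ℚ))
          (fun j => ((e.symm j : b) : Fin (m' + 1) → ℚ)) := by
        funext i
        refine Fin.cases ?_ (fun j => ?_) i
        · rfl
        · rw [Fin.cons_succ, hfe j]
          rfl
      have hliq : LinearIndependent ℚ Uq.row := by
        rw [hrow, linearIndependent_finCons]
        refine ⟨hli.comp _ e.symm.injective, ?_⟩
        intro hmem
        have hle : Submodule.span ℚ (Set.range fun j => ((e.symm j : b) : Fin (m' + 1) → ℚ)) ≤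
            LinearMap.ker (dotProductBilin ℚ ℚ (fun i => (ρ i : ℚ))) := by
          rw [Submodule.span_le]
          rintro _ ⟨j, rfl⟩
          have h1 := hτ (f j) (hfτ j)
          rw [SetLike.mem_coe, LinearMap.mem_ker]
          show (fun i => (ρ i : ℚ)) ⬝ᵥ ((e.symm j : b) : Fin (m' + 1) → ℚ) = 0
          rw [hfe j]
          have h2 : (fun i => (ρ i : ℚ)) ⬝ᵥ (fun i => (f j i : ℚ)) = ((ρ ⬝ᵥ f j : ℤ) : ℚ) := by
            simp [dotProduct]
          rw [h2, h1, Int.cast_zero]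
        have h3 := hle hmem
        rw [LinearMap.mem_ker] at h3
        have h4 : (fun i => (ρ i : ℚ)) ⬝ᵥ (fun i => (u₀ i : ℚ)) = ((ρ ⬝ᵥ u₀ : ℤ) : ℚ) := by
          simp [dotProduct]
        have h5 : (fun i => (ρ i : ℚ)) ⬝ᵥ (fun i => (u₀ i : ℚ)) = 0 := h3
        rw [h4, hu] at h5
        norm_num at h5
      rw [Matrix.linearIndependent_rows_iff_isUnit, Matrix.isUnit_iff_isUnit_det] at hliq
      intro h0
      have h1 : Uq.det = ((U.det : ℤ) : ℚ) := by
        have := RingHom.map_det (Int.castRingHom ℚ) U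
        exact this.symm
      rw [h1, h0, Int.cast_zero] at hliq
      exact not_isUnit_zero hliq
    · intro i hi
      obtain ⟨j, rfl⟩ := Fin.exists_succ_eq.mpr hi
      exact hfτ j

/-- a functional vanishing on the rows other than `i₀` is a multiple of `ρ` -/
theorem prop {m : ℕ} (U : Matrix (Fin m) (Fin m) ℤ) (i₀ : Fin m) (hU : U.det ≠ 0)
    (ρ l : Fin m → ℤ) (h1 : ∀ i, i ≠ i₀ → ρ ⬝ᵥ U i = 0) (h2 : ∀ i, i ≠ i₀ → l ⬝ᵥ U i = 0)
    (h3 : ρ ⬝ᵥ U i₀ = 1) (z : Fin m → ℤ) : l ⬝ᵥ z = (ρ ⬝ᵥ z) * (l ⬝ᵥ U i₀) := by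
  set c : Fin m → ℤ := Matrix.vecMul z U.adjugate with hc
  have hcU : Matrix.vecMul c U = U.det • z := by
    rw [hc, Matrix.vecMul_vecMul, Matrix.adjugate_mul, Matrix.vecMul_smul, Matrix.vecMul_one]
  have key : ∀ l : Fin m → ℤ, (∀ i, i ≠ i₀ → l ⬝ᵥ U i = 0) →
      U.det * (l ⬝ᵥ z) = c i₀ * (l ⬝ᵥ U i₀) := by
    intro l hl
    have e1 : l ⬝ᵥ (U.det • z) = U.det * (l ⬝ᵥ z) := by
      rw [dotProduct_smul, smul_eq_mul]
    rw [← e1, ← hcU, dotProduct_comm, ← Matrix.dotProduct_mulVec]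
    unfold dotProduct Matrix.mulVec
    rw [Finset.sum_eq_single i₀]
    · rw [dotProduct_comm]
      rfl
    · intro i _ hi
      have : (fun j => U i j) ⬝ᵥ l = 0 := by
        rw [dotProduct_comm]
        exact hl i hi
      rw [this, mul_zero]
    · intro h
      exact absurd (Finset.mem_univ _) h
  have k1 := key l h2
  have k2 := key ρ h1
  rw [h3, mul_one] at k2
  have : U.det * (l ⬝ᵥ z) = U.det * ((ρ ⬝ᵥ z) * (l ⬝ᵥ U i₀)) := by
    rw [k1, ← k2]
    ring
  exact mul_left_cancel₀ hU this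

variable {k : Type u} [Field k] {K : Type v} [Field K] [Algebra k K]

/-- the centre -/
theorem center (A : Subalgebra k K) (v : DVal k K) (h : ∀ a : A, v.Integral (a : K)) :
    ∃ p : Ideal A, p.IsPrime ∧ v.HasCenter A p := by
  have hA : A ≤ Ten.ring v := fun a ha => h ⟨a, ha⟩
  refine ⟨(Ten.maxI v).comap (Subalgebra.inclusion hA).toRingHom, ?_, h, fun a => Iff.rfl⟩
  exact Ideal.IsPrime.comap _

end MAT

section HD
variable {k : Type u} [Field k] {K : Type v} [Field K] [Algebra k K]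
  {σ κ : Type} [Fintype σ] [Fintype κ] {m : ℕ} (X : HD k K σ κ m)

namespace HD

variable {N : ℕ}

theorem Mat_mon_single (i : Fin m) : X.mon (Pi.single i 1) = X.x i := by
  unfold mon
  rw [Finset.prod_eq_single i]
  · rw [Pi.single_eq_same, zpow_one]
  · intro j _ hj
    rw [Pi.single_eq_of_ne hj, zpow_zero]
  · intro h
    exact absurd (Finset.mem_univ _) h

theorem Mat_mon_smul (u : Fin m → ℤ) (c : ℤ) : X.mon (c • u) = X.mon u ^ c := by
  unfold mon
  rw [← Finset.prod_zpow]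
  refine Finset.prod_congr rfl fun i _ => ?_
  rw [Pi.smul_apply, smul_eq_mul, mul_comm, zpow_mul]

theorem Mat_mon_sum {ι : Type} (s : Finset ι) (f : ι → Fin m → ℤ) :
    X.mon (∑ i ∈ s, f i) = ∏ i ∈ s, X.mon (f i) := by
  induction s using Finset.induction_on with
  | empty => simp [X.mon_zero]
  | insert a s ha ih => rw [Finset.sum_insert ha, Finset.prod_insert ha, X.mon_add, ih]

/-- a derivation killing independent monomials kills all monomials -/
theorem Mat_der [CharZero k] (E : Derivation k K K) (U : Matrix (Fin m) (Fin m) ℤ)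
    (hU : U.det ≠ 0) (h : ∀ i, E (X.mon (U i)) = 0) (u : Fin m → ℤ) : E (X.mon u) = 0 := by
  have : CharZero K := charZero_of_injective_algebraMap (algebraMap k K).injective
  set c : Fin m → ℤ := Matrix.vecMul u U.adjugate with hc
  have hcU : Matrix.vecMul c U = U.det • u := by
    rw [hc, Matrix.vecMul_vecMul, Matrix.adjugate_mul, Matrix.vecMul_smul, Matrix.vecMul_one]
  have hsum : Matrix.vecMul c U = ∑ i, c i • U i := by
    ext j
    simp [Matrix.vecMul, dotProduct, Finset.sum_apply]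
  have h1 : X.mon u ^ U.det = ∏ i, X.mon (U i) ^ c i := by
    rw [← X.Mat_mon_smul, ← hcU, hsum, X.Mat_mon_sum]
    exact Finset.prod_congr rfl fun i _ => X.Mat_mon_smul _ _
  have h2 : E (∏ i, X.mon (U i) ^ c i) = 0 := by
    rw [Qj.der_prod E (fun i => X.mon (U i)) (fun i => X.mon_ne _) c Finset.univ]
    rw [Finset.sum_eq_zero (fun i _ => by rw [h i, mul_zero]), mul_zero]
  rw [← h1, Derivation.leibniz_zpow] at h2
  have h3 : (U.det : K) ≠ 0 := Int.cast_ne_zero.mpr hU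
  rw [zsmul_eq_mul, smul_eq_mul] at h2
  rcases mul_eq_zero.mp h2 with h4 | h4
  · exact absurd h4 h3
  · rcases mul_eq_zero.mp h4 with h5 | h5
    · exact absurd h5 (zpow_ne_zero _ (X.mon_ne u))
    · exact h5

/-- the Jacobian determinant of the elements of `A` -/
theorem Mat_jac [CharZero k] (R : X.Dr N) (T : Set κ) (U : Matrix (Fin m) (Fin m) ℤ)
    (hU : U.det ≠ 0) (t : σ → Fin m → ℤ) :
    ∃ c : k, c ≠ 0 ∧
      jac R.D (fun j => Sum.elim (fun s => X.co T s * X.mon (t s)) (fun i => X.mon (U i))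
        (R.e j)) =
        algebraMap k K c * (∏ i, (X.mon (U i) * (X.x i)⁻¹)) * ∏ s, X.mon (t s) := by
  obtain ⟨c, hc, hjac⟩ := X.co_jac_mon R T U
  set b : Fin (N + 1) → K := fun j => Sum.elim (X.co T) (fun i => X.mon (U i)) (R.e j) with hb
  set a : Fin (N + 1) → K := fun j => Sum.elim (fun s => X.co T s * X.mon (t s))
    (fun i => X.mon (U i)) (R.e j) with ha
  have hc' : (algebraMap k K c) ≠ 0 := by
    rw [Ne, map_eq_zero]
    exact hc
  have hdet : ((U.det : ℤ) : K) = algebraMap k K ((U.det : ℤ) : k) := (map_intCast _ _).symm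
  have hUk : ((U.det : ℤ) : k) ≠ 0 := Int.cast_ne_zero.mpr hU
  have hjb : jac R.D b ≠ 0 := by
    rw [hjac]
    refine mul_ne_zero (mul_ne_zero hc' ?_) ?_
    · rw [hdet, Ne, map_eq_zero]
      exact hUk
    · exact Finset.prod_ne_zero_iff.mpr fun i _ =>
        mul_ne_zero (X.mon_ne _) (inv_ne_zero (X.x_ne i))
  obtain ⟨E, hE, -, hja⟩ := Ten.dual R.D b hjb
  have hkill : ∀ (s : σ) (u : Fin m → ℤ), E (R.e.symm (Sum.inl s)) (X.mon u) = 0 := by
    intro s u
    refine X.Mat_der _ U hU (fun i => ?_) u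
    have h1 := hE (R.e.symm (Sum.inl s)) (R.e.symm (Sum.inr i))
    have h2 : b (R.e.symm (Sum.inr i)) = X.mon (U i) := by
      simp [hb]
    rw [h2, if_neg] at h1
    · exact h1
    · intro h
      have := R.e.symm.injective h
      simp at this
  have hEa : jac E a = ∏ s, X.mon (t s) := by
    unfold jac
    rw [← Matrix.det_submatrix_equiv_self R.e.symm]
    have hblock : (Matrix.of fun i j => E i (a j)).submatrix R.e.symm R.e.symm =
        Matrix.fromBlocks (Matrix.diagonal fun s => X.mon (t s)) 0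
          (Matrix.of fun (i : Fin m) (s : σ) => E (R.e.symm (Sum.inr i)) (a (R.e.symm (Sum.inl s))))
          1 := by
      ext i j
      rw [Matrix.submatrix_apply, Matrix.of_apply]
      rcases i with s | i <;> rcases j with s' | j
      · rw [Matrix.fromBlocks_apply₁₁, Matrix.diagonal_apply]
        have h1 : a (R.e.symm (Sum.inl s')) = b (R.e.symm (Sum.inl s')) * X.mon (t s') := by
          simp [ha, hb]
        rw [h1, Derivation.leibniz, hkill, smul_zero, zero_add, hE, smul_eq_mul]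
        by_cases hs : s = s'
        · subst hs
          simp
        · rw [if_neg hs, if_neg, mul_zero]
          intro h
          exact hs (Sum.inl_injective (R.e.symm.injective h))
      · rw [Matrix.fromBlocks_apply₁₂, Matrix.zero_apply]
        have h1 : a (R.e.symm (Sum.inr j)) = b (R.e.symm (Sum.inr j)) := by
          simp [ha, hb]
        rw [h1, hE, if_neg]
        intro h
        have := R.e.symm.injective h
        simp at this
      · rw [Matrix.fromBlocks_apply₂₁, Matrix.of_apply]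
      · rw [Matrix.fromBlocks_apply₂₂]
        have h1 : a (R.e.symm (Sum.inr j)) = b (R.e.symm (Sum.inr j)) := by
          simp [ha, hb]
        rw [h1, hE, Matrix.one_apply]
        by_cases hs : i = j
        · subst hs
          simp
        · rw [if_neg hs, if_neg]
          intro h
          exact hs (Sum.inr_injective (R.e.symm.injective h))
    rw [hblock, Matrix.det_fromBlocks_zero₁₂, Matrix.det_diagonal, Matrix.det_one, mul_one]
  refine ⟨c * ((U.det : ℤ) : k), mul_ne_zero hc hUk, ?_⟩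
  rw [hja a, hEa, hjac, map_mul, ← hdet]

/-- the monomial valuation and `A` -/
theorem Mat_val (v : DVal k K) (w : Fin m → ℤ)
    (h0 : ∀ g ∈ X.K₀, g ≠ 0 → v.ord g = 0) (h1 : ∀ u, v.ord (X.mon u) = w ⬝ᵥ u)
    {u : Fin m → ℤ} {a : K} (ha : a ∈ X.comp u) (hne : a ≠ 0) :
    ∃ g ∈ X.K₀, g ≠ 0 ∧ a = g * X.mon u ∧ v.ord a = w ⬝ᵥ u := by
  obtain ⟨g, hg, rfl⟩ := X.comp_form ha
  have hgK : g ∈ X.K₀ := IntermediateField.algebra_adjoin_le_adjoin k _ hg
  have hg0 : g ≠ 0 := left_ne_zero_of_mul hne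
  refine ⟨g, hgK, hg0, rfl, ?_⟩
  rw [v.ord_mul _ _ hg0 (X.mon_ne u), h0 g hgK hg0, h1, zero_add]

/-- every coordinate times a suitable monomial is in `A` -/
theorem Mat_t (ρ : Fin m → ℤ) (hρ : X.IsExt ρ) (u₀ : Fin m → ℤ) (hu₀ : u₀ ∈ X.Γ)
    (U : Matrix (Fin m) (Fin m) ℤ) (i₀ : Fin m) (hU : U.det ≠ 0) (hU₀ : U i₀ = u₀)
    (hu₀1 : ρ ⬝ᵥ u₀ = 1) (hUz : ∀ i, i ≠ i₀ → U i ∈ X.zs ρ) (s : σ) :
    ∃ t : Fin m → ℤ, X.co (X.kinds (X.zs ρ)) s * X.mon t ∈ X.A ∧
      ρ ⬝ᵥ t = if s ∈ X.sub (X.kinds (X.zs ρ)) then 0 else 1 := by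
  by_cases hs : s ∈ X.sub (X.kinds (X.zs ρ))
  · obtain ⟨c, hcT, hcS⟩ := X.co_mem _ s hs
    obtain ⟨u, hu, hpos⟩ := hcT
    refine ⟨u, X.mem_A hu.1 (X.S_mem hu.1 (by omega) hcS), ?_⟩
    rw [if_pos hs]
    exact hu.2
  · obtain ⟨c, hsep, hcS⟩ := X.M_mem s
    have hcT : c ∉ X.kinds (X.zs ρ) := fun hc => hs ⟨c, hc, hsep⟩
    have hz : ∀ u ∈ X.zs ρ, X.Λ c ⬝ᵥ u = 0 := fun u hu =>
      le_antisymm (not_lt.mp fun h => hcT ⟨u, hu, h⟩) (X.Λ_nonneg c u hu.1)
    have hprop := MAT.prop U i₀ hU ρ (X.Λ c) (fun i hi => (hUz i hi).2)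
      (fun i hi => hz _ (hUz i hi)) (by rw [hU₀, hu₀1])
    obtain ⟨u', hu', hpos⟩ := X.Λ_pos c
    rw [hprop u', hU₀] at hpos
    have h1 : 0 ≤ ρ ⬝ᵥ u' := hρ.nonneg u' hu'
    have h2 : 0 < X.Λ c ⬝ᵥ u₀ := pos_of_mul_pos_right hpos h1
    refine ⟨u₀, ?_, ?_⟩
    · rw [X.co_out _ s hs]
      exact X.mem_A hu₀ (X.S_mem hu₀ (by omega) hcS)
    · rw [if_neg hs, hu₀1]

theorem mat [IsAlgClosed k] [CharZero k] (R : X.Dr N) (hA : IsGood X.A) (δ : Ideal X.A →₀ ℝ)
    (hδ0 : ∀ q, 0 ≤ δ q) (p : Ideal X.A) (hp : p.IsPrime) (γ' : (K × (Fin m → ℤ)) →₀ ℝ)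
    (hγ : ∀ h ∈ γ'.support, h.1 ≠ 0 ∧ h.1 ∈ X.K₀) (h : IsLocalEq X.A R.D δ p (X.toEq γ'))
    (ρ : Fin m → ℤ) (hρ : X.IsExt ρ) (h0 : ∀ u ∈ X.tau p, ρ ⬝ᵥ u = 0) :
    mu γ' ρ ≤ X.cc ρ := by
  obtain ⟨u₀, hu₀, hu₀1⟩ := hρ.prim
  obtain ⟨v, hvF, hvK, hvm, hvs⟩ := X.mono0 R ρ ⟨u₀, hu₀1⟩
  -- `v ≥ 0` on `A`
  have hint : ∀ a : X.A, v.Integral (a : K) := by
    intro a
    obtain ⟨s, f, hf, hs⟩ := X.gr1 a
    rw [hs]
    show LB v 0 _
    refine Jac.LB.sum s f fun u hu hne => ?_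
    obtain ⟨g, -, -, -, hg⟩ := X.Mat_val v ρ hvK hvm (hf u hu).2 hne
    rw [hg]
    exact hρ.nonneg u (hf u hu).1
  obtain ⟨p', hp', hvc⟩ := MAT.center X.A v hint
  have hpp : p' ≤ p := by
    intro a ha
    have hsm := (hvc.2 a).mp ha
    obtain ⟨s, f, hf, hs⟩ := X.gr1 a
    set s1 := s.filter (fun u => 0 < ρ ⬝ᵥ u) with hs1
    set s0 := s.filter (fun u => ¬ 0 < ρ ⬝ᵥ u) with hs0
    have hsplit : (a : K) = ∑ u ∈ s1, f u + ∑ u ∈ s0, f u := by
      rw [hs]
      exact (Finset.sum_filter_add_sum_filter_not s (fun u => 0 < ρ ⬝ᵥ u) f).symm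
    have hpos : LB v 1 (∑ u ∈ s1, f u) := by
      refine Jac.LB.sum s1 f fun u hu hne => ?_
      rw [hs1, Finset.mem_filter] at hu
      obtain ⟨g, -, -, -, hg⟩ := X.Mat_val v ρ hvK hvm (hf u hu.1).2 hne
      rw [hg]
      exact hu.2
    have hzero : ∑ u ∈ s0, f u = 0 := by
      by_contra hne
      have hsm0 : v.Small (∑ u ∈ s0, f u) := by
        have e : ∑ u ∈ s0, f u = a - ∑ u ∈ s1, f u := by rw [hsplit]; ring
        rw [e]
        exact Ten.LB_sub v hsm hpos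
      set s00 := s0.filter (fun u => f u ≠ 0) with hs00
      have e : ∑ u ∈ s00, f u = ∑ u ∈ s0, f u := Finset.sum_filter_ne_zero s0
      have hex : ∀ u, ∃ g : K, u ∈ s00 → g ∈ X.K₀ ∧ g ≠ 0 ∧ f u = g * X.mon u := by
        intro u
        by_cases hu : u ∈ s00
        · have hu1 : u ∈ s := (Finset.mem_filter.mp (Finset.mem_filter.mp hu).1).1
          obtain ⟨g, hg1, hg2, hg3, -⟩ := X.Mat_val v ρ hvK hvm (hf u hu1).2
            (Finset.mem_filter.mp hu).2
          exact ⟨g, fun _ => ⟨hg1, hg2, hg3⟩⟩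
        · exact ⟨0, fun h => absurd h hu⟩
      choose g hg using hex
      have e2 : ∑ u ∈ s00, g u * X.mon u = ∑ u ∈ s0, f u := by
        rw [← e]
        exact Finset.sum_congr rfl fun u hu => (hg u hu).2.2.symm
      have hne0 : s00.Nonempty := by
        rw [Finset.nonempty_iff_ne_empty]
        intro h0'
        rw [h0', Finset.sum_empty] at e
        exact hne e.symm
      obtain ⟨-, u, hu, hord⟩ := hvs s00 g (fun u hu => ⟨(hg u hu).1, (hg u hu).2.1⟩) hne0
      have hu2 := (Finset.mem_filter.mp hu).1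
      have hu1 : u ∈ s := (Finset.mem_filter.mp hu2).1
      have h1 : ¬ 0 < ρ ⬝ᵥ u := (Finset.mem_filter.mp hu2).2
      have h2 := hsm0 hne
      rw [← e2, hord] at h2
      exact h1 h2
    have hsum : (a : K) = ∑ u ∈ s1, f u := by rw [hsplit, hzero, add_zero]
    let f' : (Fin m → ℤ) → X.A := fun u => if h : f u ∈ X.A then ⟨f u, h⟩ else 0
    have ha' : a = ∑ u ∈ s1, f' u := by
      apply Subtype.ext
      rw [hsum, AddSubmonoidClass.coe_finsetSum]
      refine Finset.sum_congr rfl fun u hu => ?_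
      have hu1 : u ∈ s := (Finset.mem_filter.mp hu).1
      have hm : f u ∈ X.A := X.mem_A (hf u hu1).1 (hf u hu1).2
      simp only [f', dif_pos hm]
    rw [ha']
    refine Ideal.sum_mem _ fun u hu => ?_
    have hu1 := Finset.mem_filter.mp hu
    have hm : f u ∈ X.A := X.mem_A (hf u hu1.1).1 (hf u hu1.1).2
    by_contra hcon
    have h1 := h0 u ⟨(hf u hu1.1).1, f' u, by
      simp only [f', dif_pos hm]
      exact (hf u hu1.1).2, hcon⟩
    omega
  -- the elements
  obtain ⟨U, i₀, hU, hU₀, hUz⟩ := MAT.rows (X.zs ρ) ρ (fun u hu => hu.2) hρ.facet u₀ hu₀1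
  have ht := fun s => X.Mat_t ρ hρ u₀ hu₀ U i₀ hU hU₀ hu₀1 hUz s
  choose t htA htρ using ht
  obtain ⟨c, hc, hjac⟩ := X.Mat_jac R (X.kinds (X.zs ρ)) U hU t
  set a : Fin (N + 1) → K := fun j => Sum.elim (fun s => X.co (X.kinds (X.zs ρ)) s * X.mon (t s))
    (fun i => X.mon (U i)) (R.e j) with ha
  have haA : ∀ j, a j ∈ X.A := by
    intro j
    simp only [ha]
    rcases R.e j with s | i
    · exact htA s
    · show X.mon (U i) ∈ X.A
      by_cases hi : i = i₀
      · rw [hi, hU₀]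
        exact X.mem_A hu₀ (X.mon_mem hu₀)
      · exact X.mem_A (hUz i hi).1 (X.mon_mem (hUz i hi).1)
  have hc' : algebraMap k K c ≠ 0 := by
    rw [Ne, map_eq_zero]
    exact hc
  have hP1 : ∀ i ∈ (Finset.univ : Finset (Fin m)), X.mon (U i) * (X.x i)⁻¹ ≠ 0 := fun i _ =>
    mul_ne_zero (X.mon_ne _) (inv_ne_zero (X.x_ne i))
  have hP1' : (∏ i, (X.mon (U i) * (X.x i)⁻¹)) ≠ 0 := Finset.prod_ne_zero_iff.mpr hP1
  have hP2' : (∏ s, X.mon (t s)) ≠ 0 := Finset.prod_ne_zero_iff.mpr fun s _ => X.mon_ne _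
  have hjne : jac R.D a ≠ 0 := by
    rw [hjac]
    exact mul_ne_zero (mul_ne_zero hc' hP1') hP2'
  have hx : ∀ i, v.ord (X.x i) = ρ i := by
    intro i
    rw [← X.Mat_mon_single i, hvm]
    simp
  have hord : (v.ord (jac R.D a) : ℤ) = X.cc ρ - ∑ i, ρ i := by
    rw [hjac, v.ord_mul _ _ (mul_ne_zero hc' hP1') hP2', v.ord_mul _ _ hc' hP1',
      v.ord_algebraMap c hc, zero_add, ord_prod v _ _ hP1, ord_prod v _ _ fun s _ => X.mon_ne _]
    have e1 : ∑ i, v.ord (X.mon (U i) * (X.x i)⁻¹) = 1 - ∑ i, ρ i := by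
      have : ∀ i, v.ord (X.mon (U i) * (X.x i)⁻¹) = ρ ⬝ᵥ U i - ρ i := by
        intro i
        rw [v.ord_mul _ _ (X.mon_ne _) (inv_ne_zero (X.x_ne i)), hvm, ord_inv v _ (X.x_ne i), hx]
        ring
      rw [Finset.sum_congr rfl fun i _ => this i, Finset.sum_sub_distrib]
      congr 1
      rw [Finset.sum_eq_single i₀]
      · rw [hU₀, hu₀1]
      · intro i _ hi
        exact (hUz i hi).2
      · intro h'
        exact absurd (Finset.mem_univ _) h'
    have e2 : ∑ s, v.ord (X.mon (t s)) =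
        ((Fintype.card σ - (X.sub (X.kinds (X.zs ρ))).ncard : ℕ) : ℤ) := by
      have h1 : ∀ s, v.ord (X.mon (t s)) = if s ∈ X.sub (X.kinds (X.zs ρ)) then 0 else 1 :=
        fun s => by rw [hvm, htρ]
      rw [Finset.sum_congr rfl fun s _ => h1 s]
      have h2 : ∀ s : σ, (if s ∈ X.sub (X.kinds (X.zs ρ)) then (0 : ℤ) else 1) =
          1 - if s ∈ X.sub (X.kinds (X.zs ρ)) then 1 else 0 := by
        intro s
        split_ifs <;> norm_num
      rw [Finset.sum_congr rfl fun s _ => h2 s, Finset.sum_sub_distrib, Finset.sum_boole]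
      have h3 : (X.sub (X.kinds (X.zs ρ))).ncard =
          (Finset.univ.filter fun s => s ∈ X.sub (X.kinds (X.zs ρ))).card := by
        rw [Set.ncard_eq_toFinset_card']
        congr 1
        ext s
        simp
      have h4 : (X.sub (X.kinds (X.zs ρ))).ncard ≤ Fintype.card σ := by
        rw [h3]
        exact Finset.card_le_univ _
      rw [Nat.cast_sub h4, h3]
      simp
    rw [e1, e2]
    unfold cc
    push_cast
    ring
  -- the divisor of the Jacobian determinant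
  let γ'' : Kˣ →₀ ℝ := Finsupp.single (Units.mk0 (jac R.D a) hjne) 1 + X.toEq γ'
  have hval : ∀ w : DVal k K, w.val γ'' = (w.ord (jac R.D a) : ℝ) + w.val (X.toEq γ') := by
    intro w
    unfold DVal.val
    rw [Finsupp.sum_add_index' (fun _ => by simp) (fun _ _ _ => by ring),
      Finsupp.sum_single_index (by simp), Units.val_mk0, one_mul]
  have hH := real_hartogs X.A hA p' hp' γ'' (fun q hq hqp w hw => by
    obtain ⟨j, hj⟩ := Ten.formOrd_heightOne X.A hA R.D ⟨a, hjne⟩ q hq w hw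
    have h1 := h q (hqp.trans hpp) hq w hw j hj
    have h2 := hj.1 a (fun i => hw.1 ⟨a i, haA i⟩) hjne
    have h3 : (-(j : ℝ)) ≤ (w.ord (jac R.D a) : ℝ) := by exact_mod_cast h2
    have h4 := hδ0 q
    rw [hval, ← h1]
    linarith) v hvc
  rw [hval] at hH
  have hE := X.toEq_val γ' (fun h' hh => (hγ h' hh).1) v 1 ρ
    (fun h' hh => hvK _ (hγ h' hh).2 (hγ h' hh).1) (fun u => by rw [hvm]; push_cast; ring)
  rw [Nat.cast_one, one_mul] at hE
  rw [hE] at hH
  have hord' : (v.ord (jac R.D a) : ℝ) = (X.cc ρ : ℝ) - ((∑ i, ρ i : ℤ) : ℝ) := by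
    rw [hord]
    push_cast
    ring
  rw [hord'] at hH
  unfold mu
  linarith

end HD

end HD

end

end Pool.Agent.MLD.H
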